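import Pool.Agent.EvM.EmDefs
import Pool.Agent.EvM.EbP

set_option autoImplicit false

/-! # BLF: the blow up of a product of ideals -/

namespace Pool.Agent.DG

open Pool.Agent.NT9 Pool.Agent.EvM

variable {K : Type} [Field K] {S : Type} [Fintype S] [DecidableEq S] {I : S → Type}
  [∀ s, Fintype (I s)] {q : ∀ s, I s → K}

/-- One generator of each factor. Proof: as `EvM.gq_fac` (file `EvM/EmChart`): `b` from `IsBlG`, `φ = Function.update b s i`. -/
theorem blf {O O' : Subring K} (h : IsBlG O (fun φ : ∀ s, I s => ∏ s, q s (φ s)) O') :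
    ∃ b : ∀ s, I s, (∀ s, q s (b s) ≠ 0 ∧ ∀ i, q s i / q s (b s) ∈ O') ∧
      ∀ F : Subring K, O ≤ F → (∀ s i, q s i / q s (b s) ∈ F) →
        (∀ x ∈ F, x⁻¹ ∈ O' → x⁻¹ ∈ F) → O' ≤ F := by
  classical
  obtain ⟨b, hb0, hO, hdom, hr, hfr⟩ := h
  have hne : ∀ s, q s (b s) ≠ 0 := fun s => Finset.prod_ne_zero_iff.1 hb0 s (Finset.mem_univ s)
  refine ⟨b, fun s => ⟨hne s, fun i => ?_⟩, fun F hF hrF hinv => ?_⟩
  · have h1 := hr (Function.update b s i)
    dsimp only at h1
    rw [← Finset.prod_div_distrib, Finset.prod_eq_single s] at h1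
    · rwa [Function.update_self] at h1
    · intro l _ hl
      rw [Function.update_of_ne hl, div_self (hne l)]
    · intro h2
      exact absurd (Finset.mem_univ s) h2
  · refine le_of_fr hfr ?_ hinv
    rw [Subring.closure_le]
    rintro x (hx | ⟨φ, rfl⟩)
    · exact hF hx
    · show (∏ s, q s (φ s)) / (∏ s, q s (b s)) ∈ F
      rw [← Finset.prod_div_distrib]
      exact F.prod_mem fun s _ => hrF s (φ s)

/-- Change of the generators: it is enough to divide by other generators. Proof: `q s i / q s (b s) = (q s i / g s) * (q s (b s) / g s)⁻¹`, and `(q s (b s) / g s)⁻¹ = q s i0 / q s (b s) ∈ O'` if `g s = q s i0`. -/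
theorem blf_den {O' F : Subring K} {b : ∀ s, I s}
    (hb : ∀ s, q s (b s) ≠ 0 ∧ ∀ i, q s i / q s (b s) ∈ O')
    (hinv : ∀ x ∈ F, x⁻¹ ∈ O' → x⁻¹ ∈ F) {s : S} {g : K} (hg0 : g ≠ 0) (hg : ∃ i, q s i = g)
    (hF : ∀ i, q s i / g ∈ F) : ∀ i, q s i / q s (b s) ∈ F := by
  obtain ⟨i0, hi0⟩ := hg
  have hb0 := (hb s).1
  have h1 : (q s (b s) / g)⁻¹ ∈ F := by
    refine hinv _ (hF (b s)) ?_
    rw [inv_div, ← hi0]
    exact (hb s).2 i0
  intro i
  have h2 : q s i / q s (b s) = q s i / g * (q s (b s) / g)⁻¹ := by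
    field_simp
  rw [h2]
  exact F.mul_mem (hF i) h1

/-- Products of many elements of the maximal ideal are in the product of the ideals if this holds for each ideal. Proof: split the product of `∑ N s` elements into products of `N s` elements (reindex `Fin (∑ N s)` by
`Σ s, Fin (N s)`); `∏ s, ∑ i, c s i * q s i = ∑ φ, ∏ s, c s (φ s) * q s (φ s)` (`Finset.prod_univ_sum`). -/
theorem qg_prod {O : Subring K} {N : S → ℕ}
    (h : ∀ s, ∀ z : Fin (N s) → K, (∀ l, z l ∈ mx O) → ∏ l, z l ∈ QG O (q s))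
    (z : Fin (∑ s, N s) → K) (hz : ∀ l, z l ∈ mx O) :
    ∏ l, z l ∈ QG O (fun φ : ∀ s, I s => ∏ s, q s (φ s)) := by
  classical
  have hcard : Fintype.card (Σ s, Fin (N s)) = Fintype.card (Fin (∑ s, N s)) := by
    rw [Fintype.card_sigma, Fintype.card_fin]
    exact Finset.sum_congr rfl fun s _ => Fintype.card_fin _
  let ε : (Σ s, Fin (N s)) ≃ Fin (∑ s, N s) := Fintype.equivOfCardEq hcard
  have h1 : ∏ l, z l = ∏ s, ∏ l : Fin (N s), z (ε ⟨s, l⟩) := by
    rw [← Fintype.prod_equiv ε (fun a => z (ε a)) z fun _ => rfl, Fintype.prod_sigma]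
  have h2 : ∀ s, ∃ c : I s → K, (∀ i, c i ∈ O) ∧
      ∏ l : Fin (N s), z (ε ⟨s, l⟩) = ∑ i, c i * q s i := fun s =>
    h s (fun l => z (ε ⟨s, l⟩)) fun l => hz _
  choose c hc hcs using h2
  refine ⟨fun φ => ∏ s, c s (φ s), fun φ => O.prod_mem fun s _ => hc s (φ s), ?_⟩
  rw [h1, Finset.prod_congr rfl fun s _ => hcs s, Finset.prod_univ_sum, Fintype.piFinset_univ]
  exact Finset.sum_congr rfl fun φ _ => Finset.prod_mul_distrib

/-- Products of `N` elements of an ideal with generators `g` are combinations of the products of `N` generators. Proof: `Finset.prod_univ_sum`; `EvM.qg_add`, `qg_mul`. -/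
theorem qg_mon {O : Subring K} {ι : Type} [Fintype ι] {g : ι → K} {ω : Type} [Fintype ω]
    {h : ω → K} {N : ℕ} (hm : ∀ φ : Fin N → ι, ∏ l, g (φ l) ∈ QG O h) (z : Fin N → K)
    (hz : ∀ l, z l ∈ QG O g) : ∏ l, z l ∈ QG O h := by
  classical
  choose c hc hcs using hz
  rw [Finset.prod_congr rfl fun l _ => hcs l, Finset.prod_univ_sum, Fintype.piFinset_univ]
  have h1 : ∀ S' : Finset (Fin N → ι), ∑ φ ∈ S', ∏ l, c l (φ l) * g (φ l) ∈ QG O h := by
    intro S'
    induction S' using Finset.induction_on with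
    | empty => rw [Finset.sum_empty]; exact qg_zero
    | insert φ T hφ ih =>
      rw [Finset.sum_insert hφ]
      refine qg_add ?_ ih
      rw [Finset.prod_mul_distrib]
      exact qg_mul (O.prod_mem fun l _ => hc l (φ l)) (hm φ)
  exact h1 _

end Pool.Agent.DG
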