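import Pool.Agent.DG.GlDefs
import Pool.Agent.NT9.GeCom
import Pool.Agent.NT9.GePA

set_option autoImplicit false

/-! # GLA: commensurability up to powers of `p` -/

namespace Pool.Agent.DG

open Pool.Agent.NT9

variable {K : Type} [Field K] {p : ℕ} {A B C D : Submodule ℤ K}

private theorem npow_mul_mem {B : Submodule ℤ K} {x : K} (p k : ℕ) (hx : x ∈ B) :
    (p : K) ^ k * x ∈ B := by
  have h : (p : K) ^ k * x = ((p ^ k : ℕ) : ℤ) • x := by
    rw [zsmul_eq_mul]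
    push_cast
    rfl
  rw [h]
  exact B.smul_mem _ hx

theorem ComP.refl (A : Submodule ℤ K) : ComP p A A := by
  refine ⟨fun x hx => ⟨0, ?_⟩, fun x hx => ⟨0, ?_⟩⟩ <;>
    rw [pow_zero, one_mul] <;> exact hx

theorem ComP.symm (h : ComP p A B) : ComP p B A := by
  exact ⟨h.2, h.1⟩

theorem ComP.trans (h : ComP p A B) (h' : ComP p B C) : ComP p A C := by
  have key : ∀ {A B C : Submodule ℤ K}, (∀ x ∈ A, ∃ k : ℕ, (p : K) ^ k * x ∈ B) →
      (∀ x ∈ B, ∃ k : ℕ, (p : K) ^ k * x ∈ C) → ∀ x ∈ A, ∃ k : ℕ, (p : K) ^ k * x ∈ C := by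
    intro A B C h1 h2 x hx
    obtain ⟨k, h3⟩ := h1 x hx
    obtain ⟨k', h4⟩ := h2 _ h3
    refine ⟨k' + k, ?_⟩
    rw [pow_add, mul_assoc]
    exact h4
  exact ⟨key h.1 h'.1, key h'.2 h.2⟩

/-- As `NT9.Com.mul`. -/
theorem ComP.mul (h : ComP p A B) (h' : ComP p C D) : ComP p (A * C) (B * D) := by
  have key : ∀ {A B C D : Submodule ℤ K}, (∀ x ∈ A, ∃ k : ℕ, (p : K) ^ k * x ∈ B) →
      (∀ x ∈ C, ∃ k : ℕ, (p : K) ^ k * x ∈ D) →
      ∀ x ∈ A * C, ∃ k : ℕ, (p : K) ^ k * x ∈ B * D := by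
    intro A B C D h1 h2 x hx
    induction hx using Submodule.mul_induction_on' with
    | mem_mul_mem a ha c hc =>
      obtain ⟨k, h3⟩ := h1 a ha
      obtain ⟨k', h4⟩ := h2 c hc
      refine ⟨k + k', ?_⟩
      have h5 : (p : K) ^ (k + k') * (a * c) = ((p : K) ^ k * a) * ((p : K) ^ k' * c) := by
        rw [pow_add]
        ring
      rw [h5]
      exact Submodule.mul_mem_mul h3 h4
    | add x _ y _ hx hy =>
      obtain ⟨k, h3⟩ := hx
      obtain ⟨k', h4⟩ := hy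
      refine ⟨k + k', ?_⟩
      have h5 : (p : K) ^ (k + k') * (x + y) = (p : K) ^ k' * ((p : K) ^ k * x) +
          (p : K) ^ k * ((p : K) ^ k' * y) := by
        rw [pow_add]
        ring
      rw [h5]
      exact Submodule.add_mem _ (npow_mul_mem p _ h3) (npow_mul_mem p _ h4)
  exact ⟨key h.1 h'.1, key h.2 h'.2⟩

theorem ComP.pow (h : ComP p A B) (k : ℕ) : ComP p (A ^ k) (B ^ k) := by
  induction k with
  | zero =>
    rw [pow_zero, pow_zero]
    exact ComP.refl _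
  | succ k ih =>
    rw [pow_succ, pow_succ]
    exact ComP.mul ih h

/-- Proof: the same exponent for finitely many generators. -/
theorem ComP.unif (h : ComP p A B) (hA : A.FG) : ∃ k : ℕ, ∀ x ∈ A, (p : K) ^ k * x ∈ B := by
  classical
  obtain ⟨S, hS⟩ := hA
  have hSA : ∀ x ∈ S, x ∈ A := fun x hx => hS ▸ Submodule.subset_span hx
  choose! e he using fun x (hx : x ∈ S) => h.1 x (hSA x hx)
  refine ⟨S.sup e, fun x hx => ?_⟩
  rw [← hS] at hx
  induction hx using Submodule.span_induction with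
  | mem x hx =>
    obtain ⟨j, hj⟩ := Nat.exists_eq_add_of_le (Finset.le_sup (f := e) (Finset.mem_coe.mp hx))
    rw [hj, Nat.add_comm, pow_add, mul_assoc]
    exact npow_mul_mem p _ (he x (Finset.mem_coe.mp hx))
  | zero =>
    rw [mul_zero]
    exact Submodule.zero_mem _
  | add x y _ _ hx hy =>
    rw [mul_add]
    exact Submodule.add_mem _ hx hy
  | smul n x _ hx =>
    rw [mul_smul_comm]
    exact B.smul_mem _ hx

/-- Multiplication by a nonzero element. -/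
theorem mul_span_mem {c : K} {x : K} (hx : x ∈ A) : c * x ∈ Submodule.span ℤ {c} * A := by
  exact Submodule.mul_mem_mul (Submodule.mem_span_singleton_self c) hx

theorem mem_span_mul {c : K} {x : K} (hx : x ∈ Submodule.span ℤ {c} * A) :
    ∃ y ∈ A, x = c * y := by
  obtain ⟨y, hy, h⟩ := Submodule.mem_span_singleton_mul.mp hx
  exact ⟨y, hy, h.symm⟩

/-- Proof: `μ ∈ Mo ≤ A`; `y / μ = N⁻¹ * (N * y / μ)`. -/
theorem loc_of_le {Mo A : Submodule ℤ K} (hle : Mo ≤ A) {N : K} (hN : ∀ x ∈ A, N * x ∈ Mo)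
    {O : Subring K} (hN0 : N ≠ 0) (hNO : N⁻¹ ∈ O) (hO : O ∈ Loc Mo) : O ∈ Loc A := by
  obtain ⟨hloc, μ, hμ, h0, hfr⟩ := hO
  have hch : ch Mo μ ≤ ch A μ := by
    refine Subring.closure_mono ?_
    rintro _ ⟨y, hy, rfl⟩
    exact ⟨y, hle hy, rfl⟩
  refine ⟨hloc, μ, hle hμ, h0, ?_, fun x hx => ?_⟩
  · unfold ch
    rw [Subring.closure_le]
    rintro _ ⟨y, hy, rfl⟩
    have h1 : y / μ = N⁻¹ * (N * y / μ) := by
      rw [mul_div_assoc, ← mul_assoc, inv_mul_cancel₀ hN0, one_mul]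
    rw [h1]
    exact O.mul_mem hNO (hfr.1 (Subring.subset_closure ⟨N * y, hN y hy, rfl⟩))
  · obtain ⟨u, hu, v, hv, h⟩ := hfr.2 x hx
    exact ⟨u, hch hu, v, hch hv, h⟩

/-- Proof: `ch (span {c} * A) (c * μ) = ch A μ`. -/
theorem loc_scale {c : K} (hc : c ≠ 0) {O : Subring K}
    (hO : O ∈ Loc (Submodule.span ℤ {c} * A)) : O ∈ Loc A := by
  obtain ⟨hloc, μ, hμ, h0, hfr⟩ := hO
  obtain ⟨ν, hν, rfl⟩ := mem_span_mul hμ
  have hν0 : ν ≠ 0 := right_ne_zero_of_mul h0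
  have hch : ch (Submodule.span ℤ {c} * A) (c * ν) = ch A ν := by
    unfold ch
    congr 1
    ext x
    constructor
    · rintro ⟨y, hy, rfl⟩
      obtain ⟨z, hz, rfl⟩ := mem_span_mul hy
      exact ⟨z, hz, mul_div_mul_left _ _ hc⟩
    · rintro ⟨y, hy, rfl⟩
      exact ⟨c * y, mul_span_mem hy, (mul_div_mul_left _ _ hc).symm⟩
  rw [hch] at hfr
  exact ⟨hloc, ν, hν, hν0, hfr⟩

end Pool.Agent.DG
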