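import Pool.Agent.DG.TgE

set_option autoImplicit false

/-! # TGF: all relations of a chart -/

namespace Pool.Agent.DG

open MvPolynomial

variable {J : Type} [Fintype J] [DecidableEq J] {K : Type} [Field K] {p : ℕ} {x : J → K}

/-- The exponent of `x` of a monomial in the coordinates of the cone. -/
noncomputable def mon (v : J → Ray J) (e : J →₀ ℕ) : Mon J := ∑ k, (e k : ℤ) • tS v k

/-- Proof: `pr_sum`, `pr_smul`, `pr_tS`. -/
theorem pr_mon {v : J → Ray J} (hv : nV v = 1) (e : J →₀ ℕ) (k : J) :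
    pr (mon v e) (v k) = e k := by
  unfold mon
  rw [pr_sum, Finset.sum_eq_single k]
  · rw [pr_smul, pr_tS, if_pos rfl, hv, Nat.cast_one, mul_one]
  · intro l _ hl
    rw [pr_smul, pr_tS, if_neg hl, mul_zero]
  · intro h
    exact absurd (Finset.mem_univ k) h

/-- The substitution `x_j ↦ ∏ T_k ^ (v k).2 j`. -/
noncomputable def BB (v : J → Ray J) : MvPolynomial J ℤ →ₐ[ℤ] MvPolynomial J ℤ :=
  aeval fun j => ∏ k, X k ^ (v k).2 j

omit [DecidableEq J] in
private theorem TGF_q {S : Type} [CommRing S] (q : MvPolynomial J ℤ →+* S)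
    (t : MvPolynomial J ℤ) :
    q t = ∑ e ∈ t.support, q (C (coeff e t)) * ∏ k, q (X k) ^ e k := by
  conv_lhs => rw [t.as_sum]
  rw [map_sum]
  refine Finset.sum_congr rfl fun e _ => ?_
  rw [monomial_eq, map_mul, Finsupp.prod_fintype _ _ (fun i => pow_zero _), map_prod]
  simp only [map_pow]

/-- The images of the relations under a ring homomorphism. -/
private theorem TGF_F {S : Type} [CommRing S] (q : MvPolynomial J ℤ →+* S) {v : J → Ray J}
    {c : J → ℕ} {d : ℕ} {u : J → ℤ} {a : J}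
    (hlab : ∀ k j, pr (Mb c d a) (v k) ≤ pr (Mb c d j) (v k))
    (h0 : q (C (p : ℤ)) = ∏ k, q (X k) ^ (v k).1)
    (h1 : ∑ j, q (C (u j)) * ∏ k, q (X k) ^ gE v c d a j k = 0) :
    q (BB v (FF p c d u)) = 0 := by
  have h2 : q (BB v (FF p c d u)) = ∑ j, q (C (u j)) * ∏ k, q (X k) ^ (pr (Mb c d j) (v k)).toNat := by
    unfold BB FF
    rw [map_sum, map_sum]
    refine Finset.sum_congr rfl fun j _ => ?_
    rw [map_mul, map_pow, aeval_X, algHom_C, algebraMap_eq, C_mul, C_pow, map_mul, map_mul, map_pow,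
      map_pow, map_prod, h0, mul_comm _ (q (C (u j))), mul_assoc, ← Finset.prod_pow,
      ← Finset.prod_pow, ← Finset.prod_mul_distrib]
    congr 1
    refine Finset.prod_congr rfl fun k _ => ?_
    rw [map_pow, ← pow_mul, ← pow_mul, ← pow_add]
    congr 1
    have h3 := pr_Mb c d j (v k)
    zify
    rw [Int.toNat_of_nonneg (by rw [h3]; positivity), h3]
    ring
  have h3 : ∀ j k, (pr (Mb c d j) (v k)).toNat =
      (pr (Mb c d a) (v k)).toNat + gE v c d a j k := by
    intro j k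
    have h4 := pr_Mb c d j (v k)
    have h5 := pr_Mb c d a (v k)
    have h6 : 0 ≤ pr (Mb c d j) (v k) := by rw [h4]; positivity
    have h7 : 0 ≤ pr (Mb c d a) (v k) := by rw [h5]; positivity
    have h8 := hlab k j
    unfold gE
    omega
  rw [h2]
  calc ∑ j, q (C (u j)) * ∏ k, q (X k) ^ (pr (Mb c d j) (v k)).toNat
      = ∑ j, (∏ k, q (X k) ^ (pr (Mb c d a) (v k)).toNat) *
          (q (C (u j)) * ∏ k, q (X k) ^ gE v c d a j k) := by
        refine Finset.sum_congr rfl fun j _ => ?_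
        rw [mul_left_comm, ← Finset.prod_mul_distrib]
        congr 1
        refine Finset.prod_congr rfl fun k _ => ?_
        rw [← pow_add, ← h3]
    _ = 0 := by rw [← Finset.mul_sum, h1, mul_zero]

private theorem TGF_mk {v : J → Ray J} {c : J → ℕ} {d : ℕ} {u : J → ℤ} {a : J} :
    (Ideal.Quotient.mk (Ideal.span (Set.range (rT p v c d u a))) (C (p : ℤ)) =
      ∏ k, Ideal.Quotient.mk (Ideal.span (Set.range (rT p v c d u a))) (X k) ^ (v k).1) ∧
    ∑ j, Ideal.Quotient.mk (Ideal.span (Set.range (rT p v c d u a))) (C (u j)) *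
      ∏ k, Ideal.Quotient.mk (Ideal.span (Set.range (rT p v c d u a))) (X k) ^
        gE v c d a j k = 0 := by
  constructor
  · have h1 : Ideal.Quotient.mk (Ideal.span (Set.range (rT p v c d u a)))
        (C (p : ℤ) - ∏ k, X k ^ (v k).1) = 0 :=
      Ideal.Quotient.eq_zero_iff_mem.2 (Ideal.subset_span ⟨0, rfl⟩)
    rw [map_sub, sub_eq_zero, map_prod] at h1
    simpa only [map_pow] using h1
  · have h1 : Ideal.Quotient.mk (Ideal.span (Set.range (rT p v c d u a)))
        (∑ j, C (u j) * ∏ k, X k ^ gE v c d a j k) = 0 :=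
      Ideal.Quotient.eq_zero_iff_mem.2 (Ideal.subset_span ⟨1, rfl⟩)
    rw [map_sum] at h1
    simpa only [map_mul, map_prod, map_pow] using h1

/-- Proof. `I` = the ideal of the relations. Modulo `I`: `C p ≡ ∏ X k ^ (v k).1`, so the image of `p ^ (c j) x_j ^ d` is `≡ ∏ X k ^ pr (Mb c d j) (v k)` (`pr_Mb`), which is
`∏ X k ^ pr (Mb c d a) (v k)` times `∏ X k ^ gE v c d a j k`. -/
theorem BB_F {v : J → Ray J} {c : J → ℕ} {d : ℕ} {u : J → ℤ} {a : J}
    (hlab : ∀ k j, pr (Mb c d a) (v k) ≤ pr (Mb c d j) (v k)) :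
    BB v (FF p c d u) ∈ Ideal.span (Set.range (rT p v c d u a)) := by
  rw [← Ideal.Quotient.eq_zero_iff_mem]
  exact TGF_F _ hlab TGF_mk.1 TGF_mk.2

omit [Fintype J] [DecidableEq J] in
private theorem TGF_big {ι : Type} (s : Finset ι) (f : ι → ℤ) : ∃ N : ℕ, ∀ i ∈ s, 0 ≤ f i + N := by
  refine ⟨∑ i ∈ s, (f i).natAbs, fun i hi => ?_⟩
  have h1 : (f i).natAbs ≤ ∑ i ∈ s, (f i).natAbs :=
    Finset.single_le_sum (f := fun i => (f i).natAbs) (fun _ _ => Nat.zero_le _) hi
  omega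

/-- Torsion. Proof. Choose `N : ℕ` such that `(mon v e).1 + N ≥ 0` and `(mon v e).2 j + N ≥ 0` for all `e ∈ t.support`. Let
`Φ = ∑_(e ∈ t.support) C (coeff e t * p ^ ((mon v e).1 + N)) * ∏ X j ^ ((mon v e).2 j + N)` (exponents `Int.toNat`). `aeval x Φ = (p ∏ x_j) ^ N * ∑ coeff e t * chi (mon v e)` and
`chi (mon v e) = ∏ k, chi (tS v k) ^ e k` (`chi_sum`, `chi_smul`), so `aeval x Φ = (p ∏ x_j) ^ N * aeval (chi (tS v ·)) t = 0`. So `FF ∣ Φ` and `BB v Φ ∈ I` by `BB_F`, `I` the ideal of the relations. On the other hand, modulo `I`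
(`C p ≡ ∏ X k ^ (v k).1`), `BB v Φ ≡ ∑ coeff e t * ∏ X k ^ ((v k).1 * ((mon v e).1 + N) + ∑_j (v k).2 j * ((mon v e).2 j + N))`, and this exponent is `pr (mon v e) (v k) + N w_k = e k + N w_k`, with
`w_k = (v k).1 + ∑_j (v k).2 j`. So `∏ X k ^ (N w_k) * t ∈ I`; multiply by further powers of the `X k`. -/
theorem tr_tor (hp : (p : K) ≠ 0) (hx : ∀ j, x j ≠ 0) {v : J → Ray J} (hv : nV v = 1)
    {c : J → ℕ} {d : ℕ} {u : J → ℤ} {a : J}
    (hlab : ∀ k j, pr (Mb c d a) (v k) ≤ pr (Mb c d j) (v k))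
    (hker : ∀ h : MvPolynomial J ℤ, aeval x h = 0 → FF p c d u ∣ h) {t : MvPolynomial J ℤ}
    (ht : aeval (fun k => chi p x (tS v k)) t = 0) :
    ∃ N : ℕ, (∏ k, X k) ^ N * t ∈ Ideal.span (Set.range (rT p v c d u a)) := by
  obtain ⟨N1, hN1⟩ := TGF_big t.support (fun e => (mon v e).1)
  obtain ⟨N2, hN2⟩ := TGF_big (t.support ×ˢ (Finset.univ : Finset J))
    (fun x => (mon v x.1).2 x.2)
  obtain ⟨N, hNa, hNb⟩ : ∃ N : ℕ, (∀ e ∈ t.support, 0 ≤ (mon v e).1 + N) ∧
      ∀ e ∈ t.support, ∀ j, 0 ≤ (mon v e).2 j + N := by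
    refine ⟨N1 + N2, fun e he => ?_, fun e he j => ?_⟩
    · have h1 := hN1 e he
      push_cast
      omega
    · have h1 := hN2 (e, j) (Finset.mem_product.2 ⟨he, Finset.mem_univ j⟩)
      simp only at h1
      push_cast
      omega
  let Φ : MvPolynomial J ℤ := ∑ e ∈ t.support, C (coeff e t * (p : ℤ) ^ ((mon v e).1 + N).toNat) *
    ∏ j, X j ^ ((mon v e).2 j + N).toNat
  have hΦ : aeval x Φ = 0 := by
    have h1 : aeval x Φ = ((p : K) ^ N * ∏ j, x j ^ N) *
        aeval (fun k => chi p x (tS v k)) t := by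
      have h2 : aeval (fun k => chi p x (tS v k)) t =
          ∑ e ∈ t.support, ((coeff e t : ℤ) : K) * ∏ k, chi p x (tS v k) ^ e k := by
        have h3 := TGF_q (aeval (fun k => chi p x (tS v k)) : MvPolynomial J ℤ →ₐ[ℤ] K).toRingHom t
        refine h3.trans (Finset.sum_congr rfl fun e _ => ?_)
        simp
      rw [h2, Finset.mul_sum, map_sum]
      refine Finset.sum_congr rfl fun e he => ?_
      have h3 : ∏ k, chi p x (tS v k) ^ e k = chi p x (mon v e) := by
        unfold mon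
        rw [chi_sum hp hx]
        refine Finset.prod_congr rfl fun k _ => ?_
        rw [chi_smul, zpow_natCast]
      rw [h3, map_mul, map_prod]
      simp only [map_pow, aeval_X, aeval_C, algebraMap_int_eq, Int.coe_castRingHom, Int.cast_mul,
        Int.cast_pow, Int.cast_natCast]
      have h4 : (p : K) ^ ((mon v e).1 + N).toNat = (p : K) ^ (mon v e).1 * (p : K) ^ N := by
        rw [← zpow_natCast, Int.toNat_of_nonneg (hNa e he), zpow_add₀ hp, zpow_natCast]
      have h5 : ∏ j, x j ^ ((mon v e).2 j + N).toNat =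
          (∏ j, x j ^ (mon v e).2 j) * ∏ j, x j ^ N := by
        rw [← Finset.prod_mul_distrib]
        refine Finset.prod_congr rfl fun j _ => ?_
        rw [← zpow_natCast, Int.toNat_of_nonneg (hNb e he j), zpow_add₀ (hx j), zpow_natCast]
      rw [h4, h5, chi]
      ring
    rw [h1, ht, mul_zero]
  obtain ⟨g, hg⟩ := hker Φ hΦ
  let q := Ideal.Quotient.mk (Ideal.span (Set.range (rT p v c d u a)))
  have hq0 : q (BB v Φ) = 0 := by
    rw [hg, map_mul, map_mul, TGF_F q hlab TGF_mk.1 TGF_mk.2, zero_mul]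
  let w : J → ℕ := fun k => (v k).1 + ∑ j, (v k).2 j
  have hq1 : q (BB v Φ) = (∏ k, q (X k) ^ (N * w k)) * q t := by
    rw [TGF_q q t, Finset.mul_sum]
    simp only [Φ]
    rw [map_sum, map_sum]
    refine Finset.sum_congr rfl fun e he => ?_
    rw [map_mul, algHom_C, algebraMap_eq, C_mul, C_pow, map_mul, map_mul, map_pow, map_prod,
      map_prod]
    have h0 : q (C (p : ℤ)) = ∏ k, q (X k) ^ (v k).1 := TGF_mk.1
    have h1 : ∀ j, q (BB v (X j ^ ((mon v e).2 j + N).toNat)) =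
        ∏ k, q (X k) ^ ((v k).2 j * ((mon v e).2 j + N).toNat) := by
      intro j
      unfold BB
      rw [map_pow, aeval_X, map_pow, map_prod, ← Finset.prod_pow]
      refine Finset.prod_congr rfl fun k _ => ?_
      rw [map_pow, ← pow_mul]
    rw [Finset.prod_congr rfl fun j _ => h1 j, Finset.prod_comm, h0, ← Finset.prod_pow, mul_assoc,
      ← Finset.prod_mul_distrib, mul_left_comm, ← Finset.prod_mul_distrib]
    congr 1
    refine Finset.prod_congr rfl fun k _ => ?_
    rw [← pow_mul, Finset.prod_pow_eq_pow_sum, ← pow_add, ← pow_add]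
    congr 1
    have h2 := pr_mon hv e k
    unfold pr at h2
    zify
    rw [Int.toNat_of_nonneg (hNa e he),
      Finset.sum_congr rfl fun j _ => by rw [Int.toNat_of_nonneg (hNb e he j)], ← h2]
    simp only [w]
    push_cast
    simp only [mul_add, Finset.sum_add_distrib, Finset.mul_sum]
    have h3 : ∑ j, ((v k).2 j : ℤ) * (mon v e).2 j = ∑ j, (mon v e).2 j * ((v k).2 j : ℤ) :=
      Finset.sum_congr rfl fun j _ => mul_comm _ _
    have h4 : ∑ j, ((v k).2 j : ℤ) * (N : ℤ) = ∑ j, (N : ℤ) * ((v k).2 j : ℤ) :=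
      Finset.sum_congr rfl fun j _ => mul_comm _ _
    rw [h3, h4]
    ring
  rw [hq1] at hq0
  refine ⟨N * ∑ k, w k, ?_⟩
  rw [← Ideal.Quotient.eq_zero_iff_mem]
  change q _ = 0
  rw [map_mul, map_pow, map_prod, ← Finset.prod_pow]
  have h1 : ∀ k, q (X k) ^ (N * ∑ k, w k) =
      q (X k) ^ (N * (∑ k, w k - w k)) * q (X k) ^ (N * w k) := by
    intro k
    have h2 : w k ≤ ∑ k, w k := Finset.single_le_sum (fun _ _ => Nat.zero_le _)
      (Finset.mem_univ k)
    rw [← pow_add, ← mul_add, Nat.sub_add_cancel h2]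
  rw [Finset.prod_congr rfl fun k _ => h1 k, Finset.prod_mul_distrib, mul_assoc, hq0, mul_zero]

end Pool.Agent.DG
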