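import Pool.Agent.DG.TgE
import Pool.Agent.NodHyp.Ind2
import Pool.Agent.QuadAll.PNotSq

set_option autoImplicit false

/-! # TGG: the relations of a chart are independent -/

namespace Pool.Agent.DG

open MvPolynomial

variable {J : Type} [Fintype J] [DecidableEq J] {p : ℕ}

omit [DecidableEq J] in
private theorem TGG_mon (g : J → ℕ) (k : J) :
    (X k * pderiv k (∏ l, X l ^ g l) : MvPolynomial J ℤ) = (g k : MvPolynomial J ℤ) * ∏ l, X l ^ g l := by
  classical
  have h1 : (∏ l, X l ^ g l : MvPolynomial J ℤ) =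
      monomial (Finsupp.equivFunOnFinite.symm g) 1 := by
    rw [monomial_eq, C_1, one_mul, Finsupp.prod_fintype _ _ (fun i => pow_zero _)]
    rfl
  rw [h1, X_mul_pderiv_monomial, nsmul_eq_mul]
  rfl

omit [Fintype J] [DecidableEq J] in
private theorem TGG_pd (b R : MvPolynomial J ℤ) {P : Ideal (MvPolynomial J ℤ)} (hR : R ∈ P)
    (k : J) : pderiv k (b * R) - b * pderiv k R ∈ P := by
  rw [Derivation.leibniz, smul_eq_mul, smul_eq_mul]
  have h1 : b * (pderiv k) R + R * (pderiv k) b - b * (pderiv k) R = R * (pderiv k) b := by ring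
  rw [h1]
  exact P.mul_mem_right _ hR

/-- Proof. `R = C p - T`, `T = ∏ X k ^ h k ∈ P`. Suppose `α ∉ P`. If `T ∈ P ^ 2` then `α C p ∈ P ^ 2` and `QuadAll.mem_of_prime_mul_mem_sq` gives `α ∈ P`. So `T ∉ P ^ 2`. Some `X k ∈ P` with `h k ≥ 1`; `h k = 1`, otherwise
`X k ^ 2` divides `T`. `∂/∂x_k` (`NH.Ind2Aux.der_sq`; `R ∈ P`): `α * ∏_(l ≠ k) X l ^ h l ∈ P`, so this product is in `P` and `T` is in `P ^ 2`. -/
theorem ind_p (hp : p.Prime) {P : Ideal (MvPolynomial J ℤ)} [P.IsPrime]
    (hpP : (C (p : ℤ) : MvPolynomial J ℤ) ∈ P) {h : J → ℕ}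
    (hR : (C (p : ℤ) - ∏ k, X k ^ h k : MvPolynomial J ℤ) ∈ P) {α : MvPolynomial J ℤ}
    (hα : α * (C (p : ℤ) - ∏ k, X k ^ h k) ∈ P ^ 2) : α ∈ P := by
  by_contra hα0
  set T : MvPolynomial J ℤ := ∏ k, X k ^ h k with hT
  have hTP : T ∈ P := by
    have h1 : T = C (p : ℤ) - (C (p : ℤ) - T) := by ring
    rw [h1]
    exact Ideal.sub_mem _ hpP hR
  have hT2 : T ∉ P ^ 2 := by
    intro h1
    apply hα0
    apply QuadAll.mem_of_prime_mul_mem_sq p hp P hpP
    have h2 : C (p : ℤ) * α = α * (C (p : ℤ) - T) + α * T := by ring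
    rw [h2]
    exact Ideal.add_mem _ hα (Ideal.mul_mem_left _ _ h1)
  obtain ⟨k, -, hk⟩ := Ideal.IsPrime.prod_mem_iff.1 hTP
  have hk0 : h k ≠ 0 := by
    intro h1
    rw [h1, pow_zero] at hk
    exact (Ideal.IsPrime.ne_top ‹P.IsPrime›) ((Ideal.eq_top_iff_one _).2 hk)
  have hXk : (X k : MvPolynomial J ℤ) ∈ P := Ideal.IsPrime.mem_of_pow_mem ‹P.IsPrime› _ hk
  have hsp : T = X k ^ h k * ∏ l ∈ Finset.univ.erase k, X l ^ h l := by
    rw [hT, Finset.mul_prod_erase Finset.univ (fun l => (X l : MvPolynomial J ℤ) ^ h l)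
      (Finset.mem_univ k)]
  have hk1 : h k = 1 := by
    by_contra h1
    apply hT2
    obtain ⟨s, hs⟩ : ∃ s, h k = 2 + s := ⟨h k - 2, by omega⟩
    rw [hsp, hs, pow_add, mul_assoc]
    exact Ideal.mul_mem_right _ _ (Ideal.pow_mem_pow hXk 2)
  rw [hk1, pow_one] at hsp
  set T' : MvPolynomial J ℤ := ∏ l ∈ Finset.univ.erase k, X l ^ h l with hT'
  have h3 : pderiv k (α * (C (p : ℤ) - T)) ∈ P := NH.Ind2Aux.der_sq (pderiv k) P hα
  have h4 : α * pderiv k (C (p : ℤ) - T) ∈ P := by
    have h5 := TGG_pd α _ hR k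
    have h6 : α * pderiv k (C (p : ℤ) - T) = pderiv k (α * (C (p : ℤ) - T)) -
        (pderiv k (α * (C (p : ℤ) - T)) - α * pderiv k (C (p : ℤ) - T)) := by ring
    rw [h6]
    exact Ideal.sub_mem _ h3 h5
  have h5 : pderiv k (C (p : ℤ) - T) = -(T' + X k * pderiv k T') := by
    rw [map_sub, pderiv_C, zero_sub, hsp, Derivation.leibniz, pderiv_X_self, smul_eq_mul,
      smul_eq_mul]
    ring
  rw [h5] at h4
  have h6 : α * T' ∈ P := by
    have h7 : α * T' = -(α * -(T' + X k * pderiv k T')) - X k * (α * pderiv k T') := by ring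
    rw [h7]
    exact Ideal.sub_mem _ (Ideal.neg_mem_iff _ |>.2 h4) (Ideal.mul_mem_right _ _ hXk)
  rcases (Ideal.IsPrime.mem_or_mem ‹P.IsPrime› h6) with h7 | h7
  · exact hα0 h7
  · apply hT2
    rw [hsp, pow_two]
    exact Ideal.mul_mem_mul hXk h7

/-- Proof. Write `R`, `G` for the relations, `α`, `β` for the coefficients; suppose `β ∉ P`. Apply `∂/∂x_k` to `α R + β G ∈ P ^ 2` (`NH.Ind2Aux.der_sq`, `R, G ∈ P`) and multiply by `X k`:
`X k ∂_k T ^ h = (v k).1 T ^ h ∈ P`, so `β * ∑_j gE j k * C (u j) * T ^ (gE j) ∈ P`. Let `L` be the fraction field of the quotient by `P`, `φ` the projection, `λ_j = φ (C (u j) * ∏ X k ^ gE j k)`. So `∑_j gE j k * λ_j = 0` for all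
`k` and `∑ λ_j = 0` (`G ∈ P`), hence `∑_j pr (Mb c d j) (v k) λ_j = 0` for all `k`. Let `μ none = ∑ λ_j c_j`, `μ (some j) = d λ_j`: `(Mx v).map (Int.cast) *ᵥ μ = 0` (`pr_Mb`; row `none`: `d ∑ λ_j = 0`). The determinant of `Mx v` is `1` or `-1`
(`nV v = 1`), so `μ = 0`. `L` has characteristic `p ∤ d`, so all `λ_j = 0`; but `λ_a = u_a ≠ 0` in `L` (`gE a k = 0`). A contradiction. So `β ∈ P`, `α R ∈ P ^ 2`, and `ind_p`. -/
theorem tr_ind (hp : p.Prime) {v : J → Ray J} (hv : nV v = 1) {c : J → ℕ} {d : ℕ} {u : J → ℤ}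
    {a : J} (hlab : ∀ k j, pr (Mb c d a) (v k) ≤ pr (Mb c d j) (v k)) (hd : ¬ p ∣ d)
    (hu : ¬ (p : ℤ) ∣ u a) {P : Ideal (MvPolynomial J ℤ)} [P.IsPrime]
    (hpP : (C (p : ℤ) : MvPolynomial J ℤ) ∈ P) (hr : ∀ i, rT p v c d u a i ∈ P)
    {b : Fin 2 → MvPolynomial J ℤ} (hb : ∑ i, b i * rT p v c d u a i ∈ P ^ 2) :
    ∀ i, b i ∈ P := by
  have hR0 : (C (p : ℤ) - ∏ k, X k ^ (v k).1 : MvPolynomial J ℤ) ∈ P := hr 0
  have hG0 : (∑ j, C (u j) * ∏ k, X k ^ gE v c d a j k : MvPolynomial J ℤ) ∈ P := hr 1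
  rw [Fin.sum_univ_two] at hb
  change b 0 * (C (p : ℤ) - ∏ k, X k ^ (v k).1) +
    b 1 * (∑ j, C (u j) * ∏ k, X k ^ gE v c d a j k) ∈ P ^ 2 at hb
  set T : MvPolynomial J ℤ := ∏ k, X k ^ (v k).1 with hT
  set G : MvPolynomial J ℤ := ∑ j, C (u j) * ∏ k, X k ^ gE v c d a j k with hG
  have hTP : T ∈ P := by
    have h1 : T = C (p : ℤ) - (C (p : ℤ) - T) := by ring
    rw [h1]
    exact Ideal.sub_mem _ hpP hR0
  have hb1 : b 1 ∈ P := by
    by_contra hβ
    have hd1 : ∀ k, X k * pderiv k G ∈ P := by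
      intro k
      have h1 := NH.Ind2Aux.der_sq (pderiv k) P hb
      rw [map_add] at h1
      have h2 := TGG_pd (b 0) _ hR0 k
      have h3 := TGG_pd (b 1) _ hG0 k
      have h4 : b 0 * pderiv k (C (p : ℤ) - T) + b 1 * pderiv k G ∈ P := by
        have h5 : b 0 * pderiv k (C (p : ℤ) - T) + b 1 * pderiv k G =
            pderiv k (b 0 * (C (p : ℤ) - T)) + pderiv k (b 1 * G) -
            (pderiv k (b 0 * (C (p : ℤ) - T)) - b 0 * pderiv k (C (p : ℤ) - T)) -
            (pderiv k (b 1 * G) - b 1 * pderiv k G) := by ring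
        rw [h5]
        exact Ideal.sub_mem _ (Ideal.sub_mem _ h1 h2) h3
      have h5 : X k * pderiv k (C (p : ℤ) - T) ∈ P := by
        rw [map_sub, pderiv_C, zero_sub, mul_neg, hT, TGG_mon]
        exact Ideal.neg_mem_iff _ |>.2 (Ideal.mul_mem_left _ _ hTP)
      have h6 : b 1 * (X k * pderiv k G) ∈ P := by
        have h7 : b 1 * (X k * pderiv k G) =
            X k * (b 0 * pderiv k (C (p : ℤ) - T) + b 1 * pderiv k G) -
            b 0 * (X k * pderiv k (C (p : ℤ) - T)) := by ring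
        rw [h7]
        exact Ideal.sub_mem _ (Ideal.mul_mem_left _ _ h4) (Ideal.mul_mem_left _ _ h5)
      exact (Ideal.IsPrime.mem_or_mem ‹P.IsPrime› h6).resolve_left hβ
    let A := MvPolynomial J ℤ ⧸ P
    have : IsDomain A := Ideal.Quotient.isDomain P
    let φ : MvPolynomial J ℤ →+* FractionRing A :=
      (algebraMap A (FractionRing A)).comp (Ideal.Quotient.mk P)
    have hφ : ∀ x ∈ P, φ x = 0 := by
      intro x hx
      simp only [φ, RingHom.comp_apply, Ideal.Quotient.eq_zero_iff_mem.2 hx, map_zero]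
    have hpL : (p : FractionRing A) = 0 := by
      have h1 := hφ _ hpP
      rw [← h1, eq_intCast (C : ℤ →+* MvPolynomial J ℤ), map_intCast]
      simp
    have hnz : ∀ z : ℤ, ¬ (p : ℤ) ∣ z → (z : FractionRing A) ≠ 0 := by
      intro z hz h0
      have h1 : IsCoprime (p : ℤ) z :=
        (Nat.prime_iff_prime_int.1 hp).coprime_iff_not_dvd.2 hz
      obtain ⟨r, s, hrs⟩ := h1
      have h2 := congrArg (Int.cast : ℤ → FractionRing A) hrs
      push_cast at h2
      rw [hpL, h0] at h2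
      simp at h2
    let lam : J → FractionRing A := fun j => φ (C (u j) * ∏ k, X k ^ gE v c d a j k)
    have hl0 : ∑ j, lam j = 0 := by
      have h1 := hφ _ hG0
      rw [hG, map_sum] at h1
      exact h1
    have hl1 : ∀ k, ∑ j, (gE v c d a j k : FractionRing A) * lam j = 0 := by
      intro k
      have h1 := hφ _ (hd1 k)
      rw [← h1, hG, map_sum, Finset.mul_sum, map_sum]
      refine Finset.sum_congr rfl fun j _ => ?_
      have h2 : (X k * pderiv k (C (u j) * ∏ k, X k ^ gE v c d a j k) : MvPolynomial J ℤ) =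
          (gE v c d a j k : MvPolynomial J ℤ) * (C (u j) * ∏ k, X k ^ gE v c d a j k) := by
        rw [pderiv_C_mul, mul_left_comm, TGG_mon]
        ring
      rw [h2, map_mul, map_natCast]
    have hl2 : ∀ k, ∑ j, ((pr (Mb c d j) (v k) : ℤ) : FractionRing A) * lam j = 0 := by
      intro k
      have h1 : ∀ j, ((pr (Mb c d j) (v k) : ℤ) : FractionRing A) =
          (gE v c d a j k : FractionRing A) + ((pr (Mb c d a) (v k) : ℤ) : FractionRing A) := by
        intro j
        have h2 : (gE v c d a j k : ℤ) = pr (Mb c d j) (v k) - pr (Mb c d a) (v k) :=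
          Int.toNat_of_nonneg (sub_nonneg.2 (hlab k j))
        have h3 := congrArg (Int.cast : ℤ → FractionRing A) h2
        push_cast at h3
        rw [h3]
        ring
      calc ∑ j, ((pr (Mb c d j) (v k) : ℤ) : FractionRing A) * lam j
          = ∑ j, ((gE v c d a j k : FractionRing A) * lam j +
              ((pr (Mb c d a) (v k) : ℤ) : FractionRing A) * lam j) :=
            Finset.sum_congr rfl fun j _ => by rw [h1 j, add_mul]
        _ = 0 := by
            rw [Finset.sum_add_distrib, hl1 k, ← Finset.mul_sum, hl0, mul_zero, add_zero]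
    let μ : Option J → FractionRing A := fun o => o.elim (∑ j, lam j * c j) fun j => d * lam j
    have hμ : ((Int.castRingHom (FractionRing A)).mapMatrix (Mx v)).mulVec μ = 0 := by
      funext o
      rcases o with _ | k
      · simp only [Matrix.mulVec, dotProduct, Fintype.sum_option, RingHom.mapMatrix_apply,
          Matrix.map_apply, Mx, μ, Option.elim, map_zero, zero_mul, zero_add, map_one, one_mul,
          Pi.zero_apply]
        rw [← Finset.mul_sum, hl0, mul_zero]
      · rw [Pi.zero_apply, ← hl2 k]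
        simp only [Matrix.mulVec, dotProduct, Fintype.sum_option, RingHom.mapMatrix_apply,
          Matrix.map_apply, Mx, μ, Option.elim, Int.coe_castRingHom, Int.cast_natCast]
        rw [Finset.mul_sum, ← Finset.sum_add_distrib]
        refine Finset.sum_congr rfl fun j _ => ?_
        rw [pr_Mb]
        push_cast
        ring
    have hdet : ((Int.castRingHom (FractionRing A)).mapMatrix (Mx v)).det ≠ 0 := by
      rw [← RingHom.map_det]
      have h1 : (Mx v).det.natAbs = 1 := hv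
      rcases Int.natAbs_eq (Mx v).det with h2 | h2
      · rw [h2, h1]
        simp
      · rw [h2, h1]
        simp
    have h0 := Matrix.eq_zero_of_mulVec_eq_zero hdet hμ
    have h1 := congrFun h0 (some a)
    change (d : FractionRing A) * lam a = 0 at h1
    have h2 : (d : FractionRing A) ≠ 0 := by
      have h3 := hnz (d : ℤ) (by exact_mod_cast hd)
      exact_mod_cast h3
    have h3 := (mul_eq_zero.1 h1).resolve_left h2
    apply hnz (u a) hu
    have h4 : lam a = φ (C (u a)) := by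
      have h5 : (∏ k, X k ^ gE v c d a a k : MvPolynomial J ℤ) = 1 := by
        refine Finset.prod_eq_one fun k _ => ?_
        simp [gE]
      simp only [lam, h5, mul_one]
    rw [← h3, h4, eq_intCast (C : ℤ →+* MvPolynomial J ℤ), map_intCast]
  have hb0 : b 0 ∈ P := by
    apply ind_p hp hpP hR0
    have h1 : b 0 * (C (p : ℤ) - T) = (b 0 * (C (p : ℤ) - T) + b 1 * G) - b 1 * G := by ring
    rw [h1]
    refine Ideal.sub_mem _ hb ?_
    rw [pow_two]
    exact Ideal.mul_mem_mul hb1 hG0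
  intro i
  fin_cases i
  · exact hb0
  · exact hb1

end Pool.Agent.DG
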