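import Pool.Agent.DG.TrA

set_option autoImplicit false

/-! # TRC: a lattice point in the fundamental parallelepiped of a cone of index at least two -/

namespace Pool.Agent.DG

variable {J : Type} [Fintype J] [DecidableEq J]

private def trcV (m : Mon J) : Option J → ℤ := fun s => Option.casesOn s m.1 m.2

private theorem trc_row_some (v : J → Ray J) (m : Mon J) (l : J) :
    (Mx v).mulVec (trcV m) (some l) = pr m (v l) := by
  rw [Matrix.mulVec, dotProduct, Fintype.sum_option]
  unfold pr
  simp only [Mx, trcV]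
  congr 1
  · ring
  · exact Finset.sum_congr rfl fun j _ => mul_comm _ _

private theorem trc_row_none (v : J → Ray J) (m : Mon J) :
    (Mx v).mulVec (trcV m) none = dg m := by
  rw [Matrix.mulVec, dotProduct, Fintype.sum_option]
  unfold dg
  simp [Mx, trcV]

private theorem trc_one [Nonempty J] {v : J → Ray J} (h : 2 ≤ nV v) :
    ∃ k ρ, ¬ (nV v : ℤ) ∣ pr (tS v k) ρ := by
  by_contra hcon
  push Not at hcon
  have hN : (nV v : ℤ) ≠ 0 := by
    have : nV v ≠ 0 := by omega
    exact_mod_cast this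
  have h1 : ∀ k, ∃ t : Mon J, tS v k = (nV v : ℤ) • t := by
    intro k
    have ha : (nV v : ℤ) ∣ (tS v k).1 := by
      have h2 := hcon k (1, 0)
      unfold pr at h2
      simpa using h2
    have hb : ∀ j, (nV v : ℤ) ∣ (tS v k).2 j := by
      intro j
      have h2 := hcon k (eR j)
      rwa [pr_eR] at h2
    obtain ⟨a, ha⟩ := ha
    choose b hb using hb
    refine ⟨(a, b), Prod.ext ha ?_⟩
    funext j
    exact hb j
  choose t ht using h1
  have htd : ∀ k, dg (t k) = 0 := by
    intro k
    have h2 := dg_tS v k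
    rw [ht k, dg_smul] at h2
    exact (mul_eq_zero.mp h2).resolve_left hN
  have htp : ∀ k l, pr (t k) (v l) = if k = l then 1 else 0 := by
    intro k l
    have h2 := pr_tS v k l
    rw [ht k, pr_smul] at h2
    split_ifs at h2 ⊢ with hkl
    · exact mul_left_cancel₀ hN (by rw [h2, mul_one])
    · exact (mul_eq_zero.mp h2).resolve_left hN
  obtain ⟨j0⟩ := (inferInstance : Nonempty J)
  let m0 : Mon J := (0, Pi.single j0 1)
  have hm0 : dg m0 = 1 := by
    unfold dg
    simp [m0, Pi.single_apply]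
  let m' : Mon J := m0 - ∑ k, pr m0 (v k) • t k
  have hdsum : dg (∑ k, pr m0 (v k) • t k) = 0 := by
    unfold dg
    rw [Prod.snd_sum]
    simp only [Finset.sum_apply, Prod.smul_snd, Pi.smul_apply, smul_eq_mul]
    rw [Finset.sum_comm]
    apply Finset.sum_eq_zero
    intro k _
    rw [← Finset.mul_sum]
    have h3 : ∑ j, (t k).2 j = 0 := htd k
    rw [h3, mul_zero]
  have hm'd : dg m' = 1 := by
    rw [dg_sub, hdsum, hm0, sub_zero]
  have hm'p : ∀ l, pr m' (v l) = 0 := by
    intro l
    rw [pr_sub, pr_sum]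
    simp only [pr_smul, htp]
    simp
  let B : Matrix (Option J) (Option J) ℤ :=
    fun s u => trcV (Option.casesOn u m' t : Mon J) s
  have hB : Mx v * B = 1 := by
    ext s u
    have h4 : (Mx v * B) s u = (Mx v).mulVec (trcV (Option.casesOn u m' t : Mon J)) s := by
      rw [Matrix.mul_apply]
      rfl
    rw [h4, Matrix.one_apply]
    rcases s with _ | l
    · rw [trc_row_none]
      rcases u with _ | k
      · rw [if_pos rfl]
        exact hm'd
      · rw [if_neg (by simp)]
        exact htd k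
    · rw [trc_row_some]
      rcases u with _ | k
      · rw [if_neg (by simp)]
        exact hm'p l
      · change pr (t k) (v l) = _
        rw [htp]
        by_cases hkl : k = l
        · rw [if_pos hkl, if_pos (by rw [hkl])]
        · rw [if_neg hkl, if_neg (by simpa using Ne.symm hkl)]
  have h5 : (Mx v).det * B.det = 1 := by
    rw [← Matrix.det_mul, hB, Matrix.det_one]
  have h6 := congrArg Int.natAbs h5
  rw [Int.natAbs_mul, Int.natAbs_one] at h6
  have h7 : nV v = 1 := Nat.eq_one_of_mul_eq_one_right h6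
  omega

private def trcP (m : Mon J) (x : ℤ × (J → ℤ)) : ℤ := m.1 * x.1 + ∑ j, m.2 j * x.2 j

private theorem trcP_smul (z : ℤ) (m : Mon J) (x : ℤ × (J → ℤ)) :
    trcP (z • m) x = z * trcP m x := by
  unfold trcP
  simp only [Prod.smul_fst, Prod.smul_snd, Pi.smul_apply, smul_eq_mul, mul_add, Finset.mul_sum,
    mul_assoc]

private theorem trcP_add (m m' : Mon J) (x : ℤ × (J → ℤ)) :
    trcP (m + m') x = trcP m x + trcP m' x := by
  unfold trcP
  simp only [Prod.fst_add, Prod.snd_add, Pi.add_apply, add_mul, Finset.sum_add_distrib]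
  ring

private theorem trcP_sum (s : Finset J) (m : J → Mon J) (x : ℤ × (J → ℤ)) :
    trcP (∑ i ∈ s, m i) x = ∑ i ∈ s, trcP (m i) x := by
  induction s using Finset.induction_on with
  | empty => simp [trcP]
  | insert a s ha ih => rw [Finset.sum_insert ha, Finset.sum_insert ha, trcP_add, ih]

/-- Proof. Put `N = nV v`. First: there are `k0` and a ray `ρ0` (one of `(1, 0)`, `(0, e_j)`) with
`¬ N ∣ pr (tS v k0) ρ0`. Otherwise all entries of all `tS v k` are divisible by `N`:
`tS v k = N • t' k` with `dg (t' k) = 0`, `pr (t' k) (v l) = 1` if `k = l` and `0` otherwise (`pr_tS`,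
cancel `N`). Choose `j0 : J`, `m0 = (0, Pi.single j0 1)` and `m' = m0 - ∑ k, pr m0 (v k) • t' k`, so
`dg m' = 1` and `pr m' (v l) = 0` for all `l`. Then `Mx v * B = 1` for the matrix `B` with columns
`none ↦ m'`, `some k ↦ t' k`, so `det (Mx v)` is a unit, `N = 1`, a contradiction.
Second: let `q l = pr (tS v l) ρ0 / N` (integer division) and let `w = ρ0 - ∑ l, q l • v l`, a vector in
`ℤ × ℤ ^ J`; its pairing with `tS v k` is `pr (tS v k) ρ0 - q k * N`, the remainder, in `[0, N)`, and not
zero for `k = k0`. `N * w.1 = ∑ k, (v k).1 * (pairing of tS v k with w) ≥ 0` (as in `exp_pr` with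
`m = (1, 0)`: write it out for `ρ0` and for the `v l`), so `w.1 ≥ 0`. The pairings with `tS v k` do not
change if a multiple `Y` of `(0; 1, ..., 1)` is added (`dg_tS`); for `Y` large `w.2 j + Y ≥ 0` for all `j`.
`ρ` is the resulting ray (`Int.toNat` of the coordinates). -/
theorem exists_frac [Nonempty J] {v : J → Ray J} (h : 2 ≤ nV v) :
    ∃ ρ : Ray J, (∀ k, 0 ≤ pr (tS v k) ρ ∧ pr (tS v k) ρ < nV v) ∧ ∃ k, 0 < pr (tS v k) ρ := by
  obtain ⟨k0, ρ0, h0⟩ := trc_one h
  have hN : (0 : ℤ) < nV v := by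
    have : 0 < nV v := by omega
    exact_mod_cast this
  let q : J → ℤ := fun l => pr (tS v l) ρ0 / nV v
  let w : ℤ × (J → ℤ) := ((ρ0.1 : ℤ) - ∑ l, q l * (v l).1,
    fun j => (ρ0.2 j : ℤ) - ∑ l, q l * (v l).2 j)
  have hw : ∀ m : Mon J, trcP m w = pr m ρ0 - ∑ l, q l * pr m (v l) := by
    intro m
    unfold trcP pr
    simp only [w]
    simp only [mul_sub, mul_add, Finset.mul_sum, Finset.sum_sub_distrib, Finset.sum_add_distrib]
    have h1 : ∑ x, m.1 * (q x * ((v x).1 : ℤ)) = ∑ x, q x * (m.1 * ((v x).1 : ℤ)) :=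
      Finset.sum_congr rfl fun x _ => by ring
    have h2 : ∑ x, ∑ i, m.2 x * (q i * ((v i).2 x : ℤ)) =
        ∑ x, ∑ i, q x * (m.2 i * ((v x).2 i : ℤ)) := by
      rw [Finset.sum_comm]
      exact Finset.sum_congr rfl fun x _ => Finset.sum_congr rfl fun i _ => by ring
    rw [h1, h2]
    ring
  have hk : ∀ k, trcP (tS v k) w = pr (tS v k) ρ0 % nV v := by
    intro k
    rw [hw]
    simp only [pr_tS, mul_ite, mul_zero]
    rw [Finset.sum_ite_eq, if_pos (Finset.mem_univ k)]
    simp only [q]
    rw [Int.emod_def]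
    ring
  have hk0 : ∀ k, 0 ≤ trcP (tS v k) w := by
    intro k
    rw [hk]
    exact Int.emod_nonneg _ hN.ne'
  have hk1 : ∀ k, trcP (tS v k) w < nV v := by
    intro k
    rw [hk]
    exact Int.emod_lt_of_pos _ hN
  have hk2 : 0 < trcP (tS v k0) w := by
    rcases (hk0 k0).lt_or_eq with h1 | h1
    · exact h1
    · exfalso
      rw [hk] at h1
      exact h0 (Int.dvd_of_emod_eq_zero h1.symm)
  have hw1 : 0 ≤ w.1 := by
    have hdg : dg ((1, 0) : Mon J) = 0 := by
      unfold dg
      simp
    have h1 := congrArg (fun m => trcP m w) (exp_tS v hdg)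
    simp only [trcP_smul, trcP_sum] at h1
    have h2 : trcP ((1, 0) : Mon J) w = w.1 := by
      unfold trcP
      simp
    have h3 : ∀ k, pr ((1, 0) : Mon J) (v k) = ((v k).1 : ℤ) := by
      intro k
      unfold pr
      simp
    rw [h2] at h1
    simp only [h3] at h1
    have h4 : 0 ≤ (nV v : ℤ) * w.1 := by
      rw [h1]
      exact Finset.sum_nonneg fun k _ => mul_nonneg (Int.natCast_nonneg _) (hk0 k)
    exact nonneg_of_mul_nonneg_right h4 hN
  let Y : ℤ := ∑ j, |w.2 j|
  have hY : ∀ j, 0 ≤ w.2 j + Y := by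
    intro j
    have h1 : |w.2 j| ≤ Y :=
      Finset.single_le_sum (f := fun j => |w.2 j|) (fun i _ => abs_nonneg _) (Finset.mem_univ j)
    have h2 := neg_abs_le (w.2 j)
    omega
  let ρ : Ray J := (w.1.toNat, fun j => (w.2 j + Y).toNat)
  have hρ : ∀ k, pr (tS v k) ρ = trcP (tS v k) w := by
    intro k
    unfold pr trcP
    simp only [ρ]
    rw [Int.toNat_of_nonneg hw1]
    have h1 : ∀ j, (((w.2 j + Y).toNat : ℕ) : ℤ) = w.2 j + Y := fun j => Int.toNat_of_nonneg (hY j)
    simp only [h1, mul_add, Finset.sum_add_distrib, ← Finset.sum_mul]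
    have h2 : ∑ j, (tS v k).2 j = 0 := dg_tS v k
    rw [h2, zero_mul, add_zero]
  refine ⟨ρ, fun k => ⟨?_, ?_⟩, k0, ?_⟩
  · rw [hρ]
    exact hk0 k
  · rw [hρ]
    exact hk1 k
  · rw [hρ]
    exact hk2

end Pool.Agent.DG
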