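import Pool.Agent.DG.TrB

set_option autoImplicit false

/-! # TRD: the first fan -/

namespace Pool.Agent.DG

variable {J : Type} [Fintype J] [DecidableEq J]

/-- The first fan: `I = J`, the cone `a` has the rays `(d; C0 - c j)` (at the place `a`) and `eR l`,
`l ≠ a`. -/
def v0 (c : J → ℕ) (d C0 : ℕ) (a l : J) : Ray J :=
  if l = a then (d, fun j => C0 - c j) else eR l

omit [Fintype J] in
private theorem trd_self (c : J → ℕ) (d C0 : ℕ) (a : J) :
    v0 c d C0 a a = (d, fun j => C0 - c j) := by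
  simp [v0]

omit [Fintype J] in
private theorem trd_ne (c : J → ℕ) (d C0 : ℕ) {a l : J} (h : l ≠ a) : v0 c d C0 a l = eR l := by
  simp [v0, h]

private theorem trd_pr_self {c : J → ℕ} {d C0 : ℕ} (hC : ∀ j, c j ≤ C0) (a a' : J) :
    pr (Mb c d a') (v0 c d C0 a a) = d * C0 := by
  rw [trd_self, pr_Mb]
  simp only
  rw [Nat.cast_sub (hC a')]
  ring

private theorem trd_pr_eR (c : J → ℕ) (d : ℕ) (a' l : J) :
    pr (Mb c d a') (eR l) = if l = a' then (d : ℤ) else 0 := by
  rw [pr_eR]
  simp [Mb, Pi.single_apply]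

omit [Fintype J] in
private theorem trd_eR_inj {j l : J} (h : (eR j : Ray J) = eR l) : j = l := by
  by_contra hjl
  have h1 := congrFun (congrArg Prod.snd h) j
  simp [eR, Pi.single_apply, hjl] at h1

private theorem trd_row (v : J → Ray J) (x : Option J → ℤ) (l : J) :
    (Mx v).mulVec x (some l) = pr (x none, fun j => x (some j)) (v l) := by
  rw [Matrix.mulVec, dotProduct, Fintype.sum_option]
  unfold pr
  simp only [Mx]
  congr 1
  · ring
  · exact Finset.sum_congr rfl fun j _ => mul_comm _ _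

private theorem trd_nd {c : J → ℕ} {d C0 : ℕ} (hd : 1 ≤ d) (a : J) :
    0 < nV (v0 c d C0 a) := by
  rw [Nat.pos_iff_ne_zero]
  intro h
  have hdet : (Mx (v0 c d C0 a)).det = 0 := Int.natAbs_eq_zero.mp h
  obtain ⟨x, hx, hx0⟩ := Matrix.exists_mulVec_eq_zero_iff.mpr hdet
  have h1 : ∀ l, l ≠ a → x (some l) = 0 := by
    intro l hl
    have h2 := congrFun hx0 (some l)
    rw [trd_row, trd_ne c d C0 hl, pr_eR] at h2
    exact h2
  have h3 : x (some a) = 0 := by
    have h2 := congrFun hx0 none
    rw [Matrix.mulVec, dotProduct, Fintype.sum_option] at h2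
    simp only [Mx, zero_mul, one_mul, zero_add, Pi.zero_apply] at h2
    rw [Finset.sum_eq_single a (fun l _ hl => h1 l hl) (by simp)] at h2
    exact h2
  have h4 : ∀ l, x (some l) = 0 := by
    intro l
    by_cases hl : l = a
    · rw [hl]
      exact h3
    · exact h1 l hl
  have h5 : x none = 0 := by
    have h2 := congrFun hx0 (some a)
    rw [trd_row, trd_self] at h2
    unfold pr at h2
    simp only [h4, zero_mul, Finset.sum_const_zero, add_zero, Pi.zero_apply] at h2
    rcases mul_eq_zero.mp h2 with h6 | h6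
    · exact h6
    · have : d = 0 := by exact_mod_cast h6
      omega
  apply hx
  funext s
  rcases s with _ | l
  · exact h5
  · exact h4 l

/-- The vertices are the exponents `Mb c d a` of the monomials. Proof. Let `ρ0 = (d; C0 - c j)`.
`pr (Mb c d a) ρ0 = c a * d + d * (C0 - c a) = d * C0` for all `a` (`pr_Mb`, `hC`), `pr (Mb c d a) (eR l)` is `d` if
`l = a` and `0` otherwise (`pr_eR`). `nd`: `det ≠ 0`: if `Mx v *ᵥ m = 0` then `m (some l) = 0` for `l ≠ a` (rows `eR l`),
so `m (some a) = 0` (row `none`), so `d * m none = 0` (row `a`): `Matrix.exists_mulVec_eq_zero_iff`. `le`: for the ray `ρ0`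
equality, for `eR l`, `l ≠ a`: `0 ≤ ..`. `lt`: `ρ0 = v0 a' a'`; `eR k`, `k ≠ a`: if `d * [k = a'] ≤ 0` then `k ≠ a'` and
`eR k = v0 a' k`. `e1`: `(Mb c d a).2 j = 0` gives `j ≠ a`, `eR j = v0 a j`. `e2`: `eR j = v0 a l`: not `l = a` (as `d ≠ 0`), so `l = j ≠ a`.
`adj` for `k = a`: all other rays are `eR l`; for `k ≠ a`: `i' = k`: `v0 a l` is `v0 k k` if `l = a`, and `v0 k l` otherwise (`l ≠ k`);
`eR k` is not among the `v0 k l`. `inf`: `i = j`. `lab`: `a`. -/
theorem fan0 {c : J → ℕ} {d C0 : ℕ} (hd : 1 ≤ d) (hC : ∀ j, c j ≤ C0) :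
    Fan c d (v0 c d C0) (Mb c d) d := by
  have hd0 : (0 : ℤ) < d := by exact_mod_cast hd
  have hmem : ∀ a j, (eR j : Ray J) ∈ Set.range (v0 c d C0 a) ↔ j ≠ a := by
    intro a j
    constructor
    · rintro ⟨l, hl⟩ hja
      by_cases hla : l = a
      · rw [hla, trd_self] at hl
        have h1 := congrArg Prod.fst hl
        simp only [eR] at h1
        omega
      · rw [trd_ne c d C0 hla] at hl
        exact hla ((trd_eR_inj hl).trans hja)
    · intro hj
      exact ⟨j, trd_ne c d C0 hj⟩
  have h0 : ∀ a a', v0 c d C0 a a = v0 c d C0 a' a' := by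
    intro a a'
    rw [trd_self, trd_self]
  have hle : ∀ (i i' k : J), pr (Mb c d i) (v0 c d C0 i k) ≤ pr (Mb c d i') (v0 c d C0 i k) := by
    intro i i' k
    by_cases hk : k = i
    · rw [hk, trd_pr_self hC, trd_pr_self hC]
    · rw [trd_ne c d C0 hk, trd_pr_eR, trd_pr_eR, if_neg hk]
      split_ifs
      · exact hd0.le
      · exact le_refl _
  refine ⟨hd, fun i => trd_nd hd i, fun i => dg_Mb c d i, hle, ?_, ?_, ?_, ?_, ?_, ?_, ?_, ?_⟩
  · intro i i' k h
    by_cases hk : k = i
    · rw [hk, h0 i i']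
      exact ⟨i', rfl⟩
    · rw [trd_ne c d C0 hk] at h ⊢
      rw [trd_pr_eR, trd_pr_eR, if_neg hk] at h
      rw [hmem]
      intro hki
      rw [if_pos hki] at h
      omega
  · intro i j
    simp only [Mb, Pi.single_apply]
    split_ifs
    · exact hd0.le
    · exact le_refl _
  · intro i j h
    rw [hmem]
    intro hji
    simp only [Mb, Pi.single_apply, if_pos hji] at h
    omega
  · intro i j h
    rw [hmem] at h
    simp only [Mb, Pi.single_apply, if_neg h]
  · intro i k h
    by_cases hk : k = i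
    · rw [hk, trd_self] at h
      simp only at h
      omega
    · exact ⟨k, trd_ne c d C0 hk⟩
  · intro i k
    by_cases hk : k = i
    · left
      intro l hl
      rw [hk] at hl
      rw [trd_ne c d C0 hl]
      rfl
    · right
      refine ⟨k, fun l hl => ?_, ?_⟩
      · by_cases hli : l = i
        · rw [hli, h0 i k]
          exact ⟨k, rfl⟩
        · rw [trd_ne c d C0 hli, hmem]
          exact hl
      · rw [trd_ne c d C0 hk, hmem]
        simp
  · intro j
    exact ⟨j, fun l hl => (hmem j l).mpr hl⟩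
  · intro i
    exact ⟨i, fun k j => hle i j k⟩

end Pool.Agent.DG
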