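import Pool.Agent.DG.TrK
import Pool.Agent.DG.TrC
import Pool.Agent.DG.TrD

set_option autoImplicit false

/-! # TRL: a fan of cones of index one -/

namespace Pool.Agent.DG

variable {J : Type} [Fintype J] [DecidableEq J]

/-- Proof. Induction on `Δ`, and for given `Δ` on the number of cones of index `Δ`. If this number is `0` then all indices are `≤ Δ - 1`. If `Δ = 1` all indices are `1` (`Fan.nd`). Otherwise `exists_frac` for a cone `i0` of
index `Δ ≥ 2`, `star`, `star_count`. -/
theorem exists_uni_of [Nonempty J] {c : J → ℕ} {d : ℕ} (Δ : ℕ) : ∀ (I : Type) [Finite I] (v : I → J → Ray J)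
    (m : I → Mon J) (D : ℕ), Fan c d v m D → (∀ i, nV (v i) ≤ Δ) →
    ∃ (I' : Type) (_ : Finite I') (v' : I' → J → Ray J) (m' : I' → Mon J) (D' : ℕ),
      Fan c d v' m' D' ∧ ∀ i, nV (v' i) = 1 := by
  induction Δ with
  | zero =>
    intro I hI v m D F h
    refine ⟨I, hI, v, m, D, F, fun i => ?_⟩
    have h1 := F.nd i
    have h2 := h i
    omega
  | succ Δ ih =>
    have key : ∀ (n : ℕ) (I : Type) [Finite I] (v : I → J → Ray J) (m : I → Mon J) (D : ℕ),
        Fan c d v m D → (∀ i, nV (v i) ≤ Δ + 1) → Nat.card {i : I // nV (v i) = Δ + 1} = n →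
        ∃ (I' : Type) (_ : Finite I') (v' : I' → J → Ray J) (m' : I' → Mon J) (D' : ℕ),
          Fan c d v' m' D' ∧ ∀ i, nV (v' i) = 1 := by
      intro n
      induction n using Nat.strong_induction_on with
      | _ n ihn =>
        intro I hI v m D F h hn
        by_cases h1 : ∀ i, nV (v i) ≤ Δ
        · exact ih I v m D F h1
        · push Not at h1
          obtain ⟨i0, hi0⟩ := h1
          have h2 : nV (v i0) = Δ + 1 := le_antisymm (h i0) hi0
          by_cases h3 : Δ = 0
          · refine ⟨I, hI, v, m, D, F, fun i => ?_⟩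
            have h4 := F.nd i
            have h5 := h i
            omega
          · have h4 : 2 ≤ nV (v i0) := by omega
            obtain ⟨ρ, h5, h6⟩ := exists_frac h4
            obtain ⟨m', D', F'⟩ := star F h5 h6
            obtain ⟨h7, h8⟩ := star_count F h5 h h2
            exact ihn _ (hn ▸ h8) (I2 v ρ) (v2 v ρ) m' D' F' h7 rfl
    intro I hI v m D F h
    exact key _ I v m D F h rfl

/-- Proof. `fan0` (`C0` = the sum of the `c j`), `exists_uni_of`. -/
theorem exists_uni [Nonempty J] (c : J → ℕ) {d : ℕ} (hd : 1 ≤ d) :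
    ∃ (I : Type) (_ : Finite I) (v : I → J → Ray J) (m : I → Mon J) (D : ℕ),
      Fan c d v m D ∧ ∀ i, nV (v i) = 1 := by
  have hC : ∀ j, c j ≤ ∑ j, c j := fun j => Finset.single_le_sum (fun _ _ => Nat.zero_le _)
    (Finset.mem_univ j)
  exact exists_uni_of (∑ a, nV (v0 c d (∑ j, c j) a)) J _ _ _ (fan0 hd hC)
    fun a => Finset.single_le_sum (f := fun a => nV (v0 c d (∑ j, c j) a))
      (fun _ _ => Nat.zero_le _) (Finset.mem_univ a)

end Pool.Agent.DG
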