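import Pool.Agent.DG.TgD
import Pool.Agent.DG.TgF
import Pool.Agent.DG.TgG
import Pool.Agent.DG.TrL
import Pool.Agent.NodHyp.Loc
import Pool.Agent.PW.FeA

set_option autoImplicit false

/-! # TGH: diagonal hypersurfaces at the prime numbers which do not divide the degree -/

namespace Pool.Agent.DG

open MvPolynomial Pool.Agent.NT9

variable {n : ℕ}

/-- All points of the model over `p` are regular. Proof. `at_chart`, `at_loc`, `Fan.lab`; `NH.regular_of_pres` with `T = MvPolynomial (Fin (n + 1)) ℤ` (a regular ring), `π = aeval (chi (tS (v i) ·))`, the relations `rT`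
(`rT_zero`), the element `∏ X k` (`tr_tor`) and `tr_ind` (`P` is the preimage of `mx O`, so `C p ∈ P`; the relations are in `P` since they are mapped to `0`). -/
theorem at_reg {K : Type} [Field K] [CharZero K] {I : Type} {c : Fin (n + 1) → ℕ} {d D : ℕ}
    {v : I → Fin (n + 1) → Ray (Fin (n + 1))} {m : I → Mon (Fin (n + 1))} {p : ℕ} (hp : p.Prime)
    {x : Fin (n + 1) → K} (hx : ∀ i, x i ≠ 0) {u : Fin (n + 1) → ℤ} (hu : ∀ j, ¬ (p : ℤ) ∣ u j)
    (hd : ¬ p ∣ d) (hker : ∀ h : MvPolynomial (Fin (n + 1)) ℤ, aeval x h = 0 ↔ FF p c d u ∣ h)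
    (F : Fan c d v m D) (huni : ∀ i, nV (v i) = 1) {K0 : ℕ} (hK1 : ∀ i, (m i).1 < K0)
    (hK2 : ∀ i k, pr (m i) (v i k) ≤ K0) {O : Subring K} (hO : O ∈ Loc (AT p x v m D K0))
    (hpO : (p : K) ∈ mx O) : IsRegularLocalRing O := by
  classical
  have hp0 : (p : K) ≠ 0 := Nat.cast_ne_zero.2 hp.ne_zero
  have hpinv : (p : K)⁻¹ ∉ O := by
    rcases hpO.2 with h | h
    · exact absurd h hp0
    · exact h
  have hloc : IsLocalRing O := hO.1
  obtain ⟨i, hi⟩ := at_chart hp hx F huni hK1 hO hpO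
  obtain ⟨hO1, hO2⟩ := at_loc hp hx F huni hK2 hi
  obtain ⟨a, hlab⟩ := F.lab i
  obtain ⟨π, hπ⟩ : ∃ π : MvPolynomial (Fin (n + 1)) ℤ →+* K, ∀ t,
      π t = aeval (fun k => chi p x (tS (v i) k)) t :=
    ⟨(aeval (fun k => chi p x (tS (v i) k)) :
      MvPolynomial (Fin (n + 1)) ℤ →ₐ[ℤ] K).toRingHom, fun _ => rfl⟩
  have hF0 : aeval x (FF p c d u) = 0 := (hker _).2 dvd_rfl
  have hπO : ∀ t, π t ∈ O := by
    intro t
    rw [hπ]
    induction t using MvPolynomial.induction_on with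
    | C z =>
      rw [aeval_C]
      exact intCast_mem O z
    | add f g hf hg =>
      rw [map_add]
      exact O.add_mem hf hg
    | mul_X f k hf =>
      rw [map_mul, aeval_X]
      exact O.mul_mem hf (hO1 k)
  have hr0 : ∀ b, π (rT p (v i) c d u a b) = 0 := fun b => by
    rw [hπ]
    exact rT_zero hp0 hx (huni i) hlab hF0 b
  refine NH.regular_of_pres O π hπO ?_ (rT p (v i) c d u a) hr0 (∏ k, X k) ?_ ?_ ?_
  · intro y hy
    obtain ⟨g, h, h1, h2, h3⟩ := hO2 y hy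
    refine ⟨g, h, ?_, ?_, ?_⟩
    · rw [hπ]
      exact h1
    · rw [hπ]
      exact h2
    · rw [hπ, hπ]
      exact h3
  · rw [hπ, map_prod]
    refine Finset.prod_ne_zero_iff.2 fun k _ => ?_
    rw [aeval_X]
    exact chi_ne hp0 hx _
  · intro t ht
    rw [hπ] at ht
    exact tr_tor hp0 hx (huni i) hlab (fun h => (hker h).1) ht
  · intro P _ hP b hb
    have hpP : (C (p : ℤ) : MvPolynomial (Fin (n + 1)) ℤ) ∈ P := by
      rw [hP]
      right
      rw [hπ, aeval_C]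
      simpa using hpinv
    exact tr_ind hp (huni i) hlab hd (hu a) hpP (fun j => (hP _).2 (Or.inl (hr0 j))) hb

/-- Proof. `a j = p ^ (c j) * u j` with `p ∤ u j`, so `PW.diagF a d = FF p c d u`. `exists_uni` for `J = Fin (n + 1)`, `d ≥ 1` (as `p ∤ d`); `K0` large (`I` is finite); `A = AT p x v m D K0`: `at_fg`, `at_com`, `at_reg`: the set
of the points which are not regular is empty. -/
theorem resAt_tame {p : ℕ} (hp : p.Prime) {d : ℕ} (hd : ¬ p ∣ d) {a : Fin (n + 1) → ℤ}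
    (ha : ∀ i, a i ≠ 0) : ResAt (PW.diagF a d) p := by
  have h1 : ∀ i, ∃ k : ℕ, ∃ w : ℤ, ¬ (p : ℤ) ∣ w ∧ a i = (p : ℤ) ^ k * w := by
    intro i
    have h2 : FiniteMultiplicity (p : ℤ) (a i) := by
      rw [Int.finiteMultiplicity_iff]
      refine ⟨?_, ha i⟩
      rw [Int.natAbs_natCast]
      exact hp.ne_one
    obtain ⟨w, hw, hw'⟩ := h2.exists_eq_pow_mul_and_not_dvd
    exact ⟨_, w, hw', hw⟩
  choose c u hu hau using h1
  have hFF : PW.diagF a d = FF p c d u := by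
    unfold PW.diagF FF
    refine Finset.sum_congr rfl fun i _ => ?_
    rw [hau i]
  rw [hFF]
  intro K _ _ x hx hker
  have hd1 : 1 ≤ d := by
    rcases Nat.eq_zero_or_pos d with h | h
    · exact absurd (h ▸ dvd_zero p) hd
    · exact h
  obtain ⟨I, hI, v, m, D, F, huni⟩ := exists_uni (J := Fin (n + 1)) c hd1
  obtain ⟨B1, hB1⟩ := (Set.finite_range fun i => (m i).1).bddAbove
  obtain ⟨B2, hB2⟩ := (Set.finite_range fun q : I × Fin (n + 1) => pr (m q.1) (v q.1 q.2)).bddAbove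
  obtain ⟨K0, hK1, hK2⟩ : ∃ K0 : ℕ, (∀ i, (m i).1 < K0) ∧ ∀ i k, pr (m i) (v i k) ≤ K0 := by
    refine ⟨(max (B1 + 1) B2).toNat, fun i => ?_, fun i k => ?_⟩
    · have h2 := hB1 ⟨i, rfl⟩
      have h3 := Int.self_le_toNat (max (B1 + 1) B2)
      have h4 := le_max_left (B1 + 1) B2
      have h5 : (m i).1 ≤ B1 := h2
      omega
    · have h2 := hB2 ⟨(i, k), rfl⟩
      have h3 := Int.self_le_toNat (max (B1 + 1) B2)
      have h4 := le_max_right (B1 + 1) B2
      have h5 : pr (m i) (v i k) ≤ B2 := h2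
      omega
  have hreg : ∀ O : Subring K, O ∈ Loc (AT p x v m D K0) → (p : K) ∈ mx O →
      IsRegularLocalRing O := fun O hO hpO =>
    at_reg hp hx hu hd hker F huni hK1 hK2 hO hpO
  refine ⟨AT p x v m D K0, D, at_fg p x K0, F.pos, at_com hp hx F huni K0, ?_, ?_⟩
  · have h2 : {O : Subring K | O ∈ Loc (AT p x v m D K0) ∧ (p : K) ∈ mx O ∧
        ¬ IsRegularLocalRing O} = ∅ := by
      rw [Set.eq_empty_iff_forall_notMem]
      rintro O ⟨h3, h4, h5⟩
      exact h5 (hreg O h3 h4)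
    rw [h2]
    exact Set.finite_empty
  · intro O hO hpO hn
    exact absurd (hreg O hO hpO) hn

end Pool.Agent.DG
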