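import Pool.Agent.DG.GfR
import Pool.Agent.DG.GlA
import Pool.Agent.DG.TgH
import Pool.Agent.PW.MaA
import Pool.Agent.PW.MaK

set_option autoImplicit false

/-! # GFZ: diagonal hypersurfaces at the prime numbers which divide the degree once -/

namespace Pool.Agent.DG

open MvPolynomial Pool.Agent.NT9 Pool.Agent.PW

variable {n : ℕ}

section

variable {K : Type} [Field K] {ι : Type} [Fintype ι]

private theorem GFZ_prod_mem {A : Submodule ℤ K} {m : ℕ} (y : Fin m → K) (hy : ∀ l, y l ∈ A) :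
    ∏ l, y l ∈ A ^ m := by
  induction m with
  | zero =>
    rw [Fin.prod_univ_zero, pow_zero]
    exact Submodule.one_le.1 le_rfl
  | succ m ih =>
    rw [Fin.prod_univ_succ, pow_succ']
    exact Submodule.mul_mem_mul (hy 0) (ih (fun l => y l.succ) fun l => hy l.succ)

private theorem GFZ_com {p : ℕ} (x : Fin (n + 1) → K) {a : ι → ℤ} {f : ι → ℕ} {v : ι → K} (t : ι)
    (ha : a t = (p : ℤ)) (hv : v t ∈ Mo0 x ^ f t) :
    ComP p (Submodule.span ℤ (Set.range (gB x a f v t))) (Mo0 x ^ f t) := by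
  have hsm : ∀ (M : Submodule ℤ K) (N : ℤ) (z : K), z ∈ M → (N : K) * z ∈ M := by
    intro M N z hz
    rw [← zsmul_eq_mul]
    exact zsmul_mem hz N
  constructor
  · intro y hy
    refine ⟨0, ?_⟩
    rw [pow_zero, one_mul]
    revert hy
    revert y
    change Submodule.span ℤ (Set.range (gB x a f v t)) ≤ Mo0 x ^ f t
    rw [Submodule.span_le]
    rintro _ ⟨o, rfl⟩
    cases o with
    | none => exact hv
    | some w =>
      refine hsm _ _ _ (GFZ_prod_mem _ fun l => ?_)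
      exact Submodule.subset_span ⟨w l, rfl⟩
  · intro y hy
    refine ⟨1, ?_⟩
    have hpa : ((p : ℕ) : K) = ((a t : ℤ) : K) := by
      rw [ha]
      push_cast
      rfl
    rw [pow_one, hpa]
    unfold Mo0 at hy
    rw [Submodule.span_pow] at hy
    induction hy using Submodule.span_induction with
    | mem y hy =>
      rw [Set.mem_pow] at hy
      obtain ⟨g, rfl⟩ := hy
      rw [List.prod_ofFn]
      have hw : ∀ l, ∃ i, x i / x 0 = (g l : K) := fun l => (g l).2
      choose w hw using hw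
      refine Submodule.subset_span ⟨some w, ?_⟩
      change (a t : K) * ∏ l, x (w l) / x 0 = _
      congr 1
      exact Finset.prod_congr rfl fun l _ => hw l
    | zero =>
      rw [mul_zero]
      exact Submodule.zero_mem _
    | add y z _ _ hy hz =>
      rw [mul_add]
      exact Submodule.add_mem _ hy hz
    | smul N y _ hy =>
      rw [mul_smul_comm]
      exact Submodule.smul_mem _ _ hy

private theorem GFZ_eq (x : Fin (n + 1) → K) (a : ι → ℤ) (f : ι → ℕ) (v : ι → K) :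
    Mo1 x a f v = Mo0 x * ∏ t, Submodule.span ℤ (Set.range (gB x a f v t)) := by
  classical
  unfold Mo1 Mo0
  rw [Submodule.prod_span, Submodule.span_mul_span]
  congr 1
  open scoped Pointwise in
  ext y
  rw [Set.mem_mul]
  constructor
  · rintro ⟨⟨i, c⟩, rfl⟩
    refine ⟨x i / x 0, ⟨i, rfl⟩, ∏ t, gB x a f v t (c t), ?_, rfl⟩
    rw [Set.mem_fintype_prod]
    exact ⟨fun t => gB x a f v t (c t), fun t => ⟨c t, rfl⟩, rfl⟩
  · rintro ⟨_, ⟨i, rfl⟩, z, hz, rfl⟩
    rw [Set.mem_fintype_prod] at hz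
    obtain ⟨g, hg, rfl⟩ := hz
    choose c hc using hg
    refine ⟨⟨i, c⟩, ?_⟩
    simp only
    congr 1
    exact Finset.prod_congr rfl fun t _ => hc t

private theorem GFZ_mo1 {p : ℕ} (x : Fin (n + 1) → K) {a : ι → ℤ}
    (ha : ∀ t, a t = (p : ℤ)) {f : ι → ℕ} {v : ι → K} (hv : ∀ t, v t ∈ Mo0 x ^ f t) :
    ComP p (Mo1 x a f v) (Mo0 x ^ (1 + ∑ t, f t)) := by
  classical
  rw [GFZ_eq, pow_add, pow_one, ← Finset.prod_pow_eq_pow_sum]
  refine ComP.mul (ComP.refl _) ?_
  have key : ∀ s : Finset ι, ComP p (∏ t ∈ s, Submodule.span ℤ (Set.range (gB x a f v t)))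
      (∏ t ∈ s, Mo0 x ^ f t) := by
    intro s
    induction s using Finset.induction_on with
    | empty =>
      rw [Finset.prod_empty, Finset.prod_empty]
      exact ComP.refl _
    | insert t s ht ih =>
      rw [Finset.prod_insert ht, Finset.prod_insert ht]
      exact ComP.mul (GFZ_com x t (ha t) (hv t)) ih
  exact key Finset.univ

end

/-- As `PW.mot_com` (file `PW/MaK`) and `PW.mo1_com` (file `PW/MoA`), with one prime number. -/
theorem mot_comP {K : Type} [Field K] [CharZero K] {x : Fin (n + 1) → K} (hx : ∀ i, x i ≠ 0)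
    {p k e : ℕ} (hp : p.Prime) {S : MvPolynomial (Fin (n + 1)) ℤ} (hS : S.IsHomogeneous e) :
    ∃ E, 0 < E ∧ ComP p (MoT x {p} (fun _ => k) (fun _ => e) (fun _ => S)) (Mo0 x ^ E) := by
  refine ⟨1 + ∑ t : Ix {p} (fun _ => k), ((t.2 : ℕ) + 1) * e, by omega, ?_⟩
  unfold MoT
  refine GFZ_mo1 x (fun t => ?_) (fun t => ?_)
  · have h1 := Finset.mem_singleton.mp t.1.2
    rw [h1]
  · have h1 := form_mem hx hS
    have h2 := Submodule.pow_mem_pow _ h1 ((t.2 : ℕ) + 1)
    rw [← pow_mul, mul_comm] at h2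
    exact h2

private theorem GFZ_ne {m : ℕ} (hm : 1 ≤ m) {a : Fin (n + 1) → ℤ} (ha : a 0 ≠ 0) :
    diagF a m ≠ 0 := by
  intro h
  apply ha
  have h1 := congrArg (eval (fun i : Fin (n + 1) => if i = 0 then (1 : ℤ) else 0)) h
  rw [diagF, map_sum, map_zero, Finset.sum_eq_single 0] at h1
  · simpa using h1
  · intro b _ hb
    simp only [map_mul, eval_C, map_pow, eval_X, if_neg hb]
    rw [zero_pow (by omega), mul_zero]
  · intro h2
    exact absurd (Finset.mem_univ _) h2

private theorem GFZ_S {K : Type} [Field K] {p m : ℕ} (hp : p.Prime) (hm : 1 ≤ m)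
    {a : Fin (n + 1) → ℤ} (ha : a 0 ≠ 0) {x : Fin (n + 1) → K}
    (hker : ∀ h : MvPolynomial (Fin (n + 1)) ℤ, aeval x h = 0 ↔ diagF a (p * m) ∣ h) :
    aeval x (diagF a m) ≠ 0 := by
  intro h0
  obtain ⟨G, hG⟩ := (hker _).1 h0
  have hpm : 1 ≤ p * m := Nat.mul_pos hp.pos hm
  have hS0 := GFZ_ne hm ha
  have hF0 := GFZ_ne hpm ha
  have hG0 : G ≠ 0 := by
    rintro rfl
    exact hS0 (by rw [hG, mul_zero])
  have h3 := congrArg totalDegree hG
  rw [totalDegree_mul_of_isDomain hF0 hG0, (diagF_hom a m).totalDegree hS0,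
    (diagF_hom a (p * m)).totalDegree hF0] at h3
  have h4 : 2 * m ≤ p * m := Nat.mul_le_mul_right m hp.two_le
  omega

/-- Proof. `A = MoT x {p} (fun _ => p) (fun _ => m) (fun _ => diagF a m)`; `mot_comP`, `PW.mot_cases` with `W` from `diag_W2`, `diag_W2_hom` (`aeval x (diagF a m) ≠ 0`: otherwise the form `diagF a (p m)` divides `diagF a m`, a nonzero form of smaller degree). `deh_diag`, `PW.ker_thm`;
`wild_fin`, `wild_res` for `σ = {i // i ≠ c}`, for all charts `c` (nonempty as `1 ≤ n`; `NH.deh c W` satisfies the equation for `w`). Compare `PW.crit_resolution` (file `PW/MaB`). -/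
theorem resAt_wild (hn : 1 ≤ n) {p : ℕ} (hp : p.Prime) {m : ℕ} (hm : 1 ≤ m) (hpm : ¬ p ∣ m)
    {a : Fin (n + 1) → ℤ} (ha : ∀ i, ¬ (p : ℤ) ∣ a i) : ResAt (diagF a (p * m)) p := by
  classical
  intro K _ _ x hx hker
  have ha0 : a 0 ≠ 0 := by
    intro h
    exact ha 0 (h ▸ dvd_zero _)
  obtain ⟨W, hW⟩ := diag_W2 hp m a
  have hSx := GFZ_S hp hm ha0 hker
  have hFx : aeval x (diagF a (p * m)) = 0 := (hker _).2 dvd_rfl
  have hu : ¬ (p : ℤ) ∣ 1 := by
    intro h
    have := Int.natCast_dvd_natCast.mp (by simpa using h : (p : ℤ) ∣ ((1 : ℕ) : ℤ))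
    exact hp.one_lt.ne' (Nat.dvd_one.mp this)
  have hT : ∀ p' ∈ ({p} : Finset ℕ), p'.Prime ∧ 2 ≤ p ∧ (diagF a m).IsHomogeneous m ∧
      ¬ (p' : ℤ) ∣ 1 ∧ diagF a (p * m) = C 1 * diagF a m ^ p + C (p' : ℤ) * W ∧
      aeval x (diagF a m) ≠ 0 := by
    intro p' hp'
    rw [Finset.mem_singleton] at hp'
    subst hp'
    refine ⟨hp, hp.two_le, diagF_hom a m, hu, ?_, hSx⟩
    rw [C_1, one_mul]
    exact hW
  have hdeh : ∀ c : Fin (n + 1), sA (a c) (fun i : {i : Fin (n + 1) // i ≠ c} => a i.1) (p * m) =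
      sA (a c) (fun i : {i : Fin (n + 1) // i ≠ c} => a i.1) m ^ p +
        C (p : ℤ) * NH.deh c W := by
    intro c
    have h1 := congrArg (NH.deh c) hW
    have hC : ∀ a : ℤ, NH.deh c (C a) = C a := by
      intro a
      rw [← algebraMap_eq, AlgHom.commutes, algebraMap_eq]
    rw [map_add, map_mul, map_pow, hC, deh_diag, deh_diag] at h1
    exact h1
  have hkm : ∀ c : Fin (n + 1), RingHom.ker (thm x c) =
      Ideal.span {sA (a c) (fun i : {i : Fin (n + 1) // i ≠ c} => a i.1) (p * m)} := by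
    intro c
    rw [← deh_diag]
    exact ker_thm hx (diagF_hom a (p * m)) hker c
  have hne : ∀ c : Fin (n + 1), Nonempty {i : Fin (n + 1) // i ≠ c} := by
    intro c
    haveI : Nontrivial (Fin (n + 1)) := Fin.nontrivial_iff_two_le.2 (by omega)
    obtain ⟨i, hi⟩ := exists_ne c
    exact ⟨⟨i, hi⟩⟩
  have hcase : ∀ O ∈ Loc (MoT x {p} (fun _ => p) (fun _ => m) (fun _ => diagF a m)),
      (p : K) ∈ mx O → ∃ c : Fin (n + 1), ∃ i, i < p ∧
        Wd (thm x c) (sA (a c) (fun i : {i : Fin (n + 1) // i ≠ c} => a i.1) m) (NH.deh c W)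
          1 p p i
          ((p : K) / thm x c (sA (a c) (fun i : {i : Fin (n + 1) // i ≠ c} => a i.1) m) ^ i)
          (thm x c (sA (a c) (fun i : {i : Fin (n + 1) // i ≠ c} => a i.1) m) ^ (i + 1) /
            (p : K)) O := by
    intro O hO hpO
    obtain ⟨c, -, h | ⟨p', hp', i, hi, hWd⟩⟩ := mot_cases hx (T := {p}) (k := fun _ => p)
      (e := fun _ => m) (u := fun _ => 1) (S := fun _ => diagF a m) (W := fun _ => W)
      (diagF_hom a (p * m)) hFx hT hO
    · exact absurd hpO (h.2 p (Finset.mem_singleton_self p))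
    · rw [Finset.mem_singleton] at hp'
      subst hp'
      simp only [deh_diag] at hWd
      exact ⟨c, i, hi, hWd⟩
  obtain ⟨E, hE, hcom⟩ := mot_comP (p := p) (k := p) hx hp (diagF_hom a m)
  refine ⟨MoT x {p} (fun _ => p) (fun _ => m) (fun _ => diagF a m), E, mo1_fg _ _ _ _, hE, hcom,
    ?_, ?_⟩
  · refine Set.Finite.subset (Set.finite_iUnion fun c : Fin (n + 1) =>
      have := hne c
      wild_fin (K := K) (θ := thm x c) (a0 := a c)
        (a := fun i : {i : Fin (n + 1) // i ≠ c} => a i.1) (w := NH.deh c W) hp hm hpm (ha c) (fun i => ha i.1) (hdeh c) (hkm c)) ?_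
    rintro O ⟨hO, hpO, hnr⟩
    obtain ⟨c, i, hi, hWd⟩ := hcase O hO hpO
    exact Set.mem_iUnion.2 ⟨c, hO.1, hnr, i, hi, hWd⟩
  · intro O hO hpO hnr
    have hloc : IsLocalRing O := hO.1
    obtain ⟨c, i, hi, hWd⟩ := hcase O hO hpO
    have := hne c
    exact wild_res (θ := thm x c) (a0 := a c) (a := fun i : {i : Fin (n + 1) // i ≠ c} => a i.1)
      (w := NH.deh c W) (O := O) hp hm hpm (ha c) (fun i => ha i.1) (hdeh c) (hkm c) hi hWd hnr

end Pool.Agent.DG
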