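import Pool.Agent.NodHyp.Stmt

set_option autoImplicit false

/-! # GLF: multiples of the equation -/

open AlgebraicGeometry CategoryTheory

namespace Pool.Agent.DG

open MvPolynomial

/-- Proof: the ideals generated by the images of `F` and `C g * F` in `ℚ[x]` are equal. -/
theorem model_mul {n : ℕ} {F : MvPolynomial (Fin (n + 1)) ℤ} {g : ℤ} (hg : g ≠ 0)
    (h : NH.HasRegularModel F) : NH.HasRegularModel (C g * F) := by
  intro B _ _ ℬ _ y hy hsurj hker X hX
  refine h B ℬ y hy hsurj ?_ X hX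
  rw [hker, map_mul, map_C, eq_intCast]
  have hu : IsUnit (C ((g : ℤ) : ℚ) : MvPolynomial (Fin (n + 1)) ℚ) :=
    (IsUnit.mk0 ((g : ℤ) : ℚ) (Int.cast_ne_zero.2 hg)).map C
  exact Ideal.span_singleton_mul_left_unit hu _

end Pool.Agent.DG
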