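import Pool.Agent.DG.GlE
import Pool.Agent.DG.GlF
import Pool.Agent.DG.TgH
import Pool.Agent.DG.GfZ
import Pool.Agent.PW.FeB

set_option autoImplicit false

/-! # DGZ: diagonal hypersurfaces of squarefree degree -/

namespace Pool.Agent.DG

open MvPolynomial Pool.Agent.PW

private theorem dgz_coeff {n : ℕ} (a : Fin (n + 1) → ℤ) {l : ℕ} (hl : 1 ≤ l) (i : Fin (n + 1)) :
    coeff (Finsupp.single i l) (diagF a l) = a i := by
  rw [diagF, coeff_sum, Finset.sum_eq_single i]
  · rw [coeff_C_mul, coeff_X_pow, if_pos rfl, mul_one]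
  · intro b _ hb
    rw [coeff_C_mul, coeff_X_pow, if_neg, mul_zero]
    intro h
    exact hb ((Finsupp.single_left_inj (by omega : l ≠ 0)).1 h)
  · intro h
    exact absurd (Finset.mem_univ i) h

/-- Proof. Divide by the greatest common divisor `g` of the coefficients (`model_mul`); the new coefficients are nonzero and prime to `d`. `crit2` with `diagF_hom`, `diag_smooth`; primitive: some coefficient is not divisible by `p`. `ResAt` at every prime number: `resAt_tame` if `p ∤ d`;
if `p ∣ d` then `d = p * m` with `p ∤ m` (`d` is squarefree): `resAt_wild`. -/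
theorem diag_squarefree {n d : ℕ} (hn : 2 ≤ n) (hd : 2 ≤ d) (hsq : Squarefree d)
    {a : Fin (n + 1) → ℤ} (ha : ∀ i, a i ≠ 0) (had : ∀ i, IsCoprime (a i) (d : ℤ)) :
    NH.HasRegularModel (diagF a d) := by
  obtain ⟨b, hb, hb1⟩ := Finset.extract_gcd a (Finset.univ_nonempty (α := Fin (n + 1)))
  have hg : Finset.univ.gcd a ≠ 0 := by
    intro h
    have h1 := hb 0 (Finset.mem_univ _)
    rw [h, zero_mul] at h1
    exact ha 0 h1
  have hb0 : ∀ i, b i ≠ 0 := by
    intro i h
    have h1 := hb i (Finset.mem_univ _)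
    rw [h, mul_zero] at h1
    exact ha i h1
  have hbd : ∀ i, IsCoprime (b i) (d : ℤ) := fun i =>
    IsCoprime.of_isCoprime_of_dvd_left (had i) ⟨Finset.univ.gcd a, by
      rw [hb i (Finset.mem_univ _), mul_comm]⟩
  have heq : diagF a d = C (Finset.univ.gcd a) * diagF b d := by
    rw [diagF, diagF, Finset.mul_sum]
    refine Finset.sum_congr rfl fun i hi => ?_
    rw [← mul_assoc, ← map_mul, ← hb i hi]
  rw [heq]
  refine model_mul hg (crit2 hn hd (diagF_hom b d) (diag_smooth hd hb0) ?_ ?_)
  · intro p hp h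
    rw [C_dvd_iff_dvd_coeff] at h
    have h1 : ∀ i ∈ (Finset.univ : Finset (Fin (n + 1))), (p : ℤ) ∣ b i := fun i _ => by
      have := h (Finsupp.single i d)
      rwa [dgz_coeff b (by omega)] at this
    have h2 := Finset.dvd_gcd h1
    rw [hb1] at h2
    exact hp.one_lt.ne' (Int.natCast_dvd_natCast.1 (by exact_mod_cast h2) |> Nat.dvd_one.1)
  · intro p hp
    right
    by_cases hpd : p ∣ d
    · obtain ⟨m, rfl⟩ := hpd
      have hm : 1 ≤ m := by
        rcases Nat.eq_zero_or_pos m with h | h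
        · rw [h, mul_zero] at hd
          omega
        · exact h
      have hpm : ¬ p ∣ m := by
        rintro ⟨c, rfl⟩
        have h1 := hsq p ⟨c, by ring⟩
        exact hp.one_lt.ne' (Nat.isUnit_iff.1 h1)
      refine resAt_wild (by omega) hp hm hpm fun i h => ?_
      have h1 : IsUnit ((p : ℕ) : ℤ) := (hbd i).isUnit_of_dvd' h ⟨(m : ℤ), by push_cast; rfl⟩
      exact hp.one_lt.ne' (Nat.isUnit_iff.1 (Int.ofNat_isUnit.1 h1))
    · exact resAt_tame hp hpd hb0

end Pool.Agent.DG
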