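import Pool.Agent.DG.PcDefs

set_option autoImplicit false

/-! # GFA: from the contact form to the general form -/

namespace Pool.Agent.DG

open MvPolynomial Pool.Agent.NT9 Pool.Agent.PW

variable {σ : Type} [Fintype σ] {s w : MvPolynomial σ ℤ} {p m N : ℕ}
  {M : Ideal (MvPolynomial σ ℤ)} {c : σ} {D l β : MvPolynomial σ ℤ}
  {q : Iv M c → Iv M c → MvPolynomial σ ℤ} {h : Lv M → MvPolynomial σ ℤ}

/-- Proof. `ctE2 ∈ M ^ 2`: `X_j ^ N - X_c ^ N = gη j ∈ M` for `j : Iv M c`; `X b ^ m ∈ M ^ 2` for `b : Lv M`, as `2 ≤ m`. -/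
theorem gform_of (hg : CtG s w p m N M c D l β q h) :
    GForm s w p M c (gη s N M c) D l β (ctE2 m N M c q h) := by
  have h1 : ∀ j : Iv M c, (X j.1 ^ N - X c ^ N : MvPolynomial σ ℤ) ∈ M := by
    intro j
    have h2 := hg.gM j.1
    unfold gη at h2
    rw [if_neg j.2.1, if_neg j.2.2] at h2
    exact h2
  refine ⟨hg.hD, hg.hl, hg.hc, if_pos rfl, hg.gM, hg.jac, ?_, hg.eq⟩
  unfold ctE2
  refine Ideal.add_mem _ (Ideal.sum_mem _ fun j _ => Ideal.sum_mem _ fun k _ => ?_)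
    (Ideal.sum_mem _ fun b _ => ?_)
  · rw [pow_two, mul_assoc]
    exact Ideal.mul_mem_left _ _ (Ideal.mul_mem_mul (h1 j) (h1 k))
  · exact Ideal.mul_mem_left _ _
      (Ideal.pow_le_pow_right (hg.hm ⟨b⟩) (Ideal.pow_mem_pow b.2 m))

end Pool.Agent.DG
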