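import Pool.Agent.DG.GfI
import Pool.Agent.DG.GfJ
import Pool.Agent.PW.WdB
import Pool.Agent.NT9.GeFrB

set_option autoImplicit false

/-! # GFD: the local rings over a prime number of the second kind -/

namespace Pool.Agent.DG

open MvPolynomial Pool.Agent.NT9 Pool.Agent.PW

variable {σ : Type} [Fintype σ] [DecidableEq σ] {s w : MvPolynomial σ ℤ} {u : ℤ} {p k : ℕ}
  {K : Type} [Field K] {θ : MvPolynomial σ ℤ →+* K}

/-- Proof: as `PW.wd_cases` (file `PW/WdD`), with `ind_gf`. -/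
theorem gf_cases (hp : p.Prime) (hk : 2 ≤ k) (hu : ¬ (p : ℤ) ∣ u) {f : MvPolynomial σ ℤ}
    (hker : RingHom.ker θ = Ideal.span {f}) (hf : f = C u * s ^ k + C (p : ℤ) * w)
    {c : Ideal (MvPolynomial σ ℤ) → σ} {η : Ideal (MvPolynomial σ ℤ) → σ → MvPolynomial σ ℤ}
    {D l β E : Ideal (MvPolynomial σ ℤ) → MvPolynomial σ ℤ}
    (hd : ∀ M, IsCt s w p M → M.IsMaximal ∧ GForm s w p M (c M) (η M) (D M) (l M) (β M) (E M))
    {i : ℕ} (hi : i < k) {a b : K} {O : Subring K} [IsLocalRing O]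
    (h : Wd θ s w u p k i a b O) (hnr : ¬ IsRegularLocalRing O) :
    ∃ (M : Ideal (MvPolynomial σ ℤ)) (Q : Ideal (MvPolynomial (V0 σ) ℤ)), IsCt s w p M ∧
      Q.IsPrime ∧ (∀ t, t ∈ Q ↔ pi0 θ a b t ∈ mx O) ∧
      (TypeA M (D M) (l M) (β M) u k i Q ∨ TypeB M (D M) (l M) (β M) u k i Q) := by
  by_contra hcon
  apply hnr
  refine Wd.regular hker hf hi h ?_
  intro Q hQ hQm g hg
  have hpQ : (C (p : ℤ) : MvPolynomial (V0 σ) ℤ) ∈ Q := by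
    rw [hQm]
    have h1 : pi0 θ a b (C (p : ℤ)) = (p : K) := by simp [pi0]
    rw [h1]
    exact h.pmx
  have hrel : ∀ j, rel0 s w u p k i j ∈ Q := by
    intro j
    rw [hQm, h.rel j]
    exact zero_mem_mx
  obtain ⟨-, hs⟩ := rel_ab hpQ hrel
  by_cases hw : jl w ∈ Q
  · by_cases hm : ∀ c' b', jl (vm s w c' b') ∈ Q
    · let M : Ideal (MvPolynomial σ ℤ) := Q.comap (rename Sum.inl : MvPolynomial σ ℤ →ₐ[ℤ] _)
      have hMQ : ∀ m ∈ M, jl m ∈ Q := fun m hm => hm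
      have hM : IsCt s w p M := by
        refine ⟨Ideal.comap_isPrime _ _, ?_, hs, hw, fun c' b' => hm c' b'⟩
        change rename Sum.inl (C (p : ℤ)) ∈ Q
        rw [rename_C]
        exact hpQ
      obtain ⟨hmax, hcf⟩ := hd M hM
      refine ind_gf hp hk hi hu hpQ hrel hMQ hM hcf ?_ ?_ g hg
      · intro hA
        exact hcon ⟨M, Q, hM, hQ, hQm, Or.inl hA⟩
      · intro hB
        exact hcon ⟨M, Q, hM, hQ, hQm, Or.inr hB⟩
    · push Not at hm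
      obtain ⟨c', b', hm⟩ := hm
      exact ind_tr hp hi hpQ hrel hm g hg
  · exact ind_unit hp hk hi hpQ hrel hw g hg

/-- Proof: as `PW.wd_fin` (file `PW/WdE`). -/
theorem gf_fin (hp : p.Prime) (hk : 2 ≤ k) (hk2 : k = 2 → p = 2) (hu : ¬ (p : ℤ) ∣ u)
    {f : MvPolynomial σ ℤ}
    (hker : RingHom.ker θ = Ideal.span {f}) (hf : f = C u * s ^ k + C (p : ℤ) * w)
    {c : Ideal (MvPolynomial σ ℤ) → σ} {η : Ideal (MvPolynomial σ ℤ) → σ → MvPolynomial σ ℤ}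
    {D l β E : Ideal (MvPolynomial σ ℤ) → MvPolynomial σ ℤ}
    (hd : ∀ M, IsCt s w p M → M.IsMaximal ∧ GForm s w p M (c M) (η M) (D M) (l M) (β M) (E M))
    (hcf : {M : Ideal (MvPolynomial σ ℤ) | IsCt s w p M}.Finite) :
    {O : Subring K | IsLocalRing O ∧ ¬ IsRegularLocalRing O ∧
      ∃ i, i < k ∧ Wd θ s w u p k i ((p : K) / θ s ^ i) (θ s ^ (i + 1) / (p : K)) O}.Finite := by
  classical
  have hsub : {O : Subring K | IsLocalRing O ∧ ¬ IsRegularLocalRing O ∧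
      ∃ i, i < k ∧ Wd θ s w u p k i ((p : K) / θ s ^ i) (θ s ^ (i + 1) / (p : K)) O} ⊆
      ⋃ i ∈ {i : ℕ | i < k}, ⋃ M ∈ {M : Ideal (MvPolynomial σ ℤ) | IsCt s w p M},
        ⋃ Q ∈ {Q : Ideal (MvPolynomial (V0 σ) ℤ) | Q.IsPrime ∧
          (TypeA M (D M) (l M) (β M) u k i Q ∨ TypeB M (D M) (l M) (β M) u k i Q)},
          {O : Subring K | IsFr (pi0 θ ((p : K) / θ s ^ i) (θ s ^ (i + 1) / (p : K))).range O ∧
            ∀ t, t ∈ Q ↔ pi0 θ ((p : K) / θ s ^ i) (θ s ^ (i + 1) / (p : K)) t ∈ mx O} := by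
    rintro O ⟨hO, hnr, i, hi, h⟩
    obtain ⟨M, Q, hM, hQ, hQm, hty⟩ := gf_cases hp hk hu hker hf hd hi h hnr
    simp only [Set.mem_iUnion, Set.mem_ofPred_eq]
    refine ⟨i, hi, M, hM, Q, ⟨hQ, hty⟩, ⟨?_, ?_⟩, hQm⟩
    · rintro _ ⟨t, rfl⟩
      exact pi0_mem θ h.poly h.aO h.bO t
    · intro x hx
      obtain ⟨g, h', h1, h2, h3⟩ := h.fr x hx
      exact ⟨_, ⟨g, rfl⟩, _, ⟨h', rfl⟩, h1, h2, h3⟩
  refine Set.Finite.subset ?_ hsub
  refine Set.Finite.biUnion (Set.finite_lt_nat k) fun i hi => ?_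
  refine Set.Finite.biUnion hcf fun M hM => ?_
  obtain ⟨hmax, hg⟩ := hd M hM
  refine Set.Finite.biUnion (tyG_fin hp hk hi hk2 hM hg) fun Q _ => ?_
  refine Set.Subsingleton.finite ?_
  rintro O1 ⟨h1, h1'⟩ O2 ⟨h2, h2'⟩
  refine eq_of_fr h1 h2 ?_
  rintro _ ⟨t, rfl⟩
  rw [← h1' t, ← h2' t]

end Pool.Agent.DG
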