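import Pool.Agent.PW.OdpDefs
import Pool.Agent.NT9.GeSub

set_option autoImplicit false

/-!
# Singularities `q (x) + ∑ h_l y_l ^ m = 0` with a smooth quadratic form `q` and units `h_l`:
definitions
-/

namespace Pool.Agent.DG

open MvPolynomial Pool.Agent.NT9

variable {τ κ ι lam : Type} [Fintype τ] [Fintype κ] [Fintype ι] [Fintype lam] {K : Type} [Field K]

/-- The equation `∑ A_ij x_i x_j + ∑ h_l y_l ^ m`. -/
noncomputable def sqF (x : ι → MvPolynomial τ ℤ) (y : lam → MvPolynomial τ ℤ)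
    (A : ι → ι → MvPolynomial τ ℤ) (h : lam → MvPolynomial τ ℤ) (m : ℕ) : MvPolynomial τ ℤ :=
  ∑ i, ∑ j, A i j * x i * x j + ∑ l, h l * y l ^ m

/-- The local ring `O` is given by the equation `sqF`: the maximal ideal is generated by the `x i`
and the `y l`. `Q` is the corresponding maximal ideal of `ℤ[τ]`, the parameters `z`, `r k` at `Q`
vanish in `O`. -/
structure Sq (e : κ ⊕ (ι ⊕ lam) ≃ τ) (π : MvPolynomial τ ℤ →+* K) (Q : Ideal (MvPolynomial τ ℤ))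
    (z : MvPolynomial τ ℤ) (r : κ → MvPolynomial τ ℤ) (x : ι → MvPolynomial τ ℤ)
    (y : lam → MvPolynomial τ ℤ) (A : ι → ι → MvPolynomial τ ℤ) (h : lam → MvPolynomial τ ℤ)
    (m : ℕ) (O : Subring K) : Prop where
  par : Par Q z fun t => Sum.elim r (Sum.elim x y) (e.symm t)
  memQ : ∀ t, t ∈ Q ↔ π t ∈ mx O
  poly : ∀ t, π t ∈ O
  z0 : π z = 0
  r0 : ∀ k, π (r k) = 0
  fr : ∀ t ∈ O, ∃ g g' : MvPolynomial τ ℤ, π g' ≠ 0 ∧ (π g')⁻¹ ∈ O ∧ t * π g' = π g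
  sm : SmF A Q
  hu : ∀ l, h l ∉ Q
  rel : π (sqF x y A h m) = 0
  tor : ∃ d, π d ≠ 0 ∧ ∀ t, π t = 0 → ∃ N : ℕ, d ^ N * t ∈
    Ideal.span (insert z (insert (sqF x y A h m) (Set.range r)))

/-- The new variables of the charts: `inl 0 = a`, `inl 1 = b`, `inr (inl j) = V_j`,
`inr (inr l) = E_l`. -/
abbrev NV (ι lam : Type) : Type := Fin 2 ⊕ (ι ⊕ lam)

/-- The variables of the charts; `inl t`: the old variables. -/
abbrev VS (τ ι lam : Type) : Type := τ ⊕ NV ι lam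

noncomputable abbrev sa (τ ι lam : Type) : MvPolynomial (VS τ ι lam) ℤ := X (Sum.inr (Sum.inl 0))

noncomputable abbrev sb (τ ι lam : Type) : MvPolynomial (VS τ ι lam) ℤ := X (Sum.inr (Sum.inl 1))

noncomputable abbrev sV (τ lam : Type) {ι : Type} (j : ι) : MvPolynomial (VS τ ι lam) ℤ :=
  X (Sum.inr (Sum.inr (Sum.inl j)))

noncomputable abbrev sE (τ ι : Type) {lam : Type} (l : lam) : MvPolynomial (VS τ ι lam) ℤ :=
  X (Sum.inr (Sum.inr (Sum.inr l)))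

noncomputable abbrev sl (ι lam : Type) {τ : Type} (t : MvPolynomial τ ℤ) :
    MvPolynomial (VS τ ι lam) ℤ := rename Sum.inl t

/-- The monomial `a ^ w 0 * b ^ w 1`. -/
noncomputable def mab (τ ι lam : Type) (w : Fin 2 → ℕ) : MvPolynomial (VS τ ι lam) ℤ :=
  sa τ ι lam ^ w 0 * sb τ ι lam ^ w 1

/-- `∑ A_ij V_i V_j`. -/
noncomputable def sQV (lam : Type) (A : ι → ι → MvPolynomial τ ℤ) : MvPolynomial (VS τ ι lam) ℤ :=
  ∑ i, ∑ j, sl ι lam (A i j) * sV τ lam i * sV τ lam j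

/-- `∑ h_l E_l ^ m`. -/
noncomputable def sHV (ι : Type) (h : lam → MvPolynomial τ ℤ) (m : ℕ) :
    MvPolynomial (VS τ ι lam) ℤ :=
  ∑ l, sl ι lam (h l) * sE τ ι l ^ m

/-- The relations of a chart: the variables `n1`, `n2` are `1`; the strict transform
`a ^ e 0 b ^ e 1 ∑ A_ij V_i V_j + a ^ f 0 b ^ f 1 ∑ h_l E_l ^ m = 0`; `z = 0`, `r k = 0`;
`x_j = a ^ w 0 b ^ w 1 V_j`, `y_l = a ^ u 0 b ^ u 1 E_l`. -/
noncomputable def relS (z : MvPolynomial τ ℤ) (r : κ → MvPolynomial τ ℤ)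
    (x : ι → MvPolynomial τ ℤ) (y : lam → MvPolynomial τ ℤ) (A : ι → ι → MvPolynomial τ ℤ)
    (h : lam → MvPolynomial τ ℤ) (m : ℕ) (w u e f : Fin 2 → ℕ) (n1 n2 : NV ι lam) :
    Fin 3 ⊕ (Option κ ⊕ (ι ⊕ lam)) → MvPolynomial (VS τ ι lam) ℤ
  | Sum.inl 0 => X (Sum.inr n1) - 1
  | Sum.inl 1 => X (Sum.inr n2) - 1
  | Sum.inl 2 => mab τ ι lam e * sQV lam A + mab τ ι lam f * sHV ι h m
  | Sum.inr (Sum.inl none) => sl ι lam z
  | Sum.inr (Sum.inl (some k)) => sl ι lam (r k)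
  | Sum.inr (Sum.inr (Sum.inl j)) => sl ι lam (x j) - mab τ ι lam w * sV τ lam j
  | Sum.inr (Sum.inr (Sum.inr l)) => sl ι lam (y l) - mab τ ι lam u * sE τ ι l

/-- The values of the new variables. -/
def nval (a b : K) (V : ι → K) (E : lam → K) : NV ι lam → K :=
  Sum.elim ![a, b] (Sum.elim V E)

/-- The evaluation of the chart. -/
noncomputable def piS (π : MvPolynomial τ ℤ →+* K) (a b : K) (V : ι → K) (E : lam → K) :
    MvPolynomial (VS τ ι lam) ℤ →+* K :=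
  ((aeval (Sum.elim (fun t => π (X t)) (nval a b V E)) :
    MvPolynomial (VS τ ι lam) ℤ →ₐ[ℤ] K) : MvPolynomial (VS τ ι lam) ℤ →+* K)

/-- `O'` is a local ring of a chart with the coordinates `a`, `b`, `V`, `E`. -/
structure SCh (π : MvPolynomial τ ℤ →+* K) (z : MvPolynomial τ ℤ) (r : κ → MvPolynomial τ ℤ)
    (x : ι → MvPolynomial τ ℤ) (y : lam → MvPolynomial τ ℤ) (A : ι → ι → MvPolynomial τ ℤ)
    (h : lam → MvPolynomial τ ℤ) (m : ℕ) (w u e f : Fin 2 → ℕ) (n1 n2 : NV ι lam) (a b : K)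
    (V : ι → K) (E : lam → K) (O O' : Subring K) : Prop where
  le : O ≤ O'
  dom : ∀ t ∈ mx O, t ∈ mx O'
  co : ∀ c, nval a b V E c ∈ O'
  rel : ∀ i, piS π a b V E (relS z r x y A h m w u e f n1 n2 i) = 0
  fr : ∀ t ∈ O', ∃ g g' : MvPolynomial (VS τ ι lam) ℤ, piS π a b V E g' ≠ 0 ∧
    (piS π a b V E g')⁻¹ ∈ O' ∧ t * piS π a b V E g' = piS π a b V E g

/-- The relations are independent at the prime ideal `P`. -/
def SInd (z : MvPolynomial τ ℤ) (r : κ → MvPolynomial τ ℤ)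
    (x : ι → MvPolynomial τ ℤ) (y : lam → MvPolynomial τ ℤ) (A : ι → ι → MvPolynomial τ ℤ)
    (h : lam → MvPolynomial τ ℤ) (m : ℕ) (w u e f : Fin 2 → ℕ) (n1 n2 : NV ι lam)
    (P : Ideal (MvPolynomial (VS τ ι lam) ℤ)) : Prop :=
  ∀ g : Fin 3 ⊕ (Option κ ⊕ (ι ⊕ lam)) → MvPolynomial (VS τ ι lam) ℤ,
    ∑ i, g i * relS z r x y A h m w u e f n1 n2 i ∈ P ^ 2 → ∀ i, g i ∈ P

end Pool.Agent.DG
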