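import Pool.Agent.DG.GfA
import Pool.Agent.DG.GfI
import Pool.Agent.DG.SqDefs
import Pool.Agent.PW.CtD
import Pool.Agent.PW.CtF
import Pool.Agent.PW.CaB
import Pool.Agent.PW.WdB

set_option autoImplicit false

/-! # GFS: the singularities over a contact point -/

namespace Pool.Agent.DG

open MvPolynomial Pool.Agent.NT9 Pool.Agent.PW

/-- The bijection of the parameters with the variables. -/
noncomputable def gfE {σ : Type} [Fintype σ] {M : Ideal (MvPolynomial σ ℤ)} {c : σ}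
    (hc : (X c : MvPolynomial σ ℤ) ∉ M) :
    Unit ⊕ ((Iv M c ⊕ Fin 2) ⊕ Lv M) ≃ V0 σ := by
  classical
  exact
  { toFun := Sum.elim (fun _ => Sum.inl c) (Sum.elim (Sum.elim (fun j => Sum.inl j.1)
      (fun t => Sum.inr t)) (fun j => Sum.inl j.1))
    invFun := Sum.elim (fun b => if h1 : b = c then Sum.inl () else
        if h2 : (X b : MvPolynomial σ ℤ) ∈ M then Sum.inr (Sum.inr ⟨b, h2⟩)
        else Sum.inr (Sum.inl (Sum.inl ⟨b, h1, h2⟩)))
      (fun t => Sum.inr (Sum.inl (Sum.inr t)))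
    left_inv := by
      rintro (⟨⟩ | ((⟨j, hj, hj'⟩ | t) | ⟨j, hj⟩))
      · simp
      · simp [hj, hj']
      · simp
      · have hjc : j ≠ c := by
          rintro rfl
          exact hc hj
        simp [hj, hjc]
    right_inv := by
      rintro (b | t)
      · by_cases h1 : b = c
        · simp [h1]
        · by_cases h2 : (X b : MvPolynomial σ ℤ) ∈ M
          · simp [h1, h2]
          · simp [h1, h2]
      · simp }

variable {σ : Type} [Fintype σ] [DecidableEq σ] {s w : MvPolynomial σ ℤ} {u : ℤ} {p m N k i : ℕ}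
  {M : Ideal (MvPolynomial σ ℤ)} {c : σ} {D l β : MvPolynomial σ ℤ}
  {q : Iv M c → Iv M c → MvPolynomial σ ℤ} {h : Lv M → MvPolynomial σ ℤ}
  {K : Type} [Field K] {θ : MvPolynomial σ ℤ →+* K} {a b : K} {O : Subring K}

/-- The quadratic form `∑ q_jk v_j v_k + y th`. -/
noncomputable def gfQ (q : Iv M c → Iv M c → MvPolynomial σ ℤ) :
    Iv M c ⊕ Fin 2 → Iv M c ⊕ Fin 2 → MvPolynomial (V0 σ) ℤ
  | Sum.inl j, Sum.inl k => jl (q j k)
  | Sum.inr 0, Sum.inr 1 => 1
  | _, _ => 0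

/-- As `PW.ctQ_sm` (file `PW/CtF`). -/
theorem gfQ_sm (hq : SmF q M) {Q : Ideal (MvPolynomial (V0 σ) ℤ)} (hMQ : ∀ m ∈ M, jl m ∈ Q) :
    SmF (gfQ q) Q := by
  intro L _ χ hχ v h1 h2
  have e00 : (gfQ q (Sum.inr 0) (Sum.inr 0)) = 0 := rfl
  have e01 : (gfQ q (Sum.inr 0) (Sum.inr 1)) = 1 := rfl
  have e10 : (gfQ q (Sum.inr 1) (Sum.inr 0)) = 0 := rfl
  have e11 : (gfQ q (Sum.inr 1) (Sum.inr 1)) = 0 := rfl
  have ejk : ∀ j k, (gfQ q (Sum.inl j) (Sum.inl k)) = jl (q j k) := fun j k => rfl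
  have ejt : ∀ j t, (gfQ q (Sum.inl j) (Sum.inr t)) = 0 := fun j t => rfl
  have et0 : ∀ k, (gfQ q (Sum.inr 0) (Sum.inl k)) = 0 := fun k => rfl
  have et1 : ∀ k, (gfQ q (Sum.inr 1) (Sum.inl k)) = 0 := fun k => rfl
  have hv1 : v (Sum.inr 1) = 0 := by
    have h3 := h2 (Sum.inr 0)
    rw [Fintype.sum_sum_type, Fin.sum_univ_two] at h3
    simp only [e00, e01, e10, ejt, et0, add_zero, map_zero, zero_mul, Finset.sum_const_zero,
      zero_add, map_one, one_mul] at h3
    exact h3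
  have hv0 : v (Sum.inr 0) = 0 := by
    have h3 := h2 (Sum.inr 1)
    rw [Fintype.sum_sum_type, Fin.sum_univ_two] at h3
    simp only [e11, e01, e10, ejt, et1, add_zero, map_zero, zero_mul, Finset.sum_const_zero,
      zero_add, map_one, one_mul] at h3
    exact h3
  have h4 := hq L (χ.comp (rename (Sum.inl : σ → V0 σ) :
    MvPolynomial σ ℤ →ₐ[ℤ] MvPolynomial (V0 σ) ℤ).toRingHom) (fun m hm => hχ _ (hMQ m hm))
    (fun j => v (Sum.inl j)) ?_ ?_
  · funext x
    rcases x with j | t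
    · exact congrFun h4 j
    · fin_cases t
      · exact hv0
      · exact hv1
  · rw [Fintype.sum_sum_type] at h1
    simp only [Fintype.sum_sum_type, Fin.sum_univ_two, hv0, hv1, mul_zero, zero_mul, add_zero,
      ejk, Finset.sum_const_zero] at h1
    exact h1
  · intro j
    have h3 := h2 (Sum.inl j)
    simp only [Fintype.sum_sum_type, Fin.sum_univ_two, hv0, hv1, mul_zero, add_zero, ejk] at h3
    rw [← h3]
    refine Finset.sum_congr rfl fun k _ => ?_
    show χ (jl (q j k + q k j)) * v (Sum.inl k) = _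
    have h5 : jl (q j k + q k j) = jl (q j k) + jl (q k j) := map_add _ _ _
    rw [h5]

/-- The quadratic form, written out. -/
private theorem gfS_form (q : Iv M c → Iv M c → MvPolynomial σ ℤ)
    (v : Iv M c → MvPolynomial (V0 σ) ℤ) (y th : MvPolynomial (V0 σ) ℤ) :
    ∑ i, ∑ j, gfQ q i j * (Sum.elim v ![y, th] : Iv M c ⊕ Fin 2 → _) i *
      (Sum.elim v ![y, th] : Iv M c ⊕ Fin 2 → _) j =
      ∑ j, ∑ k, jl (q j k) * v j * v k + y * th := by
  rw [Fintype.sum_sum_type]
  simp only [Fintype.sum_sum_type, Fin.sum_univ_two, Sum.elim_inl, Sum.elim_inr, gfQ,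
    Matrix.cons_val_zero, Matrix.cons_val_one]
  simp

/-- The points of type A or B. Proof: as `PW.odp_of_type` (file `PW/CtO`). `par`: `PW.par_of_jac` gives `Par Q (C p) (tyG s c (gη s N M c) y th)`; replace `C p` by `rel0 .. 1` as `va ^ (i + 1) * vb ^ i ∈ span {y}`. `rel`: `gf_rel` for `gform_of hg` (`jl (ctE2 ..)` is the part of `sqF` without `y * th`),
`Wd.rel`, `hG`. `hu`: `jl (h b) ∉ Q` since the comap of `Q` is `M`. `tor`: `Wd.tor` with `jl D * jl (C p * s)`. -/
theorem sq_of_type [IsLocalRing O] {f : MvPolynomial σ ℤ} (hker : RingHom.ker θ = Ideal.span {f})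
    (hf : f = C u * s ^ k + C (p : ℤ) * w) (hp : p.Prime) (hi : i < k)
    (hW : Wd θ s w u p k i a b O) [M.IsMaximal]
    (hM : IsCt s w p M) (hg : CtG s w p m N M c D l β q h) {Q : Ideal (MvPolynomial (V0 σ) ℤ)}
    [Q.IsMaximal] (hMQ : ∀ m ∈ M, jl m ∈ Q) (hQ : ∀ t, t ∈ Q ↔ pi0 θ a b t ∈ mx O)
    {y th : MvPolynomial (V0 σ) ℤ} (hyQ : y ∈ Q) (hthQ : th ∈ Q)
    (hJ : Jac Q (tyG s c (gη s N M c) y th)) (hG : y * th = ctG D l β u k i)
    (hy : va σ ^ (i + 1) * vb σ ^ i ∈ Ideal.span {y}) :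
    Sq (gfE hg.hX) (pi0 θ a b) Q (rel0 s w u p k i 1) (fun _ : Unit => rel0 s w u p k i 0)
      (Sum.elim (fun j : Iv M c => jl (X j.1 ^ N - X c ^ N)) ![y, th])
      (fun b : Lv M => jl (X b.1)) (gfQ q) (fun b : Lv M => jl (h b)) m O := by
  have e0 : rel0 s w u p k i 0 = jl s - va σ * vb σ := rfl
  have e1 : rel0 s w u p k i 1 = C (p : ℤ) - va σ ^ (i + 1) * vb σ ^ i := rfl
  have hrQ : ∀ j, rel0 s w u p k i j ∈ Q := by
    intro j
    rw [hQ, hW.rel j]
    exact zero_mem_mx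
  have hpQ : (C (p : ℤ) : MvPolynomial (V0 σ) ℤ) ∈ Q := by
    have h1 := hMQ _ hM.2.1
    rwa [jl, rename_C] at h1
  have hηQ : ∀ j, tyG s c (gη s N M c) y th j ∈ Q := by
    rintro (j | j)
    · simp only [tyG, Sum.elim_inl]
      split_ifs with hj
      · rw [← e0]
        exact hrQ 0
      · exact hMQ _ (hg.gM j)
    · simp only [tyG, Sum.elim_inr]
      fin_cases j
      · exact hyQ
      · exact hthQ
  have hfun : (fun t => (Sum.elim (fun _ => rel0 s w u p k i 0)
      (Sum.elim (Sum.elim (fun j : Iv M c => jl (X j.1 ^ N - X c ^ N)) ![y, th])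
        (fun b : Lv M => jl (X b.1))) :
        Unit ⊕ ((Iv M c ⊕ Fin 2) ⊕ Lv M) → MvPolynomial (V0 σ) ℤ) ((gfE hg.hX).symm t)) =
      tyG s c (gη s N M c) y th := by
    funext t
    rcases t with t | t
    · by_cases ht : t = c
      · subst ht
        simp [gfE, tyG, e0]
      · by_cases ht2 : (X t : MvPolynomial σ ℤ) ∈ M
        · simp [gfE, tyG, gη, ht, ht2]
        · simp [gfE, tyG, gη, ht, ht2]
    · simp [gfE, tyG]
  have hrel := gf_rel (u := u) (k := k) (i := i) (gform_of hg)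
  have hform2 : sqF (Sum.elim (fun j : Iv M c => jl (X j.1 ^ N - X c ^ N)) ![y, th])
      (fun b : Lv M => jl (X b.1)) (gfQ q) (fun b : Lv M => jl (h b)) m =
      jl D * rel0 s w u p k i 2 - jl l * rel0 s w u p k i 0 - jl β * rel0 s w u p k i 1 := by
    have h1 : jl (ctE2 m N M c q h) = ∑ j, ∑ k, jl (q j k) *
        jl (X j.1 ^ N - X c ^ N) * jl (X k.1 ^ N - X c ^ N) +
        ∑ b : Lv M, jl (h b) * jl (X b.1) ^ m := by
      simp only [jl, ctE2, map_add, map_sum, map_mul, map_pow]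
    rw [sqF, gfS_form, hG, hrel, h1]
    ring
  refine ⟨?_, hQ, pi0_mem θ hW.poly hW.aO hW.bO, hW.rel 1, fun _ => hW.rel 0, hW.fr,
    gfQ_sm hg.sm hMQ, ?_, ?_, ?_⟩
  · rw [hfun]
    obtain ⟨-, h2, h3⟩ := par_of_jac hp hpQ hηQ hJ
    refine ⟨hrQ 1, h2, h3.trans (sup_le_sup_right ?_ _)⟩
    rw [Ideal.span_le]
    have hyS : y ∈ Ideal.span (insert (rel0 s w u p k i 1)
        (Set.range (tyG s c (gη s N M c) y th))) :=
      Ideal.subset_span (Or.inr ⟨Sum.inr 0, rfl⟩)
    rintro _ (rfl | ht)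
    · have h4 : (C (p : ℤ) : MvPolynomial (V0 σ) ℤ) =
          rel0 s w u p k i 1 + va σ ^ (i + 1) * vb σ ^ i := by
        rw [e1]
        ring
      rw [SetLike.mem_coe, h4]
      refine Ideal.add_mem _ (Ideal.subset_span (Or.inl rfl)) ?_
      exact (Ideal.span_singleton_le_iff_mem _).2 hyS hy
    · exact Ideal.subset_span (Or.inr ht)
  · intro b hb
    have hle : M ≤ Q.comap (rename Sum.inl : MvPolynomial σ ℤ →ₐ[ℤ] MvPolynomial (V0 σ) ℤ) :=
      fun t ht => hMQ t ht
    have hne : Q.comap (rename Sum.inl : MvPolynomial σ ℤ →ₐ[ℤ] MvPolynomial (V0 σ) ℤ) ≠ ⊤ :=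
      (Ideal.comap_isPrime _ _).ne_top
    have heq := (inferInstance : M.IsMaximal).eq_of_le hne hle
    apply hg.hh b
    rw [heq]
    exact hb
  · rw [hform2, map_sub, map_sub, map_mul, map_mul, map_mul, hW.rel, hW.rel, hW.rel, mul_zero,
      mul_zero, mul_zero, sub_zero, sub_zero]
  · have hfM : f ∈ M := by
      rw [hf]
      exact Ideal.add_mem _ (Ideal.mul_mem_left _ _ (Ideal.pow_mem_of_mem _ hM.2.2.1 k (by omega)))
        (Ideal.mul_mem_right _ _ hM.2.1)
    have hθD : θ D ≠ 0 := by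
      intro h0
      apply hg.hD
      have h1 : D ∈ RingHom.ker θ := h0
      rw [hker] at h1
      exact (Ideal.span_singleton_le_iff_mem _).2 hfM h1
    have hp0 : ((p : ℕ) : K) ≠ 0 := by
      rw [hW.hp]
      exact mul_ne_zero (pow_ne_zero _ hW.a0) (pow_ne_zero _ hW.b0)
    have hs0 : θ s ≠ 0 := by
      rw [hW.hs]
      exact mul_ne_zero hW.a0 hW.b0
    refine ⟨jl D * jl (C (p : ℤ) * s), ?_, fun t ht => ?_⟩
    · rw [map_mul, pi0_jl, pi0_jl, map_mul]
      refine mul_ne_zero hθD (mul_ne_zero ?_ hs0)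
      have h1 : θ (C (p : ℤ)) = (p : K) := by
        have h2 : (C (p : ℤ) : MvPolynomial σ ℤ) = ((p : ℕ) : MvPolynomial σ ℤ) := by simp
        rw [h2, map_natCast]
      rwa [h1]
    · obtain ⟨N', hN⟩ := Wd.tor hker hf hi hW t ht
      refine ⟨N' + 1, ?_⟩
      have key : ∀ x ∈ Ideal.span (Set.range (rel0 s w u p k i)), jl D * x ∈
          Ideal.span (insert (rel0 s w u p k i 1) (insert (sqF
            (Sum.elim (fun j : Iv M c => jl (X j.1 ^ N - X c ^ N)) ![y, th])
            (fun b : Lv M => jl (X b.1)) (gfQ q) (fun b : Lv M => jl (h b)) m)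
            (Set.range fun _ : Unit => rel0 s w u p k i 0))) := by
        intro x hx
        refine Submodule.span_induction ?_ ?_ ?_ ?_ hx
        · rintro _ ⟨j, rfl⟩
          fin_cases j
          · exact Ideal.mul_mem_left _ _ (Ideal.subset_span (Or.inr (Or.inr ⟨(), rfl⟩)))
          · exact Ideal.mul_mem_left _ _ (Ideal.subset_span (Or.inl rfl))
          · have h5 : jl D * rel0 s w u p k i 2 = (sqF
                (Sum.elim (fun j : Iv M c => jl (X j.1 ^ N - X c ^ N)) ![y, th])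
                (fun b : Lv M => jl (X b.1)) (gfQ q) (fun b : Lv M => jl (h b)) m) +
                jl l * rel0 s w u p k i 0 + jl β * rel0 s w u p k i 1 := by
              rw [hform2]
              ring
            change jl D * rel0 s w u p k i 2 ∈ _
            rw [h5]
            exact Ideal.add_mem _ (Ideal.add_mem _ (Ideal.subset_span (Or.inr (Or.inl rfl)))
              (Ideal.mul_mem_left _ _ (Ideal.subset_span (Or.inr (Or.inr ⟨(), rfl⟩)))))
              (Ideal.mul_mem_left _ _ (Ideal.subset_span (Or.inl rfl)))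
        · rw [mul_zero]
          exact Ideal.zero_mem _
        · intro x y _ _ hx hy
          rw [mul_add]
          exact Ideal.add_mem _ hx hy
        · intro g x _ hx
          rw [smul_eq_mul, mul_left_comm]
          exact Ideal.mul_mem_left _ _ hx
      have h6 : (jl D * jl (C (p : ℤ) * s)) ^ (N' + 1) * t =
          jl D ^ N' * jl (C (p : ℤ) * s) * (jl D * (jl (C (p : ℤ) * s) ^ N' * t)) := by
        ring
      rw [h6]
      exact Ideal.mul_mem_left _ _ (key _ hN)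

end Pool.Agent.DG
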