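import Pool.Agent.DG.PcC
import Pool.Agent.NT9.GeNakA
import Pool.Agent.PW.CaB

set_option autoImplicit false

/-! # PCE: the form at a contact point without the vanishing coordinates -/

namespace Pool.Agent.DG

open MvPolynomial Pool.Agent.NT9 Pool.Agent.PW

variable {σ : Type} [Fintype σ] {p m : ℕ} {a0 : ℤ} {a : σ → ℤ} {w : MvPolynomial σ ℤ}
  {M : Ideal (MvPolynomial σ ℤ)}

/-- `s' = sA a0 (aJ a M) m` and `w'` (the data without the coordinates which vanish at `M`) are tangent at `M`. Proof. `s - s' = ∑_(X b ∈ M) a_b X_b ^ m ∈ M`. `hww` gives `w' ∈ M`. `pderiv b w' - X c ^ N pderiv b s' = C (m a'_b) X_b ^ (m - 1) (X_b ^ N - X_c ^ N - s' ^ (p - 1))` (`sA_der`, `sA_W_der` for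
`aJ a M`), which is in `M` (`ct_N` if `X b ∉ M`; `a'_b = 0` otherwise). -/
theorem ctJ_der (hp : p.Prime) (hm : 1 ≤ m) (hpm : ¬ p ∣ m) (ha : ∀ i, ¬ (p : ℤ) ∣ a i)
    (hw : sA a0 a (p * m) = sA a0 a m ^ p + C (p : ℤ) * w) (hM : IsCt (sA a0 a m) w p M)
    {w' : MvPolynomial σ ℤ}
    (hw' : sA a0 (aJ a M) (p * m) = sA a0 (aJ a M) m ^ p + C (p : ℤ) * w') {c : σ}
    (hc : (X c : MvPolynomial σ ℤ) ∉ M) :
    sA a0 (aJ a M) m ∈ M ∧ ∀ b, pderiv b w' - X c ^ ((p - 1) * m) * pderiv b (sA a0 (aJ a M) m) ∈ M := by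
  classical
  have hN := fun b hb => ct_N hp hm hpm ha hw hM hc (b := b) hb
  obtain ⟨hpr, hpM, hsM, -, -⟩ := hM
  have hs' : sA a0 (aJ a M) m ∈ M := by
    have h1 : sA a0 (aJ a M) m = sA a0 a m - ∑ i, (C (a i) - C (aJ a M i)) * X i ^ m := by
      rw [sA, sA]
      simp only [sub_mul, Finset.sum_sub_distrib]
      ring
    rw [h1]
    refine M.sub_mem hsM (Ideal.sum_mem _ fun i _ => ?_)
    by_cases hi : (X i : MvPolynomial σ ℤ) ∈ M
    · exact M.mul_mem_left _ (Ideal.pow_mem_of_mem M hi m (by omega))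
    · rw [aJ, if_neg hi, sub_self, zero_mul]
      exact M.zero_mem
  refine ⟨hs', fun b => ?_⟩
  rw [sA_W_der hp hm hw', sA_der]
  by_cases hb : (X b : MvPolynomial σ ℤ) ∈ M
  · rw [aJ, if_pos hb, mul_zero, C_0, zero_mul, zero_mul, mul_zero, sub_zero]
    exact M.zero_mem
  · have h2 : C ((m : ℤ) * aJ a M b) * X b ^ (m - 1) *
        (X b ^ ((p - 1) * m) - sA a0 (aJ a M) m ^ (p - 1)) -
        X c ^ ((p - 1) * m) * (C ((m : ℤ) * aJ a M b) * X b ^ (m - 1)) =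
        C ((m : ℤ) * aJ a M b) * X b ^ (m - 1) *
        ((X b ^ ((p - 1) * m) - X c ^ ((p - 1) * m)) - sA a0 (aJ a M) m ^ (p - 1)) := by ring
    rw [h2]
    exact M.mul_mem_left _ (M.sub_mem (hN b hb)
      (Ideal.pow_mem_of_mem M hs' _ (by have := hp.two_le; omega)))

open Classical in
/-- The substitution `X b ↦ 0` for `X b ∈ M`. -/
private noncomputable def pceR (M : Ideal (MvPolynomial σ ℤ)) :
    MvPolynomial σ ℤ →ₐ[ℤ] MvPolynomial σ ℤ :=
  aeval fun b => if (X b : MvPolynomial σ ℤ) ∈ M then 0 else X b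

private theorem pceR_pos {b : σ} (hb : (X b : MvPolynomial σ ℤ) ∈ M) : pceR M (X b) = 0 := by
  rw [pceR, aeval_X, if_pos hb]

private theorem pceR_neg {b : σ} (hb : (X b : MvPolynomial σ ℤ) ∉ M) : pceR M (X b) = X b := by
  rw [pceR, aeval_X, if_neg hb]

private theorem pceR_C (z : ℤ) : pceR M (C z) = C z := by
  rw [← algebraMap_eq, AlgHom.commutes]

private theorem pceR_mem (t : MvPolynomial σ ℤ) : pceR M t - t ∈ M := by
  have h1 : (Ideal.Quotient.mk M).comp (pceR M).toRingHom = Ideal.Quotient.mk M := by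
    refine ringHom_ext (fun z => ?_) fun b => ?_
    · change Ideal.Quotient.mk M (pceR M (C z)) = _
      rw [pceR_C]
    · change Ideal.Quotient.mk M (pceR M (X b)) = _
      by_cases hb : (X b : MvPolynomial σ ℤ) ∈ M
      · rw [pceR_pos hb, map_zero, Ideal.Quotient.eq_zero_iff_mem.2 hb]
      · rw [pceR_neg hb]
  have h2 : Ideal.Quotient.mk M (pceR M t) = Ideal.Quotient.mk M t :=
    RingHom.congr_fun h1 t
  exact Ideal.Quotient.eq.1 h2

private theorem pceR_mem2 {t : MvPolynomial σ ℤ} (ht : t ∈ M) : pceR M t ∈ M := by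
  have h1 := M.add_mem (pceR_mem (M := M) t) ht
  rwa [sub_add_cancel] at h1

private theorem pceR_sJ (k : ℕ) : pceR M (sA a0 (aJ a M) k) = sA a0 (aJ a M) k := by
  rw [sA, map_add, pceR_C, map_sum]
  congr 1
  refine Finset.sum_congr rfl fun b _ => ?_
  rw [map_mul, map_pow, pceR_C]
  by_cases hb : (X b : MvPolynomial σ ℤ) ∈ M
  · rw [aJ, if_pos hb, C_0, zero_mul, zero_mul]
  · rw [pceR_neg hb]

private theorem pceR_s (hm : 1 ≤ m) : pceR M (sA a0 a m) = sA a0 (aJ a M) m := by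
  rw [sA, sA, map_add, pceR_C, map_sum]
  congr 1
  refine Finset.sum_congr rfl fun b _ => ?_
  rw [map_mul, map_pow, pceR_C]
  by_cases hb : (X b : MvPolynomial σ ℤ) ∈ M
  · rw [aJ, if_pos hb, C_0, zero_mul, pceR_pos hb, zero_pow (by omega), mul_zero]
  · rw [pceR_neg hb, aJ, if_neg hb]

private theorem pceR_w (hp : p.Prime) {w' : MvPolynomial σ ℤ}
    (hw' : sA a0 (aJ a M) (p * m) = sA a0 (aJ a M) m ^ p + C (p : ℤ) * w') :
    pceR M w' = w' := by
  have h1 := congrArg (pceR M) hw'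
  rw [map_add, map_pow, map_mul, pceR_sJ, pceR_sJ, pceR_C, hw'] at h1
  have h2 : (C (p : ℤ) : MvPolynomial σ ℤ) ≠ 0 := by
    rw [Ne, C_eq_zero]
    exact_mod_cast hp.ne_zero
  exact (mul_left_cancel₀ h2 (add_left_cancel h1)).symm

/-- Proof. `ρ` = the substitution `X b ↦ 0` if `X b ∈ M`, `X b ↦ X b` otherwise; `ρ t - t ∈ M` for all `t`, so `ρ` maps `M` to `M`; `ρ s' = s'`, so `ρ w' = w'` (cancel `p` in `hw'`), `ρ v_j = v_j`. Let `l0 = X c ^ N`, `t0 = w' - l0 s' ∈ M`; its derivatives are in `M` (`ctJ_der`), so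
`t0 = C p * α + x`, `x ∈ M ^ 2` (`PW.der_zero`). `Par M (C p) (gη s N M c)` (`PW.par_of_jac`, `ct_J`, `ct_g`) and `NT9.Par.gen`: `t ∉ M` with `t * y = c0 * C p + ∑ b, c_b * gη b` for all `y ∈ M`; apply `ρ`: `ρ t * ρ y = (..) C p + (..) s' + ∑_(j : Iv M c) (..) v_j`
(`ρ (X b) = 0`, and `ρ s = s'`). So for `y ∈ M ^ 2` (`Submodule.mul_induction_on`): `(ρ t) ^ 2 * ρ y = x1 * s' + x2 * C p + ∑ q_jk v_j v_k` with `x1 ∈ M`. `D = (ρ t) ^ 2 ∉ M`, `D w' = D l0 s' + D t0`, `D t0 = D C p ρ α + D ρ x`. Compare `PW.cform_pre` (file `PW/CtB`). -/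
theorem ctJ_form (hp : p.Prime) (hm : 1 ≤ m) (hpm : ¬ p ∣ m) (ha0 : ¬ (p : ℤ) ∣ a0)
    (ha : ∀ i, ¬ (p : ℤ) ∣ a i)
    (hw : sA a0 a (p * m) = sA a0 a m ^ p + C (p : ℤ) * w) (hM : IsCt (sA a0 a m) w p M)
    {w' : MvPolynomial σ ℤ}
    (hw' : sA a0 (aJ a M) (p * m) = sA a0 (aJ a M) m ^ p + C (p : ℤ) * w') (hww : w' ∈ M) {c : σ}
    (hc : (X c : MvPolynomial σ ℤ) ∉ M) :
    ∃ (D l β : MvPolynomial σ ℤ) (q : Iv M c → Iv M c → MvPolynomial σ ℤ), D ∉ M ∧
      l - D * X c ^ ((p - 1) * m) ∈ M ∧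
      D * w' = l * sA a0 (aJ a M) m + β * C (p : ℤ) + ∑ j, ∑ k, q j k *
        (X j.1 ^ ((p - 1) * m) - X c ^ ((p - 1) * m)) * (X k.1 ^ ((p - 1) * m) - X c ^ ((p - 1) * m)) := by
  classical
  obtain ⟨hsJ, hder⟩ := ctJ_der hp hm hpm ha hw hM hw' hc
  have hJ := ct_J hp hm hpm ha0 ha hw hM hc
  obtain ⟨hη, -⟩ := ct_g hp hm hpm ha hw hM hc
  have hN := fun b hb => ct_N hp hm hpm ha hw hM hc (b := b) hb
  have hMax : M.IsMaximal := (ct_mf hp hm hpm ha0 ha hw).1 M hM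
  obtain ⟨hpr, hpM, hsM, -, -⟩ := hM
  obtain ⟨N, hNd⟩ : ∃ N, N = (p - 1) * m := ⟨_, rfl⟩
  obtain ⟨s', hs'd⟩ : ∃ s', s' = sA a0 (aJ a M) m := ⟨_, rfl⟩
  have hρs : pceR M (sA a0 a m) = s' := by rw [pceR_s hm, hs'd]
  have hρs' : pceR M s' = s' := by rw [hs'd, pceR_sJ]
  have hρw := pceR_w hp hw'
  rw [← hs'd] at hsJ hder ⊢
  rw [← hNd] at hη hJ hN hder ⊢
  have hρv : ∀ j : Iv M c, pceR M (X j.1 ^ N - X c ^ N) = X j.1 ^ N - X c ^ N := fun j => by
    rw [map_sub, map_pow, map_pow, pceR_neg j.2.2, pceR_neg hc]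
  have hvM : ∀ j : Iv M c, (X j.1 ^ N - X c ^ N : MvPolynomial σ ℤ) ∈ M := fun j => hN _ j.2.2
  have hPar := par_of_jac hp hpM hη hJ
  have hg : w' - X c ^ N * s' ∈ M := M.sub_mem hww (M.mul_mem_left _ hsJ)
  obtain ⟨α, hα⟩ := der_zero hp hpM hg fun b => by
    have h1 : pderiv b (w' - X c ^ N * s') =
        (pderiv b w' - X c ^ N * pderiv b s') - s' * pderiv b (X c ^ N) := by
      rw [map_sub, Derivation.leibniz, smul_eq_mul, smul_eq_mul]
      ring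
    rw [h1]
    exact M.sub_mem (hder b) (M.mul_mem_right _ hsJ)
  obtain ⟨t, ht, hgen⟩ := hPar.gen
  have hgen' : ∀ y ∈ M, ∃ (c0 c1 : MvPolynomial σ ℤ) (d : Iv M c → MvPolynomial σ ℤ),
      pceR M t * pceR M y = c0 * C (p : ℤ) + c1 * s' + ∑ j, d j * (X j.1 ^ N - X c ^ N) := by
    intro y hy
    obtain ⟨c0, d, hd⟩ := hgen y hy
    refine ⟨pceR M c0, pceR M (d c), fun j => pceR M (d j.1), ?_⟩
    have h1 := congrArg (pceR M) hd
    rw [map_mul, map_add, map_mul, pceR_C, map_sum] at h1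
    rw [h1, ← Finset.add_sum_erase _ _ (Finset.mem_univ c), add_assoc]
    congr 2
    · rw [map_mul, gη, if_pos rfl, hρs]
    · have h2 : ∑ i ∈ Finset.univ.erase c, pceR M (d i * gη (sA a0 a m) N M c i) =
          ∑ i ∈ Finset.univ.filter (fun b : σ => b ≠ c ∧ (X b : MvPolynomial σ ℤ) ∉ M),
            pceR M (d i) * (X i ^ N - X c ^ N) := by
        symm
        refine Finset.sum_subset_zero_on_sdiff (fun i hi => ?_) (fun i hi => ?_) fun i hi => ?_
        · exact Finset.mem_erase.2 ⟨(Finset.mem_filter.1 hi).2.1, Finset.mem_univ _⟩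
        · rw [Finset.mem_sdiff, Finset.mem_erase, Finset.mem_filter] at hi
          have h3 : i ≠ c := hi.1.1
          have h4 : (X i : MvPolynomial σ ℤ) ∈ M := by
            by_contra h5
            exact hi.2 ⟨Finset.mem_univ _, h3, h5⟩
          rw [map_mul, gη, if_neg h3, if_pos h4, pceR_pos h4, mul_zero]
        · rw [Finset.mem_filter] at hi
          rw [map_mul, gη, if_neg hi.2.1, if_neg hi.2.2, hρv ⟨i, hi.2⟩]
      rw [h2]
      exact Finset.sum_subtype _ (fun i => by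
        rw [Finset.mem_filter]
        exact ⟨fun h => h.2, fun h => ⟨Finset.mem_univ _, h⟩⟩) _
  have hsq : ∀ x ∈ M ^ 2, ∃ (x1 x2 : MvPolynomial σ ℤ)
      (q : Iv M c → Iv M c → MvPolynomial σ ℤ), x1 ∈ M ∧
      pceR M t ^ 2 * pceR M x = x1 * s' + x2 * C (p : ℤ) +
        ∑ j, ∑ k, q j k * (X j.1 ^ N - X c ^ N) * (X k.1 ^ N - X c ^ N) := by
    intro x hx
    rw [pow_two] at hx
    refine Submodule.mul_induction_on hx (fun m1 hm1 m2 hm2 => ?_) (fun x y hx hy => ?_)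
    · obtain ⟨a0', a1, a', ha'⟩ := hgen' m1 hm1
      obtain ⟨b0, b1, b, hb⟩ := hgen' m2 hm2
      have hB : ∑ j : Iv M c, a' j * (X j.1 ^ N - X c ^ N) ∈ M :=
        Ideal.sum_mem _ fun j _ => M.mul_mem_left _ (hvM _)
      refine ⟨a1 * (pceR M t * pceR M m2) + (∑ j : Iv M c, a' j * (X j.1 ^ N - X c ^ N)) * b1,
        a0' * (pceR M t * pceR M m2) + (∑ j : Iv M c, a' j * (X j.1 ^ N - X c ^ N)) * b0,
        fun j k => a' j * b k,
        M.add_mem (M.mul_mem_left _ (M.mul_mem_left _ (pceR_mem2 hm2)))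
          (M.mul_mem_right _ hB), ?_⟩
      have h1 : ∑ j : Iv M c, ∑ k : Iv M c, a' j * b k * (X j.1 ^ N - X c ^ N) *
            (X k.1 ^ N - X c ^ N) =
          (∑ j : Iv M c, a' j * (X j.1 ^ N - X c ^ N)) *
            ∑ k : Iv M c, b k * (X k.1 ^ N - X c ^ N) := by
        rw [Finset.sum_mul_sum]
        exact Finset.sum_congr rfl fun j _ => Finset.sum_congr rfl fun k _ => by ring
      rw [h1]
      have h2 : pceR M t ^ 2 * pceR M (m1 * m2) =
          (pceR M t * pceR M m1) * (pceR M t * pceR M m2) := by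
        rw [map_mul]
        ring
      rw [h2, ha']
      linear_combination (∑ j : Iv M c, a' j * (X j.1 ^ N - X c ^ N)) * hb
    · obtain ⟨x1, x2, q1, h1, h2⟩ := hx
      obtain ⟨y1, y2, q2, h3, h4⟩ := hy
      refine ⟨x1 + y1, x2 + y2, fun j k => q1 j k + q2 j k, M.add_mem h1 h3, ?_⟩
      have h5 : ∑ j : Iv M c, ∑ k : Iv M c, (q1 j k + q2 j k) * (X j.1 ^ N - X c ^ N) *
            (X k.1 ^ N - X c ^ N) =
          ∑ j : Iv M c, ∑ k : Iv M c, q1 j k * (X j.1 ^ N - X c ^ N) * (X k.1 ^ N - X c ^ N) +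
            ∑ j : Iv M c, ∑ k : Iv M c, q2 j k * (X j.1 ^ N - X c ^ N) *
              (X k.1 ^ N - X c ^ N) := by
        rw [← Finset.sum_add_distrib]
        refine Finset.sum_congr rfl fun j _ => ?_
        rw [← Finset.sum_add_distrib]
        exact Finset.sum_congr rfl fun k _ => by ring
      rw [h5, map_add, mul_add, h2, h4]
      ring
  obtain ⟨x1, x2, q, hx1, hx⟩ := hsq _ hα
  refine ⟨pceR M t ^ 2, pceR M t ^ 2 * X c ^ N + x1, pceR M t ^ 2 * pceR M α + x2, q,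
    fun h1 => ht ?_, ?_, ?_⟩
  · have h2 := hpr.mem_of_pow_mem _ h1
    have h3 := M.sub_mem h2 (pceR_mem (M := M) t)
    rwa [sub_sub_cancel] at h3
  · rw [add_sub_cancel_left]
    exact hx1
  · rw [map_sub, map_sub, map_mul, map_mul, pceR_C, hρw, hρs', map_pow, pceR_neg hc] at hx
    linear_combination hx

end Pool.Agent.DG
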