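import Pool.Agent.DG.PcC

set_option autoImplicit false

/-! # PCF: the vanishing coordinates -/

namespace Pool.Agent.DG

open MvPolynomial Pool.Agent.NT9 Pool.Agent.PW

/-- Proof: induction on the finite set; `(A + B) ^ p = A ^ p + B ^ p + p A B r` (Mathlib: `exists_add_pow_prime_eq`), `c ^ p ≡ c` modulo `p` for integers `c`, `p ≥ 2`. -/
theorem sum_pow_W {R : Type} [CommRing R] {p : ℕ} (hp : p.Prime) {ι : Type} (S : Finset ι)
    (a : ι → ℤ) (y : ι → R) : ∃ W ∈ Ideal.span (y '' S) ^ 2,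
      ∑ i ∈ S, (a i : R) * y i ^ p = (∑ i ∈ S, (a i : R) * y i) ^ p + (p : R) * W := by
  classical
  induction S using Finset.induction_on with
  | empty =>
    refine ⟨0, Ideal.zero_mem _, ?_⟩
    rw [Finset.sum_empty, Finset.sum_empty, zero_pow hp.ne_zero, mul_zero, add_zero]
  | insert i S hi ih =>
    obtain ⟨W, hW, hs⟩ := ih
    obtain ⟨r, hr⟩ := exists_add_pow_prime_eq hp ((a i : R) * y i) (∑ i ∈ S, (a i : R) * y i)
    obtain ⟨k, hk⟩ : (p : ℤ) ∣ a i ^ p - a i := by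
      have := Fact.mk hp
      rw [← ZMod.intCast_zmod_eq_zero_iff_dvd]
      push_cast
      rw [ZMod.pow_card, sub_self]
    have hk' : ((a i : R)) ^ p = (a i : R) + (p : R) * (k : R) := by
      have h1 : ((a i ^ p - a i : ℤ) : R) = ((p * k : ℤ) : R) := by rw [hk]
      push_cast at h1
      linear_combination h1
    have hyi : y i ∈ Ideal.span (y '' (insert i S : Finset ι)) :=
      Ideal.subset_span ⟨i, by simp, rfl⟩
    have hmono : Ideal.span (y '' (S : Set ι)) ≤ Ideal.span (y '' (insert i S : Finset ι)) :=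
      Ideal.span_mono (Set.image_mono (by simp))
    refine ⟨W - (a i : R) * y i * (∑ i ∈ S, (a i : R) * y i) * r - (k : R) * y i ^ p, ?_, ?_⟩
    · refine Ideal.sub_mem _ (Ideal.sub_mem _ (Ideal.pow_right_mono hmono 2 hW) ?_) ?_
      · rw [pow_two]
        refine Ideal.mul_mem_right _ _ (Ideal.mul_mem_mul (Ideal.mul_mem_left _ _ hyi)
          (hmono (Ideal.sum_mem _ fun j hj => Ideal.mul_mem_left _ _
            (Ideal.subset_span ⟨j, hj, rfl⟩))))
      · exact Ideal.mul_mem_left _ _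
          (Ideal.pow_le_pow_right hp.two_le (Ideal.pow_mem_pow hyi p))
    · rw [Finset.sum_insert hi, Finset.sum_insert hi, hs, hr, mul_pow, hk']
      ring

variable {σ : Type} [Fintype σ] {p m : ℕ} {a0 : ℤ} {a : σ → ℤ} {w : MvPolynomial σ ℤ}
  {M : Ideal (MvPolynomial σ ℤ)}

private theorem PCF_split (a0 : ℤ) (a : σ → ℤ) (M : Ideal (MvPolynomial σ ℤ)) (k : ℕ) :
    sA a0 a k = sA a0 (aJ a M) k + ∑ b : Lv M, C (a b.1) * X b.1 ^ k := by
  classical
  unfold sA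
  rw [add_assoc]
  congr 1
  rw [← Finset.sum_subtype (Finset.univ.filter fun b : σ => (X b : MvPolynomial σ ℤ) ∈ M)
    (p := fun b => (X b : MvPolynomial σ ℤ) ∈ M) (by simp) (fun b => C (a b) * X b ^ k),
    Finset.sum_filter, ← Finset.sum_add_distrib]
  refine Finset.sum_congr rfl fun i _ => ?_
  unfold aJ
  by_cases h : (X i : MvPolynomial σ ℤ) ∈ M
  · rw [if_pos h, if_pos h, map_zero, zero_mul, zero_add]
  · rw [if_neg h, if_neg h, add_zero]

/-- Proof. Let `L` be the set of the `b` with `X b ∈ M`, `I` the ideal generated by the `X b ^ m`, `b ∈ L`, `s' = sA a0 (aJ a M) m`, `t = ∑_(b ∈ L) a_b X_b ^ m ∈ I`, so `s = s' + t` and `sA a0 a (p m) = sA a0 (aJ a M) (p m) + ∑_(b ∈ L) a_b (X_b ^ m) ^ p`.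
`sum_pow_W`: the last sum is `t ^ p + p W`, `W ∈ I ^ 2`; `s ^ p = s' ^ p + t ^ p + p s' t r`. So `p w = p w' + p W - p s' t r`, `w = w' + W - s' t r` (cancel `p`), `s' = s - t ∈ M`, so `w - w' ∈ M * I` (`I ≤ M` as `m ≥ 1`), and an element of `M * I` is a sum `∑ X b ^ m * μ b`, `μ b ∈ M`
(Mathlib: `Submodule.mem_ideal_smul_span_iff_exists_sum` or induction). -/
theorem w_split (hp : p.Prime) (hm : 1 ≤ m)
    (hw : sA a0 a (p * m) = sA a0 a m ^ p + C (p : ℤ) * w) (hM : IsCt (sA a0 a m) w p M)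
    {w' : MvPolynomial σ ℤ}
    (hw' : sA a0 (aJ a M) (p * m) = sA a0 (aJ a M) m ^ p + C (p : ℤ) * w') :
    ∃ μ : Lv M → MvPolynomial σ ℤ, (∀ b, μ b ∈ M) ∧ w = w' + ∑ b, μ b * X b.1 ^ m := by
  classical
  obtain ⟨W, hW, hWs⟩ := sum_pow_W hp (Finset.univ : Finset (Lv M)) (fun b => a b.1)
    (fun b => (X b.1 ^ m : MvPolynomial σ ℤ))
  rw [Finset.coe_univ, Set.image_univ] at hW
  have hcast : ∀ n : ℤ, (n : MvPolynomial σ ℤ) = C n := fun n =>
    (eq_intCast (C : ℤ →+* MvPolynomial σ ℤ) n).symm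
  have hp0 : (C (p : ℤ) : MvPolynomial σ ℤ) ≠ 0 := by
    rw [Ne, MvPolynomial.C_eq_zero]
    exact_mod_cast hp.ne_zero
  have hpC : (p : MvPolynomial σ ℤ) = C (p : ℤ) := by
    rw [← hcast]
    push_cast
    rfl
  obtain ⟨r, hr⟩ := exists_add_pow_prime_eq hp (sA a0 (aJ a M) m)
    (∑ b : Lv M, C (a b.1) * X b.1 ^ m)
  have h1 := PCF_split a0 a M m
  have h2 := PCF_split a0 a M (p * m)
  have h3 : ∑ b : Lv M, C (a b.1) * X b.1 ^ (p * m) =
      (∑ b : Lv M, C (a b.1) * X b.1 ^ m) ^ p + C (p : ℤ) * W := by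
    simp only [hcast, hpC] at hWs
    rw [← hWs]
    refine Finset.sum_congr rfl fun b _ => ?_
    rw [← pow_mul, mul_comm m p]
  have hwW : w = w' + (W - sA a0 (aJ a M) m * (∑ b : Lv M, C (a b.1) * X b.1 ^ m) * r) := by
    apply mul_left_cancel₀ hp0
    rw [hpC] at hr
    have h4 : C (p : ℤ) * w = sA a0 a (p * m) - sA a0 a m ^ p := by rw [hw]; ring
    rw [h4, h2, hw', h3, h1, hr]
    ring
  have hXm : ∀ b : Lv M, (X b.1 ^ m : MvPolynomial σ ℤ) ∈
      Ideal.span (Set.range fun b : Lv M => (X b.1 ^ m : MvPolynomial σ ℤ)) := fun b =>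
    Ideal.subset_span ⟨b, rfl⟩
  have hIM : Ideal.span (Set.range fun b : Lv M => (X b.1 ^ m : MvPolynomial σ ℤ)) ≤ M := by
    rw [Ideal.span_le]
    rintro _ ⟨b, rfl⟩
    exact Ideal.pow_mem_of_mem M b.2 m hm
  have ht : ∑ b : Lv M, C (a b.1) * X b.1 ^ m ∈
      Ideal.span (Set.range fun b : Lv M => (X b.1 ^ m : MvPolynomial σ ℤ)) :=
    Ideal.sum_mem _ fun b _ => Ideal.mul_mem_left _ _ (hXm b)
  have hs' : sA a0 (aJ a M) m ∈ M := by
    have h4 : sA a0 (aJ a M) m = sA a0 a m - ∑ b : Lv M, C (a b.1) * X b.1 ^ m := by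
      rw [h1]
      ring
    rw [h4]
    exact Ideal.sub_mem _ hM.2.2.1 (hIM ht)
  have hmem : W - sA a0 (aJ a M) m * (∑ b : Lv M, C (a b.1) * X b.1 ^ m) * r ∈
      M • Submodule.span (MvPolynomial σ ℤ)
        (Set.range fun b : Lv M => (X b.1 ^ m : MvPolynomial σ ℤ)) := by
    change _ ∈ M * Ideal.span (Set.range fun b : Lv M => (X b.1 ^ m : MvPolynomial σ ℤ))
    refine Ideal.sub_mem _ ?_ (Ideal.mul_mem_right _ _ (Ideal.mul_mem_mul hs' ht))
    rw [pow_two] at hW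
    exact Ideal.mul_mono_left hIM hW
  rw [Submodule.mem_ideal_smul_span_iff_exists_sum] at hmem
  obtain ⟨μ, hμ, hsum⟩ := hmem
  refine ⟨μ, hμ, ?_⟩
  have h5 : μ.sum (fun (i : Lv M) (c : MvPolynomial σ ℤ) => c • (X i.1 ^ m : MvPolynomial σ ℤ)) =
      ∑ b, μ b • (X b.1 ^ m : MvPolynomial σ ℤ) :=
    Finsupp.sum_fintype μ _ (fun i => zero_smul _ _)
  rw [hwW, ← hsum, h5]
  rfl

end Pool.Agent.DG
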