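import Pool.Agent.DG.PcD
import Pool.Agent.DG.PcE
import Pool.Agent.DG.PcF

set_option autoImplicit false

/-! # PCG: the local form at a contact point -/

namespace Pool.Agent.DG

open MvPolynomial Pool.Agent.NT9 Pool.Agent.PW

variable {σ : Type} [Fintype σ] {p m : ℕ} {a0 : ℤ} {a : σ → ℤ} {w : MvPolynomial σ ℤ}
  {M : Ideal (MvPolynomial σ ℤ)}

private theorem PCG_split (a0 : ℤ) (a : σ → ℤ) (M : Ideal (MvPolynomial σ ℤ)) (k : ℕ) :
    sA a0 a k = sA a0 (aJ a M) k + ∑ b : Lv M, C (a b.1) * X b.1 ^ k := by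
  classical
  unfold sA
  rw [add_assoc]
  congr 1
  rw [← Finset.sum_subtype (Finset.univ.filter fun b : σ => (X b : MvPolynomial σ ℤ) ∈ M)
    (p := fun b => (X b : MvPolynomial σ ℤ) ∈ M) (by simp) (fun b => C (a b) * X b ^ k),
    Finset.sum_filter, ← Finset.sum_add_distrib]
  refine Finset.sum_congr rfl fun i _ => ?_
  unfold aJ
  by_cases h : (X i : MvPolynomial σ ℤ) ∈ M
  · rw [if_pos h, if_pos h, map_zero, zero_mul, zero_add]
  · rw [if_neg h, if_neg h, add_zero]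

private theorem PCG_C {σ : Type} {M : Ideal (MvPolynomial σ ℤ)} (hM : M ≠ ⊤) {p : ℕ}
    (hp : p.Prime) (hpM : (C (p : ℤ) : MvPolynomial σ ℤ) ∈ M) {n : ℤ} (hn : ¬ (p : ℤ) ∣ n) :
    (C n : MvPolynomial σ ℤ) ∉ M := by
  intro h
  have h1 : IsCoprime (p : ℤ) n :=
    (Nat.prime_iff_prime_int.1 hp).coprime_iff_not_dvd.2 hn
  obtain ⟨u, v, huv⟩ := h1
  apply hM
  rw [Ideal.eq_top_iff_one, ← C_1, ← huv, C_add, C_mul, C_mul]
  exact M.add_mem (M.mul_mem_left _ hpM) (M.mul_mem_left _ h)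

/-- An injective square matrix is surjective. -/
private theorem PCG_surj {σ L : Type} [Fintype σ] [Field L] (A : σ → σ → L)
    (h : ∀ ξ : σ → L, (∀ j, ∑ c, A j c * ξ c = 0) → ξ = 0) (t : σ → L) :
    ∃ Y : σ → L, ∀ j, ∑ c, A j c * Y c = t j := by
  classical
  let f : (σ → L) →ₗ[L] (σ → L) := Matrix.mulVecLin (Matrix.of A)
  have h1 : Function.Injective f := by
    rw [← LinearMap.ker_eq_bot, LinearMap.ker_eq_bot']
    intro ξ hξ
    apply h
    intro j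
    exact congrFun hξ j
  obtain ⟨Y, hY⟩ := LinearMap.injective_iff_surjective.1 h1 t
  exact ⟨Y, fun j => congrFun hY j⟩

/-- The quadratic form is smooth. Proof. `sm_core` for `s' = sA a0 (aJ a M) m`, `w'`, `v_j = X_j ^ N - X_c ^ N`, `l0 = X c ^ N` (`ctJ_der`, `ct_N`). `hY`: `Jac M (gη s N M c)` (`ct_J`): the Jacobian matrix is square with trivial kernel, so there is `Y` with `∑ χ (∂_a s) Y_a = 0`, `Y_b = 0` if `X b ∈ M`,
and `∑ χ (∂_a v_j) Y_a = ν_j`; also `∑ χ (∂_a s') Y_a = 0` (`∂_a s' = ∂_a s` if `X a ∉ M`). The second derivatives: `∂_b w' = C (m a'_b) X_b ^ (m - 1) (X_b ^ N - s' ^ (p - 1))`; apply `∑ Y_a ∂_a` and `χ` (`χ s' = 0`; the term with `s' ^ (p - 2) ∑ Y_a ∂_a s'` vanishes also for `p = 2`):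
`∑_a (χ (∂_a ∂_b w') - χ l0 χ (∂_a ∂_b s')) Y_a = m N a_b x_b ^ (m + N - 2) Y_b` for `X b ∉ M`, with `x_b = χ (X b)`, `x_b ^ N = χ l0`. If this is `μ χ (∂_b s') = μ m a_b x_b ^ (m - 1)` for all `b`, then `N x_b ^ (N - 1) Y_b = μ`, so `Y_b = t x_b` with `t = μ / (N χ l0)`, and
`0 = ∑ χ (∂_a s') Y_a = m t ∑ a_b x_b ^ m = - m t a0`, so `t = 0` and `Y = 0`. -/
theorem ctJ_sm (hp : p.Prime) (hm : 1 ≤ m) (hpm : ¬ p ∣ m) (ha0 : ¬ (p : ℤ) ∣ a0)
    (ha : ∀ i, ¬ (p : ℤ) ∣ a i)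
    (hw : sA a0 a (p * m) = sA a0 a m ^ p + C (p : ℤ) * w) (hM : IsCt (sA a0 a m) w p M)
    [M.IsMaximal] {w' : MvPolynomial σ ℤ}
    (hw' : sA a0 (aJ a M) (p * m) = sA a0 (aJ a M) m ^ p + C (p : ℤ) * w') (hww : w' ∈ M) {c : σ}
    (hc : (X c : MvPolynomial σ ℤ) ∉ M) {D l β : MvPolynomial σ ℤ}
    {q : Iv M c → Iv M c → MvPolynomial σ ℤ} (hD : D ∉ M)
    (hl : l - D * X c ^ ((p - 1) * m) ∈ M)
    (heq : D * w' = l * sA a0 (aJ a M) m + β * C (p : ℤ) + ∑ j, ∑ k, q j k *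
        (X j.1 ^ ((p - 1) * m) - X c ^ ((p - 1) * m)) *
        (X k.1 ^ ((p - 1) * m) - X c ^ ((p - 1) * m))) : SmF q M := by
  classical
  have hMtop : M ≠ ⊤ := Ideal.IsMaximal.ne_top inferInstance
  obtain ⟨hs', hder⟩ := ctJ_der hp hm hpm ha hw hM hw' hc
  refine sm_core (v := fun j : Iv M c => (X j.1 ^ ((p - 1) * m) - X c ^ ((p - 1) * m) :
    MvPolynomial σ ℤ)) hM.2.1 hs' hww (fun j => ct_N hp hm hpm ha hw hM hc j.2.2) hD hder hl heq ?_
  intro L _ χ hχ ν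
  have hJ := ct_J hp hm hpm ha0 ha hw hM hc
  -- values
  have hCm : ∀ n : ℤ, ¬ (p : ℤ) ∣ n → χ (C n) ≠ 0 := fun n hn h =>
    PCG_C hMtop hp hM.2.1 hn ((hχ _).1 h)
  have hmp : ¬ (p : ℤ) ∣ (m : ℤ) := by exact_mod_cast hpm
  have hχm : χ (C (m : ℤ)) ≠ 0 := hCm _ hmp
  have hNp : ¬ p ∣ (p - 1) * m := by
    intro h
    rcases hp.dvd_mul.1 h with h1 | h1
    · have h2 := Nat.le_of_dvd (by have := hp.two_le; omega) h1
      have := hp.two_le
      omega
    · exact hpm h1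
  have hN1 : 1 ≤ (p - 1) * m := Nat.one_le_iff_ne_zero.2 (fun h => hNp (h ▸ dvd_zero _))
  have hχN : (((p - 1) * m : ℕ) : L) ≠ 0 := by
    have h1 := hCm (((p - 1) * m : ℕ) : ℤ) (by exact_mod_cast hNp)
    rw [← algebraMap_eq, map_natCast, map_natCast] at h1
    exact h1
  have hχX : ∀ b, (X b : MvPolynomial σ ℤ) ∉ M → χ (X b) ≠ 0 := fun b hb h => hb ((hχ _).1 h)
  have hχs : χ (sA a0 (aJ a M) m) = 0 := (hχ _).2 hs'
  have hχp : χ (sA a0 (aJ a M) m ^ (p - 1)) = 0 := by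
    rw [map_pow, hχs]
    exact zero_pow (by have := hp.two_le; omega)
  have hXN : ∀ b, (X b : MvPolynomial σ ℤ) ∉ M →
      χ (X b) ^ ((p - 1) * m) = χ (X c) ^ ((p - 1) * m) := by
    intro b hb
    have h1 := (hχ _).2 (ct_N hp hm hpm ha hw hM hc hb)
    rw [map_sub, map_pow, map_pow, sub_eq_zero] at h1
    exact h1
  -- the vector Y
  obtain ⟨Y, hY⟩ := PCG_surj (fun b a' => χ (pderiv a' (gη (sA a0 a m) ((p - 1) * m) M c b)))
    (hJ L χ hχ) (fun b => if hb : b ≠ c ∧ (X b : MvPolynomial σ ℤ) ∉ M then ν ⟨b, hb⟩ else 0)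
  have hYs : ∑ a', χ (pderiv a' (sA a0 a m)) * Y a' = 0 := by
    have h1 := hY c
    rw [dif_neg (fun h => h.1 rfl)] at h1
    rw [← h1]
    refine Finset.sum_congr rfl fun a' _ => ?_
    unfold gη
    rw [if_pos rfl]
  have hYL : ∀ b, (X b : MvPolynomial σ ℤ) ∈ M → Y b = 0 := by
    intro b hb
    have hbc : b ≠ c := fun h => hc (h ▸ hb)
    have h1 := hY b
    rw [dif_neg (fun h => h.2 hb)] at h1
    rw [← h1]
    unfold gη
    rw [Finset.sum_eq_single_of_mem b (Finset.mem_univ _)]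
    · rw [if_neg hbc, if_pos hb, pderiv_X_self, map_one, one_mul]
    · intro a' _ hne
      rw [if_neg hbc, if_pos hb, pderiv_X_of_ne hne.symm, map_zero, zero_mul]
  have hYj : ∀ j : Iv M c, ∑ a', χ (pderiv a' (X j.1 ^ ((p - 1) * m) - X c ^ ((p - 1) * m) :
      MvPolynomial σ ℤ)) * Y a' = ν j := by
    intro j
    have h1 := hY j.1
    rw [dif_pos j.2] at h1
    rw [← h1]
    refine Finset.sum_congr rfl fun a' _ => ?_
    unfold gη
    rw [if_neg j.2.1, if_neg j.2.2]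
  have haJ : ∀ b, (X b : MvPolynomial σ ℤ) ∉ M → aJ a M b = a b := fun b hb => by
    unfold aJ
    rw [if_neg hb]
  have haJ0 : ∀ b, (X b : MvPolynomial σ ℤ) ∈ M → aJ a M b = 0 := fun b hb => by
    unfold aJ
    rw [if_pos hb]
  have hYs' : ∑ a', χ (pderiv a' (sA a0 (aJ a M) m)) * Y a' = 0 := by
    rw [← hYs]
    refine Finset.sum_congr rfl fun b _ => ?_
    by_cases hb : (X b : MvPolynomial σ ℤ) ∈ M
    · rw [hYL b hb, mul_zero, mul_zero]
    · rw [sA_der, sA_der, haJ b hb]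
  refine ⟨Y, hYs', hYj, ?_⟩
  rintro ⟨μ, hμ⟩
  -- second derivatives
  have hsec : ∀ b, ∑ a', (χ (pderiv a' (pderiv b w')) - χ (X c ^ ((p - 1) * m)) *
      χ (pderiv a' (pderiv b (sA a0 (aJ a M) m)))) * Y a' =
      χ (pderiv b (sA a0 (aJ a M) m)) *
        ((((p - 1) * m : ℕ) : L) * χ (X b) ^ ((p - 1) * m - 1) * Y b) := by
    intro b
    by_cases hb : (X b : MvPolynomial σ ℤ) ∈ M
    · rw [hYL b hb, mul_zero, mul_zero]
      refine Finset.sum_eq_zero fun a' _ => ?_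
      rw [sA_W_der hp hm hw' b, sA_der, haJ0 b hb]
      simp
    · have h1 : ∀ a', (χ (pderiv a' (pderiv b w')) - χ (X c ^ ((p - 1) * m)) *
          χ (pderiv a' (pderiv b (sA a0 (aJ a M) m)))) * Y a' =
          χ (pderiv b (sA a0 (aJ a M) m)) * (χ (pderiv a' (X b ^ ((p - 1) * m))) * Y a') -
            χ (pderiv b (sA a0 (aJ a M) m)) * ((p - 1 : ℕ) : L) *
              χ (sA a0 (aJ a M) m) ^ (p - 1 - 1) *
              (χ (pderiv a' (sA a0 (aJ a M) m)) * Y a') := by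
        intro a'
        have h2 : pderiv b w' = pderiv b (sA a0 (aJ a M) m) *
            (X b ^ ((p - 1) * m) - sA a0 (aJ a M) m ^ (p - 1)) := by
          rw [sA_W_der hp hm hw' b, sA_der]
        rw [h2, pderiv_mul, map_add, map_mul, map_mul, map_sub, map_sub, map_sub, hχp, sub_zero,
          map_pow χ (X b), hXN b hb, pderiv_pow (f := sA a0 (aJ a M) m), map_mul, map_mul,
          map_pow χ (sA a0 (aJ a M) m), map_natCast, map_pow χ (X c)]
        ring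
      rw [Finset.sum_congr rfl fun a' _ => h1 a', Finset.sum_sub_distrib, ← Finset.mul_sum,
        ← Finset.mul_sum, hYs', mul_zero, sub_zero]
      congr 1
      rw [Finset.sum_eq_single_of_mem b (Finset.mem_univ _)]
      · rw [pderiv_pow, pderiv_X_self, mul_one, map_mul, map_natCast, map_pow]
      · intro a' _ hne
        rw [pderiv_pow, pderiv_X_of_ne hne.symm, mul_zero, map_zero, zero_mul]
  have hYt : ∀ b, (((p - 1) * m : ℕ) : L) * χ (X c) ^ ((p - 1) * m) * Y b = μ * χ (X b) := by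
    intro b
    by_cases hb : (X b : MvPolynomial σ ℤ) ∈ M
    · rw [hYL b hb, (hχ _).2 hb, mul_zero, mul_zero]
    · have h1 := hμ b
      rw [hsec b, mul_comm μ] at h1
      have h2 : χ (pderiv b (sA a0 (aJ a M) m)) ≠ 0 := by
        rw [sA_der, map_mul, map_pow, haJ b hb]
        refine mul_ne_zero (hCm _ ?_) (pow_ne_zero _ (hχX b hb))
        intro h3
        rcases (Nat.prime_iff_prime_int.1 hp).dvd_or_dvd h3 with h4 | h4
        · exact hmp h4
        · exact ha b h4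
      have h3 := mul_left_cancel₀ h2 h1
      rw [← h3, ← hXN b hb]
      have h4 : χ (X b) ^ ((p - 1) * m) = χ (X b) ^ ((p - 1) * m - 1) * χ (X b) := by
        rw [← pow_succ, Nat.sub_add_cancel hN1]
      rw [h4]
      ring
  have hc0 : (((p - 1) * m : ℕ) : L) * χ (X c) ^ ((p - 1) * m) ≠ 0 :=
    mul_ne_zero hχN (pow_ne_zero _ (hχX c hc))
  have hμ0 : μ = 0 := by
    have h1 : ∑ b, χ (pderiv b (sA a0 (aJ a M) m)) *
        ((((p - 1) * m : ℕ) : L) * χ (X c) ^ ((p - 1) * m) * Y b) = 0 := by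
      rw [Finset.sum_congr rfl fun b _ => (by ring :
        χ (pderiv b (sA a0 (aJ a M) m)) *
          ((((p - 1) * m : ℕ) : L) * χ (X c) ^ ((p - 1) * m) * Y b) =
        (((p - 1) * m : ℕ) : L) * χ (X c) ^ ((p - 1) * m) *
          (χ (pderiv b (sA a0 (aJ a M) m)) * Y b)), ← Finset.mul_sum, hYs', mul_zero]
    have h2 : ∑ b, χ (pderiv b (sA a0 (aJ a M) m)) *
        ((((p - 1) * m : ℕ) : L) * χ (X c) ^ ((p - 1) * m) * Y b) =
        μ * χ (C (m : ℤ)) * (χ (sA a0 (aJ a M) m) - χ (C a0)) := by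
      have h3 : χ (sA a0 (aJ a M) m) - χ (C a0) = ∑ b, χ (C (aJ a M b)) * χ (X b) ^ m := by
        unfold sA
        rw [map_add, add_sub_cancel_left, map_sum]
        refine Finset.sum_congr rfl fun b _ => ?_
        rw [map_mul, map_pow]
      rw [h3, Finset.mul_sum]
      refine Finset.sum_congr rfl fun b _ => ?_
      rw [hYt b, sA_der, map_mul, C_mul, map_mul, map_pow]
      have h4 : χ (X b) ^ m = χ (X b) ^ (m - 1) * χ (X b) := by
        rw [← pow_succ, Nat.sub_add_cancel hm]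
      rw [h4]
      ring
    rw [h1, hχs, zero_sub] at h2
    have h3 := h2.symm
    rw [mul_neg, neg_eq_zero] at h3
    rcases mul_eq_zero.1 h3 with h4 | h4
    · exact (mul_eq_zero.1 h4).resolve_right hχm
    · exact absurd h4 (hCm _ ha0)
  funext b
  have h1 := hYt b
  rw [hμ0, zero_mul] at h1
  exact (mul_eq_zero.1 h1).resolve_left hc0

/-- Proof. `w'` from `sA_W`, `μ` from `w_split` (so `w' ∈ M`), `ctJ_form`, `ctJ_sm`; `h b = D * μ b - l * C (a b)`: `D w = D w' + ∑ D μ_b X_b ^ m`, `s = s' + ∑ a_b X_b ^ m`. `h b ∉ M` since `μ b ∈ M`, `l, C (a b) ∉ M`. `ct_X`, `ct_2`, `ct_g`, `ct_J`. -/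
theorem ctG_exists (hp : p.Prime) (hm : 1 ≤ m) (hpm : ¬ p ∣ m) (ha0 : ¬ (p : ℤ) ∣ a0)
    (ha : ∀ i, ¬ (p : ℤ) ∣ a i)
    (hw : sA a0 a (p * m) = sA a0 a m ^ p + C (p : ℤ) * w) (hM : IsCt (sA a0 a m) w p M) :
    ∃ (c : σ) (D l β : MvPolynomial σ ℤ) (q : Iv M c → Iv M c → MvPolynomial σ ℤ)
      (h : Lv M → MvPolynomial σ ℤ), CtG (sA a0 a m) w p m ((p - 1) * m) M c D l β q h := by
  classical
  have hmax : M.IsMaximal := (ct_mf hp hm hpm ha0 ha hw).1 M hM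
  have hMtop : M ≠ ⊤ := Ideal.IsMaximal.ne_top inferInstance
  have hprime : M.IsPrime := hM.1
  obtain ⟨w', hw'⟩ := sA_W hp m a0 (aJ a M)
  obtain ⟨μ, hμ, hww'⟩ := w_split hp hm hw hM hw'
  have hww : w' ∈ M := by
    have h1 : w' = w - ∑ b, μ b * X b.1 ^ m := by
      rw [hww']
      ring
    rw [h1]
    exact M.sub_mem hM.2.2.2.1 (M.sum_mem fun b _ => M.mul_mem_right _ (hμ b))
  obtain ⟨c, hc⟩ := ct_X hp hm ha0 hM
  obtain ⟨D, l, β, q, hD, hl, heq⟩ := ctJ_form hp hm hpm ha0 ha hw hM hw' hww hc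
  have hsm := ctJ_sm hp hm hpm ha0 ha hw hM hw' hww hc hD hl heq
  obtain ⟨hg, hpc⟩ := ct_g hp hm hpm ha hw hM hc
  have hlM : l ∉ M := by
    intro h
    have h1 : D * X c ^ ((p - 1) * m) ∈ M := by
      have h2 := M.sub_mem h hl
      rwa [sub_sub_cancel] at h2
    rcases hprime.mem_or_mem h1 with h2 | h2
    · exact hD h2
    · exact hc (hprime.mem_of_pow_mem _ h2)
  refine ⟨c, D, l, β, q, fun b => D * μ b - l * C (a b.1), hc, hD, hlM, ?_, hsm, ?_, hpc, hg,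
    ct_J hp hm hpm ha0 ha hw hM hc, ?_⟩
  · intro b h
    have h1 : l * C (a b.1) ∈ M := by
      have h2 := M.sub_mem (M.mul_mem_left D (hμ b)) h
      rwa [sub_sub_cancel] at h2
    rcases hprime.mem_or_mem h1 with h2 | h2
    · exact hlM h2
    · exact PCG_C hMtop hp hM.2.1 (ha b.1) h2
  · rintro ⟨b⟩
    exact ct_2 hp hm ha0 ha hw hM b.2
  · unfold ctE2
    have h1 : D * w = D * w' + ∑ b : Lv M, D * μ b * X b.1 ^ m := by
      rw [hww', mul_add, Finset.mul_sum]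
      congr 1
      exact Finset.sum_congr rfl fun b _ => by ring
    have h2 : ∑ b : Lv M, (D * μ b - l * C (a b.1)) * X b.1 ^ m =
        ∑ b : Lv M, D * μ b * X b.1 ^ m - l * ∑ b : Lv M, C (a b.1) * X b.1 ^ m := by
      rw [Finset.mul_sum, ← Finset.sum_sub_distrib]
      exact Finset.sum_congr rfl fun b _ => by ring
    rw [h1, heq, h2, PCG_split a0 a M m]
    ring

end Pool.Agent.DG
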