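import Pool.Agent.DG.SqDefs
import Pool.Agent.PW.OdpE
import Pool.Agent.PW.CaD
import Pool.Agent.EvM.EmDefs
import Pool.Agent.NT9.GeBlowB

set_option autoImplicit false

/-! # SQO: the case without `y` -/

namespace Pool.Agent.DG

open MvPolynomial Pool.Agent.NT9

variable {τ κ ι lam : Type} [Fintype τ] [Fintype κ] [Fintype ι] [Fintype lam] {K : Type} [Field K]
  {e : κ ⊕ (ι ⊕ lam) ≃ τ} {π : MvPolynomial τ ℤ →+* K} {Q : Ideal (MvPolynomial τ ℤ)}
  {z : MvPolynomial τ ℤ} {r : κ → MvPolynomial τ ℤ} {x : ι → MvPolynomial τ ℤ}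
  {y : lam → MvPolynomial τ ℤ} {A : ι → ι → MvPolynomial τ ℤ} {h : lam → MvPolynomial τ ℤ}
  {m : ℕ} {O : Subring K}

/-- Proof. `PW.Odp` for the bijection `κ ⊕ ι ≃ τ` obtained from `e` (`Equiv.sumEmpty ι lam`); the sum over `lam` is `0`. `PW.finRes_of_max`, `NT9.exists_blow`, `PW.odp_blow` give `EvM.Res O`
(compare the end of `PW.crit_resolution`, file `PW/MaB`). -/
theorem sq_res_empty [IsEmpty lam] [Q.IsMaximal] {p : ℕ} (hp : p.Prime)
    (hpQ : (C (p : ℤ) : MvPolynomial τ ℤ) ∈ Q) [IsLocalRing O]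
    (hq : Sq e π Q z r x y A h m O) : EvM.Res O := by
  have hF : sqF x y A h m = ∑ i, ∑ j, A i j * x i * x j := by
    unfold sqF
    rw [Finset.univ_eq_empty (α := lam), Finset.sum_empty, add_zero]
  have hpar : (fun t => Sum.elim r (Sum.elim x y) (e.symm t)) = fun t => Sum.elim r x
      (((Equiv.sumCongr (Equiv.refl κ) (Equiv.sumEmpty ι lam).symm).trans e).symm t) := by
    funext t
    rw [Equiv.symm_trans_apply, Equiv.sumCongr_symm]
    rcases e.symm t with k | i | l
    · rfl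
    · rfl
    · exact isEmptyElim l
  have hodp : PW.Odp ((Equiv.sumCongr (Equiv.refl κ) (Equiv.sumEmpty ι lam).symm).trans e) π Q z r
      x A O :=
    { par := hpar ▸ hq.par
      memQ := hq.memQ
      poly := hq.poly
      z0 := hq.z0
      r0 := hq.r0
      fr := hq.fr
      sm := hq.sm
      quad := by
        have h1 := hq.rel
        rw [hF] at h1
        simpa only [map_sum, map_mul] using h1
      tor := by
        have h1 := hq.tor
        rw [hF] at h1
        exact h1 }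
  intro Mo hfg hO
  obtain ⟨Mo2, E, hfg2, hE, hcom, hpts⟩ := exists_blow hfg hO
    (PW.finRes_of_max hp hpQ hq.poly hq.memQ hq.fr)
  refine ⟨Mo2, E, hfg2, hE, hcom, fun O' hO' => ?_⟩
  have hloc' : IsLocalRing O' := hO'.1
  rcases hpts O' hO' with h2 | h2
  · exact Or.inr h2
  · exact Or.inl (PW.odp_blow hp hpQ hodp h2)

end Pool.Agent.DG
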