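import Pool.Agent.DG.SqP

set_option autoImplicit false

/-! # SQC: the charts of the blow up -/

namespace Pool.Agent.DG

open Pool.Agent.NT9 Pool.Agent.EvM

variable {K : Type} [Field K] {ι lam : Type} [Fintype ι] [Fintype lam]

/-- Some `X c` generates the first ideal. -/
def ChA (X : ι → K) (Y : lam → K) (O O' : Subring K) : Prop :=
  ∃ c, X c ≠ 0 ∧ (∀ j, X j / X c ∈ O') ∧ (∀ l, Y l / X c ∈ O') ∧
    ∀ F : Subring K, O ≤ F → (∀ j, X j / X c ∈ F) → (∀ l, Y l / X c ∈ F) →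
      (∀ t ∈ F, t⁻¹ ∈ O' → t⁻¹ ∈ F) → O' ≤ F

/-- Powers of some `Y l0` generate all ideals. -/
def ChB (X : ι → K) (Y : lam → K) (K1 : ℕ) (O O' : Subring K) : Prop :=
  ∃ l0, Y l0 ≠ 0 ∧ (∀ l, Y l / Y l0 ∈ O') ∧ (∀ j, X j / Y l0 ^ K1 ∈ O') ∧
    ∀ F : Subring K, O ≤ F → (∀ l, Y l / Y l0 ∈ F) → (∀ j, X j / Y l0 ^ K1 ∈ F) →
      (∀ t ∈ F, t⁻¹ ∈ O' → t⁻¹ ∈ F) → O' ≤ F

/-- Powers of `Y l0` generate the first `i` ideals, and `X c` the other ones. -/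
def ChM (X : ι → K) (Y : lam → K) (K1 m : ℕ) (O O' : Subring K) : Prop :=
  ∃ (c : ι) (l0 : lam) (i : ℕ), 1 ≤ i ∧ i < K1 ∧ X c ≠ 0 ∧ Y l0 ≠ 0 ∧ (∀ j, X j / X c ∈ O') ∧
    (∀ l, Y l / Y l0 ∈ O') ∧ X c / Y l0 ^ i ∈ O' ∧ Y l0 ^ (i + 1) / X c ∈ O' ∧
    (Y l0 ^ m / X c ^ 2 ∈ O' ∨ X c ^ 2 / Y l0 ^ m ∈ O') ∧
    ∀ F : Subring K, O ≤ F → (∀ j, X j / X c ∈ F) → (∀ l, Y l / Y l0 ∈ F) →
      X c / Y l0 ^ i ∈ F → Y l0 ^ (i + 1) / X c ∈ F →
      (Y l0 ^ m / X c ^ 2 ∈ O' → Y l0 ^ m / X c ^ 2 ∈ F) →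
      (X c ^ 2 / Y l0 ^ m ∈ O' → X c ^ 2 / Y l0 ^ m ∈ F) →
      (∀ t ∈ F, t⁻¹ ∈ O' → t⁻¹ ∈ F) → O' ≤ F

/-- Products of `N` elements `Y l`, divided by `Y l0 ^ N`. -/
private theorem SQC_pow {lam : Type} {F : Subring K} {Y : lam → K} {l0 : lam} (h : ∀ l, Y l / Y l0 ∈ F) {N : ℕ}
    (f : Fin N → lam) : (∏ t, Y (f t)) / Y l0 ^ N ∈ F := by
  have h1 : (∏ t, Y (f t)) / Y l0 ^ N = ∏ t : Fin N, Y (f t) / Y l0 := by
    rw [Finset.prod_div_distrib, Finset.prod_const, Finset.card_univ, Fintype.card_fin]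
  rw [h1]
  exact F.prod_mem fun t _ => h _

/-- The minimality, with other generators. -/
private theorem SQC_min {O' F : Subring K} {X : ι → K} {Y : lam → K} {K1 m : ℕ}
    {b : ∀ s, IS ι lam K1 m s}
    (hb : ∀ s, qS X Y K1 m s (b s) ≠ 0 ∧ ∀ i, qS X Y K1 m s i / qS X Y K1 m s (b s) ∈ O')
    (hmin : (∀ s i, qS X Y K1 m s i / qS X Y K1 m s (b s) ∈ F) → O' ≤ F)
    (hinv : ∀ x ∈ F, x⁻¹ ∈ O' → x⁻¹ ∈ F)
    (h1 : ∀ s : Fin K1, ∃ g : K, g ≠ 0 ∧
      ((∃ c, X c = g) ∨ ∃ f : Fin ((s : ℕ) + 1) → lam, ∏ t, Y (f t) = g) ∧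
      (∀ j, X j / g ∈ F) ∧ ∀ f : Fin ((s : ℕ) + 1) → lam, (∏ t, Y (f t)) / g ∈ F)
    (h2 : ∃ g : K, g ≠ 0 ∧
      ((∃ c c', X c * X c' = g) ∨ ∃ f : Fin m → lam, ∏ t, Y (f t) = g) ∧
      (∀ j j', X j * X j' / g ∈ F) ∧ ∀ f : Fin m → lam, (∏ t, Y (f t)) / g ∈ F) : O' ≤ F := by
  refine hmin fun s => ?_
  rcases s with _ | s
  · obtain ⟨g, hg0, hg, hgX, hgY⟩ := h2
    refine blf_den (q := qS X Y K1 m) hb hinv hg0 ?_ ?_
    · rcases hg with ⟨c, c', hc⟩ | ⟨f, hf⟩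
      · exact ⟨(Sum.inl (c, c') : (ι × ι) ⊕ (Fin m → lam)), hc⟩
      · exact ⟨(Sum.inr f : (ι × ι) ⊕ (Fin m → lam)), hf⟩
    · intro i
      change (ι × ι) ⊕ (Fin m → lam) at i
      rcases i with ⟨j, j'⟩ | f
      · exact hgX j j'
      · exact hgY f
  · obtain ⟨g, hg0, hg, hgX, hgY⟩ := h1 s
    refine blf_den (q := qS X Y K1 m) hb hinv hg0 ?_ ?_
    · rcases hg with ⟨c, hc⟩ | ⟨f, hf⟩
      · exact ⟨(Sum.inl c : ι ⊕ (Fin ((s : ℕ) + 1) → lam)), hc⟩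
      · exact ⟨(Sum.inr f : ι ⊕ (Fin ((s : ℕ) + 1) → lam)), hf⟩
    · intro i
      change ι ⊕ (Fin ((s : ℕ) + 1) → lam) at i
      rcases i with j | f
      · exact hgX j
      · exact hgY f

/-- The generator of the ideal number `s + 1`. -/
private theorem SQC_some {O' : Subring K} {X : ι → K} {Y : lam → K} {K1 m : ℕ}
    {b : ∀ s, IS ι lam K1 m s}
    (hb : ∀ s, qS X Y K1 m s (b s) ≠ 0 ∧ ∀ i, qS X Y K1 m s i / qS X Y K1 m s (b s) ∈ O')
    (s : Fin K1) :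
    (∃ c, X c ≠ 0 ∧ (∀ j, X j / X c ∈ O') ∧
      ∀ f : Fin ((s : ℕ) + 1) → lam, (∏ t, Y (f t)) / X c ∈ O') ∨
    ∃ f : Fin ((s : ℕ) + 1) → lam, ∏ t, Y (f t) ≠ 0 ∧ (∀ j, X j / ∏ t, Y (f t) ∈ O') ∧
      ∀ f' : Fin ((s : ℕ) + 1) → lam, (∏ t, Y (f' t)) / ∏ t, Y (f t) ∈ O' := by
  have h := hb (some s)
  generalize b (some s) = i at h
  change ι ⊕ (Fin ((s : ℕ) + 1) → lam) at i
  rcases i with c | f
  · exact Or.inl ⟨c, h.1, fun j => h.2 (Sum.inl j : ι ⊕ (Fin ((s : ℕ) + 1) → lam)),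
      fun f => h.2 (Sum.inr f : ι ⊕ (Fin ((s : ℕ) + 1) → lam))⟩
  · exact Or.inr ⟨f, h.1, fun j => h.2 (Sum.inl j : ι ⊕ (Fin ((s : ℕ) + 1) → lam)),
      fun f' => h.2 (Sum.inr f' : ι ⊕ (Fin ((s : ℕ) + 1) → lam))⟩

/-- The generator of the last ideal. -/
private theorem SQC_none {O' : Subring K} {X : ι → K} {Y : lam → K} {K1 m : ℕ}
    {b : ∀ s, IS ι lam K1 m s}
    (hb : ∀ s, qS X Y K1 m s (b s) ≠ 0 ∧ ∀ i, qS X Y K1 m s i / qS X Y K1 m s (b s) ∈ O') :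
    (∃ c c', X c * X c' ≠ 0 ∧ (∀ j j', X j * X j' / (X c * X c') ∈ O') ∧
      ∀ f : Fin m → lam, (∏ t, Y (f t)) / (X c * X c') ∈ O') ∨
    ∃ f : Fin m → lam, ∏ t, Y (f t) ≠ 0 ∧ (∀ j j', X j * X j' / ∏ t, Y (f t) ∈ O') ∧
      ∀ f' : Fin m → lam, (∏ t, Y (f' t)) / ∏ t, Y (f t) ∈ O' := by
  have h := hb none
  generalize b none = i at h
  change (ι × ι) ⊕ (Fin m → lam) at i
  rcases i with ⟨c, c'⟩ | f
  · exact Or.inl ⟨c, c', h.1, fun j j' => h.2 (Sum.inl (j, j') : (ι × ι) ⊕ (Fin m → lam)),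
      fun f => h.2 (Sum.inr f : (ι × ι) ⊕ (Fin m → lam))⟩
  · exact Or.inr ⟨f, h.1, fun j j' => h.2 (Sum.inl (j, j') : (ι × ι) ⊕ (Fin m → lam)),
      fun f' => h.2 (Sum.inr f' : (ι × ι) ⊕ (Fin m → lam))⟩

/-- Proof. `blf`: `b`. `F` denotes a subring as in the definitions; it is enough (`blf_den`) to find for every factor `s` a generator `g` such that all quotients of generators of this factor by `g` are in `F`. `X j, Y l ∈ O`.
(A) `b (some 0) = inl c` (`K1 ≥ 1`): `X j / X c`, `Y l / X c ∈ O'`; `g = X c` for `some s`, `g = X c * X c` for `none` (`m ≥ 2`: a product of `m` elements `Y l` is `Y_1 Y_2` times an element of `O`).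
(B), (M): `b (some 0) = inr f`, `l0 = f 0`: all `Y l / Y l0`, `X j / Y l0 ∈ O'`. Let `i ≤ K1` be maximal with `X j / Y l0 ^ i ∈ O'` for all `j`; `i ≥ 1`. If `i = K1`: `ChB`: `g = Y l0 ^ (s + 1)` for `some s`:
`X j / Y l0 ^ (s + 1) = (X j / Y l0 ^ K1) * Y l0 ^ (K1 - s - 1)`; `g = Y l0 ^ m` for `none` (`m ≤ 2 * K1`). If `i < K1`: `b (some i) = inl c`, otherwise `b (some i) = inr f`, and `X j / ∏ Y (f t) ∈ O'`, `∏ Y (f t) / Y l0 ^ (i + 1) ∈ O'`, contradicting the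
maximality. `X j / X c ∈ O'`, `Y l0 ^ (i + 1) / X c ∈ O'`, `X c / Y l0 ^ i ∈ O'`. From `b none = inl (j, j')`: `Y l0 ^ m / (X j * X j') ∈ O'` and `X j * X j' / X c ^ 2 ∈ O'`; from `b none = inr f`: `X c ^ 2 / ∏ Y (f t) ∈ O'` and `∏ Y (f t) / Y l0 ^ m ∈ O'`.
For `F`: `some s`, `s + 1 ≤ i`: `g = Y l0 ^ (s + 1)`; `s + 1 ≥ i + 1`: `g = X c`: `∏ Y (f t) / X c = (∏ Y (f t) / Y l0) * (Y l0 ^ (i + 1) / X c) * Y l0 ^ (s - i)`; `none`: `g = X c * X c` if `Y l0 ^ m / X c ^ 2 ∈ O'`, otherwise `g = Y l0 ^ m`. -/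
theorem s_cases {O O' : Subring K} {X : ι → K} {Y : lam → K} (hX : ∀ i, X i ∈ O)
    (hY : ∀ l, Y l ∈ O) {K1 m : ℕ} (hm : 2 ≤ m) (hK : m = 2 * K1 ∨ m + 1 = 2 * K1)
    (h : IsBlG O (fun φ : ∀ s, IS ι lam K1 m s => ∏ s, qS X Y K1 m s (φ s)) O') :
    ChA X Y O O' ∨ ChB X Y K1 O O' ∨ ChM X Y K1 m O O' := by
  classical
  obtain ⟨b, hb, hmin⟩ := blf h
  have hO : O ≤ O' := by
    obtain ⟨b, h1, h2, h3, h4, h5⟩ := h
    exact h2
  have hK1 : 1 ≤ K1 := by omega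
  have hpc : ∀ (l0 : lam) (N : ℕ), ∏ _t : Fin N, Y l0 = Y l0 ^ N := fun l0 N => by
    rw [Finset.prod_const, Finset.card_univ, Fintype.card_fin]
  rcases SQC_some hb ⟨0, hK1⟩ with ⟨c, hc0, hcX, hcY⟩ | ⟨f, hf0, hfX, hfY⟩
  · -- some `X c` generates the first ideal
    have hcY' : ∀ l, Y l / X c ∈ O' := fun l => by
      have h1 := hcY fun _ => l
      rwa [hpc, Nat.zero_add, pow_one] at h1
    refine Or.inl ⟨c, hc0, hcX, hcY', fun F hF hFX hFY hinv => ?_⟩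
    refine SQC_min hb (hmin F hF · hinv) hinv (fun s => ?_) ?_
    · refine ⟨X c, hc0, Or.inl ⟨c, rfl⟩, hFX, fun f => ?_⟩
      rw [Fin.prod_univ_succ, mul_comm, mul_div_assoc]
      exact F.mul_mem (F.prod_mem fun t _ => hF (hY _)) (hFY _)
    · refine ⟨X c * X c, mul_ne_zero hc0 hc0, Or.inl ⟨c, c, rfl⟩, fun j j' => ?_, fun f => ?_⟩
      · rw [mul_div_mul_comm]
        exact F.mul_mem (hFX j) (hFX j')
      · obtain ⟨n, rfl⟩ : ∃ n, m = n + 1 + 1 := ⟨m - 2, by omega⟩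
        rw [Fin.prod_univ_succ, Fin.prod_univ_succ, ← mul_assoc, mul_comm, mul_div_assoc,
          mul_div_mul_comm]
        exact F.mul_mem (F.prod_mem fun t _ => hF (hY _)) (F.mul_mem (hFY _) (hFY _))
  · right
    obtain ⟨l0, hl0⟩ : ∃ l0, l0 = f 0 := ⟨_, rfl⟩
    have hfl : ∏ t, Y (f t) = Y l0 := by
      rw [hl0]
      exact Fin.prod_univ_one fun t => Y (f t)
    rw [hfl] at hf0 hfX hfY
    have hYO : ∀ l, Y l / Y l0 ∈ O' := fun l => by
      have h1 := hfY fun _ => l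
      rwa [hpc, Nat.zero_add, pow_one] at h1
    let P : ℕ → Prop := fun i => ∀ j, X j / Y l0 ^ i ∈ O'
    have hP1 : P 1 := fun j => by
      rw [pow_one]
      exact hfX j
    obtain ⟨i, hi⟩ : ∃ i, i = Nat.findGreatest P K1 := ⟨_, rfl⟩
    have hiK : i ≤ K1 := by
      rw [hi]
      exact Nat.findGreatest_le K1
    have hPi : P i := by
      rw [hi]
      exact Nat.findGreatest_spec hK1 hP1
    have hi1 : 1 ≤ i := by
      rw [hi]
      exact Nat.le_findGreatest hK1 hP1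
    have hgr : ∀ k, i < k → k ≤ K1 → ¬ P k := fun k h1 h2 => by
      rw [hi] at h1
      exact Nat.findGreatest_is_greatest h1 h2
    rcases hiK.eq_or_lt with hiK | hiK
    · -- powers of `Y l0` generate all ideals
      left
      rw [hiK] at hPi
      refine ⟨l0, hf0, hYO, hPi, fun F hF hFY hFX hinv => ?_⟩
      have hyF : Y l0 ∈ F := hF (hY l0)
      refine SQC_min hb (hmin F hF · hinv) hinv (fun s => ?_) ?_
      · refine ⟨Y l0 ^ ((s : ℕ) + 1), pow_ne_zero _ hf0, Or.inr ⟨fun _ => l0, hpc _ _⟩,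
          fun j => ?_, fun f => SQC_pow hFY f⟩
        obtain ⟨n, hn⟩ : ∃ n, K1 = (s : ℕ) + 1 + n := ⟨K1 - (s + 1), by have := s.2; omega⟩
        have h1 : X j / Y l0 ^ ((s : ℕ) + 1) = X j / Y l0 ^ K1 * Y l0 ^ n := by
          have h2 : Y l0 ^ K1 = Y l0 ^ ((s : ℕ) + 1) * Y l0 ^ n := by
            rw [← pow_add, ← hn]
          rw [h2]
          field_simp
        rw [h1]
        exact F.mul_mem (hFX j) (F.pow_mem hyF n)
      · refine ⟨Y l0 ^ m, pow_ne_zero _ hf0, Or.inr ⟨fun _ => l0, hpc _ _⟩,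
          fun j j' => ?_, fun f => SQC_pow hFY f⟩
        obtain ⟨n, hn⟩ : ∃ n, K1 + K1 = m + n := ⟨K1 + K1 - m, by omega⟩
        have h1 : X j * X j' / Y l0 ^ m = X j / Y l0 ^ K1 * (X j' / Y l0 ^ K1) * Y l0 ^ n := by
          rw [← mul_div_mul_comm, ← pow_add, hn, pow_add]
          field_simp
        rw [h1]
        exact F.mul_mem (F.mul_mem (hFX j) (hFX j')) (F.pow_mem hyF n)
    · -- the mixed charts
      right
      have h1 := SQC_some hb ⟨i, hiK⟩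
      rcases h1 with ⟨c, hc0, hcX, hcY⟩ | ⟨f, hf0', hfX', hfY'⟩
      · have hcY' : Y l0 ^ (i + 1) / X c ∈ O' := by
          have h2 := hcY fun _ => l0
          rwa [hpc] at h2
        have halt : Y l0 ^ m / X c ^ 2 ∈ O' ∨ X c ^ 2 / Y l0 ^ m ∈ O' := by
          rcases SQC_none hb with ⟨j, j', h0, hjX, hjY⟩ | ⟨f, h0, hjX, hjY⟩
          · left
            have h2 := hjY fun _ => l0
            rw [hpc] at h2
            have h3 : Y l0 ^ m / X c ^ 2 = Y l0 ^ m / (X j * X j') * (X j / X c * (X j' / X c)) := by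
              have h4 := left_ne_zero_of_mul h0
              have h5 := right_ne_zero_of_mul h0
              field_simp
            rw [h3]
            exact O'.mul_mem h2 (O'.mul_mem (hcX j) (hcX j'))
          · right
            have h3 : X c ^ 2 / Y l0 ^ m = X c * X c / (∏ t, Y (f t)) * ((∏ t, Y (f t)) / Y l0 ^ m) := by
              field_simp
            rw [h3]
            exact O'.mul_mem (hjX c c) (SQC_pow hYO f)
        refine ⟨c, l0, i, hi1, hiK, hc0, hf0, hcX, hYO, hPi c, hcY', halt,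
          fun F hF hFX hFY hF1 hF2 hF3 hF4 hinv => ?_⟩
        have hyF : Y l0 ∈ F := hF (hY l0)
        refine SQC_min hb (hmin F hF · hinv) hinv (fun s => ?_) ?_
        · rcases Nat.lt_or_ge s i with hs | hs
          · refine ⟨Y l0 ^ ((s : ℕ) + 1), pow_ne_zero _ hf0, Or.inr ⟨fun _ => l0, hpc _ _⟩,
              fun j => ?_, fun f => SQC_pow hFY f⟩
            obtain ⟨n, hn⟩ : ∃ n, i = (s : ℕ) + 1 + n := ⟨i - (s + 1), by omega⟩
            have h1 : X j / Y l0 ^ ((s : ℕ) + 1) =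
                X j / X c * (X c / Y l0 ^ i) * Y l0 ^ n := by
              have h2 : Y l0 ^ i = Y l0 ^ ((s : ℕ) + 1) * Y l0 ^ n := by
                rw [← pow_add, ← hn]
              rw [h2]
              field_simp
            rw [h1]
            exact F.mul_mem (F.mul_mem (hFX j) hF1) (F.pow_mem hyF n)
          · refine ⟨X c, hc0, Or.inl ⟨c, rfl⟩, hFX, fun f => ?_⟩
            obtain ⟨n, hn⟩ : ∃ n, (s : ℕ) + 1 = i + 1 + n := ⟨s - i, by omega⟩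
            have h1 : (∏ t, Y (f t)) / X c = (∏ t, Y (f t)) / Y l0 ^ ((s : ℕ) + 1) *
                (Y l0 ^ (i + 1) / X c) * Y l0 ^ n := by
              have h2 : Y l0 ^ ((s : ℕ) + 1) = Y l0 ^ (i + 1) * Y l0 ^ n := by
                rw [hn, pow_add]
              rw [h2]
              field_simp
            rw [h1]
            exact F.mul_mem (F.mul_mem (SQC_pow hFY f) hF2) (F.pow_mem hyF n)
        · rcases halt with halt | halt
          · refine ⟨X c * X c, mul_ne_zero hc0 hc0, Or.inl ⟨c, c, rfl⟩, fun j j' => ?_,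
              fun f => ?_⟩
            · rw [mul_div_mul_comm]
              exact F.mul_mem (hFX j) (hFX j')
            · have h1 : (∏ t, Y (f t)) / (X c * X c) =
                  (∏ t, Y (f t)) / Y l0 ^ m * (Y l0 ^ m / X c ^ 2) := by
                field_simp
              rw [h1]
              exact F.mul_mem (SQC_pow hFY f) (hF3 halt)
          · refine ⟨Y l0 ^ m, pow_ne_zero _ hf0, Or.inr ⟨fun _ => l0, hpc _ _⟩,
              fun j j' => ?_, fun f => SQC_pow hFY f⟩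
            have h1 : X j * X j' / Y l0 ^ m = X j / X c * (X j' / X c) * (X c ^ 2 / Y l0 ^ m) := by
              field_simp
            rw [h1]
            exact F.mul_mem (F.mul_mem (hFX j) (hFX j')) (hF4 halt)
      · -- contradiction to the maximality
        exfalso
        refine hgr (i + 1) (Nat.lt_succ_self i) hiK fun j => ?_
        have h2 : X j / Y l0 ^ (i + 1) =
            X j / (∏ t, Y (f t)) * ((∏ t, Y (f t)) / Y l0 ^ (i + 1)) := by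
          field_simp
        rw [h2]
        exact O'.mul_mem (hfX' j) (SQC_pow hYO f)

end Pool.Agent.DG
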