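import Pool.Agent.DG.SqDefs

set_option autoImplicit false

/-! # SQT: the ideal of the relations -/

namespace Pool.Agent.DG

open MvPolynomial Pool.Agent.NT9

variable {τ κ ι lam : Type} [Fintype τ] [Fintype κ] [Fintype ι] [Fintype lam]
  (z : MvPolynomial τ ℤ) (r : κ → MvPolynomial τ ℤ) (x : ι → MvPolynomial τ ℤ)
  (y : lam → MvPolynomial τ ℤ) (A : ι → ι → MvPolynomial τ ℤ) (h : lam → MvPolynomial τ ℤ)
  (m : ℕ) (w u e f : Fin 2 → ℕ) (n1 n2 : NV ι lam)

/-- The ideal of the relations. -/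
noncomputable def IR : Ideal (MvPolynomial (VS τ ι lam) ℤ) :=
  Ideal.span (Set.range (relS z r x y A h m w u e f n1 n2))

/-- Proof: induction on `t` (`MvPolynomial.induction_on`); for sums multiply by powers of `sl E0`. -/
theorem s_red {E0 : MvPolynomial τ ℤ}
    (hE : ∀ c : NV ι lam, ∃ (N : ℕ) (g : MvPolynomial τ ℤ),
      sl ι lam E0 ^ N * X (Sum.inr c) - sl ι lam g ∈ IR z r x y A h m w u e f n1 n2)
    (t : MvPolynomial (VS τ ι lam) ℤ) : ∃ (N : ℕ) (g : MvPolynomial τ ℤ),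
      sl ι lam E0 ^ N * t - sl ι lam g ∈ IR z r x y A h m w u e f n1 n2 := by
  induction t using MvPolynomial.induction_on with
  | C a =>
    refine ⟨0, C a, ?_⟩
    rw [pow_zero, one_mul]
    have h1 : sl ι lam (C a : MvPolynomial τ ℤ) = C a := rename_C _ _
    rw [h1, sub_self]
    exact Ideal.zero_mem _
  | add p q hp hq =>
    obtain ⟨N1, g1, h1⟩ := hp
    obtain ⟨N2, g2, h2⟩ := hq
    refine ⟨N1 + N2, E0 ^ N2 * g1 + E0 ^ N1 * g2, ?_⟩
    have h3 : sl ι lam E0 ^ (N1 + N2) * (p + q) - sl ι lam (E0 ^ N2 * g1 + E0 ^ N1 * g2) =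
        sl ι lam E0 ^ N2 * (sl ι lam E0 ^ N1 * p - sl ι lam g1) +
          sl ι lam E0 ^ N1 * (sl ι lam E0 ^ N2 * q - sl ι lam g2) := by
      simp only [sl, map_add, map_mul, map_pow]
      ring
    rw [h3]
    exact Ideal.add_mem _ (Ideal.mul_mem_left _ _ h1) (Ideal.mul_mem_left _ _ h2)
  | mul_X p n hp =>
    obtain ⟨N1, g1, h1⟩ := hp
    rcases n with t | c
    · refine ⟨N1, g1 * X t, ?_⟩
      have h3 : sl ι lam E0 ^ N1 * (p * X (Sum.inl t)) - sl ι lam (g1 * X t) =
          (sl ι lam E0 ^ N1 * p - sl ι lam g1) * X (Sum.inl t) := by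
        simp only [sl, map_mul, rename_X]
        ring
      rw [h3]
      exact Ideal.mul_mem_right _ _ h1
    · obtain ⟨N2, g2, h2⟩ := hE c
      refine ⟨N1 + N2, g1 * g2, ?_⟩
      have h3 : sl ι lam E0 ^ (N1 + N2) * (p * X (Sum.inr c)) - sl ι lam (g1 * g2) =
          sl ι lam E0 ^ N1 * p * (sl ι lam E0 ^ N2 * X (Sum.inr c) - sl ι lam g2) +
            sl ι lam g2 * (sl ι lam E0 ^ N1 * p - sl ι lam g1) := by
        simp only [sl, map_mul]
        ring
      rw [h3]
      exact Ideal.add_mem _ (Ideal.mul_mem_left _ _ h2) (Ideal.mul_mem_left _ _ h1)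

/-- Proof: modulo the relations `sl (x j) ≡ mab w * V j`, `sl (y l) ≡ mab u * E l`, so `sl (sqF ..) ≡ mab w ^ 2 * sQV + mab u ^ m * sHV = mab g * (mab e * sQV + mab f * sHV) ≡ 0`. -/
theorem s_sqF {g : Fin 2 → ℕ} (hwg : ∀ i, 2 * w i = g i + e i)
    (hug : ∀ i, m * u i = g i + f i) :
    sl ι lam (sqF x y A h m) ∈ IR z r x y A h m w u e f n1 n2 := by
  rw [← Ideal.Quotient.eq_zero_iff_mem]
  let q : MvPolynomial (VS τ ι lam) ℤ →+* _ := Ideal.Quotient.mk (IR z r x y A h m w u e f n1 n2)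
  change q (sl ι lam (sqF x y A h m)) = 0
  have hq : ∀ i, q (relS z r x y A h m w u e f n1 n2 i) = 0 := fun i =>
    Ideal.Quotient.eq_zero_iff_mem.2 (Ideal.subset_span ⟨i, rfl⟩)
  have hx : ∀ j, q (sl ι lam (x j)) = q (mab τ ι lam w) * q (sV τ lam j) := by
    intro j
    have h1 := hq (Sum.inr (Sum.inr (Sum.inl j)))
    simp only [relS] at h1
    rw [map_sub, map_mul, sub_eq_zero] at h1
    exact h1
  have hy : ∀ l, q (sl ι lam (y l)) = q (mab τ ι lam u) * q (sE τ ι l) := by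
    intro l
    have h1 := hq (Sum.inr (Sum.inr (Sum.inr l)))
    simp only [relS] at h1
    rw [map_sub, map_mul, sub_eq_zero] at h1
    exact h1
  have h2 : q (mab τ ι lam e * sQV lam A + mab τ ι lam f * sHV ι h m) = 0 := hq (Sum.inl 2)
  have hw2 : mab τ ι lam w ^ 2 = mab τ ι lam g * mab τ ι lam e := by
    unfold mab
    rw [mul_pow, ← pow_mul, ← pow_mul, mul_comm (w 0), mul_comm (w 1), hwg, hwg, pow_add, pow_add]
    ring
  have hu2 : mab τ ι lam u ^ m = mab τ ι lam g * mab τ ι lam f := by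
    unfold mab
    rw [mul_pow, ← pow_mul, ← pow_mul, mul_comm (u 0), mul_comm (u 1), hug, hug, pow_add, pow_add]
    ring
  have h3 : sl ι lam (sqF x y A h m) = ∑ i, ∑ j, sl ι lam (A i j) * sl ι lam (x i) * sl ι lam (x j) +
      ∑ l, sl ι lam (h l) * sl ι lam (y l) ^ m := by
    unfold sqF
    simp only [sl, map_add, map_sum, map_mul, map_pow]
  have h4 : q (sl ι lam (sqF x y A h m)) = q (mab τ ι lam w ^ 2) * q (sQV lam A) +
      q (mab τ ι lam u ^ m) * q (sHV ι h m) := by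
    rw [h3, map_add]
    congr 1
    · unfold sQV
      simp only [map_sum, map_mul, map_pow, hx, Finset.mul_sum]
      refine Finset.sum_congr rfl fun i _ => Finset.sum_congr rfl fun j _ => ?_
      ring
    · unfold sHV
      simp only [map_sum, map_mul, map_pow, hy, Finset.mul_sum]
      refine Finset.sum_congr rfl fun l _ => ?_
      ring
  rw [h4, hw2, hu2]
  rw [map_add, map_mul, map_mul] at h2
  calc q (mab τ ι lam g * mab τ ι lam e) * q (sQV lam A) +
        q (mab τ ι lam g * mab τ ι lam f) * q (sHV ι h m)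
      = q (mab τ ι lam g) * (q (mab τ ι lam e) * q (sQV lam A) +
          q (mab τ ι lam f) * q (sHV ι h m)) := by
        rw [map_mul, map_mul]
        ring
    _ = 0 := by rw [h2, mul_zero]

/-- Proof: `Submodule.span_induction` or `Ideal.map`; `s_sqF`. -/
theorem s_map {g : Fin 2 → ℕ} (hwg : ∀ i, 2 * w i = g i + e i)
    (hug : ∀ i, m * u i = g i + f i) {t : MvPolynomial τ ℤ}
    (ht : t ∈ Ideal.span (insert z (insert (sqF x y A h m) (Set.range r)))) :
    sl ι lam t ∈ IR z r x y A h m w u e f n1 n2 := by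
  have h1 : Ideal.span (insert z (insert (sqF x y A h m) (Set.range r))) ≤
      (IR z r x y A h m w u e f n1 n2).comap
        (rename Sum.inl : MvPolynomial τ ℤ →ₐ[ℤ] MvPolynomial (VS τ ι lam) ℤ).toRingHom := by
    rw [Ideal.span_le]
    intro s hs
    rcases hs with rfl | rfl | ⟨k, rfl⟩
    · exact Ideal.subset_span ⟨Sum.inr (Sum.inl none), rfl⟩
    · exact s_sqF z r x y A h m w u e f n1 n2 hwg hug
    · exact Ideal.subset_span ⟨Sum.inr (Sum.inl (some k)), rfl⟩
  exact h1 ht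

end Pool.Agent.DG
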