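import Pool.Agent.DG.SqV
import Pool.Agent.DG.SqT
import Pool.Agent.NodHyp.Loc

set_option autoImplicit false

/-! # SQG: regularity of a chart -/

namespace Pool.Agent.DG

open MvPolynomial Pool.Agent.NT9

variable {τ κ ι lam : Type} [Fintype τ] [Fintype κ] [Fintype ι] [Fintype lam] {K : Type} [Field K]
  {e0 : κ ⊕ (ι ⊕ lam) ≃ τ} {π : MvPolynomial τ ℤ →+* K} {Q : Ideal (MvPolynomial τ ℤ)}
  {z : MvPolynomial τ ℤ} {r : κ → MvPolynomial τ ℤ} {x : ι → MvPolynomial τ ℤ}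
  {y : lam → MvPolynomial τ ℤ} {A : ι → ι → MvPolynomial τ ℤ} {h : lam → MvPolynomial τ ℤ}
  {m : ℕ} {O O' : Subring K}

/-- Proof. `NH.regular_of_pres` for `O'` with `T = MvPolynomial (VS τ ι lam) ℤ`, `piS π a b V E`, the relations `relS`, the element `sl (d * E0)` (`d` from `Sq.tor`). Torsion: `piS t = 0`: `s_red` gives `sl E0 ^ N * t ≡ sl g`, so `π g = 0` (the ideal of the
relations is in the kernel of `piS`), `d ^ N' * g` is in the span, `s_map`. Compare `PW.odp_blow` (file `PW/OdpE`). -/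
theorem sq_reg (hq : Sq e0 π Q z r x y A h m O) {w u e f g : Fin 2 → ℕ} {n1 n2 : NV ι lam}
    (hwg : ∀ i, 2 * w i = g i + e i) (hug : ∀ i, m * u i = g i + f i) {a b : K} {V : ι → K}
    {E : lam → K} [IsLocalRing O'] (hch : SCh π z r x y A h m w u e f n1 n2 a b V E O O')
    {E0 : MvPolynomial τ ℤ} (hE0 : π E0 ≠ 0)
    (hE : ∀ c : NV ι lam, ∃ (N : ℕ) (g : MvPolynomial τ ℤ),
      sl ι lam E0 ^ N * X (Sum.inr c) - sl ι lam g ∈ IR z r x y A h m w u e f n1 n2)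
    (hind : ∀ (P : Ideal (MvPolynomial (VS τ ι lam) ℤ)) [P.IsPrime],
      (∀ t, t ∈ P ↔ piS π a b V E t ∈ mx O') → SInd z r x y A h m w u e f n1 n2 P) :
    IsRegularLocalRing O' := by
  classical
  have hpoly : ∀ t, π t ∈ O' := fun t => hch.le (hq.poly t)
  have hπ : ∀ t, piS π a b V E t ∈ O' := piS_mem π hpoly hch.co
  obtain ⟨d, hd0, hd⟩ := hq.tor
  have hmul : ∀ s t : MvPolynomial τ ℤ, (sl ι lam (s * t) : MvPolynomial (VS τ ι lam) ℤ) =
      sl ι lam s * sl ι lam t := fun s t => map_mul _ s t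
  have hpw : ∀ (s : MvPolynomial τ ℤ) (N : ℕ),
      (sl ι lam (s ^ N) : MvPolynomial (VS τ ι lam) ℤ) = sl ι lam s ^ N := fun s N =>
    map_pow _ s N
  refine NH.regular_of_pres O' (piS π a b V E) hπ hch.fr
    (relS z r x y A h m w u e f n1 n2) hch.rel (sl ι lam (d * E0)) ?_ ?_ ?_
  · rw [piS_sl, map_mul]
    exact mul_ne_zero hd0 hE0
  · intro t ht
    obtain ⟨N, q, hN⟩ := s_red z r x y A h m w u e f n1 n2 hE t
    have hle : IR z r x y A h m w u e f n1 n2 ≤ RingHom.ker (piS π a b V E) :=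
      Ideal.span_le.mpr (by
        rintro _ ⟨i, rfl⟩
        exact hch.rel i)
    have h1 : piS π a b V E (sl ι lam E0 ^ N * t - sl ι lam q) = 0 := hle hN
    rw [map_sub, map_mul, ht, mul_zero, zero_sub, neg_eq_zero, piS_sl] at h1
    obtain ⟨M, hM⟩ := hd q h1
    have h2 := s_map z r x y A h m w u e f n1 n2 hwg hug hM
    refine ⟨N + M, ?_⟩
    rw [hmul, hpw] at h2
    have h3 : (sl ι lam (d * E0) : MvPolynomial (VS τ ι lam) ℤ) ^ (N + M) * t =
        (sl ι lam d ^ (N + M) * sl ι lam E0 ^ M) * (sl ι lam E0 ^ N * t - sl ι lam q) +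
          (sl ι lam d ^ N * sl ι lam E0 ^ M) * (sl ι lam d ^ M * sl ι lam q) := by
      rw [hmul]
      ring
    rw [h3]
    exact Ideal.add_mem _ (Ideal.mul_mem_left _ _ hN) (Ideal.mul_mem_left _ _ h2)
  · intro P hP hmem g' hg'
    have hm : ∀ t, t ∈ P ↔ piS π a b V E t ∈ mx O' := by
      intro t
      rw [hmem]
      exact ⟨fun h => ⟨hπ t, h⟩, fun h => h.2⟩
    exact hind P hm g' hg'

end Pool.Agent.DG
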