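import Pool.Agent.DG.SqDefs

set_option autoImplicit false

/-! # SQS: smoothness of the strict transform -/

namespace Pool.Agent.DG

open MvPolynomial Pool.Agent.NT9

variable {τ ι lam : Type} [Fintype τ] [Fintype ι] [Fintype lam]
  {A : ι → ι → MvPolynomial τ ℤ} {h : lam → MvPolynomial τ ℤ} {m : ℕ}
  {P : Ideal (MvPolynomial (VS τ ι lam) ℤ)}

private theorem sqs_euler {ι L : Type} [Fintype ι] [CommRing L] (A : ι → ι → L) (v : ι → L) :
    ∑ i, v i * ∑ j, (A i j + A j i) * v j = 2 * ∑ i, ∑ j, A i j * v i * v j := by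
  have h1 : ∑ i, v i * ∑ j, (A i j + A j i) * v j =
      ∑ i, ∑ j, A i j * v i * v j + ∑ i, ∑ j, A j i * v j * v i := by
    rw [← Finset.sum_add_distrib]
    refine Finset.sum_congr rfl fun i _ => ?_
    rw [Finset.mul_sum, ← Finset.sum_add_distrib]
    exact Finset.sum_congr rfl fun j _ => by ring
  have h2 : ∑ i, ∑ j, A j i * v j * v i = ∑ i, ∑ j, A i j * v i * v j := Finset.sum_comm
  rw [h1, h2]
  ring

/-- Euler. -/
theorem s_euler : ∑ j, sV τ lam j * ∑ k, sl ι lam (A j k + A k j) * sV τ lam k =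
    2 * sQV lam A := by
  have h1 := sqs_euler (fun i j => sl ι lam (A i j)) (fun j => sV τ lam j)
  unfold sQV
  rw [← h1]
  refine Finset.sum_congr rfl fun i _ => ?_
  congr 1
  refine Finset.sum_congr rfl fun j _ => ?_
  simp only [sl, map_add]

/-- Proof. Otherwise, in the fraction field `L` of the quotient by `P`, with `v k` the class of `V k` and `χ` the composition of `sl` and the projection, `∑ χ (A i j) v i v j = 0` and `∑ k, χ (A j k + A k j) * v k = 0` for all `j ≠ c`; by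
`s_euler` (`v c = 1`) also for `j = c`; `SmF` gives `v = 0`, a contradiction. Compare `PW.o_sm` (file `PW/OdpS`). -/
theorem s_smV [P.IsPrime] {Q : Ideal (MvPolynomial τ ℤ)} (hQP : ∀ t ∈ Q, sl ι lam t ∈ P)
    (hA : SmF A Q) {c : ι} (hc : sV τ lam c - 1 ∈ P) (hq : sQV lam A ∈ P) :
    ∃ j, j ≠ c ∧ ∑ k, sl ι lam (A j k + A k j) * sV τ lam k ∉ P := by
  classical
  by_contra hcon
  push Not at hcon
  let L := FractionRing (MvPolynomial (VS τ ι lam) ℤ ⧸ P)
  let ψ : MvPolynomial (VS τ ι lam) ℤ →+* L :=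
    (algebraMap (MvPolynomial (VS τ ι lam) ℤ ⧸ P) L).comp (Ideal.Quotient.mk P)
  have hψ : ∀ t ∈ P, ψ t = 0 := by
    intro t ht
    change algebraMap (MvPolynomial (VS τ ι lam) ℤ ⧸ P) L (Ideal.Quotient.mk P t) = 0
    rw [Ideal.Quotient.eq_zero_iff_mem.2 ht, map_zero]
  let χ : MvPolynomial τ ℤ →+* L :=
    ψ.comp (rename Sum.inl : MvPolynomial τ ℤ →ₐ[ℤ] MvPolynomial (VS τ ι lam) ℤ).toRingHom
  have hχ : ∀ t, χ t = ψ (sl ι lam t) := fun _ => rfl
  let v : ι → L := fun j => ψ (sV τ lam j)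
  have hv : ∀ j, v j = ψ (sV τ lam j) := fun _ => rfl
  have g1 : ∑ i, ∑ j, χ (A i j) * v i * v j = 0 := by
    have h1 := hψ _ hq
    unfold sQV at h1
    simp only [map_sum, map_mul] at h1
    exact h1
  have g2 : ∀ i, i ≠ c → ∑ j, χ (A i j + A j i) * v j = 0 := by
    intro i hi
    have h1 := hψ _ (hcon i hi)
    simp only [map_sum, map_mul] at h1
    exact h1
  have hvc : v c = 1 := by
    have h1 := hψ _ hc
    rw [map_sub, map_one, sub_eq_zero] at h1
    exact h1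
  have hE := sqs_euler (fun i j => χ (A i j)) v
  rw [g1, mul_zero, Finset.sum_eq_single c (fun i _ hi => by
    have := g2 i hi
    simp only [map_add] at this
    rw [this, mul_zero]) (fun h => absurd (Finset.mem_univ c) h), hvc, one_mul] at hE
  have g3 : ∀ i, ∑ j, χ (A i j + A j i) * v j = 0 := by
    intro i
    by_cases hi : i = c
    · rw [hi]
      simp only [map_add]
      exact hE
    · exact g2 i hi
  have h0 := congrFun (hA L χ (fun t ht => hψ _ (hQP t ht)) v g1 g3) c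
  rw [hvc, Pi.zero_apply] at h0
  exact one_ne_zero h0

omit [Fintype τ] [Fintype ι] [Fintype lam] in
private theorem sqs_unit [hP : P.IsPrime] {Q : Ideal (MvPolynomial τ ℤ)} [hQ : Q.IsMaximal]
    (hQP : ∀ t ∈ Q, sl ι lam t ∈ P) {t : MvPolynomial τ ℤ} (ht : t ∉ Q) : sl ι lam t ∉ P := by
  intro h1
  let P0 : Ideal (MvPolynomial τ ℤ) := P.comap
    (rename Sum.inl : MvPolynomial τ ℤ →ₐ[ℤ] MvPolynomial (VS τ ι lam) ℤ).toRingHom
  have h2 : Q ≤ P0 := fun t ht => hQP t ht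
  have h3 : P0 ≠ ⊤ := by
    intro h4
    have h5 : (1 : MvPolynomial τ ℤ) ∈ P0 := h4 ▸ Submodule.mem_top
    have h6 : sl ι lam (1 : MvPolynomial τ ℤ) ∈ P := h5
    have h7 : sl ι lam (1 : MvPolynomial τ ℤ) = 1 := map_one (rename Sum.inl)
    rw [h7] at h6
    exact hP.ne_top ((Ideal.eq_top_iff_one _).2 h6)
  have h4 := hQ.eq_of_le h3 h2
  exact ht (h4 ▸ (show t ∈ P0 from h1))

/-- Proof. `sHV ≡ sl (h l0)` modulo `P` (`m ≥ 1`), and `sl (h l0) ∉ P`: otherwise `h l0` is in the comap of `P`, which contains the maximal ideal `Q`, so is equal to `Q`. -/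
theorem s_smE [P.IsPrime] {Q : Ideal (MvPolynomial τ ℤ)} [Q.IsMaximal]
    (hQP : ∀ t ∈ Q, sl ι lam t ∈ P) (hh : ∀ l, h l ∉ Q) (hm : 1 ≤ m) {l0 : lam}
    (hl0 : sE τ ι l0 - 1 ∈ P) (hE : ∀ l, l ≠ l0 → sE τ ι l ∈ P) : sHV ι h m ∉ P := by
  classical
  intro h1
  apply sqs_unit (P := P) hQP (hh l0)
  rw [← Ideal.Quotient.eq_zero_iff_mem] at h1 ⊢
  let q : MvPolynomial (VS τ ι lam) ℤ →+* _ := Ideal.Quotient.mk P
  change q (sHV ι h m) = 0 at h1
  change q (sl ι lam (h l0)) = 0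
  have h2 : q (sE τ ι l0) = 1 := by
    have h3 : q (sE τ ι l0 - 1) = 0 := Ideal.Quotient.eq_zero_iff_mem.2 hl0
    rw [map_sub, map_one, sub_eq_zero] at h3
    exact h3
  have h3 : ∀ l, l ≠ l0 → q (sE τ ι l) = 0 := fun l hl => Ideal.Quotient.eq_zero_iff_mem.2 (hE l hl)
  unfold sHV at h1
  simp only [map_sum, map_mul, map_pow] at h1
  rw [Finset.sum_eq_single l0 (fun l _ hl => by
    rw [h3 l hl, zero_pow (by omega), mul_zero]) (fun h => absurd (Finset.mem_univ l0) h), h2,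
    one_pow, mul_one] at h1
  exact h1

/-- Proof. `C m ∉ P` (`C p ∈ P`, `p ∤ m`), `sl (h l) ∉ P` as in `s_smE`, and `P` is prime (`m ≥ 2`). -/
theorem s_rootE [P.IsPrime] {Q : Ideal (MvPolynomial τ ℤ)} [Q.IsMaximal]
    (hQP : ∀ t ∈ Q, sl ι lam t ∈ P) (hh : ∀ l, h l ∉ Q) (hm : 2 ≤ m) {p : ℕ} (hp : p.Prime)
    (hpQ : (C (p : ℤ) : MvPolynomial τ ℤ) ∈ Q) (hpm : ¬ p ∣ m) {l : lam}
    (hl : C (m : ℤ) * sl ι lam (h l) * sE τ ι l ^ (m - 1) ∈ P) : sE τ ι l ∈ P := by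
  have hP : P.IsPrime := inferInstance
  rcases hP.mem_or_mem hl with h1 | h1
  · exfalso
    rcases hP.mem_or_mem h1 with h2 | h2
    · have h3 : (C (p : ℤ) : MvPolynomial (VS τ ι lam) ℤ) ∈ P := by
        have h4 := hQP _ hpQ
        have h5 : sl ι lam (C (p : ℤ) : MvPolynomial τ ℤ) = C (p : ℤ) := rename_C _ _
        rwa [h5] at h4
      have h4 : IsCoprime (p : ℤ) (m : ℤ) :=
        Nat.isCoprime_iff_coprime.2 ((Nat.Prime.coprime_iff_not_dvd hp).2 hpm)
      obtain ⟨a, b, hab⟩ := h4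
      apply hP.ne_top
      rw [Ideal.eq_top_iff_one]
      have h5 : (1 : MvPolynomial (VS τ ι lam) ℤ) = C a * C (p : ℤ) + C b * C (m : ℤ) := by
        rw [← C_mul, ← C_mul, ← C_add, hab, C_1]
      rw [h5]
      exact P.add_mem (P.mul_mem_left _ h3) (P.mul_mem_left _ h2)
    · exact sqs_unit (P := P) hQP (hh l) h2
  · exact hP.mem_of_pow_mem _ h1

end Pool.Agent.DG
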