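import Pool.Agent.DG.SqT

set_option autoImplicit false

/-! # SQTA: the new variables modulo the relations -/

namespace Pool.Agent.DG

open MvPolynomial Pool.Agent.NT9

variable {τ κ ι lam : Type} [Fintype τ] [Fintype κ] [Fintype ι] [Fintype lam]
  (z : MvPolynomial τ ℤ) (r : κ → MvPolynomial τ ℤ) (x : ι → MvPolynomial τ ℤ)
  (y : lam → MvPolynomial τ ℤ) (A : ι → ι → MvPolynomial τ ℤ) (h : lam → MvPolynomial τ ℤ)
  (m : ℕ) (w u e f : Fin 2 → ℕ)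

omit [Fintype τ] [Fintype κ] in
/-- the relations in the quotient ring -/
private theorem ta_rel (n1 n2 : NV ι lam) {R : Type*} [CommRing R]
    (φ : MvPolynomial (VS τ ι lam) ℤ →+* R)
    (hφ : ∀ i, φ (relS z r x y A h m w u e f n1 n2 i) = 0) :
    φ (X (Sum.inr n1)) = 1 ∧ φ (X (Sum.inr n2)) = 1 ∧
      (∀ j, φ (sl ι lam (x j)) =
        φ (sa τ ι lam) ^ w 0 * φ (sb τ ι lam) ^ w 1 * φ (sV τ lam j)) ∧
      ∀ l, φ (sl ι lam (y l)) =
        φ (sa τ ι lam) ^ u 0 * φ (sb τ ι lam) ^ u 1 * φ (sE τ ι l) := by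
  refine ⟨?_, ?_, fun j => ?_, fun l => ?_⟩
  · have h1 := hφ (Sum.inl 0)
    have h2 : φ (X (Sum.inr n1) - 1) = 0 := h1
    rw [map_sub, map_one] at h2
    exact sub_eq_zero.1 h2
  · have h1 := hφ (Sum.inl 1)
    have h2 : φ (X (Sum.inr n2) - 1) = 0 := h1
    rw [map_sub, map_one] at h2
    exact sub_eq_zero.1 h2
  · have h1 := hφ (Sum.inr (Sum.inr (Sum.inl j)))
    have h2 : φ (sl ι lam (x j) - mab τ ι lam w * sV τ lam j) = 0 := h1
    rw [map_sub, map_mul, mab, map_mul, map_pow, map_pow] at h2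
    exact sub_eq_zero.1 h2
  · have h1 := hφ (Sum.inr (Sum.inr (Sum.inr l)))
    have h2 : φ (sl ι lam (y l) - mab τ ι lam u * sE τ ι l) = 0 := h1
    rw [map_sub, map_mul, mab, map_mul, map_pow, map_pow] at h2
    exact sub_eq_zero.1 h2

omit [Fintype τ] [Fintype κ] in
private theorem ta_mk (n1 n2 : NV ι lam) (i : Fin 3 ⊕ (Option κ ⊕ (ι ⊕ lam))) :
    Ideal.Quotient.mk (IR z r x y A h m w u e f n1 n2)
      (relS z r x y A h m w u e f n1 n2 i) = 0 :=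
  Ideal.Quotient.eq_zero_iff_mem.2 (Ideal.subset_span ⟨i, rfl⟩)

omit [Fintype τ] [Fintype ι] [Fintype lam] in
private theorem ta_slm (s t : MvPolynomial τ ℤ) :
    (sl ι lam (s * t) : MvPolynomial (VS τ ι lam) ℤ) = sl ι lam s * sl ι lam t :=
  map_mul _ s t

omit [Fintype τ] [Fintype ι] [Fintype lam] in
private theorem ta_slp (s : MvPolynomial τ ℤ) (N : ℕ) :
    (sl ι lam (s ^ N) : MvPolynomial (VS τ ι lam) ℤ) = sl ι lam s ^ N :=
  map_pow _ s N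

/-- Both `V c = 1` and `E l0 = 1`. Proof. Modulo the relations `x c ≡ a ^ w 0 b ^ w 1`, `y l0 ≡ a ^ u 0 b ^ u 1`, so `(y l0) ^ w 1 * a ≡ (x c) ^ u 1`, `(x c) ^ u 0 * b ≡ (y l0) ^ w 0`, `x c * V j ≡ x j`, `y l0 * E l ≡ y l`; multiply by powers of
`x c`, `y l0`. -/
theorem s_varT {c : ι} {l0 : lam} (hdet : w 0 * u 1 = w 1 * u 0 + 1) (v : NV ι lam) :
    ∃ (N : ℕ) (g : MvPolynomial τ ℤ), sl ι lam (x c * y l0) ^ N * X (Sum.inr v) - sl ι lam g ∈
      IR z r x y A h m w u e f (Sum.inr (Sum.inl c)) (Sum.inr (Sum.inr l0)) := by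
  obtain ⟨h1, h2, h3, h4⟩ := ta_rel z r x y A h m w u e f (Sum.inr (Sum.inl c))
    (Sum.inr (Sum.inr l0)) _ (ta_mk z r x y A h m w u e f (Sum.inr (Sum.inl c))
      (Sum.inr (Sum.inr l0)))
  have hxc := h3 c
  rw [h1, mul_one] at hxc
  have hyl := h4 l0
  rw [h2, mul_one] at hyl
  rcases v with v | v | v
  · fin_cases v
    · refine ⟨w 1, x c ^ w 1 * x c ^ u 1, ?_⟩
      rw [← Ideal.Quotient.mk_eq_mk_iff_sub_mem, ta_slm, ta_slm, ta_slp, ta_slp, map_mul, map_pow,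
        map_mul, map_mul, map_pow, map_pow, mul_pow, hxc, hyl]
      show _ * Ideal.Quotient.mk _ (sa τ ι lam) = _
      have h5 : u 0 * w 1 + 1 = w 0 * u 1 := by rw [hdet, mul_comm]
      have h6 : ∀ a b : MvPolynomial (VS τ ι lam) ℤ ⧸
          IR z r x y A h m w u e f (Sum.inr (Sum.inl c)) (Sum.inr (Sum.inr l0)),
          (a ^ u 0 * b ^ u 1) ^ w 1 * a = (a ^ w 0 * b ^ w 1) ^ u 1 := by
        intro a b
        rw [mul_pow, mul_pow, ← pow_mul, ← pow_mul, ← pow_mul, ← pow_mul, ← h5, pow_succ,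
          mul_comm (u 1) (w 1)]
        ring
      rw [mul_assoc, h6]
    · refine ⟨u 0, y l0 ^ u 0 * y l0 ^ w 0, ?_⟩
      rw [← Ideal.Quotient.mk_eq_mk_iff_sub_mem, ta_slm, ta_slm, ta_slp, ta_slp, map_mul, map_pow,
        map_mul, map_mul, map_pow, map_pow, mul_pow, hxc, hyl]
      show _ * Ideal.Quotient.mk _ (sb τ ι lam) = _
      have h5 : w 1 * u 0 + 1 = u 1 * w 0 := by rw [← hdet, mul_comm]
      have h6 : ∀ a b : MvPolynomial (VS τ ι lam) ℤ ⧸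
          IR z r x y A h m w u e f (Sum.inr (Sum.inl c)) (Sum.inr (Sum.inr l0)),
          (a ^ w 0 * b ^ w 1) ^ u 0 * b = (a ^ u 0 * b ^ u 1) ^ w 0 := by
        intro a b
        rw [mul_pow, mul_pow, ← pow_mul, ← pow_mul, ← pow_mul, ← pow_mul, ← h5, pow_succ,
          mul_comm (w 0) (u 0)]
        ring
      rw [mul_comm ((_ : MvPolynomial (VS τ ι lam) ℤ ⧸
          IR z r x y A h m w u e f (Sum.inr (Sum.inl c)) (Sum.inr (Sum.inr l0))) ^ u 0),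
        mul_assoc, h6]
  · refine ⟨1, x v * y l0, ?_⟩
    rw [← Ideal.Quotient.mk_eq_mk_iff_sub_mem, pow_one, ta_slm, ta_slm, map_mul, map_mul, map_mul,
      hxc, hyl, h3 v]
    show _ * Ideal.Quotient.mk _ (sV τ lam v) = _
    ring
  · refine ⟨1, x c * y v, ?_⟩
    rw [← Ideal.Quotient.mk_eq_mk_iff_sub_mem, pow_one, ta_slm, ta_slm, map_mul, map_mul, map_mul,
      hxc, hyl, h4 v]
    show _ * Ideal.Quotient.mk _ (sE τ ι v) = _
    ring

/-- `V c = 1`, `b = 1`. Proof. `b ≡ 1`, `a ≡ x c`, `x c * V j ≡ x j`, `x c * E l ≡ y l`. -/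
theorem s_varA {c : ι} (hw : w 0 = 1) (hu : u 0 = 1) (v : NV ι lam) :
    ∃ (N : ℕ) (g : MvPolynomial τ ℤ), sl ι lam (x c) ^ N * X (Sum.inr v) - sl ι lam g ∈
      IR z r x y A h m w u e f (Sum.inr (Sum.inl c)) (Sum.inl 1) := by
  obtain ⟨h1, h2, h3, h4⟩ := ta_rel z r x y A h m w u e f (Sum.inr (Sum.inl c))
    (Sum.inl 1) _ (ta_mk z r x y A h m w u e f (Sum.inr (Sum.inl c)) (Sum.inl 1))
  simp only [h2, hw, hu, one_pow, pow_one, mul_one] at h3 h4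
  have hxc := h3 c
  rw [h1, mul_one] at hxc
  rcases v with v | v | v
  · fin_cases v
    · refine ⟨0, x c, ?_⟩
      rw [← Ideal.Quotient.mk_eq_mk_iff_sub_mem, pow_zero, one_mul, hxc]
      rfl
    · refine ⟨0, 1, ?_⟩
      rw [← Ideal.Quotient.mk_eq_mk_iff_sub_mem, pow_zero, one_mul]
      have h5 : (sl ι lam (1 : MvPolynomial τ ℤ) : MvPolynomial (VS τ ι lam) ℤ) = 1 :=
        map_one _
      rw [h5, map_one]
      exact h2
  · refine ⟨1, x v, ?_⟩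
    rw [← Ideal.Quotient.mk_eq_mk_iff_sub_mem, pow_one, map_mul, hxc, h3 v]
  · refine ⟨1, y v, ?_⟩
    rw [← Ideal.Quotient.mk_eq_mk_iff_sub_mem, pow_one, map_mul, hxc, h4 v]

/-- `E l0 = 1`, `b = 1`. Proof. `b ≡ 1`, `a ≡ y l0`, `y l0 * E l ≡ y l`, `(y l0) ^ w 0 * V j ≡ x j`. -/
theorem s_varB {l0 : lam} (hu : u 0 = 1) (v : NV ι lam) :
    ∃ (N : ℕ) (g : MvPolynomial τ ℤ), sl ι lam (y l0) ^ N * X (Sum.inr v) - sl ι lam g ∈
      IR z r x y A h m w u e f (Sum.inr (Sum.inr l0)) (Sum.inl 1) := by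
  obtain ⟨h1, h2, h3, h4⟩ := ta_rel z r x y A h m w u e f (Sum.inr (Sum.inr l0))
    (Sum.inl 1) _ (ta_mk z r x y A h m w u e f (Sum.inr (Sum.inr l0)) (Sum.inl 1))
  simp only [h2, hu, one_pow, pow_one, mul_one] at h3 h4
  have hyl := h4 l0
  rw [h1, mul_one] at hyl
  rcases v with v | v | v
  · fin_cases v
    · refine ⟨0, y l0, ?_⟩
      rw [← Ideal.Quotient.mk_eq_mk_iff_sub_mem, pow_zero, one_mul, hyl]
      rfl
    · refine ⟨0, 1, ?_⟩
      rw [← Ideal.Quotient.mk_eq_mk_iff_sub_mem, pow_zero, one_mul]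
      have h5 : (sl ι lam (1 : MvPolynomial τ ℤ) : MvPolynomial (VS τ ι lam) ℤ) = 1 :=
        map_one _
      rw [h5, map_one]
      exact h2
  · refine ⟨w 0, x v, ?_⟩
    rw [← Ideal.Quotient.mk_eq_mk_iff_sub_mem, map_mul, map_pow, hyl, h3 v]
  · refine ⟨1, y v, ?_⟩
    rw [← Ideal.Quotient.mk_eq_mk_iff_sub_mem, pow_one, map_mul, hyl, h4 v]

end Pool.Agent.DG
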