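import Pool.Agent.DG.SqRM

set_option autoImplicit false

/-! # SQRN: the charts of the third kind -/

namespace Pool.Agent.DG

open MvPolynomial Pool.Agent.NT9

variable {τ κ ι lam : Type} [Fintype τ] [Fintype κ] [Fintype ι] [Fintype lam] {K : Type} [Field K]
  {e0 : κ ⊕ (ι ⊕ lam) ≃ τ} {π : MvPolynomial τ ℤ →+* K} {Q : Ideal (MvPolynomial τ ℤ)}
  {z : MvPolynomial τ ℤ} {r : κ → MvPolynomial τ ℤ} {x : ι → MvPolynomial τ ℤ}
  {y : lam → MvPolynomial τ ℤ} {A : ι → ι → MvPolynomial τ ℤ} {h : lam → MvPolynomial τ ℤ}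
  {m : ℕ} {O O' : Subring K}

/-- Proof. `c`, `l0`, `i` from `ChM`; `X = π (x c)`, `Y = π (y l0)`, `a = X / Y ^ i`, `b = Y ^ (i + 1) / X`, so `Y = a b`, `X = a ^ (i + 1) b ^ i` and `Y ^ m / X ^ 2 = a ^ (m - 2 i - 2) b ^ (m - 2 i)` if `2 i + 2 ≤ m`.
(1) `2 i + 2 ≤ m`: `s_regE` with `a`, `b`, `w = ![i + 1, i]`, `u = ![1, 1]`, `g = ![2 i + 2, 2 i]`, `f = ![m - 2 i - 2, m - 2 i]` (if `f 0 = 0` then `m` is even, so `p ≠ 2 = f 1`). `hmin`: if `a, b ∈ F` then `Y ^ m / X ^ 2 ∈ F`, and `X ^ 2 / Y ^ m` is its inverse, so it is in `F` if it is in `O'`.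
(2) `m = 2 i + 1` (`i < K1`), `t = Y ^ m / X ^ 2 = b / a ∈ O'`: `s_regE` with `a`, `t`: `b = a t`, `Y = a ^ 2 t`, `X = a ^ (2 i + 1) t ^ i`; `w = ![2 i + 1, i]`, `u = ![2, 1]`, `g = ![4 i + 2, 2 i]`, `f = ![0, 1]`. `hmin`: `b = a t ∈ F`, `X ^ 2 / Y ^ m` is the inverse of `t`.
(3) `m = 2 i + 1`, `t = X ^ 2 / Y ^ m = a / b ∈ O'`: `s_regF` with `t`, `b`: `a = t b`, `Y = t b ^ 2`, `X = t ^ (i + 1) b ^ (2 i + 1)`; `w = ![i + 1, 2 i + 1]`, `u = ![1, 2]`, `g = ![2 i + 1, 4 i + 2]`. -/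
theorem s_regM [Q.IsMaximal] {p : ℕ} (hp : p.Prime) (hpQ : (C (p : ℤ) : MvPolynomial τ ℤ) ∈ Q)
    (hm : 2 ≤ m) (hpm : ¬ p ∣ m) (hq : Sq e0 π Q z r x y A h m O) [IsLocalRing O']
    (hle : O ≤ O') (hdom : ∀ t ∈ mx O, t ∈ mx O')
    {K1 : ℕ} (hK : m = 2 * K1 ∨ m + 1 = 2 * K1)
    (hch : ChM (fun j => π (x j)) (fun l => π (y l)) K1 m O O') : IsRegularLocalRing O' := by
  obtain ⟨c, l0, i, hi1, hiK, hX0, hY0, hX, hY, hc1, hc2, hc3, hmin⟩ := hch
  simp only at hX0 hY0 hX hY hc1 hc2 hc3 hmin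
  obtain ⟨a, ha⟩ : ∃ a, a = π (x c) / π (y l0) ^ i := ⟨_, rfl⟩
  obtain ⟨b, hb⟩ : ∃ b, b = π (y l0) ^ (i + 1) / π (x c) := ⟨_, rfl⟩
  have ha0 : a ≠ 0 := by
    rw [ha]
    exact div_ne_zero hX0 (pow_ne_zero _ hY0)
  have hb0 : b ≠ 0 := by
    rw [hb]
    exact div_ne_zero (pow_ne_zero _ hY0) hX0
  have hYab : π (y l0) = a * b := by
    rw [ha, hb, pow_succ]
    field_simp
  have hXab : π (x c) = a ^ (i + 1) * b ^ i := by
    have h1 : π (x c) = a * π (y l0) ^ i := by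
      rw [ha, div_mul_cancel₀ _ (pow_ne_zero _ hY0)]
    rw [h1, hYab, mul_pow]
    ring
  rw [← ha] at hc1
  rw [← hb] at hc2
  have hmin' : ∀ F : Subring K, O ≤ F → a ∈ F → b ∈ F → (∀ j, π (x j) / π (x c) ∈ F) →
      (∀ l, π (y l) / π (y l0) ∈ F) →
      (π (y l0) ^ m / π (x c) ^ 2 ∈ O' → π (y l0) ^ m / π (x c) ^ 2 ∈ F) →
      (π (x c) ^ 2 / π (y l0) ^ m ∈ O' → π (x c) ^ 2 / π (y l0) ^ m ∈ F) →
      (∀ t ∈ F, t⁻¹ ∈ O' → t⁻¹ ∈ F) → O' ≤ F := by
    intro F h1 h2 h3 h4 h5 h6 h7 h8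
    refine hmin F h1 h4 h5 ?_ ?_ h6 h7 h8
    · rw [← ha]
      exact h2
    · rw [← hb]
      exact h3
  have hinv1 : (π (y l0) ^ m / π (x c) ^ 2)⁻¹ = π (x c) ^ 2 / π (y l0) ^ m := inv_div _ _
  have hinv2 : (π (x c) ^ 2 / π (y l0) ^ m)⁻¹ = π (y l0) ^ m / π (x c) ^ 2 := inv_div _ _
  by_cases h2i : 2 * i + 2 ≤ m
  · -- (1)
    have hq1 : π (y l0) ^ m / π (x c) ^ 2 = a ^ (m - 2 * i - 2) * b ^ (m - 2 * i) := by
      rw [div_eq_iff (pow_ne_zero _ hX0), hYab, hXab, mul_pow]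
      have h3 : m = (m - 2 * i - 2) + 2 * (i + 1) := by omega
      have h4 : m = (m - 2 * i) + 2 * i := by omega
      have h5 : a ^ m = a ^ (m - 2 * i - 2) * (a ^ (i + 1)) ^ 2 := by
        rw [← pow_mul, ← pow_add]
        congr 1
        omega
      have h6 : b ^ m = b ^ (m - 2 * i) * (b ^ i) ^ 2 := by
        rw [← pow_mul, ← pow_add]
        congr 1
        omega
      rw [h5, h6]
      ring
    refine s_regE hp hpQ hm hpm hq hle hdom (w := ![i + 1, i]) (u := ![1, 1])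
      (f := ![m - 2 * i - 2, m - 2 * i]) (g := ![2 * i + 2, 2 * i]) ?_ ?_ ?_ ?_ ?_ ?_ ?_
      hc1 hc2 ha0 hb0 hXab ?_ hX hY ?_
    · intro j
      fin_cases j
      · show 1 ≤ i + 1
        omega
      · exact hi1
    · intro j
      fin_cases j <;> exact le_rfl
    · show (i + 1) * 1 = i * 1 + 1
      omega
    · intro j
      fin_cases j
      · show 2 * (i + 1) = 2 * i + 2
        omega
      · rfl
    · intro j
      fin_cases j
      · show m * 1 = 2 * i + 2 + (m - 2 * i - 2)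
        omega
      · show m * 1 = 2 * i + (m - 2 * i)
        omega
    · show 1 ≤ m - 2 * i
      omega
    · intro h0 hdv
      have h3 : m - 2 * i - 2 = 0 := h0
      have h4 : p ∣ m - 2 * i := hdv
      have h5 : m - 2 * i = 2 := by omega
      rw [h5] at h4
      exact hpm (h4.trans ⟨i + 1, by omega⟩)
    · show π (y l0) = a ^ 1 * b ^ 1
      rw [pow_one, pow_one]
      exact hYab
    · intro F h1 h2 h3 h4 h5 h8
      have h6 : π (y l0) ^ m / π (x c) ^ 2 ∈ F := by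
        rw [hq1]
        exact mul_mem (pow_mem h2 _) (pow_mem h3 _)
      refine hmin' F h1 h2 h3 h4 h5 (fun _ => h6) (fun h7 => ?_) h8
      rw [← hinv1] at h7 ⊢
      exact h8 _ h6 h7
  · have hmi : m = 2 * i + 1 := by omega
    rcases hc3 with hc3 | hc3
    · -- (2)
      obtain ⟨t, ht⟩ : ∃ t, t = π (y l0) ^ m / π (x c) ^ 2 := ⟨_, rfl⟩
      have ht0 : t ≠ 0 := by
        rw [ht]
        exact div_ne_zero (pow_ne_zero _ hY0) (pow_ne_zero _ hX0)
      have hbt : b = a * t := by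
        have h3 : t * π (x c) ^ 2 = π (y l0) ^ m := by
          rw [ht, div_mul_cancel₀ _ (pow_ne_zero _ hX0)]
        rw [hXab, hYab, hmi] at h3
        have h4 : a ^ (2 * i + 1) * b ^ (2 * i) * (a * t) =
            a ^ (2 * i + 1) * b ^ (2 * i) * b := by
          calc a ^ (2 * i + 1) * b ^ (2 * i) * (a * t) = t * (a ^ (i + 1) * b ^ i) ^ 2 := by ring
            _ = _ := by
              rw [h3]
              ring
        exact (mul_left_cancel₀ (mul_ne_zero (pow_ne_zero _ ha0) (pow_ne_zero _ hb0)) h4).symm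
      rw [← ht] at hc3
      refine s_regE hp hpQ hm hpm hq hle hdom (w := ![2 * i + 1, i]) (u := ![2, 1])
        (f := ![0, 1]) (g := ![4 * i + 2, 2 * i]) ?_ ?_ ?_ ?_ ?_ le_rfl ?_
        hc1 hc3 ha0 ht0 ?_ ?_ hX hY ?_
      · intro j
        fin_cases j
        · show 1 ≤ 2 * i + 1
          omega
        · exact hi1
      · intro j
        fin_cases j
        · show 1 ≤ 2
          omega
        · exact le_rfl
      · show (2 * i + 1) * 1 = i * 2 + 1
        omega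
      · intro j
        fin_cases j
        · show 2 * (2 * i + 1) = 4 * i + 2
          omega
        · rfl
      · intro j
        fin_cases j
        · show m * 2 = 4 * i + 2 + 0
          omega
        · show m * 1 = 2 * i + 1
          omega
      · intro _ hdv
        exact hp.one_lt.ne' (Nat.dvd_one.1 hdv)
      · show π (x c) = a ^ (2 * i + 1) * t ^ i
        rw [hXab, hbt, mul_pow]
        ring
      · show π (y l0) = a ^ 2 * t ^ 1
        rw [hYab, hbt]
        ring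
      · intro F h1 h2 h3 h4 h5 h8
        refine hmin' F h1 h2 ?_ h4 h5 (fun _ => ?_) (fun h7 => ?_) h8
        · rw [hbt]
          exact mul_mem h2 h3
        · rw [← ht]
          exact h3
        · rw [← hinv1, ← ht] at h7 ⊢
          exact h8 _ h3 h7
    · -- (3)
      obtain ⟨t, ht⟩ : ∃ t, t = π (x c) ^ 2 / π (y l0) ^ m := ⟨_, rfl⟩
      have ht0 : t ≠ 0 := by
        rw [ht]
        exact div_ne_zero (pow_ne_zero _ hX0) (pow_ne_zero _ hY0)
      have hat : a = t * b := by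
        have h3 : t * π (y l0) ^ m = π (x c) ^ 2 := by
          rw [ht, div_mul_cancel₀ _ (pow_ne_zero _ hY0)]
        rw [hXab, hYab, hmi] at h3
        have h4 : a ^ (2 * i + 1) * b ^ (2 * i) * (t * b) =
            a ^ (2 * i + 1) * b ^ (2 * i) * a := by
          calc a ^ (2 * i + 1) * b ^ (2 * i) * (t * b) = t * (a * b) ^ (2 * i + 1) := by ring
            _ = _ := by
              rw [h3]
              ring
        exact (mul_left_cancel₀ (mul_ne_zero (pow_ne_zero _ ha0) (pow_ne_zero _ hb0)) h4).symm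
      rw [← ht] at hc3
      refine s_regF hp hpQ hm hpm hq hle hdom (w := ![i + 1, 2 * i + 1]) (u := ![1, 2])
        (g := ![2 * i + 1, 4 * i + 2]) ?_ ?_ ?_ ?_ ?_ ?_
        hc3 hc2 ht0 hb0 ?_ ?_ hX hY ?_
      · intro j
        fin_cases j
        · show 1 ≤ i + 1
          omega
        · show 1 ≤ 2 * i + 1
          omega
      · intro j
        fin_cases j
        · exact le_rfl
        · show 1 ≤ 2
          omega
      · show (i + 1) * 2 = (2 * i + 1) * 1 + 1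
        omega
      · show 2 * (i + 1) = 2 * i + 1 + 1
        omega
      · show 2 * (2 * i + 1) = 4 * i + 2
        omega
      · intro j
        fin_cases j
        · show m * 1 = 2 * i + 1
          omega
        · show m * 2 = 4 * i + 2
          omega
      · show π (x c) = t ^ (i + 1) * b ^ (2 * i + 1)
        rw [hXab, hat, mul_pow]
        ring
      · show π (y l0) = t ^ 1 * b ^ 2
        rw [hYab, hat]
        ring
      · intro F h1 h2 h3 h4 h5 h8
        refine hmin' F h1 ?_ h3 h4 h5 (fun h7 => ?_) (fun _ => ?_) h8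
        · rw [hat]
          exact mul_mem h2 h3
        · rw [← hinv2, ← ht] at h7 ⊢
          exact h8 _ h2 h7
        · rw [← ht]
          exact h2

end Pool.Agent.DG
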