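import Pool.Agent.DG.SqRA
import Pool.Agent.DG.SqRB
import Pool.Agent.DG.SqRN
import Pool.Agent.DG.SqO
import Pool.Agent.EvM.EmRes

set_option autoImplicit false

/-! # SQR: resolution of the singularity -/

namespace Pool.Agent.DG

open MvPolynomial Pool.Agent.NT9

variable {τ κ ι lam : Type} [Fintype τ] [Fintype κ] [Fintype ι] [Fintype lam] {K : Type} [Field K]
  {e0 : κ ⊕ (ι ⊕ lam) ≃ τ} {π : MvPolynomial τ ℤ →+* K} {Q : Ideal (MvPolynomial τ ℤ)}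
  {z : MvPolynomial τ ℤ} {r : κ → MvPolynomial τ ℤ} {x : ι → MvPolynomial τ ℤ}
  {y : lam → MvPolynomial τ ℤ} {A : ι → ι → MvPolynomial τ ℤ} {h : lam → MvPolynomial τ ℤ}
  {m : ℕ} {O O' : Subring K}

/-- Proof. If `lam` is empty: `sq_res_empty`. Otherwise `2 ≤ m`; `K1 = (m + 1) / 2`. `EvM.res_of_blow` with the generators `fun φ => ∏ s, qS X Y K1 m s (φ s)`, `X j = π (x j)`, `Y l = π (y l)`, and `S = ∅`: `PW.finRes_of_max`, `s_mx`, `s_pow` (`sq_gen`, `sq_mem`), `s_cases`, `s_regA`, `s_regB`,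
`s_regM` (`O ≤ O'` and `mx O ≤ mx O'` from `EvM.IsBlG`). -/
theorem sq_res [Q.IsMaximal] {p : ℕ} (hp : p.Prime) (hpQ : (C (p : ℤ) : MvPolynomial τ ℤ) ∈ Q)
    (hm : Nonempty lam → 2 ≤ m) (hpm : ¬ p ∣ m) [IsLocalRing O]
    (hq : Sq e0 π Q z r x y A h m O) : EvM.Res O := by
  rcases isEmpty_or_nonempty lam with hE | hN
  · exact sq_res_empty hp hpQ hq
  · have hm2 : 2 ≤ m := hm hN
    obtain ⟨K1, hK⟩ : ∃ K1, m = 2 * K1 ∨ m + 1 = 2 * K1 := ⟨(m + 1) / 2, by omega⟩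
    obtain ⟨-, -, hx, hy⟩ := sq_mem hq
    refine EvM.res_of_blow (PW.finRes_of_max hp hpQ hq.poly hq.memQ hq.fr)
      (g := fun φ : ∀ s, IS ι lam K1 m s =>
        ∏ s, qS (fun j => π (x j)) (fun l => π (y l)) K1 m s (φ s))
      (fun φ => s_mx hx hy (by omega) φ) (s_pow hx hy (sq_gen hq) K1 m) Set.finite_empty
      (fun O' hO' => absurd hO' (Set.notMem_empty O')) fun O' hloc hbl => Or.inl ?_
    have hle : O ≤ O' := by
      obtain ⟨b, h1, h2, h3, h4, h5⟩ := hbl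
      exact h2
    have hdom : ∀ t ∈ mx O, t ∈ mx O' := by
      obtain ⟨b, h1, h2, h3, h4, h5⟩ := hbl
      exact h3
    rcases s_cases (fun i => (hx i).1) (fun l => (hy l).1) hm2 hK hbl with hch | hch | hch
    · exact s_regA hp hpQ hm2 hpm hq hle hdom hch
    · exact s_regB hp hpQ hm2 hpm hq hle hdom hK hch
    · exact s_regM hp hpQ hm2 hpm hq hle hdom hK hch

end Pool.Agent.DG
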