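import Pool.Agent.DG.GfD
import Pool.Agent.DG.GfS
import Pool.Agent.DG.SqR
import Pool.Agent.DG.PcG

set_option autoImplicit false

/-! # GFR: resolution of the points over a prime number of the second kind -/

namespace Pool.Agent.DG

open MvPolynomial Pool.Agent.NT9 Pool.Agent.PW

variable {σ : Type} [Fintype σ] [DecidableEq σ] {K : Type} [Field K]
  {θ : MvPolynomial σ ℤ →+* K} {p m : ℕ} {a0 : ℤ} {a : σ → ℤ} {w : MvPolynomial σ ℤ}

/-- The local forms at all contact points, chosen once. Proof: `ctG_exists`, `gform_of`, `ct_mf`, choice; `[Nonempty σ]` for the other ideals. -/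
theorem gf_data [Nonempty σ] (hp : p.Prime) (hm : 1 ≤ m) (hpm : ¬ p ∣ m) (ha0 : ¬ (p : ℤ) ∣ a0)
    (ha : ∀ i, ¬ (p : ℤ) ∣ a i)
    (hw : sA a0 a (p * m) = sA a0 a m ^ p + C (p : ℤ) * w) :
    ∃ (c : Ideal (MvPolynomial σ ℤ) → σ) (η : Ideal (MvPolynomial σ ℤ) → σ → MvPolynomial σ ℤ)
      (D l β E : Ideal (MvPolynomial σ ℤ) → MvPolynomial σ ℤ),
      ∀ M, IsCt (sA a0 a m) w p M → M.IsMaximal ∧
        GForm (sA a0 a m) w p M (c M) (η M) (D M) (l M) (β M) (E M) ∧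
        ∃ (q : Iv M (c M) → Iv M (c M) → MvPolynomial σ ℤ) (h : Lv M → MvPolynomial σ ℤ),
          η M = gη (sA a0 a m) ((p - 1) * m) M (c M) ∧
          CtG (sA a0 a m) w p m ((p - 1) * m) M (c M) (D M) (l M) (β M) q h := by
  have key : ∀ M : Ideal (MvPolynomial σ ℤ), ∃ (c : σ) (η : σ → MvPolynomial σ ℤ)
      (D l β E : MvPolynomial σ ℤ), IsCt (sA a0 a m) w p M → M.IsMaximal ∧
        GForm (sA a0 a m) w p M c η D l β E ∧
        ∃ (q : Iv M c → Iv M c → MvPolynomial σ ℤ) (h : Lv M → MvPolynomial σ ℤ),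
          η = gη (sA a0 a m) ((p - 1) * m) M c ∧
          CtG (sA a0 a m) w p m ((p - 1) * m) M c D l β q h := by
    intro M
    by_cases hM : IsCt (sA a0 a m) w p M
    · obtain ⟨c, D, l, β, q, h, hg⟩ := ctG_exists hp hm hpm ha0 ha hw hM
      exact ⟨c, _, D, l, β, _, fun _ => ⟨(ct_mf hp hm hpm ha0 ha hw).1 M hM, gform_of hg,
        q, h, rfl, hg⟩⟩
    · exact ⟨Classical.arbitrary σ, fun _ => 0, 0, 0, 0, 0, fun h => absurd h hM⟩
  choose c η D l β E hq using key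
  exact ⟨c, η, D, l, β, E, hq⟩

/-- Proof. `gf_data`, `gf_fin` (`k = p`, `u = 1`), `ct_mf`. -/
theorem wild_fin [Nonempty σ] (hp : p.Prime) (hm : 1 ≤ m) (hpm : ¬ p ∣ m)
    (ha0 : ¬ (p : ℤ) ∣ a0) (ha : ∀ i, ¬ (p : ℤ) ∣ a i)
    (hw : sA a0 a (p * m) = sA a0 a m ^ p + C (p : ℤ) * w)
    (hker : RingHom.ker θ = Ideal.span {sA a0 a (p * m)}) :
    {O : Subring K | IsLocalRing O ∧ ¬ IsRegularLocalRing O ∧
      ∃ i, i < p ∧ Wd θ (sA a0 a m) w 1 p p i ((p : K) / θ (sA a0 a m) ^ i)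
        (θ (sA a0 a m) ^ (i + 1) / (p : K)) O}.Finite := by
  obtain ⟨c, η, D, l, β, E, hd⟩ := gf_data hp hm hpm ha0 ha hw
  have hu : ¬ (p : ℤ) ∣ 1 := by
    intro h
    have := Int.natCast_dvd_natCast.mp (by simpa using h : (p : ℤ) ∣ ((1 : ℕ) : ℤ))
    exact hp.one_lt.ne' (Nat.dvd_one.mp this)
  have hf : sA a0 a (p * m) = C 1 * sA a0 a m ^ p + C (p : ℤ) * w := by
    rw [C_1, one_mul]
    exact hw
  exact gf_fin hp hp.two_le (fun h => h) hu hker hf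
    (fun M hM => ⟨(hd M hM).1, (hd M hM).2.1⟩) (ct_mf hp hm hpm ha0 ha hw).2

/-- Proof. `gf_data`, `gf_cases` (`k = p`, `u = 1`): `M`, `Q` of type A or B; `tyG_max`. Type A: `y = va`, `th = thA`: `PW.thA_der`, `tyG_jacA`, `PW.ctG_A`; type B: `y = vb`, `th = thB`: `PW.thB_der`, `tyG_jacB`, `PW.ctG_B` (compare `PW.wd_blow`, file `PW/WdF`); `sq_of_type`, `sq_res`. -/
theorem wild_res [Nonempty σ] (hp : p.Prime) (hm : 1 ≤ m) (hpm : ¬ p ∣ m)
    (ha0 : ¬ (p : ℤ) ∣ a0) (ha : ∀ i, ¬ (p : ℤ) ∣ a i)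
    (hw : sA a0 a (p * m) = sA a0 a m ^ p + C (p : ℤ) * w)
    (hker : RingHom.ker θ = Ideal.span {sA a0 a (p * m)}) {i : ℕ} (hi : i < p) {x y : K}
    {O : Subring K} [IsLocalRing O] (hW : Wd θ (sA a0 a m) w 1 p p i x y O)
    (hnr : ¬ IsRegularLocalRing O) : EvM.Res O := by
  classical
  obtain ⟨c, η, D, l, β, E, hd⟩ := gf_data hp hm hpm ha0 ha hw
  have hu : ¬ (p : ℤ) ∣ 1 := by
    intro h
    have := Int.natCast_dvd_natCast.mp (by simpa using h : (p : ℤ) ∣ ((1 : ℕ) : ℤ))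
    exact hp.one_lt.ne' (Nat.dvd_one.mp this)
  have hf : sA a0 a (p * m) = C 1 * sA a0 a m ^ p + C (p : ℤ) * w := by
    rw [C_1, one_mul]
    exact hw
  have hk2 : p = 2 → p = 2 := fun h => h
  obtain ⟨M, Q, hM, hQ, hQm, hty⟩ := gf_cases hp hp.two_le hu hker hf
    (fun M hM => ⟨(hd M hM).1, (hd M hM).2.1⟩) hi hW hnr
  obtain ⟨hmax, hgf, q, h, hη, hg⟩ := hd M hM
  have hQmax : Q.IsMaximal := tyG_max hp hp.two_le hi hk2 hM hgf hty
  have hpQ : (C (p : ℤ) : MvPolynomial (V0 σ) ℤ) ∈ Q := by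
    rw [hQm]
    have h1 : pi0 θ x y (C (p : ℤ)) = (p : K) := by simp [pi0]
    rw [h1]
    exact hW.pmx
  rcases hty with hty | hty
  · have hMQ : ∀ m ∈ M, jl m ∈ Q := hty.2.1
    have hva : va σ ∈ Q := hty.2.2.1
    have hth : thA (D M) (l M) (β M) 1 p i ∈ Q := hty.2.2.2
    have hder := thA_der hp hp.two_le hk2 hM.2.1 hg.hl hty
    have hJQ := tyG_jacA hgf hMQ hva hder
    rw [hη] at hJQ
    have hsq := sq_of_type hker hf hp hi hW hM hg hMQ hQm hva hth hJQ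
      (ctG_A (D M) (l M) (β M) 1 hty.1).symm
      (Ideal.mem_span_singleton'.2 ⟨va σ ^ i * vb σ ^ i, by rw [pow_succ]; ring⟩)
    exact sq_res hp hpQ hg.hm hpm hsq
  · have hMQ : ∀ m ∈ M, jl m ∈ Q := hty.2.1
    have hvb : vb σ ∈ Q := hty.2.2.1
    have hth : thB (D M) (l M) (β M) 1 p i ∈ Q := hty.2.2.2
    have hder := thB_der hp hp.two_le hi hk2 hM.2.1 hg.hl hty
    have hJQ := tyG_jacB hgf hMQ hvb hder
    rw [hη] at hJQ
    have hsq := sq_of_type hker hf hp hi hW hM hg hMQ hQm hvb hth hJQ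
      (ctG_B (D M) (l M) (β M) 1 hty.1 hi).symm
      (Ideal.mem_span_singleton'.2 ⟨va σ ^ (i + 1) * vb σ ^ (i - 1), by
        obtain ⟨j, rfl⟩ : ∃ j, i = j + 1 := ⟨i - 1, by have := hty.1; omega⟩
        rw [Nat.add_sub_cancel, pow_succ (vb σ) j]
        ring⟩)
    exact sq_res hp hpQ hg.hm hpm hsq

end Pool.Agent.DG
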