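import Pool.Agent.DG.GlDefs
import Pool.Agent.NT9.GeFrA
import Pool.Agent.NT9.GePA

set_option autoImplicit false

/-! # GLB: the local rings of a power of a model -/

namespace Pool.Agent.DG

open Pool.Agent.NT9

variable {K : Type} [Field K]

/-- Proof. `e = k + 1`, `A ^ e = A * A ^ k`. `NT9.loc_mul` (for `A * A ^ k` with the family of all elements of `A`): `a ∈ A`, `b ∈ A ^ k`, `a, b ≠ 0`, `x / a ∈ O` for `x ∈ A`, `y / b ∈ O` for `y ∈ A ^ k`,
`IsFr (ch (A * A ^ k) (a * b)) O`. `ch A a ≤ O`. `b / a ^ k ∈ ch A a` (`NT9.div_pow_mem_ch`) is a unit of `O`, as `a ^ k / b ∈ O`. Every `y / (a * b)`, `y ∈ A ^ e`, is `(y / a ^ e) / (b / a ^ k)`, so it lies in the ring `F` of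
the fractions of elements of `ch A a` with denominators invertible in `O` (`NT9.frSub` for `(ch A a).subtype`); so `O ≤ F` by `NT9.le_of_fr` (`NT9.frSub_inv`). -/
theorem loc_pow {A : Submodule ℤ K} {e : ℕ} (he : 1 ≤ e) {O : Subring K} (hO : O ∈ Loc (A ^ e)) :
    O ∈ Loc A := by
  obtain ⟨k, rfl⟩ : ∃ k, e = k + 1 := ⟨e - 1, by omega⟩
  have hg : A = Submodule.span ℤ (Set.range fun a : A => (a : K)) := by
    rw [Subtype.range_coe_subtype]
    exact (Submodule.span_eq A).symm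
  rw [pow_succ'] at hO
  obtain ⟨i, b, hb, ha0, hb0, hxa, hxb, hfr⟩ := loc_mul hg hO
  set a : K := (i : K) with ha
  have haA : a ∈ A := i.2
  have hch : ch A a ≤ O := by
    unfold ch
    rw [Subring.closure_le]
    rintro _ ⟨y, hy, rfl⟩
    exact hxa y hy
  have hv : b / a ^ k ∈ ch A a := div_pow_mem_ch ha0 hb
  have hak : a ^ k ≠ 0 := pow_ne_zero _ ha0
  have hv0 : b / a ^ k ≠ 0 := div_ne_zero hb0 hak
  have hvO : (b / a ^ k)⁻¹ ∈ O := by
    rw [inv_div]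
    exact hxb _ (Submodule.pow_mem_pow _ haA k)
  have hF : O ≤ frSub (ch A a).subtype O := by
    refine le_of_fr hfr ?_ (fun x hx hxO => frSub_inv _ _ x hx hxO)
    unfold ch
    rw [Subring.closure_le]
    rintro _ ⟨y, hy, rfl⟩
    rw [← pow_succ'] at hy
    refine (mem_frSub _ _ _).mpr ⟨⟨y / a ^ (k + 1), div_pow_mem_ch ha0 hy⟩,
      ⟨b / a ^ k, hv⟩, hv0, hvO, ?_⟩
    show y / (a * b) * (b / a ^ k) = y / a ^ (k + 1)
    rw [pow_succ, div_mul_div_comm, mul_comm y b, mul_comm a b, mul_assoc b a, mul_comm a,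
      mul_div_mul_left _ _ hb0]
  refine ⟨hO.1, a, haA, ha0, hch, fun x hx => ?_⟩
  obtain ⟨u, v, h1, h2, h3⟩ := (mem_frSub _ _ _).mp (hF hx)
  exact ⟨u, u.2, v, v.2, h1, h2, h3⟩

end Pool.Agent.DG
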