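import Pool.Agent.DG.GlA
import Pool.Agent.DG.GlB

set_option autoImplicit false

/-! # GLC: gluing of models over finitely many prime numbers -/

namespace Pool.Agent.DG

open Pool.Agent.NT9

variable {K : Type} [Field K] [CharZero K]

omit [CharZero K] in
private theorem nat_mul_mem {B : Submodule ℤ K} {x : K} (m : ℕ) (hx : x ∈ B) :
    (m : K) * x ∈ B := by
  have h : (m : K) * x = (m : ℤ) • x := by
    rw [zsmul_eq_mul, Int.cast_natCast]
  rw [h]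
  exact B.smul_mem _ hx

/-- Proof. `E = ∏ p ∈ T, D p`, `A' p = A p ^ (E / D p)`, so `ComP p (A' p) (B ^ E)`. By `ComP.unif` there are `k p`, `l p` with `p ^ (k p) A' p ≤ B ^ E` and `p ^ (l p) (B ^ E) ≤ A' p`. Let
`A'' p = span {p ^ (k p)} * A' p`, so `p ^ (k p + l p) (B ^ E) ≤ A'' p ≤ B ^ E`, and `Mo = B ^ E ⊓ ⨅ p ∈ T, A'' p`. Finitely generated: `NT9.fg_of_le`. With `N = ∏ p ∈ T, p ^ (k p + l p)`: `N (B ^ E) ≤ Mo` (`NT9.Com.of_le`).
Let `O ∈ Loc Mo`. If `p ∈ T` and `p ∈ mx O`: `N' = ∏ q ∈ T.erase p, q ^ (k q + l q)` is prime to `p`, so it is a unit of `O` (`1 = α p + β N'`), and `N' A'' p ≤ Mo ≤ A'' p`: `loc_of_le`, `loc_scale`, `loc_pow`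
(`E / D p ≥ 1`). If no `p ∈ T` is in `mx O` then `N` is a unit of `O`: `loc_of_le`, `loc_pow`. -/
theorem glue {B : Submodule ℤ K} (hB : B.FG) (T : Finset ℕ) (hT : ∀ p ∈ T, p.Prime)
    (A : ℕ → Submodule ℤ K) (D : ℕ → ℕ) (hA : ∀ p ∈ T, (A p).FG ∧ 0 < D p ∧
      ComP p (A p) (B ^ D p)) :
    ∃ (Mo : Submodule ℤ K) (E : ℕ), Mo.FG ∧ 0 < E ∧ Com Mo (B ^ E) ∧ ∀ O ∈ Loc Mo,
      (∀ p ∈ T, (p : K) ∈ mx O → O ∈ Loc (A p)) ∧ ((∀ p ∈ T, (p : K) ∉ mx O) → O ∈ Loc B) := by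
  classical
  set E : ℕ := ∏ p ∈ T, D p with hEdef
  have hE : 0 < E := Finset.prod_pos fun p hp => (hA p hp).2.1
  have hdvd : ∀ p ∈ T, D p ∣ E := fun p hp => Finset.dvd_prod_of_mem D hp
  have hq1 : ∀ p ∈ T, 1 ≤ E / D p := fun p hp =>
    Nat.div_pos (Nat.le_of_dvd hE (hdvd p hp)) (hA p hp).2.1
  have hBE : (B ^ E).FG := fg_pow hB E
  have hex : ∀ p ∈ T, ∃ k l : ℕ, (∀ x ∈ A p ^ (E / D p), (p : K) ^ k * x ∈ B ^ E) ∧
      (∀ x ∈ B ^ E, (p : K) ^ l * x ∈ A p ^ (E / D p)) := by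
    intro p hp
    have h1 : ComP p (A p ^ (E / D p)) (B ^ E) := by
      have h2 := (hA p hp).2.2.pow (E / D p)
      rw [← pow_mul, Nat.mul_div_cancel' (hdvd p hp)] at h2
      exact h2
    obtain ⟨k, hk⟩ := h1.unif (fg_pow (hA p hp).1 _)
    obtain ⟨l, hl⟩ := h1.symm.unif hBE
    exact ⟨k, l, hk, hl⟩
  choose! k l hkl using hex
  let A2 : ℕ → Submodule ℤ K := fun p =>
    Submodule.span ℤ {(p : K) ^ k p} * A p ^ (E / D p)
  have hA2B : ∀ p ∈ T, A2 p ≤ B ^ E := by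
    intro p hp x hx
    obtain ⟨y, hy, rfl⟩ := mem_span_mul hx
    exact (hkl p hp).1 y hy
  have hBA2 : ∀ p ∈ T, ∀ x ∈ B ^ E, ((p ^ (k p + l p) : ℕ) : K) * x ∈ A2 p := by
    intro p hp x hx
    rw [Nat.cast_pow, pow_add, mul_assoc]
    exact mul_span_mem ((hkl p hp).2 x hx)
  let Mo : Submodule ℤ K := B ^ E ⊓ ⨅ p ∈ T, A2 p
  have hMoB : Mo ≤ B ^ E := inf_le_left
  have hMoA : ∀ p ∈ T, Mo ≤ A2 p := fun p hp => inf_le_right.trans (iInf₂_le p hp)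
  have hmem : ∀ x, x ∈ B ^ E → (∀ p ∈ T, x ∈ A2 p) → x ∈ Mo := by
    intro x h1 h2
    refine Submodule.mem_inf.mpr ⟨h1, ?_⟩
    rw [Submodule.mem_iInf]
    intro p
    rw [Submodule.mem_iInf]
    exact h2 p
  let N : Finset ℕ → ℕ := fun S => ∏ p ∈ S, p ^ (k p + l p)
  have hNpos : ∀ S ⊆ T, 0 < N S := fun S hS =>
    Finset.prod_pos fun p hp => pow_pos (hT p (hS hp)).pos _
  have hNmem : ∀ S ⊆ T, ∀ p ∈ S, ∀ x ∈ B ^ E, ((N S : ℕ) : K) * x ∈ A2 p := by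
    intro S hS p hp x hx
    have h1 : N S = (∏ q ∈ S.erase p, q ^ (k q + l q)) * p ^ (k p + l p) :=
      (Finset.prod_erase_mul S _ hp).symm
    rw [h1, Nat.cast_mul, mul_assoc]
    exact nat_mul_mem _ (hBA2 p (hS hp) x hx)
  have hNMo : ∀ x ∈ B ^ E, ((N T : ℕ) : K) * x ∈ Mo := fun x hx =>
    hmem _ (nat_mul_mem _ hx) fun p hp => hNmem T (Finset.Subset.refl T) p hp x hx
  have hN0 : ∀ S ⊆ T, ((N S : ℕ) : K) ≠ 0 := fun S hS => Nat.cast_ne_zero.mpr (hNpos S hS).ne'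
  refine ⟨Mo, E, fg_of_le hBE hMoB, hE, ?_, fun O hO => ⟨fun p hp hpm => ?_, fun hnm => ?_⟩⟩
  · refine Com.of_le hMoB (N := (N T : ℤ)) (Int.natCast_ne_zero.mpr (hNpos T
      (Finset.Subset.refl T)).ne') fun x hx => ?_
    rw [Int.cast_natCast]
    exact hNMo x hx
  · have hloc : IsLocalRing O := hO.1
    have hsub : T.erase p ⊆ T := Finset.erase_subset p T
    have hcop : Nat.Coprime p (N (T.erase p)) := by
      refine Nat.Coprime.prod_right fun q hq => Nat.Coprime.pow_right _ ?_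
      rw [Nat.coprime_primes (hT p hp) (hT q (hsub hq))]
      exact (Finset.ne_of_mem_erase hq).symm
    have hNO : ((N (T.erase p) : ℕ) : K) ∉ mx O := by
      intro hmx
      obtain ⟨α, β, hαβ⟩ := Nat.isCoprime_iff_coprime.mpr hcop
      have h1 : (α : K) * (p : K) + (β : K) * ((N (T.erase p) : ℕ) : K) = 1 := by
        have h2 := congrArg (fun z : ℤ => (z : K)) hαβ
        push_cast at h2
        exact h2
      have h3 := mx_add (mx_mul (intCast_mem O α) hpm) (mx_mul (intCast_mem O β) hmx)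
      rw [h1] at h3
      exact one_notMem_mx h3
    obtain ⟨h4, h5⟩ := (notMem_mx_iff (natCast_mem O _)).mp hNO
    have h6 : ∀ x ∈ A2 p, ((N (T.erase p) : ℕ) : K) * x ∈ Mo := by
      intro x hx
      refine hmem _ (nat_mul_mem _ (hA2B p hp hx)) fun q hq => ?_
      by_cases hqp : q = p
      · rw [hqp]
        exact nat_mul_mem _ hx
      · exact hNmem _ hsub q (Finset.mem_erase.mpr ⟨hqp, hq⟩) x (hA2B p hp hx)
    have h7 : O ∈ Loc (A2 p) := loc_of_le (hMoA p hp) h6 h4 h5 hO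
    have h8 : ((p : K) ^ k p) ≠ 0 := pow_ne_zero _ (Nat.cast_ne_zero.mpr (hT p hp).ne_zero)
    exact loc_pow (hq1 p hp) (loc_scale h8 h7)
  · have hloc : IsLocalRing O := hO.1
    have hinv : ((N T : ℕ) : K)⁻¹ ∈ O := by
      have h1 : ((N T : ℕ) : K)⁻¹ = ∏ p ∈ T, (((p : K))⁻¹) ^ (k p + l p) := by
        show ((∏ p ∈ T, p ^ (k p + l p) : ℕ) : K)⁻¹ = _
        rw [Nat.cast_prod, ← Finset.prod_inv_distrib]
        refine Finset.prod_congr rfl fun p _ => ?_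
        rw [Nat.cast_pow, inv_pow]
      rw [h1]
      refine O.prod_mem fun p hp => O.pow_mem ?_ _
      exact ((notMem_mx_iff (natCast_mem O p)).mp (hnm p hp)).2
    exact loc_pow hE (loc_of_le hMoB hNMo (hN0 T (Finset.Subset.refl T)) hinv hO)

end Pool.Agent.DG
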