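import Pool.Agent.DG.GlC
import Pool.Agent.PW.NoA
import Pool.Agent.PW.TmC
import Pool.Agent.PW.TmF
import Pool.Agent.PW.HomB
import Pool.Agent.NT9.GeResB
import Pool.Agent.NT9.GeBaseA
import Pool.Agent.NT9.GeBaseB
import Pool.Agent.NT9.GeProjA

set_option autoImplicit false

/-! # GLD: resolution of a model which is good at every prime number -/

namespace Pool.Agent.DG

open MvPolynomial Pool.Agent.NT9

variable {n : ℕ} {K : Type} [Field K] [CharZero K]

/-- Proof. As `PW.crit_resolution` (file `PW/MaB`), with `glue` instead of the model `MoT`. `T` = the finite set of the prime divisors `p` of `N` with `¬ PW.TameAt F p` (`PW.tame_of_not_dvd`); for `p ∈ T` the data `A p`, `D p` from `ResAt`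
for `K, x`. `glue` with `B = Mo0 x` (finitely generated by definition): `Mo`, `E0`. `NT9.resolve_all` for `Mo`. Finiteness: a point `O ∈ Loc Mo` which is not regular is, if some `p ∈ T` is in `mx O`, in the finite set of
`ResAt` for `p`; otherwise `O ∈ Loc (Mo0 x)`, so `IsFr (thm x m).range O` for some `m` (`NT9.base_loc`, compare its use in `NT9.resolution`, `NT9/GeMainA`) and `PW.tame_fin` as in `crit_resolution`. Resolution: `EvM.Res O` (applied to `Mo1`), or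
`PW.tame_resolve`. -/
theorem crit2_resolution (hn : 2 ≤ n) {d : ℕ} {F : MvPolynomial (Fin (n + 1)) ℤ}
    (hF : F.IsHomogeneous d)
    (hN : ∃ N : ℤ, N ≠ 0 ∧ ∀ m : Fin (n + 1),
      (C N : MvPolynomial {i // i ≠ m} ℤ) ∈ Ideal.span {NH.deh m F} ⊔
        Ideal.span (Set.range fun i => pderiv i (NH.deh m F)))
    (hloc : ∀ p : ℕ, p.Prime → PW.TameAt F p ∨ ResAt F p) (x : Fin (n + 1) → K)
    (hx : ∀ i, x i ≠ 0)
    (hker : ∀ h : MvPolynomial (Fin (n + 1)) ℤ, aeval x h = 0 ↔ F ∣ h) :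
    ∃ (Mo' : Submodule ℤ K) (E : ℕ), Mo'.FG ∧ 0 < E ∧ Com Mo' (Mo0 x ^ E) ∧
      ∀ O' ∈ Loc Mo', IsRegularLocalRing O' := by
  classical
  obtain ⟨N, hN0, hN⟩ := hN
  obtain ⟨T, hTt, hTp⟩ : ∃ T : Finset ℕ, (∀ p : ℕ, p.Prime → p ∉ T → PW.TameAt F p) ∧
      ∀ p ∈ T, p.Prime ∧ ResAt F p := by
    refine ⟨N.natAbs.primeFactors.filter fun p => ¬ PW.TameAt F p, fun p hp hpT => ?_,
      fun p hp => ?_⟩
    · by_contra hcon
      by_cases hpN : (p : ℤ) ∣ N
      · apply hpT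
        rw [Finset.mem_filter, Nat.mem_primeFactors]
        exact ⟨⟨hp, Int.natCast_dvd.1 hpN, by simpa using hN0⟩, hcon⟩
      · exact hcon (PW.tame_of_not_dvd hp hN hpN)
    · rw [Finset.mem_filter, Nat.mem_primeFactors] at hp
      exact ⟨hp.1.1, (hloc p hp.1.1).resolve_left hp.2⟩
  have hex : ∀ p : ℕ, ∃ (A : Submodule ℤ K) (D : ℕ), p ∈ T →
      (A.FG ∧ 0 < D ∧ ComP p A (Mo0 x ^ D) ∧
      {O : Subring K | O ∈ Loc A ∧ (p : K) ∈ mx O ∧ ¬ IsRegularLocalRing O}.Finite ∧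
      ∀ O ∈ Loc A, (p : K) ∈ mx O → ¬ IsRegularLocalRing O → EvM.Res O) := by
    intro p
    by_cases hp : p ∈ T
    · obtain ⟨A, D, h⟩ := (hTp p hp).2 K x hx hker
      exact ⟨A, D, fun _ => h⟩
    · exact ⟨⊥, 0, fun h => absurd h hp⟩
  choose A D hTd using hex
  have hkm : ∀ m, RingHom.ker (thm x m) = Ideal.span {NH.deh m F} := fun m =>
    PW.ker_thm hx hF hker m
  have hTame : ∀ (m : Fin (n + 1)) (O : Subring K), (∀ p ∈ T, (p : K) ∉ mx O) →
      ∀ p : ℕ, p.Prime → (p : K) ∈ mx O → PW.TameL (NH.deh m F) p := by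
    intro m O hO p hp hpO
    exact hTt p hp (fun hpT => hO p hpT hpO) m
  have hfg0 : (Mo0 x).FG := Submodule.fg_span (Set.finite_range _)
  obtain ⟨Mo, E0, hfg, hE0, hcom0, hpts⟩ := glue hfg0 T (fun p hp => (hTp p hp).1) A D
    (fun p hp => ⟨(hTd p hp).1, (hTd p hp).2.1, (hTd p hp).2.2.1⟩)
  obtain ⟨Mo', E, hfg', hE, hcom, hreg⟩ := resolve_all hfg
    (by
      refine Set.Finite.subset (Set.Finite.union
        (Set.finite_iUnion fun m : Fin (n + 1) =>
          PW.tame_fin (K := K) (hkm m) ⟨N, hN0, hN m⟩)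
        (Set.finite_iUnion fun p : T => (hTd p.1 p.2).2.2.2.1)) ?_
      rintro O ⟨hO, hnr⟩
      by_cases h : ∃ p ∈ T, (p : K) ∈ mx O
      · obtain ⟨p, hp, hpO⟩ := h
        right
        exact Set.mem_iUnion.2 ⟨⟨p, hp⟩, (hpts O hO).1 p hp hpO, hpO, hnr⟩
      · have h' : ∀ p ∈ T, (p : K) ∉ mx O := fun p hp hpO => h ⟨p, hp, hpO⟩
        obtain ⟨m, hm, -⟩ := base_loc x hx ((hpts O hO).2 h')
        left
        exact Set.mem_iUnion.2 ⟨m, hO.1, hm, hTame m O h', hnr⟩)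
    (by
      intro O hO hnr Mo1 hfg1 hO1
      have hloc : IsLocalRing O := hO.1
      by_cases h : ∃ p ∈ T, (p : K) ∈ mx O
      · obtain ⟨p, hp, hpO⟩ := h
        exact (hTd p hp).2.2.2.2 O ((hpts O hO).1 p hp hpO) hpO hnr Mo1 hfg1 hO1
      · have h' : ∀ p ∈ T, (p : K) ∉ mx O := fun p hp hpO => h ⟨p, hp, hpO⟩
        obtain ⟨m, hm, -⟩ := base_loc x hx ((hpts O hO).2 h')
        refine PW.tame_resolve ?_ (hkm m) ⟨N, hN0, hN m⟩ hm (hTame m O h') hnr hfg1 hO1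
        have h2 : Fintype.card {i : Fin (n + 1) // i ≠ m} = n := by
          simp [Fintype.card_subtype_compl]
        rw [h2]
        exact hn)
  exact ⟨Mo', E0 * E, hfg', Nat.mul_pos hE0 hE, Com.step hcom0 hcom, hreg⟩

end Pool.Agent.DG
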