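import Pool.Agent.NT9.GeProjD
import Pool.Agent.EvM.EmDefs

set_option autoImplicit false

/-! # Gluing of models over the prime numbers: definitions -/

namespace Pool.Agent.DG

open MvPolynomial Pool.Agent.NT9

/-- Commensurable up to powers of `p`. -/
def ComP {K : Type} [Field K] (p : ℕ) (A B : Submodule ℤ K) : Prop :=
  (∀ x ∈ A, ∃ k : ℕ, (p : K) ^ k * x ∈ B) ∧ (∀ x ∈ B, ∃ k : ℕ, (p : K) ^ k * x ∈ A)

/-- The hypersurface `F = 0` has a model over the localisation of `ℤ` at `p` which has finitely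
many points over `p` that are not regular, and these can be resolved. -/
def ResAt {n : ℕ} (F : MvPolynomial (Fin (n + 1)) ℤ) (p : ℕ) : Prop :=
  ∀ (K : Type) [Field K] [CharZero K] (x : Fin (n + 1) → K), (∀ i, x i ≠ 0) →
    (∀ h : MvPolynomial (Fin (n + 1)) ℤ, aeval x h = 0 ↔ F ∣ h) →
    ∃ (A : Submodule ℤ K) (D : ℕ), A.FG ∧ 0 < D ∧ ComP p A (Mo0 x ^ D) ∧
      {O : Subring K | O ∈ Loc A ∧ (p : K) ∈ mx O ∧ ¬ IsRegularLocalRing O}.Finite ∧
      ∀ O ∈ Loc A, (p : K) ∈ mx O → ¬ IsRegularLocalRing O → EvM.Res O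

end Pool.Agent.DG
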