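import Pool.Agent.DG.PcDefs

set_option autoImplicit false

/-! # PCA: diagonal forms of degree `p m` modulo `p` -/

namespace Pool.Agent.DG

open MvPolynomial Pool.Agent.NT9 Pool.Agent.PW

variable {σ : Type} [Fintype σ]

/-- As `PW.diag_W` (file `PW/FeA`). -/
theorem sA_W {p : ℕ} (hp : p.Prime) (m : ℕ) (a0 : ℤ) (a : σ → ℤ) :
    ∃ w : MvPolynomial σ ℤ, sA a0 a (p * m) = sA a0 a m ^ p + C (p : ℤ) * w := by
  have : Fact p.Prime := ⟨hp⟩
  have h1 : C (p : ℤ) ∣ sA a0 a (p * m) - sA a0 a m ^ p := by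
    rw [C_dvd_iff_zmod, map_sub, map_pow, sub_eq_zero, sA, sA, map_add, map_add, add_pow_char,
      map_C, ← map_pow, eq_intCast, ZMod.pow_card, map_sum, map_sum, sum_pow_char]
    congr 1
    refine Finset.sum_congr rfl fun i _ => ?_
    rw [map_mul, map_mul, map_pow, map_pow, map_C, map_X, mul_pow, ← map_pow, eq_intCast,
      ZMod.pow_card, ← pow_mul, mul_comm p m]
  obtain ⟨W, hW⟩ := h1
  exact ⟨W, by rw [← hW]; ring⟩

theorem sA_der (m : ℕ) (a0 : ℤ) (a : σ → ℤ) (i : σ) :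
    pderiv i (sA a0 a m) = C ((m : ℤ) * a i) * X i ^ (m - 1) := by
  rw [sA, map_add, pderiv_C, zero_add, map_sum, Finset.sum_eq_single i]
  · rw [pderiv_C_mul, Derivation.leibniz_pow, pderiv_X_self, smul_eq_mul, mul_one, nsmul_eq_mul]
    simp
    ring
  · intro b _ hb
    rw [pderiv_C_mul, Derivation.leibniz_pow, pderiv_X_of_ne hb, smul_zero, smul_zero, mul_zero]
  · intro h
    exact absurd (Finset.mem_univ i) h

/-- Proof: differentiate and cancel `p` (as `PW.diag_W_der`); `p m - 1 = (m - 1) + (p - 1) m`. -/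
theorem sA_W_der {p : ℕ} (hp : p.Prime) {m : ℕ} (hm : 1 ≤ m) {a0 : ℤ} {a : σ → ℤ}
    {w : MvPolynomial σ ℤ} (hw : sA a0 a (p * m) = sA a0 a m ^ p + C (p : ℤ) * w) (i : σ) :
    pderiv i w = C ((m : ℤ) * a i) * X i ^ (m - 1) *
      (X i ^ ((p - 1) * m) - sA a0 a m ^ (p - 1)) := by
  have h1 := congrArg (pderiv i) hw
  rw [sA_der, map_add, pderiv_C_mul, Derivation.leibniz_pow, sA_der, smul_eq_mul,
    nsmul_eq_mul] at h1
  have h2 : (C (p : ℤ) : MvPolynomial σ ℤ) ≠ 0 := by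
    rw [Ne, C_eq_zero]
    exact_mod_cast hp.ne_zero
  have h3 : ((p : ℕ) : MvPolynomial σ ℤ) = C (p : ℤ) := by simp
  have h5 : p * m - 1 = (m - 1) + (p - 1) * m := by
    have h6 := hp.one_le
    have h7 : p * m = (p - 1) * m + m := by
      obtain ⟨r, rfl⟩ : ∃ r, p = r + 1 := ⟨p - 1, by omega⟩
      rw [Nat.add_sub_cancel]
      ring
    omega
  have h4 : (C ((((p * m : ℕ) : ℤ)) * a i) : MvPolynomial σ ℤ) =
      C (p : ℤ) * C ((m : ℤ) * a i) := by
    rw [← C_mul]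
    push_cast
    rw [mul_assoc]
  rw [h3, h4, h5, pow_add] at h1
  apply mul_left_cancel₀ h2
  linear_combination -h1

variable {n : ℕ}

theorem diag_W2 {p : ℕ} (hp : p.Prime) (m : ℕ) (a : Fin (n + 1) → ℤ) :
    ∃ W : MvPolynomial (Fin (n + 1)) ℤ, diagF a (p * m) = diagF a m ^ p + C (p : ℤ) * W := by
  have : Fact p.Prime := ⟨hp⟩
  have h1 : C (p : ℤ) ∣ diagF a (p * m) - diagF a m ^ p := by
    rw [C_dvd_iff_zmod, map_sub, map_pow, sub_eq_zero, diagF, diagF, map_sum, map_sum,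
      sum_pow_char]
    refine Finset.sum_congr rfl fun i _ => ?_
    rw [map_mul, map_mul, map_pow, map_pow, map_C, map_X, mul_pow, ← map_pow, eq_intCast,
      ZMod.pow_card, ← pow_mul, mul_comm p m]
  obtain ⟨W, hW⟩ := h1
  exact ⟨W, by rw [← hW]; ring⟩

theorem diag_W2_hom {p : ℕ} (hp : p.Prime) {m : ℕ} {a : Fin (n + 1) → ℤ}
    {W : MvPolynomial (Fin (n + 1)) ℤ} (hW : diagF a (p * m) = diagF a m ^ p + C (p : ℤ) * W) :
    W.IsHomogeneous (p * m) := by
  have h1 : (C (p : ℤ) * W).IsHomogeneous (p * m) := by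
    have h2 : C (p : ℤ) * W = diagF a (p * m) - diagF a m ^ p := by
      rw [hW]
      ring
    rw [h2]
    have h3 := (diagF_hom a m).pow p
    rw [mul_comm m p] at h3
    exact (diagF_hom a (p * m)).sub h3
  intro α hα
  apply h1
  rw [coeff_C_mul]
  exact mul_ne_zero (by exact_mod_cast hp.ne_zero) hα

theorem deh_diag (c : Fin (n + 1)) (a : Fin (n + 1) → ℤ) (m : ℕ) :
    NH.deh c (diagF a m) = sA (a c) (fun i : {i : Fin (n + 1) // i ≠ c} => a i.1) m := by
  have h1 : ∀ b : ℤ, NH.deh c (C b : MvPolynomial (Fin (n + 1)) ℤ) = C b := fun b => by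
    rw [← algebraMap_eq, AlgHom.commutes, algebraMap_eq]
  rw [diagF, map_sum, Fintype.sum_eq_add_sum_subtype_ne _ c, sA]
  congr 1
  · rw [map_mul, map_pow, NH.deh_X_self, one_pow, mul_one, h1]
  · refine Finset.sum_congr rfl fun i _ => ?_
    rw [map_mul, map_pow, NH.deh_X, h1]

end Pool.Agent.DG
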