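import Pool.Agent.DG.PcA
import Pool.Agent.PW.CaF
import Pool.Agent.PW.CaC

set_option autoImplicit false

/-! # PCC: the contact points

`s = sA a0 a m`, `N = (p - 1) m`; `p` does not divide `m` nor the coefficients. -/

namespace Pool.Agent.DG

open MvPolynomial Pool.Agent.NT9 Pool.Agent.PW

variable {σ : Type} [Fintype σ] {p m : ℕ} {a0 : ℤ} {a : σ → ℤ} {w : MvPolynomial σ ℤ}
  {M : Ideal (MvPolynomial σ ℤ)}

private theorem pcc_nd (hp : p.Prime) (hM : M.IsPrime)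
    (hpM : (C (p : ℤ) : MvPolynomial σ ℤ) ∈ M) {z : ℤ} (hz : ¬ (p : ℤ) ∣ z) :
    (C z : MvPolynomial σ ℤ) ∉ M := by
  intro h
  obtain ⟨u, v, h1⟩ := ((Nat.prime_iff_prime_int.1 hp).coprime_iff_not_dvd).2 hz
  apply hM.ne_top
  rw [Ideal.eq_top_iff_one]
  have h2 : (1 : MvPolynomial σ ℤ) = C u * C (p : ℤ) + C v * C z := by
    rw [← C_mul, ← C_mul, ← C_add, h1, C_1]
  rw [h2]
  exact M.add_mem (M.mul_mem_left _ hpM) (M.mul_mem_left _ h)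

private theorem pcc_nd2 (hp : p.Prime) (hM : M.IsPrime)
    (hpM : (C (p : ℤ) : MvPolynomial σ ℤ) ∈ M) (hpm : ¬ p ∣ m) {z : ℤ} (hz : ¬ (p : ℤ) ∣ z) :
    (C ((m : ℤ) * z) : MvPolynomial σ ℤ) ∉ M := by
  refine pcc_nd hp hM hpM fun h => ?_
  rcases (Nat.prime_iff_prime_int.1 hp).dvd_or_dvd h with h1 | h1
  · exact hpm (Int.natCast_dvd_natCast.1 h1)
  · exact hz h1

private theorem pcc_vm (hp : p.Prime) (hm : 1 ≤ m)
    (hw : sA a0 a (p * m) = sA a0 a m ^ p + C (p : ℤ) * w) (hM : IsCt (sA a0 a m) w p M)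
    (c b : σ) : C ((m : ℤ) * a c) * C ((m : ℤ) * a b) * (X c ^ (m - 1) * X b ^ (m - 1)) *
      (X b ^ ((p - 1) * m) - X c ^ ((p - 1) * m)) ∈ M := by
  have h1 := hM.2.2.2.2 c b
  have h2 : vm (sA a0 a m) w c b = C ((m : ℤ) * a c) * C ((m : ℤ) * a b) *
      (X c ^ (m - 1) * X b ^ (m - 1)) * (X b ^ ((p - 1) * m) - X c ^ ((p - 1) * m)) := by
    rw [vm, sA_der, sA_der, sA_W_der hp hm hw, sA_W_der hp hm hw]
    ring
  rwa [h2] at h1

private theorem pcc_del {L : Type} [Field L] (χ : MvPolynomial σ ℤ →+* L) (ξ : σ → L) (b : σ)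
    (N : ℕ) : ∑ e, χ (pderiv e (X b ^ N)) * ξ e = N * χ (X b) ^ (N - 1) * ξ b := by
  classical
  rw [Finset.sum_eq_single b]
  · rw [Derivation.leibniz_pow, pderiv_X_self, smul_eq_mul, mul_one, nsmul_eq_mul, map_mul,
      map_pow, map_natCast]
  · intro e _ he
    rw [Derivation.leibniz_pow, pderiv_X_of_ne he.symm, smul_zero, smul_zero, map_zero, zero_mul]
  · intro h
    exact absurd (Finset.mem_univ b) h

/-- Proof. If all `X c ∈ M` then `s ≡ a0` modulo `M` (`m ≥ 1`), so `C a0 ∈ M`, but `C p ∈ M` and `p ∤ a0`. -/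
theorem ct_X (hp : p.Prime) (hm : 1 ≤ m) (ha0 : ¬ (p : ℤ) ∣ a0)
    (hM : IsCt (sA a0 a m) w p M) : ∃ c, (X c : MvPolynomial σ ℤ) ∉ M := by
  by_contra hcon
  push Not at hcon
  obtain ⟨hpr, hpM, hsM, -, -⟩ := hM
  refine pcc_nd hp hpr hpM ha0 ?_
  have h1 : (C a0 : MvPolynomial σ ℤ) = sA a0 a m - ∑ i, C (a i) * X i ^ m := by
    rw [sA]
    ring
  rw [h1]
  refine M.sub_mem hsM (Ideal.sum_mem _ fun i _ => M.mul_mem_left _ ?_)
  exact Ideal.pow_mem_of_mem M (hcon i) m (by omega)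

/-- Proof. `vm s w c b = ∂_c s ∂_b w - ∂_c w ∂_b s = C (m ^ 2 a_c a_b) X_c ^ (m - 1) X_b ^ (m - 1) (X_b ^ N - X_c ^ N) ∈ M` (`sA_der`, `sA_W_der`). -/
theorem ct_N (hp : p.Prime) (hm : 1 ≤ m) (hpm : ¬ p ∣ m) (ha : ∀ i, ¬ (p : ℤ) ∣ a i)
    (hw : sA a0 a (p * m) = sA a0 a m ^ p + C (p : ℤ) * w) (hM : IsCt (sA a0 a m) w p M) {c b : σ}
    (hc : (X c : MvPolynomial σ ℤ) ∉ M) (hb : (X b : MvPolynomial σ ℤ) ∉ M) :
    (X b ^ ((p - 1) * m) - X c ^ ((p - 1) * m) : MvPolynomial σ ℤ) ∈ M := by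
  have h1 := pcc_vm hp hm hw hM c b
  obtain ⟨hpr, hpM, -, -, -⟩ := hM
  rcases hpr.mem_or_mem h1 with h2 | h2
  · exfalso
    rcases hpr.mem_or_mem h2 with h3 | h3
    · rcases hpr.mem_or_mem h3 with h4 | h4
      · exact pcc_nd2 hp hpr hpM hpm (ha c) h4
      · exact pcc_nd2 hp hpr hpM hpm (ha b) h4
    · rcases hpr.mem_or_mem h3 with h4 | h4
      · exact hc (hpr.mem_of_pow_mem _ h4)
      · exact hb (hpr.mem_of_pow_mem _ h4)
  · exact h2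

/-- Proof. For `m = 1` the formula for `vm s w c b` gives `X_b ^ N - X_c ^ N ∈ M` for all `b`, so no `X b` is in `M` (`N ≥ 1`). -/
theorem ct_2 (hp : p.Prime) (hm : 1 ≤ m) (ha0 : ¬ (p : ℤ) ∣ a0) (ha : ∀ i, ¬ (p : ℤ) ∣ a i)
    (hw : sA a0 a (p * m) = sA a0 a m ^ p + C (p : ℤ) * w) (hM : IsCt (sA a0 a m) w p M) {b : σ}
    (hb : (X b : MvPolynomial σ ℤ) ∈ M) : 2 ≤ m := by
  by_contra hcon
  have hm1 : m = 1 := by omega
  subst hm1
  obtain ⟨c, hc⟩ := ct_X hp hm ha0 hM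
  have h1 := pcc_vm hp hm hw hM c b
  obtain ⟨hpr, hpM, -, -, -⟩ := hM
  have hp1 : ¬ p ∣ 1 := fun h => hp.one_lt.ne' (Nat.dvd_one.1 h)
  rw [Nat.sub_self, pow_zero, pow_zero, mul_one, mul_one, mul_one] at h1
  rcases hpr.mem_or_mem h1 with h2 | h2
  · rcases hpr.mem_or_mem h2 with h4 | h4
    · exact pcc_nd2 hp hpr hpM hp1 (ha c) h4
    · exact pcc_nd2 hp hpr hpM hp1 (ha b) h4
  · have h3 : (X b ^ (p - 1) : MvPolynomial σ ℤ) ∈ M :=
      Ideal.pow_mem_of_mem M hb _ (by have := hp.two_le; omega)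
    have h4 : (X c ^ (p - 1) : MvPolynomial σ ℤ) ∈ M := by
      have h5 := M.sub_mem h3 h2
      rwa [sub_sub_cancel] at h5
    exact hc (hpr.mem_of_pow_mem _ h4)

/-- Proof. `s ∈ M`; `ct_N`. And `∂_c s = C (m a_c) X_c ^ (m - 1) ∉ M`. -/
theorem ct_g (hp : p.Prime) (hm : 1 ≤ m) (hpm : ¬ p ∣ m) (ha : ∀ i, ¬ (p : ℤ) ∣ a i)
    (hw : sA a0 a (p * m) = sA a0 a m ^ p + C (p : ℤ) * w) (hM : IsCt (sA a0 a m) w p M) {c : σ}
    (hc : (X c : MvPolynomial σ ℤ) ∉ M) :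
    (∀ b, gη (sA a0 a m) ((p - 1) * m) M c b ∈ M) ∧ pderiv c (sA a0 a m) ∉ M := by
  have hN := fun b hb => ct_N hp hm hpm ha hw hM hc (b := b) hb
  obtain ⟨hpr, hpM, hsM, -, -⟩ := hM
  refine ⟨fun b => ?_, ?_⟩
  · rw [gη]
    split_ifs with h1 h2
    · exact hsM
    · exact h2
    · exact hN b h2
  · rw [sA_der]
    intro h
    rcases hpr.mem_or_mem h with h1 | h1
    · exact pcc_nd2 hp hpr hpM hpm (ha c) h1
    · exact hc (hpr.mem_of_pow_mem _ h1)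

/-- Proof. Let `χ` have the kernel `M`, `ξ` in the kernel of the Jacobian matrix. For `X b ∈ M`: `ξ b = 0`. For `b ≠ c`, `X b ∉ M`: `N χ(X_b)^(N-1) ξ_b = N χ(X_c)^(N-1) ξ_c`; `χ(N) ≠ 0`, `χ(X_b)^N = χ(X_c)^N` (`ct_N`), so `ξ_b = t χ(X_b)` with
`t = ξ_c / χ(X_c)`. Row `c`: `0 = ∑_b χ(m a_b) χ(X_b)^(m-1) ξ_b = m t ∑_b χ(a_b X_b^m) = m t χ(s - a0) = - m t χ(a0)` (for `X b ∈ M` the terms vanish: `ξ_b = 0`, and `χ(X_b)^m = 0`). So `t = 0`, `ξ = 0`. -/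
theorem ct_J (hp : p.Prime) (hm : 1 ≤ m) (hpm : ¬ p ∣ m) (ha0 : ¬ (p : ℤ) ∣ a0)
    (ha : ∀ i, ¬ (p : ℤ) ∣ a i)
    (hw : sA a0 a (p * m) = sA a0 a m ^ p + C (p : ℤ) * w) (hM : IsCt (sA a0 a m) w p M) {c : σ}
    (hc : (X c : MvPolynomial σ ℤ) ∉ M) : Jac M (gη (sA a0 a m) ((p - 1) * m) M c) := by
  classical
  have hN := fun b hb => ct_N hp hm hpm ha hw hM hc (b := b) hb
  obtain ⟨hpr, hpM, hsM, -, -⟩ := hM
  intro L _ χ hχ ξ hξ
  obtain ⟨N, hNd⟩ : ∃ N, N = (p - 1) * m := ⟨_, rfl⟩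
  rw [← hNd] at hN hξ
  have hN1 : 1 ≤ N := by
    rw [hNd]
    exact Nat.mul_pos (by have := hp.two_le; omega) hm
  have hpN : ¬ p ∣ N := by
    rw [hNd]
    intro h
    rcases hp.dvd_mul.1 h with h1 | h1
    · have := Nat.le_of_dvd (by have := hp.two_le; omega) h1
      have := hp.two_le
      omega
    · exact hpm h1
  have hNL : (N : L) ≠ 0 := by
    intro h
    refine pcc_nd hp hpr hpM (z := (N : ℤ)) (fun h1 => hpN (Int.natCast_dvd_natCast.1 h1)) ?_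
    rw [← hχ]
    have h1 : (C (N : ℤ) : MvPolynomial σ ℤ) = ((N : ℕ) : MvPolynomial σ ℤ) := by simp
    rw [h1, map_natCast, h]
  have hxc : χ (X c) ≠ 0 := fun h => hc ((hχ _).1 h)
  obtain ⟨t, ht⟩ : ∃ t, t = ξ c / χ (X c) := ⟨_, rfl⟩
  have hall : ∀ b, ξ b = t * χ (X b) := by
    intro b
    by_cases hbc : b = c
    · rw [hbc, ht, div_mul_cancel₀ _ hxc]
    by_cases hb : (X b : MvPolynomial σ ℤ) ∈ M
    · have h1 := hξ b
      rw [gη, if_neg hbc, if_pos hb] at h1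
      have h2 := pcc_del χ ξ b 1
      rw [pow_one] at h2
      rw [h2, Nat.cast_one, one_mul, Nat.sub_self, pow_zero, one_mul] at h1
      rw [h1, (hχ _).2 hb, mul_zero]
    · have h1 := hξ b
      rw [gη, if_neg hbc, if_neg hb] at h1
      have h2 : ∑ e, χ (pderiv e (X b ^ N - X c ^ N)) * ξ e =
          N * χ (X b) ^ (N - 1) * ξ b - N * χ (X c) ^ (N - 1) * ξ c := by
        rw [← pcc_del, ← pcc_del, ← Finset.sum_sub_distrib]
        exact Finset.sum_congr rfl fun e _ => by rw [map_sub, map_sub, sub_mul]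
      rw [h2] at h1
      have h3 : χ (X b) ^ N = χ (X c) ^ N := by
        have h4 := (hχ _).2 (hN b hb)
        rwa [map_sub, map_pow, map_pow, sub_eq_zero] at h4
      obtain ⟨r, rfl⟩ : ∃ r, N = r + 1 := ⟨N - 1, by omega⟩
      rw [Nat.add_sub_cancel] at h1
      have hu : χ (X c) ^ (r + 1) ≠ 0 := pow_ne_zero _ hxc
      have h5 : (((r + 1 : ℕ) : L) * χ (X c) ^ (r + 1)) * (χ (X c) * ξ b - χ (X b) * ξ c) = 0 := by
        have h6 : (((r + 1 : ℕ) : L) * χ (X c) ^ (r + 1)) * (χ (X c) * ξ b - χ (X b) * ξ c) =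
            χ (X b) * χ (X c) * (((r + 1 : ℕ) : L) * χ (X b) ^ r * ξ b -
              ((r + 1 : ℕ) : L) * χ (X c) ^ r * ξ c) := by
          have h7 : ((r + 1 : ℕ) : L) * χ (X c) ^ (r + 1) * (χ (X c) * ξ b) =
              ((r + 1 : ℕ) : L) * χ (X b) ^ (r + 1) * (χ (X c) * ξ b) := by rw [h3]
          rw [mul_sub, h7]
          ring
        rw [h6, h1, mul_zero]
      have h8 : χ (X c) * ξ b - χ (X b) * ξ c = 0 :=
        (mul_eq_zero.1 h5).resolve_left (mul_ne_zero hNL hu)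
      rw [ht, div_mul_eq_mul_div, eq_div_iff hxc]
      linear_combination h8
  have hrow := hξ c
  rw [gη, if_pos rfl] at hrow
  have h1 : ∑ e, χ (pderiv e (sA a0 a m)) * ξ e = - (t * (m : L) * χ (C a0)) := by
    have h2 : ∀ e, χ (pderiv e (sA a0 a m)) * ξ e = t * (m : L) * χ (C (a e) * X e ^ m) := by
      intro e
      rw [sA_der, hall e]
      have h3 : (C ((m : ℤ) * a e) : MvPolynomial σ ℤ) = ((m : ℕ) : MvPolynomial σ ℤ) * C (a e) := by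
        rw [C_mul]
        simp
      rw [h3, map_mul, map_mul, map_natCast, map_mul, map_pow, map_pow]
      obtain ⟨r, rfl⟩ : ∃ r, m = r + 1 := ⟨m - 1, by omega⟩
      rw [Nat.add_sub_cancel]
      ring
    rw [Finset.sum_congr rfl fun e _ => h2 e, ← Finset.mul_sum, ← map_sum]
    have h4 : χ (∑ e, C (a e) * X e ^ m) = - χ (C a0) := by
      have h5 := (hχ _).2 hsM
      rw [sA, map_add] at h5
      linear_combination h5
    rw [h4]
    ring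
  rw [h1, neg_eq_zero] at hrow
  have hmL : (m : L) ≠ 0 := by
    intro h
    refine pcc_nd hp hpr hpM (z := (m : ℤ)) (fun h1 => hpm (Int.natCast_dvd_natCast.1 h1)) ?_
    rw [← hχ]
    have h1 : (C (m : ℤ) : MvPolynomial σ ℤ) = ((m : ℕ) : MvPolynomial σ ℤ) := by simp
    rw [h1, map_natCast, h]
  have ha0L : χ (C a0) ≠ 0 := fun h => pcc_nd hp hpr hpM ha0 ((hχ _).1 h)
  have ht0 : t = 0 := by
    rcases mul_eq_zero.1 hrow with h | h
    · exact (mul_eq_zero.1 h).resolve_right hmL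
    · exact absurd h ha0L
  funext b
  rw [hall b, ht0, zero_mul, Pi.zero_apply]

/-- Proof: `ct_X`, `ct_g`, `ct_J`, `PW.max_of_jac`; finiteness as in `PW.ct_fin` (file `PW/CtA`). -/
theorem ct_mf (hp : p.Prime) (hm : 1 ≤ m) (hpm : ¬ p ∣ m) (ha0 : ¬ (p : ℤ) ∣ a0)
    (ha : ∀ i, ¬ (p : ℤ) ∣ a i)
    (hw : sA a0 a (p * m) = sA a0 a m ^ p + C (p : ℤ) * w) :
    (∀ M : Ideal (MvPolynomial σ ℤ), IsCt (sA a0 a m) w p M → M.IsMaximal) ∧
      {M : Ideal (MvPolynomial σ ℤ) | IsCt (sA a0 a m) w p M}.Finite := by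
  have hmax : ∀ M : Ideal (MvPolynomial σ ℤ), IsCt (sA a0 a m) w p M → M.IsMaximal := by
    intro M hM
    obtain ⟨c, hc⟩ := ct_X hp hm ha0 hM
    have hJ := ct_J hp hm hpm ha0 ha hw hM hc
    have hg := (ct_g hp hm hpm ha hw hM hc).1
    obtain ⟨hpr, hpM, -, -, -⟩ := hM
    exact max_of_jac hp hpM hg hJ
  refine ⟨hmax, ?_⟩
  have key : ∀ Q : Ideal (MvPolynomial σ ℤ), (Q.IsPrime ∧ Ideal.span ({C (p : ℤ), sA a0 a m, w} ∪
      Set.range fun x : σ × σ => vm (sA a0 a m) w x.1 x.2) ≤ Q) ↔ IsCt (sA a0 a m) w p Q := by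
    intro Q
    rw [Ideal.span_le]
    constructor
    · rintro ⟨h1, h2⟩
      exact ⟨h1, h2 (Or.inl (Or.inl rfl)), h2 (Or.inl (Or.inr (Or.inl rfl))),
        h2 (Or.inl (Or.inr (Or.inr rfl))), fun c b => h2 (Or.inr ⟨(c, b), rfl⟩)⟩
    · rintro ⟨h1, h2, h3, h4, h5⟩
      refine ⟨h1, ?_⟩
      rintro x ((rfl | rfl | rfl) | ⟨⟨c, b⟩, rfl⟩)
      · exact h2
      · exact h3
      · exact h4
      · exact h5 c b
  exact (finite_of_max (I := Ideal.span ({C (p : ℤ), sA a0 a m, w} ∪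
      Set.range fun x : σ × σ => vm (sA a0 a m) w x.1 x.2)) fun Q hQ hIQ =>
        hmax Q ((key Q).1 ⟨hQ, hIQ⟩)).subset fun Q hQ => (key Q).2 hQ

end Pool.Agent.DG
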