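import Pool.Agent.PW.Defs
import Pool.Agent.NT9.GeCotB

set_option autoImplicit false

/-! # PCD: smoothness of the second order term -/

namespace Pool.Agent.DG

open MvPolynomial Pool.Agent.NT9 Pool.Agent.PW

section

variable {σ : Type} [Fintype σ]

/-- the derivation `∑ Y_a χ ∂_a` -/
private noncomputable def smc_del {L : Type} [Field L] (χ : MvPolynomial σ ℤ →+* L) (Y : σ → L)
    (f : MvPolynomial σ ℤ) : L := ∑ a, χ (pderiv a f) * Y a

section

variable {L : Type} [Field L] (χ : MvPolynomial σ ℤ →+* L) (Y : σ → L)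

private theorem smc_del_add (f g : MvPolynomial σ ℤ) : smc_del χ Y (f + g) = smc_del χ Y f + smc_del χ Y g := by
  simp only [smc_del, map_add, add_mul, Finset.sum_add_distrib]

private theorem smc_del_sub (f g : MvPolynomial σ ℤ) : smc_del χ Y (f - g) = smc_del χ Y f - smc_del χ Y g := by
  simp only [smc_del, map_sub, sub_mul, Finset.sum_sub_distrib]

private theorem smc_del_mul (f g : MvPolynomial σ ℤ) :
    smc_del χ Y (f * g) = χ f * smc_del χ Y g + χ g * smc_del χ Y f := by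
  simp only [smc_del, Derivation.leibniz, smul_eq_mul, map_add, map_mul, Finset.mul_sum]
  rw [← Finset.sum_add_distrib]
  exact Finset.sum_congr rfl fun a _ => by ring

private theorem smc_del_zero : smc_del χ Y 0 = 0 := by
  simp only [smc_del, map_zero, zero_mul, Finset.sum_const_zero]

private theorem smc_del_sum {ι : Type} (S : Finset ι) (f : ι → MvPolynomial σ ℤ) :
    smc_del χ Y (∑ i ∈ S, f i) = ∑ i ∈ S, smc_del χ Y (f i) := by
  classical
  induction S using Finset.induction_on with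
  | empty => rw [Finset.sum_empty, Finset.sum_empty, smc_del_zero]
  | insert a S ha ih => rw [Finset.sum_insert ha, Finset.sum_insert ha, smc_del_add, ih]

private theorem smc_del2 (b : σ) (f g : MvPolynomial σ ℤ) :
    smc_del χ Y (pderiv b (f * g)) = χ f * smc_del χ Y (pderiv b g) + χ (pderiv b g) * smc_del χ Y f +
      (χ g * smc_del χ Y (pderiv b f) + χ (pderiv b f) * smc_del χ Y g) := by
  rw [Derivation.leibniz, smul_eq_mul, smul_eq_mul, smc_del_add, smc_del_mul, smc_del_mul]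

end


end

/-- Proof: as `PW.cform_sm` (file `PW/CtC`). Let `χ` kill `M` and let `ν` satisfy `∑ k, χ (q j k + q k j) * ν k = 0` for all `j`. `Y` from `hY`. Apply `∂_b`, then `∑_a Y_a ∂_a` to the equation, then `χ`. With `λ = χ l0`, `χ (∂_b w) = λ χ (∂_b s)`, `χ l = χ D λ`,
`∑ χ (∂_a s) Y_a = 0`, `∑ χ (∂_a w) Y_a = 0`, `∑_a χ (∂_a (v j)) Y_a = ν j` and `v j, s, w, C p ∈ M` one gets
`χ D ∑_a (χ (∂_a ∂_b w) - λ χ (∂_a ∂_b s)) Y_a = μ' χ (∂_b s) + ∑_k (∑_j χ (q j k + q k j) ν j) χ (∂_b (v k)) = μ' χ (∂_b s)`. So `hnd` gives `Y = 0`, hence `ν = 0`. -/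
theorem sm_core {σ ι : Type} [Fintype σ] [Fintype ι] {M : Ideal (MvPolynomial σ ℤ)}
    [M.IsMaximal] {p : ℕ} {s w D l0 l β : MvPolynomial σ ℤ} {v : ι → MvPolynomial σ ℤ}
    {q : ι → ι → MvPolynomial σ ℤ} (hpM : (C (p : ℤ) : MvPolynomial σ ℤ) ∈ M) (hs : s ∈ M)
    (hw : w ∈ M) (hv : ∀ j, v j ∈ M) (hD : D ∉ M) (hl0 : ∀ b, pderiv b w - l0 * pderiv b s ∈ M)
    (hl : l - D * l0 ∈ M)
    (heq : D * w = l * s + β * C (p : ℤ) + ∑ j, ∑ k, q j k * v j * v k)
    (hY : ∀ (L : Type) [Field L] (χ : MvPolynomial σ ℤ →+* L), (∀ t, χ t = 0 ↔ t ∈ M) →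
      ∀ ν : ι → L, ∃ Y : σ → L, ∑ a, χ (pderiv a s) * Y a = 0 ∧
        (∀ j, ∑ a, χ (pderiv a (v j)) * Y a = ν j) ∧
        ((∃ μ : L, ∀ b, ∑ a, (χ (pderiv a (pderiv b w)) - χ l0 * χ (pderiv a (pderiv b s))) * Y a =
          μ * χ (pderiv b s)) → Y = 0)) : SmF q M := by
  intro L _ χ hχ ν _ hν
  have hMmax : M.IsMaximal := inferInstance
  have hker : ∀ t, χ t = 0 ↔ t ∈ M := by
    intro t
    refine ⟨fun ht => ?_, hχ t⟩
    have h1 : M ≤ RingHom.ker χ := fun m hm => hχ m hm
    have h2 := hMmax.eq_of_le (RingHom.ker_ne_top χ) h1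
    rw [h2]
    exact ht
  have hD0 : χ D ≠ 0 := fun h1 => hD ((hker _).1 h1)
  have hp0 : χ (C (p : ℤ)) = 0 := hχ _ hpM
  have hs0 : χ s = 0 := hχ _ hs
  have hw0 : χ w = 0 := hχ _ hw
  have hv0 : ∀ j, χ (v j) = 0 := fun j => hχ _ (hv j)
  obtain ⟨lam, hlam⟩ : ∃ lam, lam = χ l0 := ⟨_, rfl⟩
  have hlb : ∀ b, χ (pderiv b w) = lam * χ (pderiv b s) := by
    intro b
    have h1 := hχ _ (hl0 b)
    rw [map_sub, map_mul, sub_eq_zero] at h1
    rw [h1, hlam]
  have hll : χ l = χ D * lam := by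
    have h1 := hχ _ hl
    rw [map_sub, map_mul, sub_eq_zero] at h1
    rw [h1, hlam]
  obtain ⟨Y, hYs', hYv', h3⟩ := hY L χ hker ν
  have hYs : smc_del χ Y s = 0 := hYs'
  have hYv : ∀ j, smc_del χ Y (v j) = ν j := hYv'
  have hYw : smc_del χ Y w = 0 := by
    have h4 : smc_del χ Y w = lam * smc_del χ Y s := by
      rw [smc_del, smc_del, Finset.mul_sum]
      exact Finset.sum_congr rfl fun a _ => by rw [hlb]; ring
    rw [h4, hYs, mul_zero]
  have hYp : ∀ b, smc_del χ Y (pderiv b (C (p : ℤ))) = 0 := fun b => by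
    rw [pderiv_C, smc_del_zero]
  have hYp' : smc_del χ Y (C (p : ℤ)) = 0 := by
    rw [smc_del]
    exact Finset.sum_eq_zero fun a _ => by rw [pderiv_C, map_zero, zero_mul]
  -- the main computation
  have hmain : ∀ b, χ D * (smc_del χ Y (pderiv b w) - lam * smc_del χ Y (pderiv b s)) =
      (smc_del χ Y l - lam * smc_del χ Y D) * χ (pderiv b s) := by
    intro b
    have h4 := congrArg (fun f => smc_del χ Y (pderiv b f)) heq
    have h5 : smc_del χ Y (pderiv b (∑ j, ∑ k, q j k * v j * v k)) = 0 := by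
      have h6 : ∀ j k : ι, smc_del χ Y (pderiv b (q j k * v j * v k)) =
          χ (pderiv b (v k)) * (χ (q j k) * ν j) +
            χ (pderiv b (v j)) * (χ (q j k) * ν k) := by
        intro j k
        rw [smc_del2, map_mul, hv0, hv0, mul_zero, zero_mul, zero_mul, smc_del_mul, hv0, zero_mul, add_zero,
          hYv, hYv, Derivation.leibniz, smul_eq_mul, smul_eq_mul, map_add, map_mul, map_mul, hv0,
          zero_mul, add_zero]
        ring
      simp only [map_sum, smc_del_sum, h6, Finset.sum_add_distrib]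
      rw [Finset.sum_comm, ← Finset.sum_add_distrib]
      refine Finset.sum_eq_zero fun k _ => ?_
      rw [← Finset.mul_sum, ← Finset.mul_sum, ← mul_add, ← Finset.sum_add_distrib]
      have h7 := hν k
      have h8 : ∑ i, (χ (q i k) * ν i + χ (q k i) * ν i) = 0 := by
        rw [← h7]
        exact Finset.sum_congr rfl fun i _ => by rw [map_add]; ring
      rw [h8, mul_zero]
    have h4' : smc_del χ Y (pderiv b (D * w)) = smc_del χ Y (pderiv b (l * s)) +
        smc_del χ Y (pderiv b (β * C (p : ℤ))) +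
        smc_del χ Y (pderiv b (∑ j, ∑ k, q j k * v j * v k)) := by
      rw [← smc_del_add, ← smc_del_add, ← map_add, ← map_add]
      exact h4
    rw [h5, add_zero, smc_del2, smc_del2, smc_del2, hYp, hYp', hp0, hs0, hw0, hYs, hYw, pderiv_C, map_zero,
      hlb, hll] at h4'
    linear_combination h4'
  have hY0 : Y = 0 := by
    refine h3 ⟨(smc_del χ Y l - lam * smc_del χ Y D) / χ D, fun b => ?_⟩
    have h4 := hmain b
    have h5 : ∑ a, (χ (pderiv a (pderiv b w)) - χ l0 * χ (pderiv a (pderiv b s))) * Y a =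
        smc_del χ Y (pderiv b w) - lam * smc_del χ Y (pderiv b s) := by
      rw [smc_del, smc_del, Finset.mul_sum, ← Finset.sum_sub_distrib, hlam]
      exact Finset.sum_congr rfl fun a _ => by ring
    rw [h5, div_mul_eq_mul_div, eq_div_iff hD0]
    linear_combination h4
  funext j
  rw [← hYv j, hY0, smc_del]
  exact Finset.sum_eq_zero fun a _ => by rw [Pi.zero_apply, mul_zero]

end Pool.Agent.DG
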