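import Pool.Agent.PW.Defs
import Pool.Agent.PW.FeA

set_option autoImplicit false

/-!
# Diagonal forms of degree `p m` at `p`: definitions

In an affine chart the form is `sA a0 a (p m) = sA a0 a m ^ p + p w`. A contact point `M` is a
maximal ideal at which `s = sA a0 a m` and `w` are tangent. There the coordinates `X b` are in `M`
(`b` in `Lv M`) or `X b ^ N` has the same value as `X c ^ N`, `N = (p - 1) m`.
-/

namespace Pool.Agent.DG

open MvPolynomial Pool.Agent.NT9 Pool.Agent.PW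

variable {σ : Type} [Fintype σ]

/-- The affine diagonal polynomial `a0 + ∑ a_i X_i ^ m`. -/
noncomputable def sA (a0 : ℤ) (a : σ → ℤ) (m : ℕ) : MvPolynomial σ ℤ :=
  C a0 + ∑ i, C (a i) * X i ^ m

/-- The coordinates which vanish at `M`. -/
abbrev Lv (M : Ideal (MvPolynomial σ ℤ)) : Type := {b : σ // (X b : MvPolynomial σ ℤ) ∈ M}

/-- The other coordinates, without `c`. -/
abbrev Iv (M : Ideal (MvPolynomial σ ℤ)) (c : σ) : Type :=
  {b : σ // b ≠ c ∧ (X b : MvPolynomial σ ℤ) ∉ M}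

noncomputable instance (M : Ideal (MvPolynomial σ ℤ)) : Fintype (Lv M) := Fintype.ofFinite _

noncomputable instance (M : Ideal (MvPolynomial σ ℤ)) (c : σ) : Fintype (Iv M c) :=
  Fintype.ofFinite _

open Classical in
/-- The parameters at a contact point. -/
noncomputable def gη (s : MvPolynomial σ ℤ) (N : ℕ) (M : Ideal (MvPolynomial σ ℤ)) (c : σ) :
    σ → MvPolynomial σ ℤ :=
  fun b => if b = c then s else if (X b : MvPolynomial σ ℤ) ∈ M then X b else X b ^ N - X c ^ N

open Classical in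
/-- The coefficients without the coordinates which vanish at `M`. -/
noncomputable def aJ (a : σ → ℤ) (M : Ideal (MvPolynomial σ ℤ)) : σ → ℤ :=
  fun b => if (X b : MvPolynomial σ ℤ) ∈ M then 0 else a b

/-- The equation `∑ q_jk v_j v_k + ∑ h_b X_b ^ m` in the parameters at a contact point. -/
noncomputable def ctE2 (m N : ℕ) (M : Ideal (MvPolynomial σ ℤ)) (c : σ)
    (q : Iv M c → Iv M c → MvPolynomial σ ℤ) (h : Lv M → MvPolynomial σ ℤ) : MvPolynomial σ ℤ :=
  ∑ j, ∑ k, q j k * (X j.1 ^ N - X c ^ N) * (X k.1 ^ N - X c ^ N) + ∑ b, h b * X b.1 ^ m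

/-- The local form of `w` at a contact point. -/
structure CtG (s w : MvPolynomial σ ℤ) (p m N : ℕ) (M : Ideal (MvPolynomial σ ℤ)) (c : σ)
    (D l β : MvPolynomial σ ℤ) (q : Iv M c → Iv M c → MvPolynomial σ ℤ)
    (h : Lv M → MvPolynomial σ ℤ) : Prop where
  hX : (X c : MvPolynomial σ ℤ) ∉ M
  hD : D ∉ M
  hl : l ∉ M
  hh : ∀ b, h b ∉ M
  sm : SmF q M
  hm : Nonempty (Lv M) → 2 ≤ m
  hc : pderiv c s ∉ M
  gM : ∀ b, gη s N M c b ∈ M
  jac : Jac M (gη s N M c)
  eq : D * w = l * s + β * C (p : ℤ) + ctE2 m N M c q h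

/-- A local form of `w` at a tangency point `M` of `s = 0` and `w = 0`: `η` are parameters,
`η c = s`, and `E ∈ M ^ 2`. -/
structure GForm (s w : MvPolynomial σ ℤ) (p : ℕ) (M : Ideal (MvPolynomial σ ℤ)) (c : σ)
    (η : σ → MvPolynomial σ ℤ) (D l β E : MvPolynomial σ ℤ) : Prop where
  hD : D ∉ M
  hl : l ∉ M
  hc : pderiv c s ∉ M
  ηc : η c = s
  ηM : ∀ b, η b ∈ M
  jac : Jac M η
  hE : E ∈ M ^ 2
  eq : D * w = l * s + β * C (p : ℤ) + E

/-- The parameters of a chart of the first blow up: `s - a b`, the `η b`, `y` and `th`. -/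
noncomputable def tyG [DecidableEq σ] (s : MvPolynomial σ ℤ) (c : σ)
    (η : σ → MvPolynomial σ ℤ) (y th : MvPolynomial (V0 σ) ℤ) : V0 σ → MvPolynomial (V0 σ) ℤ :=
  Sum.elim (fun b => if b = c then jl s - va σ * vb σ else jl (η b)) ![y, th]

end Pool.Agent.DG
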