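import Pool.Agent.DG.SqDefs
import Pool.Agent.NT9.GeNakA

set_option autoImplicit false

/-! # SQA: the maximal ideal -/

namespace Pool.Agent.DG

open MvPolynomial Pool.Agent.NT9

variable {τ κ ι lam : Type} [Fintype τ] [Fintype κ] [Fintype ι] [Fintype lam] {K : Type} [Field K]
  {e : κ ⊕ (ι ⊕ lam) ≃ τ} {π : MvPolynomial τ ℤ →+* K} {Q : Ideal (MvPolynomial τ ℤ)}
  {z : MvPolynomial τ ℤ} {r : κ → MvPolynomial τ ℤ} {x : ι → MvPolynomial τ ℤ}
  {y : lam → MvPolynomial τ ℤ} {A : ι → ι → MvPolynomial τ ℤ} {h : lam → MvPolynomial τ ℤ}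
  {m : ℕ} {O : Subring K}

/-- Proof: `par`, `memQ`. -/
theorem sq_mem (hq : Sq e π Q z r x y A h m O) :
    (∀ i, x i ∈ Q) ∧ (∀ l, y l ∈ Q) ∧ (∀ i, π (x i) ∈ mx O) ∧ ∀ l, π (y l) ∈ mx O := by
  have h1 : ∀ i, x i ∈ Q := by
    intro i
    have h1 := hq.par.2.1 (e (Sum.inr (Sum.inl i)))
    simpa using h1
  have h2 : ∀ l, y l ∈ Q := by
    intro l
    have h1 := hq.par.2.1 (e (Sum.inr (Sum.inr l)))
    simpa using h1
  exact ⟨h1, h2, fun i => (hq.memQ _).1 (h1 i), fun l => (hq.memQ _).1 (h2 l)⟩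

/-- The maximal ideal is generated by the `π (x i)` and the `π (y l)`. Proof: as `PW.odp_gen` (file `PW/OdpA`). -/
theorem sq_gen [Q.IsMaximal] [IsLocalRing O] (hq : Sq e π Q z r x y A h m O) :
    ∀ t ∈ mx O, ∃ c : ι ⊕ lam → K, (∀ i, c i ∈ O) ∧
      t = ∑ i, c i * Sum.elim (fun i => π (x i)) (fun l => π (y l)) i := by
  intro t ht
  obtain ⟨g, q, hq0, hqi, hyq⟩ := hq.fr t ht.1
  have hg : g ∈ Q := by
    rw [hq.memQ, ← hyq]
    exact mx_mul_right ht (hq.poly q)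
  obtain ⟨s, hs, hs2⟩ := hq.par.gen
  obtain ⟨c0, c, hc⟩ := hs2 g hg
  have hsm : π s ∉ mx O := fun h1 => hs ((hq.memQ s).2 h1)
  rw [notMem_mx_iff (hq.poly s)] at hsm
  have h1 : π s * π g = ∑ i, π (c (e (Sum.inr i))) *
      Sum.elim (fun i => π (x i)) (fun l => π (y l)) i := by
    have h2 := congrArg π hc
    rw [map_mul, map_add, map_mul, hq.z0, mul_zero, zero_add, map_sum,
      ← Fintype.sum_equiv e (fun t => π (c (e t) * Sum.elim r (Sum.elim x y) t)) _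
        (fun t => by rw [Equiv.symm_apply_apply]), Fintype.sum_sum_type] at h2
    rw [h2]
    have h3 : ∑ k, π (c (e (Sum.inl k)) * Sum.elim r (Sum.elim x y) (Sum.inl k)) = 0 := by
      refine Finset.sum_eq_zero fun k _ => ?_
      rw [Sum.elim_inl, map_mul, hq.r0, mul_zero]
    rw [h3, zero_add]
    refine Finset.sum_congr rfl fun i _ => ?_
    rw [Sum.elim_inr, map_mul]
    rcases i with i | l
    · rw [Sum.elim_inl, Sum.elim_inl]
    · rw [Sum.elim_inr, Sum.elim_inr]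
  refine ⟨fun i => (π s)⁻¹ * (π q)⁻¹ * π (c (e (Sum.inr i))), fun i =>
    O.mul_mem (O.mul_mem hsm.2 hqi) (hq.poly _), ?_⟩
  have h2 : ∑ i, (π s)⁻¹ * (π q)⁻¹ * π (c (e (Sum.inr i))) *
      Sum.elim (fun i => π (x i)) (fun l => π (y l)) i =
      (π s)⁻¹ * (π q)⁻¹ * (π s * π g) := by
    rw [h1, Finset.mul_sum]
    exact Finset.sum_congr rfl fun i _ => by ring
  rw [h2, ← hyq]
  have hs0 := hsm.1
  field_simp

end Pool.Agent.DG
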