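import Pool.Agent.DG.SqDefs
import Pool.Agent.NodHyp.Ind2

set_option autoImplicit false

/-! # SQD: the derivatives of the relations

`NH.Ind2Aux.der_sq`: a derivation maps `P ^ 2` to `P`; all relations are in `P`. -/

namespace Pool.Agent.DG

open MvPolynomial Pool.Agent.NT9

variable {τ κ ι lam : Type} [Fintype τ] [Fintype κ] [Fintype ι] [Fintype lam]
  {z : MvPolynomial τ ℤ} {r : κ → MvPolynomial τ ℤ} {x : ι → MvPolynomial τ ℤ}
  {y : lam → MvPolynomial τ ℤ} {A : ι → ι → MvPolynomial τ ℤ} {h : lam → MvPolynomial τ ℤ}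
  {m : ℕ} {w u e f : Fin 2 → ℕ} {n1 n2 : NV ι lam}
  {P : Ideal (MvPolynomial (VS τ ι lam) ℤ)}
  {g : Fin 3 ⊕ (Option κ ⊕ (ι ⊕ lam)) → MvPolynomial (VS τ ι lam) ℤ}

private theorem sd_der {R T μ : Type} [CommRing R] [CommRing T] [Algebra R T] [Fintype μ]
    (D : Derivation R T T) (P : Ideal T)
    (rel a : μ → T) (hrel : ∀ n, rel n ∈ P) (ha : ∑ n, a n * rel n ∈ P ^ 2) :
    ∑ n, a n * D (rel n) ∈ P := by
  have h1 := NH.Ind2Aux.der_sq D P ha
  rw [map_sum] at h1
  have h2 : ∑ n, a n * D (rel n) = ∑ n, D (a n * rel n) - ∑ n, rel n * D (a n) := by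
    rw [← Finset.sum_sub_distrib]
    refine Finset.sum_congr rfl fun n _ => ?_
    rw [Derivation.leibniz, smul_eq_mul, smul_eq_mul]
    ring
  rw [h2]
  exact P.sub_mem h1 (P.sum_mem fun n _ => P.mul_mem_right _ (hrel n))

omit [Fintype τ] in
private theorem sd_sum {M : Type} [AddCommMonoid M] (f : Fin 3 ⊕ (Option κ ⊕ (ι ⊕ lam)) → M) :
    ∑ n, f n = f (Sum.inl 0) + f (Sum.inl 1) + f (Sum.inl 2) + (f (Sum.inr (Sum.inl none)) +
      ∑ k, f (Sum.inr (Sum.inl (some k))) + (∑ j, f (Sum.inr (Sum.inr (Sum.inl j))) +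
        ∑ l, f (Sum.inr (Sum.inr (Sum.inr l))))) := by
  rw [Fintype.sum_sum_type, Fin.sum_univ_three, Fintype.sum_sum_type, Fintype.sum_option,
    Fintype.sum_sum_type]

omit [Fintype τ] in
/-- The general form. -/
private theorem sd_main (D : Derivation ℤ (MvPolynomial (VS τ ι lam) ℤ) (MvPolynomial (VS τ ι lam) ℤ))
    (hD : ∀ t : MvPolynomial τ ℤ, D (sl ι lam t) = 0)
    (hrel : ∀ i, relS z r x y A h m w u e f n1 n2 i ∈ P)
    (hg : ∑ i, g i * relS z r x y A h m w u e f n1 n2 i ∈ P ^ 2) :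
    g (Sum.inl 0) * D (X (Sum.inr n1)) + g (Sum.inl 1) * D (X (Sum.inr n2)) +
      g (Sum.inl 2) * ((mab τ ι lam e * D (sQV lam A) + sQV lam A * D (mab τ ι lam e)) +
        (mab τ ι lam f * D (sHV ι h m) + sHV ι h m * D (mab τ ι lam f))) -
      (∑ j, g (Sum.inr (Sum.inr (Sum.inl j))) *
          (mab τ ι lam w * D (sV τ lam j) + sV τ lam j * D (mab τ ι lam w)) +
        ∑ l, g (Sum.inr (Sum.inr (Sum.inr l))) *
          (mab τ ι lam u * D (sE τ ι l) + sE τ ι l * D (mab τ ι lam u))) ∈ P := by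
  have h1 := sd_der D P _ g hrel hg
  rw [sd_sum] at h1
  have e0 : D (relS z r x y A h m w u e f n1 n2 (Sum.inl 0)) = D (X (Sum.inr n1)) := by
    change D (X (Sum.inr n1) - 1) = _
    rw [map_sub, Derivation.map_one_eq_zero, sub_zero]
  have e1 : D (relS z r x y A h m w u e f n1 n2 (Sum.inl 1)) = D (X (Sum.inr n2)) := by
    change D (X (Sum.inr n2) - 1) = _
    rw [map_sub, Derivation.map_one_eq_zero, sub_zero]
  have e2 : D (relS z r x y A h m w u e f n1 n2 (Sum.inl 2)) =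
      (mab τ ι lam e * D (sQV lam A) + sQV lam A * D (mab τ ι lam e)) +
        (mab τ ι lam f * D (sHV ι h m) + sHV ι h m * D (mab τ ι lam f)) := by
    change D (mab τ ι lam e * sQV lam A + mab τ ι lam f * sHV ι h m) = _
    rw [map_add, Derivation.leibniz, Derivation.leibniz]
    rfl
  have e3 : D (relS z r x y A h m w u e f n1 n2 (Sum.inr (Sum.inl none))) = 0 := hD z
  have e4 : ∀ k, D (relS z r x y A h m w u e f n1 n2 (Sum.inr (Sum.inl (some k)))) = 0 :=
    fun k => hD (r k)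
  have e5 : ∀ j, D (relS z r x y A h m w u e f n1 n2 (Sum.inr (Sum.inr (Sum.inl j)))) =
      -(mab τ ι lam w * D (sV τ lam j) + sV τ lam j * D (mab τ ι lam w)) := by
    intro j
    change D (sl ι lam (x j) - mab τ ι lam w * sV τ lam j) = _
    rw [map_sub, hD, zero_sub, Derivation.leibniz]
    rfl
  have e6 : ∀ l, D (relS z r x y A h m w u e f n1 n2 (Sum.inr (Sum.inr (Sum.inr l)))) =
      -(mab τ ι lam u * D (sE τ ι l) + sE τ ι l * D (mab τ ι lam u)) := by
    intro l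
    change D (sl ι lam (y l) - mab τ ι lam u * sE τ ι l) = _
    rw [map_sub, hD, zero_sub, Derivation.leibniz]
    rfl
  simp only [e0, e1, e2, e3, e4, e5, e6, mul_zero, Finset.sum_const_zero, zero_add, mul_neg,
    Finset.sum_neg_distrib] at h1
  have h2 : ∀ a b c : MvPolynomial (VS τ ι lam) ℤ, a - (b + c) = a + (-b + -c) := fun a b c => by
    ring
  rw [h2]
  exact h1

omit [Fintype τ] [Fintype ι] [Fintype lam] in
private theorem sd_X [DecidableEq ι] [DecidableEq lam] (c c' : NV ι lam) :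
    pderiv (Sum.inr c) (X (Sum.inr c') : MvPolynomial (VS τ ι lam) ℤ) = if c' = c then 1 else 0 :=
  NH.Ind2Aux.pderiv_inr_X c' c

omit [Fintype τ] [Fintype ι] [Fintype lam] in
private theorem sd_sl (c : NV ι lam) (t : MvPolynomial τ ℤ) :
    pderiv (Sum.inr c) (sl ι lam t) = 0 := NH.Ind2Aux.pderiv_inr_rename t c

omit [Fintype τ] [Fintype ι] [Fintype lam] in
private theorem sd_mab0 (c : ι ⊕ lam) (w : Fin 2 → ℕ) :
    pderiv (Sum.inr (Sum.inr c)) (mab τ ι lam w) = 0 := by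
  classical
  unfold mab
  rw [Derivation.leibniz, Derivation.leibniz_pow, Derivation.leibniz_pow, sd_X, sd_X, if_neg (by simp),
    if_neg (by simp)]
  simp

omit [Fintype τ] [Fintype ι] [Fintype lam] in
private theorem sd_maba (w : Fin 2 → ℕ) :
    pderiv (Sum.inr (Sum.inl 0)) (mab τ ι lam w) =
      C (w 0 : ℤ) * (sa τ ι lam ^ (w 0 - 1) * sb τ ι lam ^ w 1) := by
  classical
  unfold mab
  rw [Derivation.leibniz, Derivation.leibniz_pow, Derivation.leibniz_pow, sd_X, sd_X, if_pos rfl,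
    if_neg (by simp)]
  simp only [smul_eq_mul, mul_zero, smul_zero, zero_add, mul_one, nsmul_eq_mul]
  rw [show (C (w 0 : ℤ) : MvPolynomial (VS τ ι lam) ℤ) = (w 0 : MvPolynomial (VS τ ι lam) ℤ) by simp]
  ring

omit [Fintype τ] [Fintype ι] [Fintype lam] in
private theorem sd_mabb (w : Fin 2 → ℕ) :
    pderiv (Sum.inr (Sum.inl 1)) (mab τ ι lam w) =
      C (w 1 : ℤ) * (sa τ ι lam ^ w 0 * sb τ ι lam ^ (w 1 - 1)) := by
  classical
  unfold mab
  rw [Derivation.leibniz, Derivation.leibniz_pow, Derivation.leibniz_pow, sd_X, sd_X, if_pos rfl,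
    if_neg (by simp)]
  simp only [smul_eq_mul, mul_zero, smul_zero, add_zero, mul_one, nsmul_eq_mul]
  rw [show (C (w 1 : ℤ) : MvPolynomial (VS τ ι lam) ℤ) = (w 1 : MvPolynomial (VS τ ι lam) ℤ) by simp]
  ring

omit [Fintype τ] [Fintype lam] in
private theorem sd_QV [DecidableEq ι] [DecidableEq lam] (A : ι → ι → MvPolynomial τ ℤ) (i : ι) :
    pderiv (Sum.inr (Sum.inr (Sum.inl i))) (sQV lam A) =
      ∑ j, sl ι lam (A i j + A j i) * sV τ lam j := by
  have hV : ∀ j : ι, pderiv (Sum.inr (Sum.inr (Sum.inl i))) (sV τ lam j) =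
      (if j = i then 1 else 0 : MvPolynomial (VS τ ι lam) ℤ) := by
    intro j
    rw [sd_X]
    by_cases hj : j = i
    · rw [if_pos hj, if_pos (by rw [hj])]
    · rw [if_neg hj, if_neg fun h => hj (Sum.inl_injective (Sum.inr_injective h))]
  have h1 : ∀ k j, pderiv (Sum.inr (Sum.inr (Sum.inl i)))
      (sl ι lam (A k j) * sV τ lam k * sV τ lam j) =
      (if j = i then sl ι lam (A k j) * sV τ lam k else 0) +
        (if k = i then sl ι lam (A k j) * sV τ lam j else 0) := by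
    intro k j
    rw [Derivation.leibniz, Derivation.leibniz, sd_sl, hV, hV]
    simp only [smul_eq_mul]
    split_ifs <;> ring
  unfold sQV
  simp only [map_sum, h1, Finset.sum_add_distrib, Finset.sum_ite_eq', Finset.mem_univ, if_true]
  rw [Finset.sum_comm (f := fun k j => if k = i then sl ι lam (A k j) * sV τ lam j else 0)]
  simp only [Finset.sum_ite_eq', Finset.mem_univ, if_true, sl, map_add, add_mul,
    Finset.sum_add_distrib]
  exact add_comm _ _

omit [Fintype τ] [Fintype lam] in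
private theorem sd_QV0 (A : ι → ι → MvPolynomial τ ℤ) (c : NV ι lam)
    (hc : ∀ j : ι, c ≠ Sum.inr (Sum.inl j)) : pderiv (Sum.inr c) (sQV lam A) = 0 := by
  classical
  have hV : ∀ j : ι, pderiv (Sum.inr c) (sV τ lam j) = (0 : MvPolynomial (VS τ ι lam) ℤ) := by
    intro j
    rw [sd_X, if_neg fun h => hc j h.symm]
  have h1 : ∀ k j, pderiv (Sum.inr c) (sl ι lam (A k j) * sV τ lam k * sV τ lam j) = 0 := by
    intro k j
    rw [Derivation.leibniz, Derivation.leibniz, sd_sl, hV, hV]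
    simp
  unfold sQV
  simp only [map_sum, h1, Finset.sum_const_zero]

omit [Fintype τ] [Fintype ι] in
private theorem sd_HV [DecidableEq ι] [DecidableEq lam] (h : lam → MvPolynomial τ ℤ) (m : ℕ) (l : lam) :
    pderiv (Sum.inr (Sum.inr (Sum.inr l))) (sHV ι h m) =
      C (m : ℤ) * sl ι lam (h l) * sE τ ι l ^ (m - 1) := by
  have h1 : ∀ k, pderiv (Sum.inr (Sum.inr (Sum.inr l))) (sl ι lam (h k) * sE τ ι k ^ m) =
      if k = l then C (m : ℤ) * sl ι lam (h l) * sE τ ι l ^ (m - 1) else 0 := by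
    intro k
    rw [Derivation.leibniz, Derivation.leibniz_pow, sd_sl, sd_X]
    by_cases hk : k = l
    · rw [if_pos (by rw [hk]), if_pos hk, hk]
      simp only [smul_eq_mul, mul_zero, add_zero, mul_one, nsmul_eq_mul]
      rw [show (C (m : ℤ) : MvPolynomial (VS τ ι lam) ℤ) = (m : MvPolynomial (VS τ ι lam) ℤ) by simp]
      ring
    · rw [if_neg fun h => hk (Sum.inr_injective (Sum.inr_injective h)), if_neg hk]
      simp
  unfold sHV
  rw [map_sum, Finset.sum_congr rfl fun k _ => h1 k, Finset.sum_ite_eq', if_pos (Finset.mem_univ _)]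

omit [Fintype τ] [Fintype ι] in
private theorem sd_HV0 (h : lam → MvPolynomial τ ℤ) (m : ℕ) (c : NV ι lam)
    (hc : ∀ l : lam, c ≠ Sum.inr (Sum.inr l)) : pderiv (Sum.inr c) (sHV ι h m) = 0 := by
  classical
  have h1 : ∀ k, pderiv (Sum.inr c) (sl ι lam (h k) * sE τ ι k ^ m) = 0 := by
    intro k
    rw [Derivation.leibniz, Derivation.leibniz_pow, sd_sl, sd_X, if_neg fun h => hc k h.symm]
    simp
  unfold sHV
  simp only [map_sum, h1, Finset.sum_const_zero]

/-- `∂/∂V_j`. -/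
theorem s_dV [DecidableEq ι] [DecidableEq lam]
    (hrel : ∀ i, relS z r x y A h m w u e f n1 n2 i ∈ P)
    (hg : ∑ i, g i * relS z r x y A h m w u e f n1 n2 i ∈ P ^ 2) (j : ι) :
    (if n1 = Sum.inr (Sum.inl j) then g (Sum.inl 0) else 0) +
      (if n2 = Sum.inr (Sum.inl j) then g (Sum.inl 1) else 0) +
      g (Sum.inl 2) * (mab τ ι lam e * ∑ k, sl ι lam (A j k + A k j) * sV τ lam k) -
      g (Sum.inr (Sum.inr (Sum.inl j))) * mab τ ι lam w ∈ P := by
  have h1 := sd_main (pderiv (Sum.inr (Sum.inr (Sum.inl j)))) (sd_sl _) hrel hg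
  rw [sd_X, sd_X, sd_QV, sd_mab0, sd_mab0, sd_mab0, sd_mab0, sd_HV0 h m _ (by simp)] at h1
  simp only [sd_X] at h1
  have h2 : ∑ i, g (Sum.inr (Sum.inr (Sum.inl i))) * (mab τ ι lam w *
      (if (Sum.inr (Sum.inl i) : NV ι lam) = Sum.inr (Sum.inl j) then 1 else 0) +
        sV τ lam i * 0) = g (Sum.inr (Sum.inr (Sum.inl j))) * mab τ ι lam w := by
    rw [Finset.sum_eq_single j]
    · rw [if_pos rfl]
      ring
    · intro i _ hi
      rw [if_neg fun h => hi (Sum.inl_injective (Sum.inr_injective h))]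
      ring
    · intro h
      exact absurd (Finset.mem_univ _) h
  have h3 : ∑ l, g (Sum.inr (Sum.inr (Sum.inr l))) * (mab τ ι lam u *
      (if (Sum.inr (Sum.inr l) : NV ι lam) = Sum.inr (Sum.inl j) then 1 else 0) +
        sE τ ι l * 0) = 0 := by
    refine Finset.sum_eq_zero fun l _ => ?_
    rw [if_neg (by simp)]
    ring
  rw [h2, h3] at h1
  have h4 : ∀ (c : Prop) [Decidable c] (t : MvPolynomial (VS τ ι lam) ℤ),
      t * (if c then 1 else 0) = if c then t else 0 := fun c _ t => by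
    split_ifs <;> ring
  rw [h4, h4] at h1
  have h5 : ∀ a b t s : MvPolynomial (VS τ ι lam) ℤ, a + b + g (Sum.inl 2) * (mab τ ι lam e * t +
      sQV lam A * 0 + (mab τ ι lam f * 0 + sHV ι h m * 0)) - (s + 0) =
      a + b + g (Sum.inl 2) * (mab τ ι lam e * t) - s := fun a b t s => by ring
  rw [h5] at h1
  exact h1

/-- `∂/∂E_l`. -/
theorem s_dE [DecidableEq ι] [DecidableEq lam]
    (hrel : ∀ i, relS z r x y A h m w u e f n1 n2 i ∈ P)
    (hg : ∑ i, g i * relS z r x y A h m w u e f n1 n2 i ∈ P ^ 2) (l : lam) :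
    (if n1 = Sum.inr (Sum.inr l) then g (Sum.inl 0) else 0) +
      (if n2 = Sum.inr (Sum.inr l) then g (Sum.inl 1) else 0) +
      g (Sum.inl 2) * (mab τ ι lam f * (C (m : ℤ) * sl ι lam (h l) * sE τ ι l ^ (m - 1))) -
      g (Sum.inr (Sum.inr (Sum.inr l))) * mab τ ι lam u ∈ P := by
  have h1 := sd_main (pderiv (Sum.inr (Sum.inr (Sum.inr l)))) (sd_sl _) hrel hg
  rw [sd_X, sd_X, sd_HV, sd_mab0, sd_mab0, sd_mab0, sd_mab0, sd_QV0 A _ (by simp)] at h1
  simp only [sd_X] at h1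
  have h2 : ∑ i, g (Sum.inr (Sum.inr (Sum.inr i))) * (mab τ ι lam u *
      (if (Sum.inr (Sum.inr i) : NV ι lam) = Sum.inr (Sum.inr l) then 1 else 0) +
        sE τ ι i * 0) = g (Sum.inr (Sum.inr (Sum.inr l))) * mab τ ι lam u := by
    rw [Finset.sum_eq_single l]
    · rw [if_pos rfl]
      ring
    · intro i _ hi
      rw [if_neg fun h => hi (Sum.inr_injective (Sum.inr_injective h))]
      ring
    · intro h
      exact absurd (Finset.mem_univ _) h
  have h3 : ∑ j, g (Sum.inr (Sum.inr (Sum.inl j))) * (mab τ ι lam w *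
      (if (Sum.inr (Sum.inl j) : NV ι lam) = Sum.inr (Sum.inr l) then 1 else 0) +
        sV τ lam j * 0) = 0 := by
    refine Finset.sum_eq_zero fun l _ => ?_
    rw [if_neg (by simp)]
    ring
  rw [h2, h3] at h1
  have h4 : ∀ (c : Prop) [Decidable c] (t : MvPolynomial (VS τ ι lam) ℤ),
      t * (if c then 1 else 0) = if c then t else 0 := fun c _ t => by
    split_ifs <;> ring
  rw [h4, h4] at h1
  have h5 : ∀ a b t s : MvPolynomial (VS τ ι lam) ℤ, a + b + g (Sum.inl 2) * (mab τ ι lam e * 0 +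
      sQV lam A * 0 + (mab τ ι lam f * t + sHV ι h m * 0)) - (0 + s) =
      a + b + g (Sum.inl 2) * (mab τ ι lam f * t) - s := fun a b t s => by ring
  rw [h5] at h1
  exact h1

omit [Fintype τ] [Fintype κ] in
/-- The last two sums for the derivatives with respect to `a` and `b`. -/
private theorem sd_last (c : Fin 2) [DecidableEq ι] [DecidableEq lam]
    (W U : MvPolynomial (VS τ ι lam) ℤ) :
    (∑ j, g (Sum.inr (Sum.inr (Sum.inl j))) *
          (mab τ ι lam w * (if (Sum.inr (Sum.inl j) : NV ι lam) = Sum.inl c then 1 else 0) +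
            sV τ lam j * W) +
        ∑ l, g (Sum.inr (Sum.inr (Sum.inr l))) *
          (mab τ ι lam u * (if (Sum.inr (Sum.inr l) : NV ι lam) = Sum.inl c then 1 else 0) +
            sE τ ι l * U)) =
      W * ∑ j, g (Sum.inr (Sum.inr (Sum.inl j))) * sV τ lam j +
        U * ∑ l, g (Sum.inr (Sum.inr (Sum.inr l))) * sE τ ι l := by
  rw [Finset.mul_sum, Finset.mul_sum]
  congr 1
  · refine Finset.sum_congr rfl fun j _ => ?_
    rw [if_neg (by simp)]
    ring
  · refine Finset.sum_congr rfl fun j _ => ?_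
    rw [if_neg (by simp)]
    ring

/-- `∂/∂a`. -/
theorem s_da [DecidableEq ι] [DecidableEq lam]
    (hrel : ∀ i, relS z r x y A h m w u e f n1 n2 i ∈ P)
    (hg : ∑ i, g i * relS z r x y A h m w u e f n1 n2 i ∈ P ^ 2) :
    (if n1 = Sum.inl 0 then g (Sum.inl 0) else 0) +
      (if n2 = Sum.inl 0 then g (Sum.inl 1) else 0) +
      g (Sum.inl 2) * (C (e 0 : ℤ) * (sa τ ι lam ^ (e 0 - 1) * sb τ ι lam ^ e 1) * sQV lam A +
        C (f 0 : ℤ) * (sa τ ι lam ^ (f 0 - 1) * sb τ ι lam ^ f 1) * sHV ι h m) -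
      (C (w 0 : ℤ) * (sa τ ι lam ^ (w 0 - 1) * sb τ ι lam ^ w 1) *
          ∑ j, g (Sum.inr (Sum.inr (Sum.inl j))) * sV τ lam j +
        C (u 0 : ℤ) * (sa τ ι lam ^ (u 0 - 1) * sb τ ι lam ^ u 1) *
          ∑ l, g (Sum.inr (Sum.inr (Sum.inr l))) * sE τ ι l) ∈ P := by
  have h1 := sd_main (pderiv (Sum.inr (Sum.inl 0))) (sd_sl _) hrel hg
  rw [sd_X, sd_X, sd_HV0 h m _ (by simp), sd_maba, sd_maba, sd_maba, sd_maba,
    sd_QV0 A _ (by simp)] at h1
  simp only [sd_X] at h1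
  rw [sd_last] at h1
  have h4 : ∀ (c : Prop) [Decidable c] (t : MvPolynomial (VS τ ι lam) ℤ),
      t * (if c then 1 else 0) = if c then t else 0 := fun c _ t => by
    split_ifs <;> ring
  rw [h4, h4] at h1
  have h5 : ∀ a b t t' s : MvPolynomial (VS τ ι lam) ℤ, a + b + g (Sum.inl 2) *
      (mab τ ι lam e * 0 + sQV lam A * t + (mab τ ι lam f * 0 + sHV ι h m * t')) - s =
      a + b + g (Sum.inl 2) * (t * sQV lam A + t' * sHV ι h m) - s := fun a b t t' s => by ring
  rw [h5] at h1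
  exact h1

/-- `∂/∂b`. -/
theorem s_db [DecidableEq ι] [DecidableEq lam]
    (hrel : ∀ i, relS z r x y A h m w u e f n1 n2 i ∈ P)
    (hg : ∑ i, g i * relS z r x y A h m w u e f n1 n2 i ∈ P ^ 2) :
    (if n1 = Sum.inl 1 then g (Sum.inl 0) else 0) +
      (if n2 = Sum.inl 1 then g (Sum.inl 1) else 0) +
      g (Sum.inl 2) * (C (e 1 : ℤ) * (sa τ ι lam ^ e 0 * sb τ ι lam ^ (e 1 - 1)) * sQV lam A +
        C (f 1 : ℤ) * (sa τ ι lam ^ f 0 * sb τ ι lam ^ (f 1 - 1)) * sHV ι h m) -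
      (C (w 1 : ℤ) * (sa τ ι lam ^ w 0 * sb τ ι lam ^ (w 1 - 1)) *
          ∑ j, g (Sum.inr (Sum.inr (Sum.inl j))) * sV τ lam j +
        C (u 1 : ℤ) * (sa τ ι lam ^ u 0 * sb τ ι lam ^ (u 1 - 1)) *
          ∑ l, g (Sum.inr (Sum.inr (Sum.inr l))) * sE τ ι l) ∈ P := by
  have h1 := sd_main (pderiv (Sum.inr (Sum.inl 1))) (sd_sl _) hrel hg
  rw [sd_X, sd_X, sd_HV0 h m _ (by simp), sd_mabb, sd_mabb, sd_mabb, sd_mabb,
    sd_QV0 A _ (by simp)] at h1
  simp only [sd_X] at h1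
  rw [sd_last] at h1
  have h4 : ∀ (c : Prop) [Decidable c] (t : MvPolynomial (VS τ ι lam) ℤ),
      t * (if c then 1 else 0) = if c then t else 0 := fun c _ t => by
    split_ifs <;> ring
  rw [h4, h4] at h1
  have h5 : ∀ a b t t' s : MvPolynomial (VS τ ι lam) ℤ, a + b + g (Sum.inl 2) *
      (mab τ ι lam e * 0 + sQV lam A * t + (mab τ ι lam f * 0 + sHV ι h m * t')) - s =
      a + b + g (Sum.inl 2) * (t * sQV lam A + t' * sHV ι h m) - s := fun a b t t' s => by ring
  rw [h5] at h1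
  exact h1

end Pool.Agent.DG
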