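import Pool.Agent.DG.SqD
import Pool.Agent.NT9.GeCotB

set_option autoImplicit false

/-! # SQI0: independence, the last step -/

namespace Pool.Agent.DG

open MvPolynomial Pool.Agent.NT9

variable {τ κ ι lam : Type} [Fintype τ] [Fintype κ] [Fintype ι] [Fintype lam]
  {z : MvPolynomial τ ℤ} {r : κ → MvPolynomial τ ℤ} {x : ι → MvPolynomial τ ℤ}
  {y : lam → MvPolynomial τ ℤ} {A : ι → ι → MvPolynomial τ ℤ} {h : lam → MvPolynomial τ ℤ}
  {m : ℕ} {w u e f : Fin 2 → ℕ} {n1 n2 : NV ι lam}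
  {P : Ideal (MvPolynomial (VS τ ι lam) ℤ)}
  {g : Fin 3 ⊕ (Option κ ⊕ (ι ⊕ lam)) → MvPolynomial (VS τ ι lam) ℤ}

omit [Fintype τ] in
private theorem si_sum {M : Type} [AddCommMonoid M] (f : Fin 3 ⊕ (Option κ ⊕ (ι ⊕ lam)) → M) :
    ∑ n, f n = f (Sum.inl 0) + f (Sum.inl 1) + f (Sum.inl 2) + (f (Sum.inr (Sum.inl none)) +
      ∑ k, f (Sum.inr (Sum.inl (some k))) + (∑ j, f (Sum.inr (Sum.inr (Sum.inl j))) +
        ∑ l, f (Sum.inr (Sum.inr (Sum.inr l))))) := by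
  rw [Fintype.sum_sum_type, Fin.sum_univ_three, Fintype.sum_sum_type, Fintype.sum_option,
    Fintype.sum_sum_type]

omit [Fintype τ] [Fintype ι] [Fintype lam] in
private theorem si_sq {s t : MvPolynomial (VS τ ι lam) ℤ} (hs : s ∈ P) (ht : t ∈ P) :
    s * t ∈ P ^ 2 := by
  rw [sq]
  exact Ideal.mul_mem_mul hs ht

omit [Fintype τ] [Fintype ι] [Fintype lam] in
private theorem si_pow {a b : MvPolynomial (VS τ ι lam) ℤ} (ha : a ∈ P) {k : ℕ} (hk : 1 ≤ k) :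
    C ((k : ℤ) - 1) * (a ^ k * b) ∈ P ^ 2 := by
  obtain ⟨k, rfl⟩ : ∃ i, k = i + 1 := ⟨k - 1, by omega⟩
  rcases Nat.eq_zero_or_pos k with h | h
  · subst h
    simp
  · obtain ⟨k, rfl⟩ : ∃ i, k = i + 1 := ⟨k - 1, by omega⟩
    have h1 : a ^ (k + 1 + 1) * b = a * a * (a ^ k * b) := by ring
    rw [h1]
    exact Ideal.mul_mem_left _ _ (Ideal.mul_mem_right _ _ (si_sq ha ha))

omit [Fintype τ] [Fintype ι] [Fintype lam] in
/-- The elements `mab w * Δ + mab u * Ε`. -/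
private theorem si_S {Δ Ε : MvPolynomial (VS τ ι lam) ℤ}
    (h : (sa τ ι lam ∈ P ∧ 1 ≤ w 0 ∧ 1 ≤ u 0 ∧
      C (w 0 : ℤ) * (sa τ ι lam ^ (w 0 - 1) * sb τ ι lam ^ w 1) * Δ +
        C (u 0 : ℤ) * (sa τ ι lam ^ (u 0 - 1) * sb τ ι lam ^ u 1) * Ε ∈ P) ∨
      (sb τ ι lam ∈ P ∧ 1 ≤ w 1 ∧ 1 ≤ u 1 ∧
      C (w 1 : ℤ) * (sa τ ι lam ^ w 0 * sb τ ι lam ^ (w 1 - 1)) * Δ +
        C (u 1 : ℤ) * (sa τ ι lam ^ u 0 * sb τ ι lam ^ (u 1 - 1)) * Ε ∈ P)) :
    mab τ ι lam w * Δ + mab τ ι lam u * Ε ∈ P ^ 2 := by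
  rcases h with ⟨ha, hw, hu, h⟩ | ⟨ha, hw, hu, h⟩
  · have h1 := si_sq ha h
    have h2 := Ideal.mul_mem_right Δ _ (si_pow (b := sb τ ι lam ^ w 1) ha hw)
    have h3 := Ideal.mul_mem_right Ε _ (si_pow (b := sb τ ι lam ^ u 1) ha hu)
    have h4 := Ideal.sub_mem _ (Ideal.sub_mem _ h1 h2) h3
    have e1 : sa τ ι lam ^ w 0 = sa τ ι lam * sa τ ι lam ^ (w 0 - 1) := by
      rw [← pow_succ', Nat.sub_add_cancel hw]
    have e2 : sa τ ι lam ^ u 0 = sa τ ι lam * sa τ ι lam ^ (u 0 - 1) := by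
      rw [← pow_succ', Nat.sub_add_cancel hu]
    have h5 : mab τ ι lam w * Δ + mab τ ι lam u * Ε = sa τ ι lam *
        (C (w 0 : ℤ) * (sa τ ι lam ^ (w 0 - 1) * sb τ ι lam ^ w 1) * Δ +
          C (u 0 : ℤ) * (sa τ ι lam ^ (u 0 - 1) * sb τ ι lam ^ u 1) * Ε) -
        C ((w 0 : ℤ) - 1) * (sa τ ι lam ^ w 0 * sb τ ι lam ^ w 1) * Δ -
        C ((u 0 : ℤ) - 1) * (sa τ ι lam ^ u 0 * sb τ ι lam ^ u 1) * Ε := by
      unfold mab
      rw [e1, e2, C_sub, C_sub, C_1]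
      ring
    rw [h5]
    exact h4
  · have h1 := si_sq ha h
    have h2 := Ideal.mul_mem_right Δ _ (si_pow (b := sa τ ι lam ^ w 0) ha hw)
    have h3 := Ideal.mul_mem_right Ε _ (si_pow (b := sa τ ι lam ^ u 0) ha hu)
    have h4 := Ideal.sub_mem _ (Ideal.sub_mem _ h1 h2) h3
    have e1 : sb τ ι lam ^ w 1 = sb τ ι lam * sb τ ι lam ^ (w 1 - 1) := by
      rw [← pow_succ', Nat.sub_add_cancel hw]
    have e2 : sb τ ι lam ^ u 1 = sb τ ι lam * sb τ ι lam ^ (u 1 - 1) := by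
      rw [← pow_succ', Nat.sub_add_cancel hu]
    have h5 : mab τ ι lam w * Δ + mab τ ι lam u * Ε = sb τ ι lam *
        (C (w 1 : ℤ) * (sa τ ι lam ^ w 0 * sb τ ι lam ^ (w 1 - 1)) * Δ +
          C (u 1 : ℤ) * (sa τ ι lam ^ u 0 * sb τ ι lam ^ (u 1 - 1)) * Ε) -
        C ((w 1 : ℤ) - 1) * (sb τ ι lam ^ w 1 * sa τ ι lam ^ w 0) * Δ -
        C ((u 1 : ℤ) - 1) * (sb τ ι lam ^ u 1 * sa τ ι lam ^ u 0) * Ε := by
      unfold mab
      rw [e1, e2, C_sub, C_sub, C_1]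
      ring
    rw [h5]
    exact h4

/-- Proof. Write `δ j`, `ε l` for the coefficients of the last relations, `Δ = ∑ δ j * V j`, `Ε = ∑ ε l * E l`. Suppose `sa ∈ P`, `1 ≤ w 0`, `1 ≤ u 0` (the other case is symmetric, with `s_db`). `s_da`: `w0 a^(w0-1) b^w1 Δ + u0 a^(u0-1) b^u1 Ε ∈ P`, as the other
summands have coefficients in `P`. Hence `S = mab w * Δ + mab u * Ε ∈ P ^ 2`: if `w0 ≥ 2` then `a ^ w0 ∈ P ^ 2`, and if `u0 ≥ 2` then `a ^ u0 ∈ P ^ 2`; if `w0 = 1`, `u0 ≥ 2`: `b^w1 Δ ∈ P`, so `a b^w1 Δ ∈ P ^ 2`; similarly `u0 = 1`, `w0 ≥ 2`; if `w0 = u0 = 1`: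
`b^w1 Δ + b^u1 Ε ∈ P`, multiply by `a`. The relations with coefficients in `P` contribute elements of `P ^ 2`, so `ζ * sl z + ∑ ρ k * sl (r k) + ∑ δ j * sl (x j) + ∑ ε l * sl (y l) ∈ P ^ 2`, and `NT9.cot_indep` for `Par Q z ..` (with `β t = Sum.elim ρ (Sum.elim δ ε) (e0.symm t)`;
compare `PW.o_ind`, file `PW/OdpD`). -/
theorem s_end [DecidableEq ι] [DecidableEq lam] [P.IsPrime] {e0 : κ ⊕ (ι ⊕ lam) ≃ τ} {Q : Ideal (MvPolynomial τ ℤ)} [Q.IsMaximal]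
    {p : ℕ} (hp : p.Prime) (hpQ : (C (p : ℤ) : MvPolynomial τ ℤ) ∈ Q)
    (hpar : Par Q z fun t => Sum.elim r (Sum.elim x y) (e0.symm t))
    (hQP : ∀ t ∈ Q, sl ι lam t ∈ P) (hrel : ∀ i, relS z r x y A h m w u e f n1 n2 i ∈ P)
    (hg : ∑ i, g i * relS z r x y A h m w u e f n1 n2 i ∈ P ^ 2)
    (h012 : ∀ i, g (Sum.inl i) ∈ P)
    (hab : (sa τ ι lam ∈ P ∧ 1 ≤ w 0 ∧ 1 ≤ u 0) ∨ (sb τ ι lam ∈ P ∧ 1 ≤ w 1 ∧ 1 ≤ u 1)) :
    ∀ i, g i ∈ P := by
  have hif : ∀ (c : Prop) [Decidable c] {t : MvPolynomial (VS τ ι lam) ℤ}, t ∈ P →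
      (if c then t else 0) ∈ P := by
    intro c _ t ht
    split_ifs
    · exact ht
    · exact P.zero_mem
  have hS : mab τ ι lam w * ∑ j, g (Sum.inr (Sum.inr (Sum.inl j))) * sV τ lam j +
      mab τ ι lam u * ∑ l, g (Sum.inr (Sum.inr (Sum.inr l))) * sE τ ι l ∈ P ^ 2 := by
    apply si_S
    rcases hab with ⟨ha, hw, hu⟩ | ⟨hb, hw, hu⟩
    · left
      refine ⟨ha, hw, hu, ?_⟩
      have h1 := s_da hrel hg
      have h2 := P.add_mem (P.add_mem (hif (n1 = Sum.inl 0) (h012 0)) (hif (n2 = Sum.inl 0) (h012 1)))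
        (P.mul_mem_right (C (e 0 : ℤ) * (sa τ ι lam ^ (e 0 - 1) * sb τ ι lam ^ e 1) * sQV lam A +
        C (f 0 : ℤ) * (sa τ ι lam ^ (f 0 - 1) * sb τ ι lam ^ f 1) * sHV ι h m) (h012 2))
      have h3 := P.sub_mem h2 h1
      rw [sub_sub_cancel] at h3
      exact h3
    · right
      refine ⟨hb, hw, hu, ?_⟩
      have h1 := s_db hrel hg
      have h2 := P.add_mem (P.add_mem (hif (n1 = Sum.inl 1) (h012 0)) (hif (n2 = Sum.inl 1) (h012 1)))
        (P.mul_mem_right (C (e 1 : ℤ) * (sa τ ι lam ^ e 0 * sb τ ι lam ^ (e 1 - 1)) * sQV lam A +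
        C (f 1 : ℤ) * (sa τ ι lam ^ f 0 * sb τ ι lam ^ (f 1 - 1)) * sHV ι h m) (h012 2))
      have h3 := P.sub_mem h2 h1
      rw [sub_sub_cancel] at h3
      exact h3
  -- the relation between the parameters
  have h3 : g (Sum.inr (Sum.inl none)) * sl ι lam z +
      (∑ k, g (Sum.inr (Sum.inl (some k))) * sl ι lam (r k) +
        (∑ j, g (Sum.inr (Sum.inr (Sum.inl j))) * sl ι lam (x j) +
          ∑ l, g (Sum.inr (Sum.inr (Sum.inr l))) * sl ι lam (y l))) ∈ P ^ 2 := by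
    have h4 : g (Sum.inr (Sum.inl none)) * sl ι lam z +
      (∑ k, g (Sum.inr (Sum.inl (some k))) * sl ι lam (r k) +
        (∑ j, g (Sum.inr (Sum.inr (Sum.inl j))) * sl ι lam (x j) +
          ∑ l, g (Sum.inr (Sum.inr (Sum.inr l))) * sl ι lam (y l))) =
        ∑ i, g i * relS z r x y A h m w u e f n1 n2 i -
          g (Sum.inl 0) * relS z r x y A h m w u e f n1 n2 (Sum.inl 0) -
          g (Sum.inl 1) * relS z r x y A h m w u e f n1 n2 (Sum.inl 1) -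
          g (Sum.inl 2) * relS z r x y A h m w u e f n1 n2 (Sum.inl 2) +
          (mab τ ι lam w * ∑ j, g (Sum.inr (Sum.inr (Sum.inl j))) * sV τ lam j +
            mab τ ι lam u * ∑ l, g (Sum.inr (Sum.inr (Sum.inr l))) * sE τ ι l) := by
      rw [si_sum (fun i => g i * relS z r x y A h m w u e f n1 n2 i), Finset.mul_sum,
        Finset.mul_sum]
      have h5 : ∑ j, g (Sum.inr (Sum.inr (Sum.inl j))) *
          relS z r x y A h m w u e f n1 n2 (Sum.inr (Sum.inr (Sum.inl j))) =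
          ∑ j, g (Sum.inr (Sum.inr (Sum.inl j))) * sl ι lam (x j) -
            ∑ j, mab τ ι lam w * (g (Sum.inr (Sum.inr (Sum.inl j))) * sV τ lam j) := by
        rw [← Finset.sum_sub_distrib]
        refine Finset.sum_congr rfl fun j _ => ?_
        simp only [relS]
        ring
      have h6 : ∑ l, g (Sum.inr (Sum.inr (Sum.inr l))) *
          relS z r x y A h m w u e f n1 n2 (Sum.inr (Sum.inr (Sum.inr l))) =
          ∑ l, g (Sum.inr (Sum.inr (Sum.inr l))) * sl ι lam (y l) -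
            ∑ l, mab τ ι lam u * (g (Sum.inr (Sum.inr (Sum.inr l))) * sE τ ι l) := by
        rw [← Finset.sum_sub_distrib]
        refine Finset.sum_congr rfl fun j _ => ?_
        simp only [relS]
        ring
      have h7 : relS z r x y A h m w u e f n1 n2 (Sum.inr (Sum.inl none)) = sl ι lam z := rfl
      have h8 : ∀ k, relS z r x y A h m w u e f n1 n2 (Sum.inr (Sum.inl (some k))) =
          sl ι lam (r k) := fun k => rfl
      rw [h5, h6, h7]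
      simp only [h8]
      ring
    rw [h4]
    exact Ideal.add_mem _ (Ideal.sub_mem _ (Ideal.sub_mem _ (Ideal.sub_mem _ hg
      (si_sq (h012 0) (hrel _))) (si_sq (h012 1) (hrel _))) (si_sq (h012 2) (hrel _))) hS
  have h4 := cot_indep hp hpQ hpar (ι := (Sum.inl : τ → VS τ ι lam)) Sum.inl_injective P hQP
    (α := g (Sum.inr (Sum.inl none)))
    (β := fun t => Sum.elim (fun k => g (Sum.inr (Sum.inl (some k))))
      (Sum.elim (fun j => g (Sum.inr (Sum.inr (Sum.inl j))))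
        (fun l => g (Sum.inr (Sum.inr (Sum.inr l))))) (e0.symm t)) (by
      rw [← Fintype.sum_equiv e0 (fun t => Sum.elim (fun k => g (Sum.inr (Sum.inl (some k))))
        (Sum.elim (fun j => g (Sum.inr (Sum.inr (Sum.inl j))))
        (fun l => g (Sum.inr (Sum.inr (Sum.inr l))))) t *
          rename Sum.inl (Sum.elim r (Sum.elim x y) t)) _
        (fun t => by rw [Equiv.symm_apply_apply]), Fintype.sum_sum_type, Fintype.sum_sum_type]
      simp only [Sum.elim_inl, Sum.elim_inr]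
      exact h3)
  obtain ⟨h5, h6⟩ := h4
  rintro (n | (_ | k) | (j | l))
  · exact h012 n
  · exact h5
  · have := h6 (e0 (Sum.inl k))
    simpa using this
  · have := h6 (e0 (Sum.inr (Sum.inl j)))
    simpa using this
  · have := h6 (e0 (Sum.inr (Sum.inr l)))
    simpa using this

end Pool.Agent.DG
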