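import Pool.Agent.DG.SqI0
import Pool.Agent.DG.SqS

set_option autoImplicit false

/-! # SQIA: independence in the chart `V c = 1`, `b = 1` -/

namespace Pool.Agent.DG

open MvPolynomial Pool.Agent.NT9

variable {τ κ ι lam : Type} [Fintype τ] [Fintype κ] [Fintype ι] [Fintype lam]
  {z : MvPolynomial τ ℤ} {r : κ → MvPolynomial τ ℤ} {x : ι → MvPolynomial τ ℤ}
  {y : lam → MvPolynomial τ ℤ} {A : ι → ι → MvPolynomial τ ℤ} {h : lam → MvPolynomial τ ℤ}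
  {m : ℕ} {w u e f : Fin 2 → ℕ} {n1 n2 : NV ι lam}
  {P : Ideal (MvPolynomial (VS τ ι lam) ℤ)}
  {g : Fin 3 ⊕ (Option κ ⊕ (ι ⊕ lam)) → MvPolynomial (VS τ ι lam) ℤ}

omit [Fintype τ] [Fintype ι] [Fintype lam] in
private theorem ia_a {a b c t s : MvPolynomial (VS τ ι lam) ℤ} (h : a + b + c * t - s ∈ P)
    (hc : c ∈ P) (hs : s ∈ P) : a + b ∈ P := by
  have h1 := P.sub_mem (P.add_mem h hs) (P.mul_mem_right t hc)
  have h2 : a + b + c * t - s + s - c * t = a + b := by ring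
  rwa [h2] at h1

omit [Fintype τ] [Fintype ι] [Fintype lam] in
private theorem ia_b [P.IsPrime] {c t s : MvPolynomial (VS τ ι lam) ℤ}
    (h : 0 + 0 + c * t - s ∈ P) (hc : c ∉ P) (hs : s ∈ P) : t ∈ P := by
  have h1 := P.add_mem h hs
  have h2 : 0 + 0 + c * t - s + s = c * t := by ring
  rw [h2] at h1
  exact (Ideal.IsPrime.mem_or_mem ‹_› h1).resolve_left hc

omit [Fintype τ] [Fintype ι] [Fintype lam] in
private theorem ia_one [P.IsPrime] {t : MvPolynomial (VS τ ι lam) ℤ} (h : t - 1 ∈ P) : t ∉ P := by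
  intro ht
  have h1 := P.sub_mem ht h
  rw [sub_sub_cancel] at h1
  exact (Ideal.IsPrime.ne_top ‹_›) ((Ideal.eq_top_iff_one P).2 h1)

omit [Fintype τ] [Fintype ι] [Fintype lam] in
/-- `x = t * v`, `v = 1`. -/
private theorem ia_par [P.IsPrime] {s t v : MvPolynomial (VS τ ι lam) ℤ} (h : s - t * v ∈ P)
    (hs : s ∈ P) (hv : v - 1 ∈ P) : t ∈ P := by
  have h1 := P.sub_mem hs h
  rw [sub_sub_cancel] at h1
  exact (Ideal.IsPrime.mem_or_mem ‹_› h1).resolve_right (ia_one hv)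

omit [Fintype τ] [Fintype ι] [Fintype lam] in
private theorem ia_mab {w : Fin 2 → ℕ} (h0 : w 0 = 0) (h1 : w 1 = 0) : mab τ ι lam w = 1 := by
  unfold mab
  rw [h0, h1]
  simp

/-- The quadric. -/
private theorem ia_qv [P.IsPrime] {Q : Ideal (MvPolynomial τ ℤ)} (hQP : ∀ t ∈ Q, sl ι lam t ∈ P)
    (hA : SmF A Q) {c : ι} {n2 : NV ι lam} (hn2 : ∀ j : ι, n2 ≠ Sum.inr (Sum.inl j))
    (hw : mab τ ι lam w ∈ P) (he : mab τ ι lam e = 1)
    (hrel : ∀ i, relS z r x y A h m w u e f (Sum.inr (Sum.inl c)) n2 i ∈ P)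
    (hg : ∑ i, g i * relS z r x y A h m w u e f (Sum.inr (Sum.inl c)) n2 i ∈ P ^ 2)
    (hγ : g (Sum.inl 2) ∉ P) : sQV lam A ∉ P := by
  classical
  intro hq
  obtain ⟨j, hj, h1⟩ := s_smV hQP hA (c := c) (hrel (Sum.inl 0)) hq
  apply h1
  have h2 := s_dV hrel hg j
  rw [if_neg fun h => hj (Sum.inl_injective (Sum.inr_injective h)).symm, if_neg (hn2 j), he,
    one_mul] at h2
  exact ia_b h2 hγ (P.mul_mem_left _ hw)

/-- The variables `E l` for `n1 ≠ E l`, `n2 ≠ E l`. -/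
private theorem ia_ev [P.IsPrime] {Q : Ideal (MvPolynomial τ ℤ)} [Q.IsMaximal]
    (hQP : ∀ t ∈ Q, sl ι lam t ∈ P) (hh : ∀ l, h l ∉ Q) (hm : 2 ≤ m) {p : ℕ} (hp : p.Prime)
    (hpQ : (C (p : ℤ) : MvPolynomial τ ℤ) ∈ Q) (hpm : ¬ p ∣ m) {n1 n2 : NV ι lam} {l : lam}
    (hn1 : n1 ≠ Sum.inr (Sum.inr l)) (hn2 : n2 ≠ Sum.inr (Sum.inr l))
    (hu : mab τ ι lam u ∈ P) (hf : mab τ ι lam f = 1)
    (hrel : ∀ i, relS z r x y A h m w u e f n1 n2 i ∈ P)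
    (hg : ∑ i, g i * relS z r x y A h m w u e f n1 n2 i ∈ P ^ 2)
    (hγ : g (Sum.inl 2) ∉ P) : sE τ ι l ∈ P := by
  classical
  have h2 := s_dE hrel hg l
  rw [if_neg hn1, if_neg hn2, hf, one_mul] at h2
  exact s_rootE hQP hh hm hp hpQ hpm (ia_b h2 hγ (P.mul_mem_left _ hu))

/-- Proof. `sl (x c) - mab w * V c ∈ P`, `V c ≡ 1`, `mab w = a`: `sa ∈ P`. Let `γ = g (inl 2) ∉ P`. `s_dV` for `j ≠ c` (`mab e = 1`, `mab w ∈ P`) and `s_smV`: `sQV ∉ P`. `sQV + a ^ (m - 2) * sHV ∈ P`, so `m = 2` and `sHV ∉ P`. `s_dE` for all `l` (`mab f = 1`, `mab u = a ∈ P`;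
`n1`, `n2` are not `E l`) and `s_rootE`: `E l ∈ P`, so `sHV ∈ P`, a contradiction. So `γ ∈ P`; `s_dV` for `c`: `g (inl 0) ∈ P`; `s_db` (`w 1 = u 1 = 0`): `g (inl 1) ∈ P`; `s_end`. -/
theorem s_indA [P.IsPrime] {e0 : κ ⊕ (ι ⊕ lam) ≃ τ} {Q : Ideal (MvPolynomial τ ℤ)} [Q.IsMaximal]
    {p : ℕ} (hp : p.Prime) (hpQ : (C (p : ℤ) : MvPolynomial τ ℤ) ∈ Q)
    (hpar : Par Q z fun t => Sum.elim r (Sum.elim x y) (e0.symm t)) (hA : SmF A Q)
    (hh : ∀ l, h l ∉ Q) (hm : 2 ≤ m) (hpm : ¬ p ∣ m)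
    (hQP : ∀ t ∈ Q, sl ι lam t ∈ P) {c : ι} (hw0 : w 0 = 1) (hw1 : w 1 = 0)
    (hu0 : u 0 = 1) (hu1 : u 1 = 0) (he : e = 0) (hf0 : f 0 = m - 2) (hf1 : f 1 = 0)
    (hrel : ∀ i, relS z r x y A h m w u e f (Sum.inr (Sum.inl c)) (Sum.inl 1) i ∈ P) :
    SInd z r x y A h m w u e f (Sum.inr (Sum.inl c)) (Sum.inl 1) P := by
  classical
  intro g hg
  have hxQ : x c ∈ Q := by
    have := hpar.2.1 (e0 (Sum.inr (Sum.inl c)))
    simpa using this
  have r3 : sl ι lam (x c) - mab τ ι lam w * sV τ lam c ∈ P :=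
    hrel (Sum.inr (Sum.inr (Sum.inl c)))
  have hwP : mab τ ι lam w ∈ P := ia_par r3 (hQP _ hxQ) (hrel (Sum.inl 0))
  have hw : mab τ ι lam w = sa τ ι lam := by
    unfold mab
    rw [hw0, hw1]
    simp
  have hu : mab τ ι lam u = sa τ ι lam := by
    unfold mab
    rw [hu0, hu1]
    simp
  have ha : sa τ ι lam ∈ P := hw ▸ hwP
  have huP : mab τ ι lam u ∈ P := hu ▸ ha
  have hep : mab τ ι lam e = 1 := ia_mab (by rw [he]; rfl) (by rw [he]; rfl)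
  have r2 : mab τ ι lam e * sQV lam A + mab τ ι lam f * sHV ι h m ∈ P := hrel (Sum.inl 2)
  rw [hep, one_mul] at r2
  have hγ : g (Sum.inl 2) ∈ P := by
    by_contra hγ
    have hq := ia_qv hQP hA (by simp) hwP hep hrel hg hγ
    have h1 : mab τ ι lam f * sHV ι h m ∉ P := fun h' => hq (by
      have := P.sub_mem r2 h'
      rwa [add_sub_cancel_right] at this)
    have h2 : mab τ ι lam f ∉ P := fun h' => h1 (P.mul_mem_right _ h')
    have hm0 : m - 2 = 0 := by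
      by_contra h3
      apply h2
      unfold mab
      rw [hf0]
      exact P.mul_mem_right _ (P.pow_mem_of_mem ha _ (Nat.pos_of_ne_zero h3))
    have hfp : mab τ ι lam f = 1 := ia_mab (by rw [hf0, hm0]) hf1
    apply h1
    refine P.mul_mem_left _ ?_
    unfold sHV
    refine P.sum_mem fun l _ => P.mul_mem_left _ (P.pow_mem_of_mem ?_ _ (by omega))
    exact ia_ev hQP hh hm hp hpQ hpm (by simp) (by simp) huP hfp hrel hg hγ
  have h0 : g (Sum.inl 0) ∈ P := by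
    have h1 := s_dV hrel hg c
    rw [if_pos rfl, if_neg (by simp)] at h1
    have h2 := ia_a h1 hγ (P.mul_mem_left _ hwP)
    rwa [add_zero] at h2
  have h1 : g (Sum.inl 1) ∈ P := by
    have h1 := s_db hrel hg
    rw [if_neg (by simp), if_pos rfl, hw1, hu1] at h1
    have h2 := ia_a h1 hγ (by simp)
    rwa [zero_add] at h2
  refine s_end hp hpQ hpar hQP hrel hg ?_ (Or.inl ⟨ha, hw0.ge, hu0.ge⟩)
  intro i
  fin_cases i
  · exact h0
  · exact h1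
  · exact hγ

end Pool.Agent.DG
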