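import Pool.Agent.DG.SqI0
import Pool.Agent.DG.SqS

set_option autoImplicit false

/-! # SQIE: independence in the charts with `e = 0` -/

namespace Pool.Agent.DG

open MvPolynomial Pool.Agent.NT9

variable {τ κ ι lam : Type} [Fintype τ] [Fintype κ] [Fintype ι] [Fintype lam]
  {z : MvPolynomial τ ℤ} {r : κ → MvPolynomial τ ℤ} {x : ι → MvPolynomial τ ℤ}
  {y : lam → MvPolynomial τ ℤ} {A : ι → ι → MvPolynomial τ ℤ} {h : lam → MvPolynomial τ ℤ}
  {m : ℕ} {w u e f : Fin 2 → ℕ} {n1 n2 : NV ι lam}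
  {P : Ideal (MvPolynomial (VS τ ι lam) ℤ)}
  {g : Fin 3 ⊕ (Option κ ⊕ (ι ⊕ lam)) → MvPolynomial (VS τ ι lam) ℤ}

omit [Fintype τ] [Fintype ι] [Fintype lam] in
private theorem ie_a {a b c t s : MvPolynomial (VS τ ι lam) ℤ} (h : a + b + c * t - s ∈ P)
    (hc : c ∈ P) (hs : s ∈ P) : a + b ∈ P := by
  have h1 := P.sub_mem (P.add_mem h hs) (P.mul_mem_right t hc)
  have h2 : a + b + c * t - s + s - c * t = a + b := by ring
  rwa [h2] at h1

omit [Fintype τ] [Fintype ι] [Fintype lam] in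
private theorem ie_b [P.IsPrime] {c t s : MvPolynomial (VS τ ι lam) ℤ}
    (h : 0 + 0 + c * t - s ∈ P) (hc : c ∉ P) (hs : s ∈ P) : t ∈ P := by
  have h1 := P.add_mem h hs
  have h2 : 0 + 0 + c * t - s + s = c * t := by ring
  rw [h2] at h1
  exact (Ideal.IsPrime.mem_or_mem ‹_› h1).resolve_left hc

omit [Fintype τ] [Fintype ι] [Fintype lam] in
private theorem ie_one [P.IsPrime] {t : MvPolynomial (VS τ ι lam) ℤ} (h : t - 1 ∈ P) : t ∉ P := by
  intro ht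
  have h1 := P.sub_mem ht h
  rw [sub_sub_cancel] at h1
  exact (Ideal.IsPrime.ne_top ‹_›) ((Ideal.eq_top_iff_one P).2 h1)

omit [Fintype τ] [Fintype ι] [Fintype lam] in
/-- `x = t * v`, `v = 1`. -/
private theorem ie_par [P.IsPrime] {s t v : MvPolynomial (VS τ ι lam) ℤ} (h : s - t * v ∈ P)
    (hs : s ∈ P) (hv : v - 1 ∈ P) : t ∈ P := by
  have h1 := P.sub_mem hs h
  rw [sub_sub_cancel] at h1
  exact (Ideal.IsPrime.mem_or_mem ‹_› h1).resolve_right (ie_one hv)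

omit [Fintype τ] [Fintype ι] [Fintype lam] in
private theorem ie_mab {w : Fin 2 → ℕ} (h0 : w 0 = 0) (h1 : w 1 = 0) : mab τ ι lam w = 1 := by
  unfold mab
  rw [h0, h1]
  simp

/-- The quadric. -/
private theorem ie_qv [P.IsPrime] {Q : Ideal (MvPolynomial τ ℤ)} (hQP : ∀ t ∈ Q, sl ι lam t ∈ P)
    (hA : SmF A Q) {c : ι} {n2 : NV ι lam} (hn2 : ∀ j : ι, n2 ≠ Sum.inr (Sum.inl j))
    (hw : mab τ ι lam w ∈ P) (he : mab τ ι lam e = 1)
    (hrel : ∀ i, relS z r x y A h m w u e f (Sum.inr (Sum.inl c)) n2 i ∈ P)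
    (hg : ∑ i, g i * relS z r x y A h m w u e f (Sum.inr (Sum.inl c)) n2 i ∈ P ^ 2)
    (hγ : g (Sum.inl 2) ∉ P) : sQV lam A ∉ P := by
  classical
  intro hq
  obtain ⟨j, hj, h1⟩ := s_smV hQP hA (c := c) (hrel (Sum.inl 0)) hq
  apply h1
  have h2 := s_dV hrel hg j
  rw [if_neg fun h => hj (Sum.inl_injective (Sum.inr_injective h)).symm, if_neg (hn2 j), he,
    one_mul] at h2
  exact ie_b h2 hγ (P.mul_mem_left _ hw)

omit [Fintype τ] [Fintype ι] [Fintype lam] in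
private theorem ie_or [P.IsPrime] (h : mab τ ι lam w ∈ P) : sa τ ι lam ∈ P ∨ sb τ ι lam ∈ P := by
  unfold mab at h
  rcases Ideal.IsPrime.mem_or_mem ‹_› h with h | h
  · exact Or.inl (Ideal.IsPrime.mem_of_pow_mem ‹_› _ h)
  · exact Or.inr (Ideal.IsPrime.mem_of_pow_mem ‹_› _ h)

/-- Proof. `X c ≡ mab w`, `Y l0 ≡ mab u` modulo `P`, so `mab w, mab u ∈ P`, and `sa ∈ P` or `sb ∈ P`. Let `γ = g (inl 2)`, suppose `γ ∉ P`. `s_dV` for `j ≠ c`: `γ * ∑ .. ∈ P` (`mab e = 1`), so by `s_smV` `sQV ∉ P`. `sQV + mab f * sHV ∈ P` (relation `inl 2`), so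
`mab f ∉ P`, `sHV ∉ P`. `f 1 ≥ 1`, so `sb ∉ P`, `sa ∈ P`, `f 0 = 0`, `p ∤ f 1`. `s_db`: the last two summands have the factors `a ^ w 0`, `a ^ u 0 ∈ P`; so `γ * (f 1) * b ^ (f 1 - 1) * sHV ∈ P`, a contradiction (`C (f 1) ∉ P` as `C p ∈ P`). So `γ ∈ P`; `s_dV` for `c` and `s_dE` for
`l0` give `g (inl 0), g (inl 1) ∈ P`; `s_end`. -/
theorem s_indE [P.IsPrime] {e0 : κ ⊕ (ι ⊕ lam) ≃ τ} {Q : Ideal (MvPolynomial τ ℤ)} [Q.IsMaximal]
    {p : ℕ} (hp : p.Prime) (hpQ : (C (p : ℤ) : MvPolynomial τ ℤ) ∈ Q)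
    (hpar : Par Q z fun t => Sum.elim r (Sum.elim x y) (e0.symm t)) (hA : SmF A Q)
    (hh : ∀ l, h l ∉ Q) (hm : 2 ≤ m) (hpm : ¬ p ∣ m)
    (hQP : ∀ t ∈ Q, sl ι lam t ∈ P) {c : ι} {l0 : lam} (hw : ∀ i, 1 ≤ w i)
    (hu : ∀ i, 1 ≤ u i) (he : e = 0) (hf1 : 1 ≤ f 1) (hf : f 0 = 0 → ¬ p ∣ f 1)
    (hrel : ∀ i, relS z r x y A h m w u e f (Sum.inr (Sum.inl c)) (Sum.inr (Sum.inr l0)) i ∈ P) :
    SInd z r x y A h m w u e f (Sum.inr (Sum.inl c)) (Sum.inr (Sum.inr l0)) P := by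
  classical
  intro g hg
  have hxQ : x c ∈ Q := by
    have := hpar.2.1 (e0 (Sum.inr (Sum.inl c)))
    simpa using this
  have hyQ : y l0 ∈ Q := by
    have := hpar.2.1 (e0 (Sum.inr (Sum.inr l0)))
    simpa using this
  have r3 : sl ι lam (x c) - mab τ ι lam w * sV τ lam c ∈ P :=
    hrel (Sum.inr (Sum.inr (Sum.inl c)))
  have r4 : sl ι lam (y l0) - mab τ ι lam u * sE τ ι l0 ∈ P :=
    hrel (Sum.inr (Sum.inr (Sum.inr l0)))
  have hwP : mab τ ι lam w ∈ P := ie_par r3 (hQP _ hxQ) (hrel (Sum.inl 0))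
  have huP : mab τ ι lam u ∈ P := ie_par r4 (hQP _ hyQ) (hrel (Sum.inl 1))
  have hab := ie_or hwP
  have hep : mab τ ι lam e = 1 := ie_mab (by rw [he]; rfl) (by rw [he]; rfl)
  have r2 : mab τ ι lam e * sQV lam A + mab τ ι lam f * sHV ι h m ∈ P := hrel (Sum.inl 2)
  rw [hep, one_mul] at r2
  have hγ : g (Sum.inl 2) ∈ P := by
    by_contra hγ
    have hq := ie_qv hQP hA (by simp) hwP hep hrel hg hγ
    have h1 : mab τ ι lam f * sHV ι h m ∉ P := fun h' => hq (by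
      have := P.sub_mem r2 h'
      rwa [add_sub_cancel_right] at this)
    have h2 : mab τ ι lam f ∉ P := fun h' => h1 (P.mul_mem_right _ h')
    have hH : sHV ι h m ∉ P := fun h' => h1 (P.mul_mem_left _ h')
    have hb : sb τ ι lam ∉ P := by
      intro h3
      apply h2
      unfold mab
      exact P.mul_mem_left _ (P.pow_mem_of_mem h3 _ hf1)
    have ha : sa τ ι lam ∈ P := hab.resolve_right hb
    have hf00 : f 0 = 0 := by
      by_contra h3
      apply h2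
      unfold mab
      exact P.mul_mem_right _ (P.pow_mem_of_mem ha _ (Nat.pos_of_ne_zero h3))
    have h3 := s_db hrel hg
    rw [if_neg (by simp), if_neg (by simp)] at h3
    have h4 := ie_b h3 hγ (P.add_mem
      (P.mul_mem_right _ (P.mul_mem_left _ (P.mul_mem_right _ (P.pow_mem_of_mem ha _ (hw 0)))))
      (P.mul_mem_right _ (P.mul_mem_left _ (P.mul_mem_right _ (P.pow_mem_of_mem ha _ (hu 0))))))
    rw [show e 1 = 0 by rw [he]; rfl, hf00] at h4
    simp only [Nat.cast_zero, C_0, zero_mul, zero_add, pow_zero, one_mul] at h4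
    rcases Ideal.IsPrime.mem_or_mem ‹_› h4 with h5 | h5
    · rcases Ideal.IsPrime.mem_or_mem ‹_› h5 with h6 | h6
      · have h7 : (C (p : ℤ) : MvPolynomial (VS τ ι lam) ℤ) ∈ P := by
          have := hQP _ hpQ
          simpa [sl] using this
        have h8 : IsCoprime (f 1 : ℤ) (p : ℤ) := by
          rw [Int.isCoprime_iff_gcd_eq_one]
          have h9 : Nat.Coprime (f 1) p := ((Nat.Prime.coprime_iff_not_dvd hp).2 (hf hf00)).symm
          exact_mod_cast h9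
        obtain ⟨s, t, hst⟩ := h8
        have h9 : (1 : MvPolynomial (VS τ ι lam) ℤ) ∈ P := by
          have h10 := P.add_mem (P.mul_mem_left (C s) h6) (P.mul_mem_left (C t) h7)
          rw [← C_mul, ← C_mul, ← C_add, hst, C_1] at h10
          exact h10
        exact (Ideal.IsPrime.ne_top ‹_›) ((Ideal.eq_top_iff_one P).2 h9)
      · exact hb (Ideal.IsPrime.mem_of_pow_mem ‹_› _ h6)
    · exact hH h5
  have h0 : g (Sum.inl 0) ∈ P := by
    have h1 := s_dV hrel hg c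
    rw [if_pos rfl, if_neg (by simp)] at h1
    have h2 := ie_a h1 hγ (P.mul_mem_left _ hwP)
    rwa [add_zero] at h2
  have h1 : g (Sum.inl 1) ∈ P := by
    have h1 := s_dE hrel hg l0
    rw [if_neg (by simp), if_pos rfl] at h1
    have h2 := ie_a h1 hγ (P.mul_mem_left _ huP)
    rwa [zero_add] at h2
  refine s_end hp hpQ hpar hQP hrel hg ?_ ?_
  · intro i
    fin_cases i
    · exact h0
    · exact h1
    · exact hγ
  · exact hab.imp (fun h' => ⟨h', hw 0, hu 0⟩) (fun h' => ⟨h', hw 1, hu 1⟩)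

end Pool.Agent.DG
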