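import Pool.Agent.DG.SqI0
import Pool.Agent.DG.SqS

set_option autoImplicit false

/-! # SQIF: independence in the chart with `e = (1, 0)`, `f = 0` -/

namespace Pool.Agent.DG

open MvPolynomial Pool.Agent.NT9

variable {τ κ ι lam : Type} [Fintype τ] [Fintype κ] [Fintype ι] [Fintype lam]
  {z : MvPolynomial τ ℤ} {r : κ → MvPolynomial τ ℤ} {x : ι → MvPolynomial τ ℤ}
  {y : lam → MvPolynomial τ ℤ} {A : ι → ι → MvPolynomial τ ℤ} {h : lam → MvPolynomial τ ℤ}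
  {m : ℕ} {w u e f : Fin 2 → ℕ} {n1 n2 : NV ι lam}
  {P : Ideal (MvPolynomial (VS τ ι lam) ℤ)}
  {g : Fin 3 ⊕ (Option κ ⊕ (ι ⊕ lam)) → MvPolynomial (VS τ ι lam) ℤ}

omit [Fintype τ] [Fintype ι] [Fintype lam] in
private theorem iff_a {a b c t s : MvPolynomial (VS τ ι lam) ℤ} (h : a + b + c * t - s ∈ P)
    (hc : c ∈ P) (hs : s ∈ P) : a + b ∈ P := by
  have h1 := P.sub_mem (P.add_mem h hs) (P.mul_mem_right t hc)
  have h2 : a + b + c * t - s + s - c * t = a + b := by ring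
  rwa [h2] at h1

omit [Fintype τ] [Fintype ι] [Fintype lam] in
private theorem iff_b [P.IsPrime] {c t s : MvPolynomial (VS τ ι lam) ℤ}
    (h : 0 + 0 + c * t - s ∈ P) (hc : c ∉ P) (hs : s ∈ P) : t ∈ P := by
  have h1 := P.add_mem h hs
  have h2 : 0 + 0 + c * t - s + s = c * t := by ring
  rw [h2] at h1
  exact (Ideal.IsPrime.mem_or_mem ‹_› h1).resolve_left hc

omit [Fintype τ] [Fintype ι] [Fintype lam] in
private theorem iff_one [P.IsPrime] {t : MvPolynomial (VS τ ι lam) ℤ} (h : t - 1 ∈ P) : t ∉ P := by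
  intro ht
  have h1 := P.sub_mem ht h
  rw [sub_sub_cancel] at h1
  exact (Ideal.IsPrime.ne_top ‹_›) ((Ideal.eq_top_iff_one P).2 h1)

omit [Fintype τ] [Fintype ι] [Fintype lam] in
/-- `x = t * v`, `v = 1`. -/
private theorem iff_par [P.IsPrime] {s t v : MvPolynomial (VS τ ι lam) ℤ} (h : s - t * v ∈ P)
    (hs : s ∈ P) (hv : v - 1 ∈ P) : t ∈ P := by
  have h1 := P.sub_mem hs h
  rw [sub_sub_cancel] at h1
  exact (Ideal.IsPrime.mem_or_mem ‹_› h1).resolve_right (iff_one hv)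

omit [Fintype τ] [Fintype ι] [Fintype lam] in
private theorem iff_mab {w : Fin 2 → ℕ} (h0 : w 0 = 0) (h1 : w 1 = 0) : mab τ ι lam w = 1 := by
  unfold mab
  rw [h0, h1]
  simp

/-- The variables `E l` for `n1 ≠ E l`, `n2 ≠ E l`. -/
private theorem iff_ev [P.IsPrime] {Q : Ideal (MvPolynomial τ ℤ)} [Q.IsMaximal]
    (hQP : ∀ t ∈ Q, sl ι lam t ∈ P) (hh : ∀ l, h l ∉ Q) (hm : 2 ≤ m) {p : ℕ} (hp : p.Prime)
    (hpQ : (C (p : ℤ) : MvPolynomial τ ℤ) ∈ Q) (hpm : ¬ p ∣ m) {n1 n2 : NV ι lam} {l : lam}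
    (hn1 : n1 ≠ Sum.inr (Sum.inr l)) (hn2 : n2 ≠ Sum.inr (Sum.inr l))
    (hu : mab τ ι lam u ∈ P) (hf : mab τ ι lam f = 1)
    (hrel : ∀ i, relS z r x y A h m w u e f n1 n2 i ∈ P)
    (hg : ∑ i, g i * relS z r x y A h m w u e f n1 n2 i ∈ P ^ 2)
    (hγ : g (Sum.inl 2) ∉ P) : sE τ ι l ∈ P := by
  classical
  have h2 := s_dE hrel hg l
  rw [if_neg hn1, if_neg hn2, hf, one_mul] at h2
  exact s_rootE hQP hh hm hp hpQ hpm (iff_b h2 hγ (P.mul_mem_left _ hu))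

omit [Fintype τ] [Fintype ι] [Fintype lam] in
private theorem iff_or [P.IsPrime] (h : mab τ ι lam w ∈ P) : sa τ ι lam ∈ P ∨ sb τ ι lam ∈ P := by
  unfold mab at h
  rcases Ideal.IsPrime.mem_or_mem ‹_› h with h | h
  · exact Or.inl (Ideal.IsPrime.mem_of_pow_mem ‹_› _ h)
  · exact Or.inr (Ideal.IsPrime.mem_of_pow_mem ‹_› _ h)

/-- Proof. `mab w, mab u ∈ P` and `sa ∈ P` or `sb ∈ P` as in `s_indE`. Let `γ = g (inl 2) ∉ P`. `s_dE` for `l ≠ l0` (`mab f = 1`): `γ * (C m * sl (h l) * E l ^ (m - 1)) ∈ P`, so `E l ∈ P` (`s_rootE`) and `sHV ∉ P` (`s_smE`). `a * sQV + sHV ∈ P` (relation `inl 2`), so `sa ∉ P`, `sQV ∉ P`,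
`sb ∈ P`. `s_da`: `γ * sQV - (..) ∈ P`, where the last two summands have the factors `b ^ w 1`, `b ^ u 1 ∈ P`: a contradiction. So `γ ∈ P`; `s_dV` for `c`, `s_dE` for `l0`, `s_end`. -/
theorem s_indF [P.IsPrime] {e0 : κ ⊕ (ι ⊕ lam) ≃ τ} {Q : Ideal (MvPolynomial τ ℤ)} [Q.IsMaximal]
    {p : ℕ} (hp : p.Prime) (hpQ : (C (p : ℤ) : MvPolynomial τ ℤ) ∈ Q)
    (hpar : Par Q z fun t => Sum.elim r (Sum.elim x y) (e0.symm t)) (hA : SmF A Q)
    (hh : ∀ l, h l ∉ Q) (hm : 2 ≤ m) (hpm : ¬ p ∣ m)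
    (hQP : ∀ t ∈ Q, sl ι lam t ∈ P) {c : ι} {l0 : lam} (hw : ∀ i, 1 ≤ w i)
    (hu : ∀ i, 1 ≤ u i) (he0 : e 0 = 1) (he1 : e 1 = 0) (hf : f = 0)
    (hrel : ∀ i, relS z r x y A h m w u e f (Sum.inr (Sum.inl c)) (Sum.inr (Sum.inr l0)) i ∈ P) :
    SInd z r x y A h m w u e f (Sum.inr (Sum.inl c)) (Sum.inr (Sum.inr l0)) P := by
  classical
  intro g hg
  have hxQ : x c ∈ Q := by
    have := hpar.2.1 (e0 (Sum.inr (Sum.inl c)))
    simpa using this
  have hyQ : y l0 ∈ Q := by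
    have := hpar.2.1 (e0 (Sum.inr (Sum.inr l0)))
    simpa using this
  have r3 : sl ι lam (x c) - mab τ ι lam w * sV τ lam c ∈ P :=
    hrel (Sum.inr (Sum.inr (Sum.inl c)))
  have r4 : sl ι lam (y l0) - mab τ ι lam u * sE τ ι l0 ∈ P :=
    hrel (Sum.inr (Sum.inr (Sum.inr l0)))
  have hwP : mab τ ι lam w ∈ P := iff_par r3 (hQP _ hxQ) (hrel (Sum.inl 0))
  have huP : mab τ ι lam u ∈ P := iff_par r4 (hQP _ hyQ) (hrel (Sum.inl 1))
  have hab := iff_or hwP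
  have hfp : mab τ ι lam f = 1 := iff_mab (by rw [hf]; rfl) (by rw [hf]; rfl)
  have hep : mab τ ι lam e = sa τ ι lam := by
    unfold mab
    rw [he0, he1]
    simp
  have r2 : mab τ ι lam e * sQV lam A + mab τ ι lam f * sHV ι h m ∈ P := hrel (Sum.inl 2)
  rw [hfp, one_mul, hep] at r2
  have hγ : g (Sum.inl 2) ∈ P := by
    by_contra hγ
    have hE : ∀ l, l ≠ l0 → sE τ ι l ∈ P := fun l hl =>
      iff_ev hQP hh hm hp hpQ hpm (by simp)
        (fun h' => hl (Sum.inr_injective (Sum.inr_injective h')).symm) huP hfp hrel hg hγ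
    have hH := s_smE hQP hh (by omega : 1 ≤ m) (hrel (Sum.inl 1)) hE
    have h1 : sa τ ι lam * sQV lam A ∉ P := fun h' => hH (by
      have := P.sub_mem r2 h'
      rwa [add_sub_cancel_left] at this)
    have ha : sa τ ι lam ∉ P := fun h' => h1 (P.mul_mem_right _ h')
    have hq : sQV lam A ∉ P := fun h' => h1 (P.mul_mem_left _ h')
    have hb : sb τ ι lam ∈ P := hab.resolve_left ha
    have h3 := s_da hrel hg
    rw [if_neg (by simp), if_neg (by simp)] at h3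
    have h4 := iff_b h3 hγ (P.add_mem
      (P.mul_mem_right _ (P.mul_mem_left _ (P.mul_mem_left _ (P.pow_mem_of_mem hb _ (hw 1)))))
      (P.mul_mem_right _ (P.mul_mem_left _ (P.mul_mem_left _ (P.pow_mem_of_mem hb _ (hu 1))))))
    rw [show f 0 = 0 by rw [hf]; rfl, he0, he1] at h4
    apply hq
    simpa using h4
  have h0 : g (Sum.inl 0) ∈ P := by
    have h1 := s_dV hrel hg c
    rw [if_pos rfl, if_neg (by simp)] at h1
    have h2 := iff_a h1 hγ (P.mul_mem_left _ hwP)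
    rwa [add_zero] at h2
  have h1 : g (Sum.inl 1) ∈ P := by
    have h1 := s_dE hrel hg l0
    rw [if_neg (by simp), if_pos rfl] at h1
    have h2 := iff_a h1 hγ (P.mul_mem_left _ huP)
    rwa [zero_add] at h2
  refine s_end hp hpQ hpar hQP hrel hg ?_ ?_
  · intro i
    fin_cases i
    · exact h0
    · exact h1
    · exact hγ
  · exact hab.imp (fun h' => ⟨h', hw 0, hu 0⟩) (fun h' => ⟨h', hw 1, hu 1⟩)

end Pool.Agent.DG
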