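import Pool.Agent.DG.BlF

set_option autoImplicit false

/-! # SQP: the ideal which is blown up -/

namespace Pool.Agent.DG

open Pool.Agent.NT9 Pool.Agent.EvM

variable {K : Type} [Field K] {ι lam : Type} [Fintype ι] [Fintype lam]

/-- The index sets of the generators of the ideals `(x) + (y) ^ (s + 1)` (`some s`) and `(x) ^ 2 + (y) ^ m` (`none`). -/
def IS (ι lam : Type) (K1 m : ℕ) : Option (Fin K1) → Type
  | none => (ι × ι) ⊕ (Fin m → lam)
  | some s => ι ⊕ (Fin ((s : ℕ) + 1) → lam)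

noncomputable instance (K1 m : ℕ) : ∀ s, Fintype (IS ι lam K1 m s)
  | none => by classical exact inferInstanceAs (Fintype ((ι × ι) ⊕ (Fin m → lam)))
  | some s => by classical exact inferInstanceAs (Fintype (ι ⊕ (Fin ((s : ℕ) + 1) → lam)))

/-- The generators. -/
def qS (X : ι → K) (Y : lam → K) (K1 m : ℕ) : ∀ s, IS ι lam K1 m s → K
  | none => Sum.elim (fun i : ι × ι => X i.1 * X i.2) (fun f : Fin m → lam => ∏ t, Y (f t))
  | some s => Sum.elim X (fun f : Fin ((s : ℕ) + 1) → lam => ∏ t, Y (f t))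

omit [Fintype ι] [Fintype lam] in
private theorem sqp_two {n : ℕ} (φ : Fin (n + 1) → ι ⊕ lam) :
    (∃ l1 l2 i j, l1 ≠ l2 ∧ φ l1 = Sum.inl i ∧ φ l2 = Sum.inl j) ∨
      ∃ l0, ∀ l, l ≠ l0 → ∃ b, φ l = Sum.inr b := by
  by_cases h : ∃ l0 i, φ l0 = Sum.inl i
  · obtain ⟨l0, i, hi⟩ := h
    by_cases h' : ∃ l j, l0 ≠ l ∧ φ l = Sum.inl j
    · obtain ⟨l, j, hne, hj⟩ := h'
      exact Or.inl ⟨l0, l, i, j, hne, hi, hj⟩
    · right
      refine ⟨l0, fun l hl => ?_⟩
      rcases hφ : φ l with j | b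
      · exact absurd ⟨l, j, Ne.symm hl, hφ⟩ h'
      · exact ⟨b, rfl⟩
  · right
    refine ⟨0, fun l _ => ?_⟩
    rcases hφ : φ l with j | b
    · exact absurd ⟨l, j, hφ⟩ h
    · exact ⟨b, rfl⟩

omit [Fintype ι] [Fintype lam] in
private theorem sqp_O {O : Subring K} {X : ι → K} {Y : lam → K} (hX : ∀ i, X i ∈ O)
    (hY : ∀ l, Y l ∈ O) (i : ι ⊕ lam) : Sum.elim X Y i ∈ O := by
  rcases i with i | l
  · exact hX i
  · exact hY l

private theorem sqp_some {O : Subring K} {X : ι → K} {Y : lam → K} (hX : ∀ i, X i ∈ O)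
    (hY : ∀ l, Y l ∈ O) (K1 m : ℕ) (s : Fin K1) (φ : Fin ((s : ℕ) + 1) → ι ⊕ lam) :
    ∏ l, Sum.elim X Y (φ l) ∈ QG O (qS X Y K1 m (some s)) := by
  classical
  by_cases h : ∃ l0 i, φ l0 = Sum.inl i
  · obtain ⟨l0, i, hi⟩ := h
    rw [← Finset.mul_prod_erase Finset.univ _ (Finset.mem_univ l0), hi]
    exact qg_mul_right (qg_self (g := qS X Y K1 m (some s))
      (show IS ι lam K1 m (some s) from Sum.inl i))
      (O.prod_mem fun l _ => sqp_O hX hY (φ l))
  · have h1 : ∀ l, ∃ b, φ l = Sum.inr b := by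
      intro l
      rcases hφ : φ l with j | b
      · exact absurd ⟨l, j, hφ⟩ h
      · exact ⟨b, rfl⟩
    choose b hb using h1
    have h2 : ∏ l, Sum.elim X Y (φ l) =
        qS X Y K1 m (some s) (show IS ι lam K1 m (some s) from Sum.inr b) :=
      Finset.prod_congr rfl fun l _ => by rw [hb l]; rfl
    rw [h2]
    exact qg_self _

private theorem sqp_none {O : Subring K} {X : ι → K} {Y : lam → K} (hX : ∀ i, X i ∈ O)
    (hY : ∀ l, Y l ∈ O) (K1 m : ℕ) (φ : Fin (m + 1) → ι ⊕ lam) :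
    ∏ l, Sum.elim X Y (φ l) ∈ QG O (qS X Y K1 m none) := by
  classical
  rcases sqp_two φ with ⟨l1, l2, i, j, hne, hi, hj⟩ | ⟨l0, h⟩
  · rw [← Finset.mul_prod_erase Finset.univ _ (Finset.mem_univ l1),
      ← Finset.mul_prod_erase (Finset.univ.erase l1) _
        (Finset.mem_erase.2 ⟨Ne.symm hne, Finset.mem_univ l2⟩), hi, hj, ← mul_assoc]
    exact qg_mul_right (qg_self (g := qS X Y K1 m none)
      (show IS ι lam K1 m none from Sum.inl (i, j)))
      (O.prod_mem fun l _ => sqp_O hX hY (φ l))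
  · have h1 : ∀ l : Fin m, ∃ b, φ (l0.succAbove l) = Sum.inr b := fun l =>
      h _ (Fin.succAbove_ne l0 l)
    choose b hb using h1
    rw [Fin.prod_univ_succAbove _ l0]
    have h2 : ∏ l : Fin m, Sum.elim X Y (φ (l0.succAbove l)) =
        qS X Y K1 m none (show IS ι lam K1 m none from Sum.inr b) :=
      Finset.prod_congr rfl fun l _ => by rw [hb l]; rfl
    rw [h2]
    exact qg_mul (sqp_O hX hY _) (qg_self _)

/-- The ideal contains a power of the maximal ideal. Proof. `qg_prod` with `N (some s) = s + 1`, `N none = m + 1` and `qg_mon` with `g = Sum.elim X Y` (`mx O = QG O g` by `hgen`): a product of `s + 1` generators contains some `X i` (then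
it is a multiple of `X i` by an element of `O`) or is a product of `s + 1` elements `Y l`. A product of `m + 1` generators contains two factors `X i`, `X j`, or at most one, then it is a multiple of a product of `m` elements `Y l`
(all generators are in `O`). -/
theorem s_pow {O : Subring K} {X : ι → K} {Y : lam → K} (hX : ∀ i, X i ∈ mx O)
    (hY : ∀ l, Y l ∈ mx O) (hgen : ∀ t ∈ mx O, ∃ c : ι ⊕ lam → K, (∀ i, c i ∈ O) ∧
      t = ∑ i, c i * Sum.elim X Y i) (K1 m : ℕ) :
    ∃ N : ℕ, ∀ z : Fin N → K, (∀ l, z l ∈ mx O) →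
      ∃ c : (∀ s, IS ι lam K1 m s) → K, (∀ i, c i ∈ O) ∧
        ∏ l, z l = ∑ φ, c φ * ∏ s, qS X Y K1 m s (φ s) := by
  let N : Option (Fin K1) → ℕ := fun s => Option.casesOn s (m + 1) fun s => (s : ℕ) + 1
  have hX' : ∀ i, X i ∈ O := fun i => mx_le (hX i)
  have hY' : ∀ l, Y l ∈ O := fun l => mx_le (hY l)
  refine ⟨∑ s, N s, fun z hz => ?_⟩
  refine qg_prod (q := qS X Y K1 m) (N := N) ?_ z hz
  intro s z hz
  refine qg_mon (g := Sum.elim X Y) ?_ z fun l => hgen _ (hz l)
  rcases s with _ | s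
  · exact sqp_none hX' hY' K1 m
  · exact sqp_some hX' hY' K1 m s

/-- The generators are in the maximal ideal. Proof: the factor with index `none` is in `mx O` as `1 ≤ m`. -/
theorem s_mx {O : Subring K} [IsLocalRing O] {X : ι → K} {Y : lam → K} (hX : ∀ i, X i ∈ mx O)
    (hY : ∀ l, Y l ∈ mx O) {K1 m : ℕ} (hm : 1 ≤ m) (φ : ∀ s, IS ι lam K1 m s) :
    ∏ s, qS X Y K1 m s (φ s) ∈ mx O := by
  rw [← Finset.mul_prod_erase Finset.univ _ (Finset.mem_univ none)]
  refine mx_mul_right ?_ (O.prod_mem fun s _ => ?_)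
  · have h1 : ∀ a : IS ι lam K1 m none, qS X Y K1 m none a ∈ mx O := by
      intro a
      rcases a with ⟨i, j⟩ | f
      · exact mx_mul (mx_le (hX i)) (hX j)
      · have h2 : ∏ t, Y (f t) ∈ mx O := by
          rw [← Finset.mul_prod_erase Finset.univ _ (Finset.mem_univ (⟨0, hm⟩ : Fin m))]
          exact mx_mul_right (hY _) (O.prod_mem fun t _ => mx_le (hY _))
        exact h2
    exact h1 _
  · rcases s with _ | s
    · have h1 : ∀ a : IS ι lam K1 m none, qS X Y K1 m none a ∈ O := by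
        intro a
        rcases a with ⟨i, j⟩ | f
        · exact O.mul_mem (mx_le (hX i)) (mx_le (hX j))
        · have h2 : ∏ t, Y (f t) ∈ O := O.prod_mem fun t _ => mx_le (hY _)
          exact h2
      exact h1 _
    · have h1 : ∀ a : IS ι lam K1 m (some s), qS X Y K1 m (some s) a ∈ O := by
        intro a
        rcases a with i | f
        · exact mx_le (hX i)
        · have h2 : ∏ t, Y (f t) ∈ O := O.prod_mem fun t _ => mx_le (hY _)
          exact h2
      exact h1 _

end Pool.Agent.DG
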