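import Pool.Agent.DG.SqA
import Pool.Agent.DG.SqC
import Pool.Agent.DG.SqG
import Pool.Agent.DG.SqTa
import Pool.Agent.DG.SqIA

set_option autoImplicit false

/-! # SQRA: the charts of the first kind are regular -/

namespace Pool.Agent.DG

open MvPolynomial Pool.Agent.NT9

variable {τ κ ι lam : Type} [Fintype τ] [Fintype κ] [Fintype ι] [Fintype lam] {K : Type} [Field K]
  {e0 : κ ⊕ (ι ⊕ lam) ≃ τ} {π : MvPolynomial τ ℤ →+* K} {Q : Ideal (MvPolynomial τ ℤ)}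
  {z : MvPolynomial τ ℤ} {r : κ → MvPolynomial τ ℤ} {x : ι → MvPolynomial τ ℤ}
  {y : lam → MvPolynomial τ ℤ} {A : ι → ι → MvPolynomial τ ℤ} {h : lam → MvPolynomial τ ℤ}
  {m : ℕ} {O O' : Subring K}

/-- Proof. `c` from `ChA`. `a = π (x c)`, `b = 1`, `V j = π (x j) / a`, `E l = π (y l) / a`; `w = u = ![1, 0]`, `e = 0`, `f = ![m - 2, 0]`, `g = ![2, 0]`, `n1 = V c`, `n2 = b`. `sch_mk`, `sq_reg` with `E0 = x c`, `s_varA`, `s_indA`
(`P` is the preimage of `mx O'`: it contains `sl t`, `t ∈ Q`, by `piS_sl`, `hdom`, and the relations by `SCh.rel`). -/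
theorem s_regA [Q.IsMaximal] {p : ℕ} (hp : p.Prime) (hpQ : (C (p : ℤ) : MvPolynomial τ ℤ) ∈ Q)
    (hm : 2 ≤ m) (hpm : ¬ p ∣ m) (hq : Sq e0 π Q z r x y A h m O) [IsLocalRing O']
    (hle : O ≤ O') (hdom : ∀ t ∈ mx O, t ∈ mx O')
    (hch : ChA (fun j => π (x j)) (fun l => π (y l)) O O') : IsRegularLocalRing O' := by
  obtain ⟨c, hc0, hV, hE, hmin⟩ := hch
  have hwg : ∀ i : Fin 2, 2 * (![1, 0] : Fin 2 → ℕ) i = (![2, 0] : Fin 2 → ℕ) i +
      (0 : Fin 2 → ℕ) i := by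
    intro i
    fin_cases i <;> rfl
  have hug : ∀ i : Fin 2, m * (![1, 0] : Fin 2 → ℕ) i = (![2, 0] : Fin 2 → ℕ) i +
      (![m - 2, 0] : Fin 2 → ℕ) i := by
    intro i
    fin_cases i
    · show m * 1 = 2 + (m - 2)
      omega
    · show m * 0 = 0 + 0
      omega
  have hSC : SCh π z r x y A h m ![1, 0] ![1, 0] 0 ![m - 2, 0] (Sum.inr (Sum.inl c))
      (Sum.inl 1) (π (x c)) 1 (fun j => π (x j) / π (x c)) (fun l => π (y l) / π (x c)) O O' := by
    refine sch_mk hq hwg hug hc0 one_ne_zero hle hdom ?_ ?_ ?_ ?_ rfl ?_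
    · rintro (i | j | l)
      · fin_cases i
        · exact hle (hq.poly _)
        · exact one_mem _
      · exact hV j
      · exact hE l
    · intro j
      show π (x j) = π (x c) ^ 1 * 1 ^ 0 * (π (x j) / π (x c))
      rw [pow_one, pow_zero, mul_one, mul_div_cancel₀ _ hc0]
    · intro l
      show π (y l) = π (x c) ^ 1 * 1 ^ 0 * (π (y l) / π (x c))
      rw [pow_one, pow_zero, mul_one, mul_div_cancel₀ _ hc0]
    · exact div_self hc0
    · intro F h1 h2 h3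
      exact hmin F h1 (fun j => h2 (Sum.inr (Sum.inl j))) (fun l => h2 (Sum.inr (Sum.inr l))) h3
  refine sq_reg hq hwg hug hSC (E0 := x c) hc0
    (s_varA z r x y A h m _ _ _ _ rfl rfl) fun P _ hP => ?_
  refine s_indA hp hpQ hq.par hq.sm hq.hu hm hpm (fun t ht => ?_) rfl rfl rfl rfl rfl rfl rfl
    fun i => ?_
  · rw [hP, piS_sl]
    exact hdom _ ((hq.memQ t).1 ht)
  · rw [hP, hSC.rel]
    exact zero_mem_mx

end Pool.Agent.DG
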