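import Pool.Agent.DG.SqA
import Pool.Agent.DG.SqC
import Pool.Agent.DG.SqG
import Pool.Agent.DG.SqTa
import Pool.Agent.DG.SqIE
import Pool.Agent.DG.SqIF

set_option autoImplicit false

/-! # SQRM: the charts of the third kind are regular -/

namespace Pool.Agent.DG

open MvPolynomial Pool.Agent.NT9

variable {τ κ ι lam : Type} [Fintype τ] [Fintype κ] [Fintype ι] [Fintype lam] {K : Type} [Field K]
  {e0 : κ ⊕ (ι ⊕ lam) ≃ τ} {π : MvPolynomial τ ℤ →+* K} {Q : Ideal (MvPolynomial τ ℤ)}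
  {z : MvPolynomial τ ℤ} {r : κ → MvPolynomial τ ℤ} {x : ι → MvPolynomial τ ℤ}
  {y : lam → MvPolynomial τ ℤ} {A : ι → ι → MvPolynomial τ ℤ} {h : lam → MvPolynomial τ ℤ}
  {m : ℕ} {O O' : Subring K}

/-- the chart structure -/
private theorem rm_sch (hq : Sq e0 π Q z r x y A h m O) [IsLocalRing O']
    (hle : O ≤ O') (hdom : ∀ t ∈ mx O, t ∈ mx O') {w u e f g : Fin 2 → ℕ}
    (hwg : ∀ i, 2 * w i = g i + e i) (hug : ∀ i, m * u i = g i + f i)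
    {c : ι} {l0 : lam} {a b : K} (ha : a ∈ O')
    (hb : b ∈ O') (ha0 : a ≠ 0) (hb0 : b ≠ 0) (hxc : π (x c) = a ^ w 0 * b ^ w 1)
    (hyl : π (y l0) = a ^ u 0 * b ^ u 1) (hX : ∀ j, π (x j) / π (x c) ∈ O')
    (hY : ∀ l, π (y l) / π (y l0) ∈ O')
    (hmin : ∀ F : Subring K, O ≤ F → a ∈ F → b ∈ F → (∀ j, π (x j) / π (x c) ∈ F) →
      (∀ l, π (y l) / π (y l0) ∈ F) → (∀ t ∈ F, t⁻¹ ∈ O' → t⁻¹ ∈ F) → O' ≤ F) :
    SCh π z r x y A h m w u e f (Sum.inr (Sum.inl c)) (Sum.inr (Sum.inr l0)) a b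
      (fun j => π (x j) / π (x c)) (fun l => π (y l) / π (y l0)) O O' := by
  have hxc0 : π (x c) ≠ 0 := by
    rw [hxc]
    exact mul_ne_zero (pow_ne_zero _ ha0) (pow_ne_zero _ hb0)
  have hyl0 : π (y l0) ≠ 0 := by
    rw [hyl]
    exact mul_ne_zero (pow_ne_zero _ ha0) (pow_ne_zero _ hb0)
  refine sch_mk hq hwg hug ha0 hb0 hle hdom ?_ ?_ ?_ ?_ ?_ ?_
  · rintro (i | j | l)
    · fin_cases i
      · exact ha
      · exact hb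
    · exact hX j
    · exact hY l
  · intro j
    rw [← hxc, mul_div_cancel₀ _ hxc0]
  · intro l
    rw [← hyl, mul_div_cancel₀ _ hyl0]
  · exact div_self hxc0
  · exact div_self hyl0
  · intro F h1 h2 h3
    exact hmin F h1 (h2 (Sum.inl 0)) (h2 (Sum.inl 1)) (fun j => h2 (Sum.inr (Sum.inl j)))
      (fun l => h2 (Sum.inr (Sum.inr l))) h3

/-- Charts of the third kind with `e = 0`. Proof. `sch_mk`, `sq_reg` with `E0 = x c * y l0`, `s_varT`, `s_indE`; `n1 = V c`, `n2 = E l0`, `V j = π (x j) / π (x c)`, `E l = π (y l) / π (y l0)`. -/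
theorem s_regE [Q.IsMaximal] {p : ℕ} (hp : p.Prime) (hpQ : (C (p : ℤ) : MvPolynomial τ ℤ) ∈ Q)
    (hm : 2 ≤ m) (hpm : ¬ p ∣ m) (hq : Sq e0 π Q z r x y A h m O) [IsLocalRing O']
    (hle : O ≤ O') (hdom : ∀ t ∈ mx O, t ∈ mx O')
    {w u f g : Fin 2 → ℕ} (hw : ∀ i, 1 ≤ w i) (hu : ∀ i, 1 ≤ u i)
    (hdet : w 0 * u 1 = w 1 * u 0 + 1) (hwg : ∀ i, 2 * w i = g i) (hug : ∀ i, m * u i = g i + f i)
    (hf1 : 1 ≤ f 1) (hf : f 0 = 0 → ¬ p ∣ f 1) {c : ι} {l0 : lam} {a b : K} (ha : a ∈ O')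
    (hb : b ∈ O') (ha0 : a ≠ 0) (hb0 : b ≠ 0) (hxc : π (x c) = a ^ w 0 * b ^ w 1)
    (hyl : π (y l0) = a ^ u 0 * b ^ u 1) (hX : ∀ j, π (x j) / π (x c) ∈ O')
    (hY : ∀ l, π (y l) / π (y l0) ∈ O')
    (hmin : ∀ F : Subring K, O ≤ F → a ∈ F → b ∈ F → (∀ j, π (x j) / π (x c) ∈ F) →
      (∀ l, π (y l) / π (y l0) ∈ F) → (∀ t ∈ F, t⁻¹ ∈ O' → t⁻¹ ∈ F) → O' ≤ F) :
    IsRegularLocalRing O' := by
  have hwg' : ∀ i, 2 * w i = g i + (0 : Fin 2 → ℕ) i := fun i => hwg i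
  have hSC := rm_sch hq hle hdom hwg' hug ha hb ha0 hb0 hxc hyl hX hY hmin
  refine sq_reg hq hwg' hug hSC (E0 := x c * y l0) ?_
    (s_varT z r x y A h m _ _ _ _ hdet) fun P _ hP => ?_
  · rw [map_mul, hxc, hyl]
    exact mul_ne_zero (mul_ne_zero (pow_ne_zero _ ha0) (pow_ne_zero _ hb0))
      (mul_ne_zero (pow_ne_zero _ ha0) (pow_ne_zero _ hb0))
  · refine s_indE hp hpQ hq.par hq.sm hq.hu hm hpm (fun t ht => ?_) hw hu rfl hf1 hf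
      fun i => ?_
    · rw [hP, piS_sl]
      exact hdom _ ((hq.memQ t).1 ht)
    · rw [hP, hSC.rel]
      exact zero_mem_mx

/-- Charts of the third kind with `e = (1, 0)`, `f = 0`. Proof: as `s_regE`, with `s_indF`. -/
theorem s_regF [Q.IsMaximal] {p : ℕ} (hp : p.Prime) (hpQ : (C (p : ℤ) : MvPolynomial τ ℤ) ∈ Q)
    (hm : 2 ≤ m) (hpm : ¬ p ∣ m) (hq : Sq e0 π Q z r x y A h m O) [IsLocalRing O']
    (hle : O ≤ O') (hdom : ∀ t ∈ mx O, t ∈ mx O')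
    {w u g : Fin 2 → ℕ} (hw : ∀ i, 1 ≤ w i) (hu : ∀ i, 1 ≤ u i)
    (hdet : w 0 * u 1 = w 1 * u 0 + 1) (hwg0 : 2 * w 0 = g 0 + 1) (hwg1 : 2 * w 1 = g 1)
    (hug : ∀ i, m * u i = g i) {c : ι} {l0 : lam} {a b : K} (ha : a ∈ O')
    (hb : b ∈ O') (ha0 : a ≠ 0) (hb0 : b ≠ 0) (hxc : π (x c) = a ^ w 0 * b ^ w 1)
    (hyl : π (y l0) = a ^ u 0 * b ^ u 1) (hX : ∀ j, π (x j) / π (x c) ∈ O')
    (hY : ∀ l, π (y l) / π (y l0) ∈ O')
    (hmin : ∀ F : Subring K, O ≤ F → a ∈ F → b ∈ F → (∀ j, π (x j) / π (x c) ∈ F) →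
      (∀ l, π (y l) / π (y l0) ∈ F) → (∀ t ∈ F, t⁻¹ ∈ O' → t⁻¹ ∈ F) → O' ≤ F) :
    IsRegularLocalRing O' := by
  have hwg' : ∀ i, 2 * w i = g i + (![1, 0] : Fin 2 → ℕ) i := by
    intro i
    fin_cases i
    · exact hwg0
    · exact hwg1
  have hug' : ∀ i, m * u i = g i + (0 : Fin 2 → ℕ) i := fun i => hug i
  have hSC := rm_sch hq hle hdom hwg' hug' ha hb ha0 hb0 hxc hyl hX hY hmin
  refine sq_reg hq hwg' hug' hSC (E0 := x c * y l0) ?_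
    (s_varT z r x y A h m _ _ _ _ hdet) fun P _ hP => ?_
  · rw [map_mul, hxc, hyl]
    exact mul_ne_zero (mul_ne_zero (pow_ne_zero _ ha0) (pow_ne_zero _ hb0))
      (mul_ne_zero (pow_ne_zero _ ha0) (pow_ne_zero _ hb0))
  · refine s_indF hp hpQ hq.par hq.sm hq.hu hm hpm (fun t ht => ?_) hw hu rfl rfl rfl
      fun i => ?_
    · rw [hP, piS_sl]
      exact hdom _ ((hq.memQ t).1 ht)
    · rw [hP, hSC.rel]
      exact zero_mem_mx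

end Pool.Agent.DG
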