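import Pool.Agent.DG.SqDefs

set_option autoImplicit false

/-! # SQV: the evaluation of a chart -/

namespace Pool.Agent.DG

open MvPolynomial Pool.Agent.NT9

variable {τ κ ι lam : Type} [Fintype τ] [Fintype κ] [Fintype ι] [Fintype lam] {K : Type} [Field K]
  {e0 : κ ⊕ (ι ⊕ lam) ≃ τ} {π : MvPolynomial τ ℤ →+* K} {Q : Ideal (MvPolynomial τ ℤ)}
  {z : MvPolynomial τ ℤ} {r : κ → MvPolynomial τ ℤ} {x : ι → MvPolynomial τ ℤ}
  {y : lam → MvPolynomial τ ℤ} {A : ι → ι → MvPolynomial τ ℤ} {h : lam → MvPolynomial τ ℤ}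
  {m : ℕ} {O O' : Subring K}

/-- Compare `PW.piO_ol` (file `PW/OdpB`). -/
theorem piS_sl (π : MvPolynomial τ ℤ →+* K) (a b : K) (V : ι → K) (E : lam → K)
    (t : MvPolynomial τ ℤ) : piS π a b V E (sl ι lam t) = π t := by
  have h1 : (piS π a b V E).comp (rename Sum.inl : MvPolynomial τ ℤ →ₐ[ℤ] _).toRingHom = π := by
    apply MvPolynomial.ringHom_ext
    · intro r
      simp [piS]
    · intro i
      simp [piS]
  exact congrArg (fun f => f t) h1

theorem piS_X (π : MvPolynomial τ ℤ →+* K) (a b : K) (V : ι → K) (E : lam → K) (c : NV ι lam) :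
    piS π a b V E (X (Sum.inr c)) = nval a b V E c := by
  simp [piS]

theorem piS_mab (π : MvPolynomial τ ℤ →+* K) (a b : K) (V : ι → K) (E : lam → K)
    (w : Fin 2 → ℕ) : piS π a b V E (mab τ ι lam w) = a ^ w 0 * b ^ w 1 := by
  unfold mab
  rw [map_mul, map_pow, map_pow, piS_X, piS_X]
  rfl

theorem piS_QV (π : MvPolynomial τ ℤ →+* K) (a b : K) (V : ι → K) (E : lam → K) :
    piS π a b V E (sQV lam A) = ∑ i, ∑ j, π (A i j) * V i * V j := by
  unfold sQV
  rw [map_sum]
  refine Finset.sum_congr rfl fun i _ => ?_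
  rw [map_sum]
  refine Finset.sum_congr rfl fun j _ => ?_
  rw [map_mul, map_mul, piS_sl, piS_X, piS_X]
  rfl

theorem piS_HV (π : MvPolynomial τ ℤ →+* K) (a b : K) (V : ι → K) (E : lam → K) :
    piS π a b V E (sHV ι h m) = ∑ l, π (h l) * E l ^ m := by
  unfold sHV
  rw [map_sum]
  refine Finset.sum_congr rfl fun l _ => ?_
  rw [map_mul, map_pow, piS_sl, piS_X]
  rfl

theorem piS_mem (π : MvPolynomial τ ℤ →+* K) {a b : K} {V : ι → K} {E : lam → K}
    {O' : Subring K} (h1 : ∀ t, π t ∈ O') (hc : ∀ c, nval a b V E c ∈ O')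
    (t : MvPolynomial (VS τ ι lam) ℤ) : piS π a b V E t ∈ O' := by
  induction t using MvPolynomial.induction_on with
  | C n =>
    have h2 : piS π a b V E (C n) = (n : K) := by simp [piS]
    rw [h2]
    exact intCast_mem O' n
  | add p q hp hq =>
    rw [map_add]
    exact O'.add_mem hp hq
  | mul_X p n hp =>
    rw [map_mul]
    refine O'.mul_mem hp ?_
    rcases n with t | c
    · have h2 : piS π a b V E (X (Sum.inl t)) = π (X t) := by simp [piS]
      rw [h2]
      exact h1 _
    · rw [piS_X]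
      exact hc c

/-- The chart structure. `hmin`: `O'` is generated by the coordinates. Proof. `rel`: `piS_sl`, `piS_X`, ..; the strict transform: multiply by `a ^ g 0 b ^ g 1 ≠ 0`: by `hwg`, `hug` and `x_j = a ^ w 0 b ^ w 1 V_j`, `y_l = a ^ u 0 b ^ u 1 E_l` one gets
`π (sqF ..) = 0` (`Sq.rel`). `fr`: `F = NT9.frSub (piS ..) O'` contains `O` (`Sq.fr`; the inverse of `π g'` is in `O ≤ O'`: `NT9.frSub_inv`) and the coordinates; `hmin`. -/
theorem sch_mk (hq : Sq e0 π Q z r x y A h m O) {w u e f g : Fin 2 → ℕ} {n1 n2 : NV ι lam}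
    (hwg : ∀ i, 2 * w i = g i + e i) (hug : ∀ i, m * u i = g i + f i) {a b : K} {V : ι → K}
    {E : lam → K} (ha : a ≠ 0) (hb : b ≠ 0) (hle : O ≤ O') (hdom : ∀ t ∈ mx O, t ∈ mx O')
    (hc : ∀ c, nval a b V E c ∈ O') (hx : ∀ j, π (x j) = a ^ w 0 * b ^ w 1 * V j)
    (hy : ∀ l, π (y l) = a ^ u 0 * b ^ u 1 * E l) (h1 : nval a b V E n1 = 1)
    (h2 : nval a b V E n2 = 1)
    (hmin : ∀ F : Subring K, O ≤ F → (∀ c, nval a b V E c ∈ F) →
      (∀ t ∈ F, t⁻¹ ∈ O' → t⁻¹ ∈ F) → O' ≤ F) :
    SCh π z r x y A h m w u e f n1 n2 a b V E O O' := by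
  refine ⟨hle, hdom, hc, ?_, ?_⟩
  · intro i
    rcases i with i | ⟨_ | k⟩ | j | l
    · fin_cases i
      · change piS π a b V E (X (Sum.inr n1) - 1) = 0
        rw [map_sub, piS_X, h1, map_one, sub_self]
      · change piS π a b V E (X (Sum.inr n2) - 1) = 0
        rw [map_sub, piS_X, h2, map_one, sub_self]
      · change piS π a b V E (mab τ ι lam e * sQV lam A + mab τ ι lam f * sHV ι h m) = 0
        rw [map_add, map_mul, map_mul, piS_mab, piS_mab, piS_QV, piS_HV]
        have hg : a ^ g 0 * b ^ g 1 ≠ 0 := mul_ne_zero (pow_ne_zero _ ha) (pow_ne_zero _ hb)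
        refine (mul_eq_zero.1 ?_).resolve_left hg
        have h3 := hq.rel
        unfold sqF at h3
        rw [map_add, map_sum, map_sum] at h3
        rw [← h3, mul_add]
        congr 1
        · rw [← mul_assoc, Finset.mul_sum]
          refine Finset.sum_congr rfl fun i _ => ?_
          rw [map_sum, Finset.mul_sum]
          refine Finset.sum_congr rfl fun j _ => ?_
          rw [map_mul, map_mul, hx i, hx j]
          have h4 : a ^ g 0 * b ^ g 1 * (a ^ e 0 * b ^ e 1) =
              (a ^ w 0 * b ^ w 1) * (a ^ w 0 * b ^ w 1) := by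
            calc a ^ g 0 * b ^ g 1 * (a ^ e 0 * b ^ e 1) = a ^ (g 0 + e 0) * b ^ (g 1 + e 1) := by
                  rw [pow_add, pow_add]; ring
              _ = a ^ (2 * w 0) * b ^ (2 * w 1) := by rw [hwg, hwg]
              _ = _ := by rw [two_mul, two_mul, pow_add, pow_add]; ring
          rw [h4]
          ring
        · rw [← mul_assoc, Finset.mul_sum]
          refine Finset.sum_congr rfl fun l _ => ?_
          rw [map_mul, map_pow, hy l]
          have h4 : a ^ g 0 * b ^ g 1 * (a ^ f 0 * b ^ f 1) =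
              (a ^ u 0 * b ^ u 1) ^ m := by
            calc a ^ g 0 * b ^ g 1 * (a ^ f 0 * b ^ f 1) = a ^ (g 0 + f 0) * b ^ (g 1 + f 1) := by
                  rw [pow_add, pow_add]; ring
              _ = a ^ (m * u 0) * b ^ (m * u 1) := by rw [hug, hug]
              _ = _ := by rw [mul_pow, ← pow_mul, ← pow_mul, mul_comm m, mul_comm m]
          rw [h4, mul_pow (a ^ u 0 * b ^ u 1) (E l) m]
          ring
    · change piS π a b V E (sl ι lam z) = 0
      rw [piS_sl, hq.z0]
    · change piS π a b V E (sl ι lam (r k)) = 0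
      rw [piS_sl, hq.r0]
    · change piS π a b V E (sl ι lam (x j) - mab τ ι lam w * sV τ lam j) = 0
      rw [map_sub, map_mul, piS_sl, piS_mab, piS_X, hx j]
      exact sub_self _
    · change piS π a b V E (sl ι lam (y l) - mab τ ι lam u * sE τ ι l) = 0
      rw [map_sub, map_mul, piS_sl, piS_mab, piS_X, hy l]
      exact sub_self _
  · have h3 : O' ≤ frSub (piS π a b V E) O' := by
      refine hmin _ ?_ ?_ (fun x hx hxO => frSub_inv _ _ x hx hxO)
      · intro t ht
        obtain ⟨g, q, hq0, hqi, hyq⟩ := hq.fr t ht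
        exact ⟨sl ι lam g, sl ι lam q, by rw [piS_sl]; exact hq0, by rw [piS_sl]; exact hle hqi,
          by rw [piS_sl, piS_sl]; exact hyq⟩
      · intro c
        have h4 := map_mem_frSub (piS π a b V E) O' (X (Sum.inr c))
        rw [piS_X] at h4
        exact h4
    intro t ht
    exact h3 ht

end Pool.Agent.DG
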