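import Pool.Agent.DG.TrA

set_option autoImplicit false

/-! # TGA: monomials in a field -/

namespace Pool.Agent.DG

variable {J : Type} [Fintype J] {K : Type} [Field K] {p : ℕ} {x : J → K}

/-- The element `p ^ a ∏ x_j ^ b_j` of `K`. -/
noncomputable def chi (p : ℕ) (x : J → K) (m : Mon J) : K := (p : K) ^ m.1 * ∏ j, x j ^ m.2 j

theorem chi_ne (hp : (p : K) ≠ 0) (hx : ∀ j, x j ≠ 0) (m : Mon J) : chi p x m ≠ 0 := by
  exact mul_ne_zero (zpow_ne_zero _ hp) (Finset.prod_ne_zero_iff.2 fun j _ => zpow_ne_zero _ (hx j))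

theorem chi_zero : chi p x 0 = 1 := by
  simp [chi]

theorem chi_add (hp : (p : K) ≠ 0) (hx : ∀ j, x j ≠ 0) (m m' : Mon J) :
    chi p x (m + m') = chi p x m * chi p x m' := by
  unfold chi
  have h1 : ∀ j, x j ^ (m + m').2 j = x j ^ m.2 j * x j ^ m'.2 j := fun j => by
    rw [Prod.snd_add, Pi.add_apply, zpow_add₀ (hx j)]
  rw [Finset.prod_congr rfl fun j _ => h1 j, Finset.prod_mul_distrib, Prod.fst_add, zpow_add₀ hp]
  ring

theorem chi_sub (hp : (p : K) ≠ 0) (hx : ∀ j, x j ≠ 0) (m m' : Mon J) :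
    chi p x (m - m') = chi p x m / chi p x m' := by
  have h1 := chi_add (x := x) hp hx (m - m') m'
  rw [sub_add_cancel] at h1
  rw [eq_div_iff (chi_ne hp hx m'), h1]

theorem chi_smul (z : ℤ) (m : Mon J) : chi p x (z • m) = chi p x m ^ z := by
  unfold chi
  have h1 : ∀ j, x j ^ (z • m).2 j = (x j ^ m.2 j) ^ z := fun j => by
    rw [Prod.smul_snd, Pi.smul_apply, smul_eq_mul, mul_comm, zpow_mul]
  rw [Finset.prod_congr rfl fun j _ => h1 j, Finset.prod_zpow, mul_zpow, Prod.smul_fst,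
    smul_eq_mul, mul_comm z, zpow_mul]

theorem chi_sum (hp : (p : K) ≠ 0) (hx : ∀ j, x j ≠ 0) {ι : Type} (s : Finset ι)
    (m : ι → Mon J) : chi p x (∑ i ∈ s, m i) = ∏ i ∈ s, chi p x (m i) := by
  classical
  induction s using Finset.induction_on with
  | empty => rw [Finset.sum_empty, Finset.prod_empty, chi_zero]
  | insert a s ha ih => rw [Finset.sum_insert ha, Finset.prod_insert ha, chi_add hp hx, ih]

theorem chi_p : chi p x (1, 0) = p := by
  simp [chi]

variable [DecidableEq J]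

theorem chi_Mb (c : J → ℕ) (d : ℕ) (a : J) : chi p x (Mb c d a) = (p : K) ^ c a * x a ^ d := by
  unfold chi Mb
  dsimp only
  rw [zpow_natCast, Finset.prod_eq_single a]
  · rw [Pi.single_eq_same, zpow_natCast]
  · intro b _ hb
    rw [Pi.single_eq_of_ne hb, zpow_zero]
  · intro h
    exact absurd (Finset.mem_univ a) h

/-- Monomials of degree `0` in the coordinates of a cone of index one: `exp_tS`. -/
theorem chi_exp (hp : (p : K) ≠ 0) (hx : ∀ j, x j ≠ 0) {v : J → Ray J} (hv : nV v = 1)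
    {m : Mon J} (hm : dg m = 0) : chi p x m = ∏ k, chi p x (tS v k) ^ pr m (v k) := by
  have h1 := exp_tS v hm
  rw [hv, Nat.cast_one, one_smul] at h1
  conv_lhs => rw [h1]
  rw [chi_sum hp hx]
  exact Finset.prod_congr rfl fun k _ => chi_smul _ _

end Pool.Agent.DG
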