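import Pool.Agent.DG.TrB

set_option autoImplicit false

/-! # TGB: the exponents of the generators of the model -/

namespace Pool.Agent.DG

variable {J : Type} [Fintype J] [DecidableEq J] {I : Type} {c : J → ℕ} {d D : ℕ}
  {v : I → J → Ray J} {m : I → Mon J}

/-- The index set of the generators. -/
abbrev Nx (I J : Type) (D : ℕ) : Type := I ⊕ ((I × J) ⊕ (Fin D → J))

/-- The exponents of the generators: the vertices, the next points on the edges, and all monomials of
degree `D` times `p ^ K0`. -/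
def nu (v : I → J → Ray J) (m : I → Mon J) (D K0 : ℕ) : Nx I J D → Mon J
  | Sum.inl i => m i
  | Sum.inr (Sum.inl x) => m x.1 + tS (v x.1) x.2
  | Sum.inr (Sum.inr w) => ((K0 : ℤ), fun j => ((Finset.univ.filter fun t => w t = j).card : ℤ))

/-- Proof. `exp_tS` with `nV (v i) = 1` for `(1, 0)`: `(1, 0) = (v i k).1 • tS (v i) k` (the other terms vanish). First coordinates: `1 = (v i k).1 * (tS (v i) k).1`, so
`(v i k).1 = 1`. -/
theorem adj_one {i : I} {k : J} (hu : nV (v i) = 1) (h : ∀ l, l ≠ k → (v i l).1 = 0) :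
    tS (v i) k = (1, 0) := by
  have h1 := exp_tS (v i) (m := ((1 : ℤ), (0 : J → ℤ))) (by simp [dg])
  have hpr : ∀ ρ : Ray J, pr ((1 : ℤ), (0 : J → ℤ)) ρ = ρ.1 := by
    intro ρ
    simp [pr]
  rw [hu, Nat.cast_one, one_smul, Finset.sum_eq_single k] at h1
  · rw [hpr] at h1
    have h2 : (1 : ℤ) = ((v i k).1 : ℤ) * (tS (v i) k).1 := congrArg Prod.fst h1
    have h3 : (v i k).1 = 1 := by
      have h4 : ((v i k).1 : ℤ) ∣ 1 := ⟨_, h2⟩
      exact Nat.dvd_one.1 (by exact_mod_cast h4)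
    rw [h3, Nat.cast_one, one_smul] at h1
    exact h1.symm
  · intro l _ hl
    rw [hpr, h l hl, Nat.cast_zero, zero_smul]
  · intro hk
    exact absurd (Finset.mem_univ k) hk

/-- Proof. `μ = m i' - m i` has degree `0`; `exp_tS`: `μ = ∑ l, pr μ (v i l) • tS (v i) l`, and `pr μ (v i l) = 0` for `l ≠ k` (`Fan.le` both ways as `v i l` is a ray of both cones). `pr μ (v i k) ≥ 0` by
`Fan.le`, and `≠ 0` by `Fan.lt`. -/
theorem adj_two (F : Fan c d v m D) {i i' : I} {k : J} (hu : nV (v i) = 1)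
    (h : ∀ l, l ≠ k → v i l ∈ Set.range (v i')) (h' : v i k ∉ Set.range (v i')) :
    ∃ L : ℕ, 1 ≤ L ∧ m i' = m i + (L : ℤ) • tS (v i) k := by
  have hdg : dg (m i' - m i) = 0 := by rw [dg_sub, F.md, F.md, sub_self]
  have h1 := exp_tS (v i) hdg
  rw [hu, Nat.cast_one, one_smul, Finset.sum_eq_single k] at h1
  · have h2 : 0 < pr (m i' - m i) (v i k) := by
      rw [pr_sub, sub_pos]
      by_contra h3
      exact h' (F.lt i i' k (not_lt.1 h3))
    refine ⟨(pr (m i' - m i) (v i k)).toNat, by omega, ?_⟩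
    rw [Int.toNat_of_nonneg h2.le, ← h1]
    abel
  · intro l _ hl
    obtain ⟨l', hl'⟩ := h l hl
    have h2 := F.le i' i l'
    have h3 := F.le i i' l
    rw [hl'] at h2
    have h4 : pr (m i' - m i) (v i l) = 0 := by
      rw [pr_sub]
      omega
    rw [h4, zero_smul]
  · intro hk
    exact absurd (Finset.mem_univ k) hk

theorem nu_dg (F : Fan c d v m D) (K0 : ℕ) (b : Nx I J D) : dg (nu v m D K0 b) = D := by
  rcases b with i | x | w
  · exact F.md i
  · change dg (m x.1 + tS (v x.1) x.2) = D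
    rw [dg_add, F.md, dg_tS, add_zero]
  · change ∑ j, (((Finset.univ.filter fun t => w t = j).card : ℕ) : ℤ) = D
    have h1 : ∑ j, (Finset.univ.filter fun t => w t = j).card = D := by
      have h2 := Finset.card_eq_sum_card_fiberwise (f := w) (s := Finset.univ) (t := Finset.univ)
        (fun _ _ => Finset.mem_univ _)
      rw [Finset.card_univ, Fintype.card_fin] at h2
      exact h2.symm
    exact_mod_cast h1

/-- Proof. `Fan.e0`; for `m i + tS (v i) k`: `Fan.adj`: `adj_one`, or `adj_two`: `L • (m i + tS (v i) k) = (L - 1) • m i + m i'`. -/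
theorem nu_nn (F : Fan c d v m D) (hu : ∀ i, nV (v i) = 1) (K0 : ℕ) (b : Nx I J D) (j : J) :
    0 ≤ (nu v m D K0 b).2 j := by
  rcases b with i | x | w
  · exact F.e0 i j
  · change 0 ≤ (m x.1).2 j + (tS (v x.1) x.2).2 j
    have h0 := F.e0 x.1 j
    rcases F.adj x.1 x.2 with h | ⟨i', h, h'⟩
    · rw [adj_one (hu _) h]
      change 0 ≤ (m x.1).2 j + 0
      rw [add_zero]
      exact h0
    · obtain ⟨L, hL, h2⟩ := adj_two F (hu _) h h'
      have h3 := F.e0 i' j
      rw [h2] at h3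
      change 0 ≤ (m x.1).2 j + (L : ℤ) * (tS (v x.1) x.2).2 j at h3
      have hL' : (1 : ℤ) ≤ L := by exact_mod_cast hL
      by_cases h4 : 0 ≤ (tS (v x.1) x.2).2 j
      · omega
      · push Not at h4
        nlinarith
  · exact Nat.cast_nonneg _

/-- Proof. `Fan.le`; for `m i' + tS (v i') k'` as in `nu_nn` (`pr (1, 0) ρ = ρ.1 ≥ 0`). For the third kind: if `(v i k).1 = 0` then `v i k = eR j` (`Fan.hor`) and `pr (m i) (eR j) = (m i).2 j = 0` (`Fan.e2`); if
`(v i k).1 ≥ 1` then `pr (nu ..) (v i k) ≥ K0`. -/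
theorem nu_le (F : Fan c d v m D) (hu : ∀ i, nV (v i) = 1) {K0 : ℕ}
    (hK : ∀ i k, pr (m i) (v i k) ≤ K0) (b : Nx I J D) (i : I) (k : J) :
    pr (m i) (v i k) ≤ pr (nu v m D K0 b) (v i k) := by
  rcases b with i' | x | w
  · exact F.le i i' k
  · change pr (m i) (v i k) ≤ pr (m x.1 + tS (v x.1) x.2) (v i k)
    rw [pr_add]
    have h0 := F.le i x.1 k
    rcases F.adj x.1 x.2 with h | ⟨i', h, h'⟩
    · rw [adj_one (hu _) h]
      have h1 : pr ((1 : ℤ), (0 : J → ℤ)) (v i k) = (v i k).1 := by simp [pr]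
      rw [h1]
      omega
    · obtain ⟨L, hL, h2⟩ := adj_two F (hu _) h h'
      have h3 := F.le i i' k
      rw [h2, pr_add, pr_smul] at h3
      have hL' : (1 : ℤ) ≤ L := by exact_mod_cast hL
      by_cases h4 : 0 ≤ pr (tS (v x.1) x.2) (v i k)
      · omega
      · push Not at h4
        nlinarith
  · have hs : (0 : ℤ) ≤ ∑ j, (((Finset.univ.filter fun t => w t = j).card : ℕ) : ℤ) *
        ((v i k).2 j : ℤ) := Finset.sum_nonneg fun j _ => by positivity
    have h1 : pr (nu v m D K0 (Sum.inr (Sum.inr w))) (v i k) = (K0 : ℤ) * ((v i k).1 : ℤ) +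
        ∑ j, (((Finset.univ.filter fun t => w t = j).card : ℕ) : ℤ) * ((v i k).2 j : ℤ) := rfl
    rw [h1]
    rcases Nat.eq_zero_or_pos (v i k).1 with h2 | h2
    · obtain ⟨j, hj⟩ := F.hor i k h2
      have h3 : pr (m i) (v i k) = 0 := by
        rw [hj, pr_eR]
        exact F.e2 i j ⟨k, hj⟩
      rw [h3, h2, Nat.cast_zero, mul_zero, zero_add]
      exact hs
    · have h3 := hK i k
      have h4 : (1 : ℤ) ≤ ((v i k).1 : ℤ) := by exact_mod_cast h2
      have h5 : (0 : ℤ) ≤ (K0 : ℤ) := Nat.cast_nonneg _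
      nlinarith

end Pool.Agent.DG
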