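import Pool.Agent.DG.TgA
import Pool.Agent.DG.TgB
import Pool.Agent.DG.GlDefs

set_option autoImplicit false

/-! # TGC: the model at a prime number which does not divide the degree -/

namespace Pool.Agent.DG

open Pool.Agent.NT9

variable {n : ℕ} {K : Type} [Field K] [CharZero K] {I : Type} {c : Fin (n + 1) → ℕ} {d D : ℕ}
  {v : I → Fin (n + 1) → Ray (Fin (n + 1))} {m : I → Mon (Fin (n + 1))}

/-- The model. -/
noncomputable def AT (p : ℕ) (x : Fin (n + 1) → K) (v : I → Fin (n + 1) → Ray (Fin (n + 1)))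
    (m : I → Mon (Fin (n + 1))) (D K0 : ℕ) : Submodule ℤ K :=
  Submodule.span ℤ (Set.range fun b : Nx I (Fin (n + 1)) D => chi p x (nu v m D K0 b) / x 0 ^ D)

theorem at_fg [Finite I] (p : ℕ) (x : Fin (n + 1) → K) (K0 : ℕ) : (AT p x v m D K0).FG := by
  have h1 : Finite (Nx I (Fin (n + 1)) D) := inferInstance
  exact Submodule.fg_span (Set.finite_range _)

/-- A monomial of degree `D` with nonnegative exponents of the variables. -/
private theorem tgC_gen {p : ℕ} (hp : (p : K) ≠ 0) {x : Fin (n + 1) → K} (hx : ∀ i, x i ≠ 0)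
    {m : Mon (Fin (n + 1))} (hd : dg m = D) (hm : ∀ j, 0 ≤ m.2 j) :
    ∃ k : ℕ, (p : K) ^ k * (chi p x m / x 0 ^ D) ∈ Mo0 x ^ D := by
  refine ⟨(-m.1).toNat, ?_⟩
  obtain ⟨b, hb⟩ : ∃ b : Fin (n + 1) → ℕ, ∀ j, m.2 j = b j :=
    ⟨fun j => (m.2 j).toNat, fun j => (Int.toNat_of_nonneg (hm j)).symm⟩
  have hbD : ∑ j, b j = D := by
    have h1 : (∑ j, ((b j : ℕ) : ℤ)) = D := by
      rw [← hd]
      exact Finset.sum_congr rfl fun j _ => (hb j).symm
    exact_mod_cast h1
  obtain ⟨r, hr⟩ : ∃ r : ℕ, m.1 + ((-m.1).toNat : ℤ) = r := by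
    refine ⟨(m.1 + ((-m.1).toNat : ℤ)).toNat, ?_⟩
    omega
  have h2 : (p : K) ^ (-m.1).toNat * (chi p x m / x 0 ^ D) =
      ((p ^ r : ℕ) : ℤ) • ∏ j, (x j / x 0) ^ b j := by
    have h3 : ∏ j, x j ^ m.2 j = ∏ j, x j ^ b j :=
      Finset.prod_congr rfl fun j _ => by rw [hb j, zpow_natCast]
    have h4 : ∏ j, (x j / x 0) ^ b j = (∏ j, x j ^ b j) / x 0 ^ D := by
      rw [Finset.prod_congr rfl fun j _ => div_pow (x j) (x 0) (b j), Finset.prod_div_distrib,
        Finset.prod_pow_eq_pow_sum, hbD]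
    have h5 : (p : K) ^ (-m.1).toNat * (p : K) ^ m.1 = (p : K) ^ r := by
      rw [← zpow_natCast, ← zpow_natCast, ← zpow_add₀ hp, ← hr, add_comm]
    rw [h4, zsmul_eq_mul]
    unfold chi
    rw [h3]
    push_cast
    rw [← h5]
    ring
  rw [h2]
  refine Submodule.smul_mem _ _ ?_
  have h6 : ∀ s : Finset (Fin (n + 1)), ∏ j ∈ s, (x j / x 0) ^ b j ∈ Mo0 x ^ (∑ j ∈ s, b j) := by
    intro s
    induction s using Finset.induction_on with
    | empty =>
      rw [Finset.prod_empty, Finset.sum_empty, pow_zero]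
      exact Submodule.one_le.1 le_rfl
    | insert a s ha ih =>
      rw [Finset.prod_insert ha, Finset.sum_insert ha, pow_add]
      have h9 : x a / x 0 ∈ Mo0 x := Submodule.subset_span ⟨a, rfl⟩
      exact Submodule.mul_mem_mul (Submodule.pow_mem_pow _ h9 _) ih
  have h7 := h6 Finset.univ
  rwa [hbD] at h7

open scoped Pointwise in
/-- The elements of the power of the set of the generators. -/
private theorem tgC_pow (x : Fin (n + 1) → K) (D : ℕ) (y : K)
    (hy : y ∈ (Set.range fun i => x i / x 0) ^ D) :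
    ∃ w : Fin D → Fin (n + 1), ∏ t, (x (w t) / x 0) = y := by
  rw [Set.mem_pow] at hy
  obtain ⟨f, hf⟩ := hy
  have h1 : ∀ t, ∃ i, x i / x 0 = (f t : K) := fun t => (f t).2
  choose w hw using h1
  refine ⟨w, ?_⟩
  rw [← hf, List.prod_ofFn]
  exact Finset.prod_congr rfl fun t _ => hw t

omit [CharZero K] in
private theorem tgC_third (p : ℕ) {x : Fin (n + 1) → K}
    (D K0 : ℕ) (w : Fin D → Fin (n + 1)) :
    chi p x (nu v m D K0 (Sum.inr (Sum.inr w))) / x 0 ^ D =
      (p : K) ^ K0 * ∏ t, (x (w t) / x 0) := by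
  have h1 : ∏ j, x j ^ (((Finset.univ.filter fun t => w t = j).card : ℕ) : ℤ) =
      ∏ t, x (w t) := by
    rw [← Finset.prod_fiberwise (s := Finset.univ) (g := w) (f := fun t => x (w t))]
    refine Finset.prod_congr rfl fun j _ => ?_
    rw [zpow_natCast, Finset.prod_congr rfl (g := fun _ => x j)
      (fun t ht => by rw [(Finset.mem_filter.1 ht).2]), Finset.prod_const]
  have h2 : chi p x (nu v m D K0 (Sum.inr (Sum.inr w))) =
      (p : K) ^ (K0 : ℤ) *
        ∏ j, x j ^ (((Finset.univ.filter fun t => w t = j).card : ℕ) : ℤ) := rfl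
  rw [h2, h1, zpow_natCast, Finset.prod_div_distrib, Finset.prod_const, Finset.card_univ,
    Fintype.card_fin, mul_div_assoc]

/-- Proof. A generator is `p ^ a ∏ (x_j / x_0) ^ b_j` with `b_j ≥ 0`, `∑ b_j = D` (`nu_nn`, `nu_dg`), so times `p ^ k` with `a + k ≥ 0` it is in `Mo0 x ^ D`; for sums take the sum of the exponents
(`Submodule.span_induction`). Conversely `Mo0 x ^ D` is spanned by the products of `D` of the `x_i / x_0` (`Submodule.span_pow` or induction), and such a product, for `w : Fin D → Fin (n + 1)`, times `p ^ K0` is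
the generator `inr (inr w)`. -/
theorem at_com {p : ℕ} (hp : p.Prime) {x : Fin (n + 1) → K} (hx : ∀ i, x i ≠ 0)
    (F : Fan c d v m D) (hu : ∀ i, nV (v i) = 1) (K0 : ℕ) :
    ComP p (AT p x v m D K0) (Mo0 x ^ D) := by
  have hp0 : (p : K) ≠ 0 := by exact_mod_cast hp.ne_zero
  constructor
  · intro y hy
    refine Submodule.span_induction (p := fun y _ => ∃ k : ℕ, (p : K) ^ k * y ∈ Mo0 x ^ D)
      ?_ ?_ ?_ ?_ hy
    · rintro _ ⟨b, rfl⟩
      obtain ⟨k, hk⟩ := tgC_gen (p := p) hp0 hx (m := nu v m D K0 b) (nu_dg F K0 b)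
        (nu_nn F hu K0 b)
      exact ⟨k, hk⟩
    · exact ⟨0, by rw [mul_zero]; exact zero_mem _⟩
    · rintro a b _ _ ⟨k, hk⟩ ⟨l, hl⟩
      refine ⟨k + l, ?_⟩
      have h1 : (p : K) ^ (k + l) * (a + b) =
          ((p ^ l : ℕ) : ℤ) • ((p : K) ^ k * a) + ((p ^ k : ℕ) : ℤ) • ((p : K) ^ l * b) := by
        rw [zsmul_eq_mul, zsmul_eq_mul]
        push_cast
        ring
      rw [h1]
      exact add_mem (Submodule.smul_mem _ _ hk) (Submodule.smul_mem _ _ hl)
    · rintro z a _ ⟨k, hk⟩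
      refine ⟨k, ?_⟩
      rw [mul_smul_comm]
      exact Submodule.smul_mem _ _ hk
  · intro y hy
    have h1 : ∀ y ∈ Mo0 x ^ D, (p : K) ^ K0 * y ∈ AT p x v m D K0 := by
      intro y hy
      rw [Mo0, Submodule.span_pow] at hy
      refine Submodule.span_induction (p := fun y _ => (p : K) ^ K0 * y ∈ AT p x v m D K0)
        ?_ ?_ ?_ ?_ hy
      · intro y hy
        obtain ⟨w, rfl⟩ := tgC_pow x D y hy
        refine Submodule.subset_span ⟨Sum.inr (Sum.inr w), ?_⟩
        exact tgC_third p D K0 w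
      · rw [mul_zero]
        exact zero_mem _
      · intro a b _ _ ha hb
        rw [mul_add]
        exact add_mem ha hb
      · intro z a _ ha
        rw [mul_smul_comm]
        exact Submodule.smul_mem _ _ ha
    exact ⟨K0, h1 y hy⟩

end Pool.Agent.DG
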