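import Pool.Agent.DG.TgC
import Pool.Agent.NT9.GeFrA

set_option autoImplicit false

/-! # TGD: the charts of the model are those of the vertices -/

namespace Pool.Agent.DG

open Pool.Agent.NT9

variable {n : ℕ} {K : Type} [Field K] [CharZero K] {I : Type} {c : Fin (n + 1) → ℕ} {d D : ℕ}
  {v : I → Fin (n + 1) → Ray (Fin (n + 1))} {m : I → Mon (Fin (n + 1))}

omit [CharZero K] in
private theorem td_gmem (p : ℕ) (x : Fin (n + 1) → K) (K0 : ℕ) (b : Nx I (Fin (n + 1)) D) :
    chi p x (nu v m D K0 b) / x 0 ^ D ∈ AT p x v m D K0 :=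
  Submodule.subset_span ⟨b, rfl⟩

private theorem td_quot {p : ℕ} (hp : p.Prime) {x : Fin (n + 1) → K} (hx : ∀ i, x i ≠ 0)
    (b b' : Mon (Fin (n + 1))) : (chi p x b' / x 0 ^ D) / (chi p x b / x 0 ^ D) =
      chi p x (b' - b) := by
  have hp0 : (p : K) ≠ 0 := Nat.cast_ne_zero.2 hp.ne_zero
  rw [chi_sub hp0 hx]
  have h1 := chi_ne hp0 hx b
  have h2 : x 0 ^ D ≠ 0 := pow_ne_zero _ (hx 0)
  field_simp

private theorem td_mem {p : ℕ} (hp : p.Prime) {x : Fin (n + 1) → K} (hx : ∀ i, x i ≠ 0)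
    {K0 : ℕ} {O : Subring K} {b : Nx I (Fin (n + 1)) D}
    (hfr : IsFr (ch (AT p x v m D K0) (chi p x (nu v m D K0 b) / x 0 ^ D)) O)
    (b' : Nx I (Fin (n + 1)) D) : chi p x (nu v m D K0 b' - nu v m D K0 b) ∈ O := by
  rw [← td_quot (D := D) hp hx]
  exact hfr.1 (Subring.subset_closure ⟨_, td_gmem p x K0 b', rfl⟩)

/-- Proof. `NT9.loc_gen`: a generator `μ = chi (nu b) / x 0 ^ D` with `IsFr (ch AT μ) O`, so `y / μ ∈ O` for all `y ∈ AT`, in particular `chi (m i' - nu b) ∈ O` for all `i'`.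
(1) `b = inl i`: done. (2) `b = inr (inl (i, k))`: `Fan.adj i k`. If `tS (v i) k = (1, 0)` (`adj_one`) then `chi (m i - nu b) = p⁻¹ ∈ O`, a contradiction to `p ∈ mx O`. Otherwise `m i' = m i + L • t`, `t = tS (v i) k`
(`adj_two`), `nu b = m i + t`: `a = chi (m i' - nu b) = chi t ^ (L - 1)` and `a' = chi (m i - nu b) = (chi t)⁻¹` are in `O`, so `a⁻¹ = a' ^ (L - 1) ∈ O`; `NT9.fr_change` with the generator `chi (m i') / x 0 ^ D`.
(3) `b = inr (inr w)`: for every `j` there is `i_j` with `m (i_j) = (a_j, D • e_j)`: `Fan.inf`, `Fan.e2`, `Fan.md`. `∏_(t : Fin D) chi (m (i_(w t)) - nu b) ∈ O` is `p` to the power `∑_t (a_(w t) - K0) < 0` (the exponents of the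
`x_j` cancel: `D * card {t | w t = j}` in both), so `p⁻¹ ∈ O`, a contradiction. -/
theorem at_chart {p : ℕ} (hp : p.Prime) {x : Fin (n + 1) → K} (hx : ∀ i, x i ≠ 0)
    (F : Fan c d v m D) (hu : ∀ i, nV (v i) = 1) {K0 : ℕ} (hK : ∀ i, (m i).1 < K0)
    {O : Subring K} (hO : O ∈ Loc (AT p x v m D K0)) (hpO : (p : K) ∈ mx O) :
    ∃ i, IsFr (ch (AT p x v m D K0) (chi p x (m i) / x 0 ^ D)) O := by
  have hp0 : (p : K) ≠ 0 := Nat.cast_ne_zero.2 hp.ne_zero
  have hx0 : x 0 ^ D ≠ 0 := pow_ne_zero _ (hx 0)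
  have hpinv : (p : K)⁻¹ ∉ O := by
    rcases hpO.2 with h | h
    · exact absurd h hp0
    · exact h
  obtain ⟨b, hb0, hfr⟩ := loc_gen (g := fun b : Nx I (Fin (n + 1)) D =>
    chi p x (nu v m D K0 b) / x 0 ^ D) rfl hO
  rcases b with i | ⟨i, k⟩ | w
  · exact ⟨i, hfr⟩
  · have hnu : nu v m D K0 (Sum.inr (Sum.inl (i, k))) = m i + tS (v i) k := rfl
    have h1 : chi p x (m i - (m i + tS (v i) k)) ∈ O := by
      rw [← hnu]
      exact td_mem hp hx hfr (Sum.inl i)
    have h1' : (chi p x (tS (v i) k))⁻¹ ∈ O := by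
      have h2 : m i - (m i + tS (v i) k) = (-1 : ℤ) • tS (v i) k := by
        rw [neg_smul, one_smul]
        abel
      rw [h2, chi_smul, zpow_neg_one] at h1
      exact h1
    rcases F.adj i k with h | ⟨i', h, h'⟩
    · exfalso
      rw [adj_one (hu i) h, chi_p] at h1'
      exact hpinv h1'
    · obtain ⟨L, hL, hmi⟩ := adj_two F (hu i) h h'
      refine ⟨i', ?_⟩
      have h2 : (chi p x (m i') / x 0 ^ D) / (chi p x (nu v m D K0 (Sum.inr (Sum.inl (i, k)))) /
          x 0 ^ D) = chi p x (tS (v i) k) ^ (L - 1) := by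
        rw [td_quot hp hx, hnu, hmi]
        have h3 : m i + (L : ℤ) • tS (v i) k - (m i + tS (v i) k) =
            ((L - 1 : ℕ) : ℤ) • tS (v i) k := by
          rw [Nat.cast_sub hL, sub_smul, Nat.cast_one, one_smul]
          abel
        rw [h3, chi_smul, zpow_natCast]
      refine fr_change (td_gmem p x K0 (Sum.inl i')) (div_ne_zero (chi_ne hp0 hx _) hx0)
        (td_gmem p x K0 (Sum.inr (Sum.inl (i, k)))) hb0 ?_ ?_ hfr
      · rw [td_quot hp hx]
        exact td_mem hp hx hfr (Sum.inl i')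
      · rw [← inv_div]
        change ((chi p x (m i') / x 0 ^ D) / (chi p x (nu v m D K0 (Sum.inr (Sum.inl (i, k)))) /
          x 0 ^ D))⁻¹ ∈ O
        rw [h2, ← inv_pow]
        exact O.pow_mem h1' _
  · exfalso
    -- the vertices on the axes
    have hax : ∀ j : Fin (n + 1), ∃ i, ∃ a : ℤ, a < K0 ∧ m i = (a, fun l => if l = j then (D : ℤ) else 0) := by
      intro j
      obtain ⟨i, hi⟩ := F.inf j
      refine ⟨i, (m i).1, hK i, ?_⟩
      have h1 : ∀ l, l ≠ j → (m i).2 l = 0 := fun l hl => F.e2 i l (hi l hl)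
      have h2 : (m i).2 j = D := by
        have h3 := F.md i
        unfold dg at h3
        rw [Finset.sum_eq_single j (fun l _ hl => h1 l hl)
          (fun h => absurd (Finset.mem_univ _) h)] at h3
        exact h3
      refine Prod.ext rfl ?_
      funext l
      change (m i).2 l = if l = j then (D : ℤ) else 0
      by_cases hl : l = j
      · rw [if_pos hl, hl, h2]
      · rw [if_neg hl, h1 l hl]
    choose ι a ha hma using hax
    have hP : ∏ t : Fin D, chi p x (m (ι (w t)) - nu v m D K0 (Sum.inr (Sum.inr w))) ∈ O :=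
      Subring.prod_mem _ fun t _ => td_mem hp hx hfr (Sum.inl (ι (w t)))
    obtain ⟨e, he⟩ : ∃ e : ℕ, (e : ℤ) = ∑ t : Fin D, ((K0 : ℤ) - a (w t)) := by
      refine ⟨(∑ t : Fin D, ((K0 : ℤ) - a (w t))).toNat, Int.toNat_of_nonneg ?_⟩
      exact Finset.sum_nonneg fun t _ => by have := ha (w t); omega
    have he1 : 1 ≤ e := by
      have h1 : (D : ℤ) ≤ ∑ t : Fin D, ((K0 : ℤ) - a (w t)) := by
        calc (D : ℤ) = ∑ _t : Fin D, (1 : ℤ) := by simp
          _ ≤ _ := Finset.sum_le_sum fun t _ => by have := ha (w t); omega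
      have := F.pos
      omega
    have hsum : ∑ t : Fin D, (m (ι (w t)) - nu v m D K0 (Sum.inr (Sum.inr w))) =
        (-(e : ℤ)) • ((1, 0) : Mon (Fin (n + 1))) := by
      refine Prod.ext ?_ ?_
      · rw [Prod.fst_sum, Prod.smul_fst, smul_eq_mul, mul_one, he, ← Finset.sum_neg_distrib]
        refine Finset.sum_congr rfl fun t _ => ?_
        rw [Prod.fst_sub, hma]
        change a (w t) - (K0 : ℤ) = _
        ring
      · rw [Prod.snd_sum, Prod.smul_snd, smul_zero]
        funext j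
        rw [Finset.sum_apply, Pi.zero_apply]
        have h1 : ∀ t : Fin D, (m (ι (w t)) - nu v m D K0 (Sum.inr (Sum.inr w))).2 j =
            (if w t = j then (D : ℤ) else 0) -
              ((Finset.univ.filter fun t => w t = j).card : ℤ) := by
          intro t
          rw [Prod.snd_sub, Pi.sub_apply, hma]
          change (if j = w t then (D : ℤ) else 0) - _ = _
          congr 1
          by_cases h2 : w t = j
          · rw [if_pos h2, if_pos h2.symm]
          · rw [if_neg h2, if_neg fun h3 => h2 h3.symm]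
        rw [Finset.sum_congr rfl fun t _ => h1 t, Finset.sum_sub_distrib, Finset.sum_const,
          Finset.card_univ, Fintype.card_fin, nsmul_eq_mul, ← Finset.sum_filter, Finset.sum_const,
          nsmul_eq_mul]
        ring
    rw [← chi_sum hp0 hx, hsum, chi_smul, chi_p, zpow_neg, zpow_natCast] at hP
    have hpO' : (p : K) ∈ O := hpO.1
    have h2 : (p : K)⁻¹ = ((p : K) ^ e)⁻¹ * (p : K) ^ (e - 1) := by
      obtain ⟨f, rfl⟩ : ∃ f, e = f + 1 := ⟨e - 1, by omega⟩
      rw [Nat.add_sub_cancel, pow_succ]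
      field_simp
    exact hpinv (h2 ▸ O.mul_mem hP (O.pow_mem hpO' _))

/-- The coordinates `chi (tS (v i) k)` of the chart. Proof. They are the quotients of the generators `inr (inl (i, k))` and `inl i`. The quotients of the generators `b` and `inl i` are
`chi (nu b - m i) = ∏ k, chi (tS (v i) k) ^ pr (nu b - m i) (v i k)` (`chi_exp`, degree `0` by `nu_dg`) with exponents `≥ 0` (`nu_le`), so they are in `frSub (aeval t) O` (`NT9.frSub`), which is closed under inverses which
lie in `O`; `NT9.le_of_fr`. -/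
theorem at_loc {p : ℕ} (hp : p.Prime) {x : Fin (n + 1) → K} (hx : ∀ i, x i ≠ 0)
    (F : Fan c d v m D) (hu : ∀ i, nV (v i) = 1) {K0 : ℕ} (hK : ∀ i k, pr (m i) (v i k) ≤ K0)
    {O : Subring K} {i : I} (hO : IsFr (ch (AT p x v m D K0) (chi p x (m i) / x 0 ^ D)) O) :
    (∀ k, chi p x (tS (v i) k) ∈ O) ∧
      ∀ y ∈ O, ∃ g h : MvPolynomial (Fin (n + 1)) ℤ,
        MvPolynomial.aeval (fun k => chi p x (tS (v i) k)) h ≠ 0 ∧
        (MvPolynomial.aeval (fun k => chi p x (tS (v i) k)) h)⁻¹ ∈ O ∧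
        y * MvPolynomial.aeval (fun k => chi p x (tS (v i) k)) h =
          MvPolynomial.aeval (fun k => chi p x (tS (v i) k)) g := by
  have hp0 : (p : K) ≠ 0 := Nat.cast_ne_zero.2 hp.ne_zero
  have hx0 : x 0 ^ D ≠ 0 := pow_ne_zero _ (hx 0)
  have hO' : IsFr (ch (AT p x v m D K0) (chi p x (nu v m D K0 (Sum.inl i)) / x 0 ^ D)) O := hO
  refine ⟨fun k => ?_, ?_⟩
  · have h1 := td_mem hp hx hO' (Sum.inr (Sum.inl (i, k)))
    have h2 : nu v m D K0 (Sum.inr (Sum.inl (i, k))) - nu v m D K0 (Sum.inl i) = tS (v i) k := by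
      change m i + tS (v i) k - m i = tS (v i) k
      abel
    rwa [h2] at h1
  · obtain ⟨π, hπ⟩ : ∃ π : MvPolynomial (Fin (n + 1)) ℤ →+* K, ∀ t,
        π t = MvPolynomial.aeval (fun k => chi p x (tS (v i) k)) t :=
      ⟨(MvPolynomial.aeval (fun k => chi p x (tS (v i) k)) :
        MvPolynomial (Fin (n + 1)) ℤ →ₐ[ℤ] K).toRingHom, fun _ => rfl⟩
    have hgen : ∀ b : Nx I (Fin (n + 1)) D,
        (chi p x (nu v m D K0 b) / x 0 ^ D) / (chi p x (m i) / x 0 ^ D) ∈ frSub π O := by
      intro b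
      rw [td_quot hp hx]
      have hdg : dg (nu v m D K0 b - m i) = 0 := by
        rw [dg_sub, nu_dg F, F.md, sub_self]
      have h1 := chi_exp hp0 hx (hu i) hdg
      have h2 : chi p x (nu v m D K0 b - m i) =
          π (∏ k, MvPolynomial.X k ^ (pr (nu v m D K0 b - m i) (v i k)).toNat) := by
        rw [h1, hπ, map_prod]
        refine Finset.prod_congr rfl fun k _ => ?_
        rw [map_pow, MvPolynomial.aeval_X, ← zpow_natCast, Int.toNat_of_nonneg]
        rw [pr_sub]
        have h3 := nu_le F hu (fun i k => hK i k) b i k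
        omega
      rw [h2]
      exact map_mem_frSub π O _
    have hAT : ∀ y ∈ AT p x v m D K0, y / (chi p x (m i) / x 0 ^ D) ∈ frSub π O := by
      intro y hy
      unfold AT at hy
      induction hy using Submodule.span_induction with
      | mem y hy =>
        obtain ⟨b, rfl⟩ := hy
        exact hgen b
      | zero =>
        rw [zero_div]
        exact (frSub π O).zero_mem
      | add a b _ _ ha hb =>
        rw [add_div]
        exact (frSub π O).add_mem ha hb
      | smul z a _ ha =>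
        rw [zsmul_eq_mul, mul_div_assoc]
        exact (frSub π O).mul_mem (intCast_mem _ z) ha
    have hle : O ≤ frSub π O := by
      refine le_of_fr hO ?_ (frSub_inv π O)
      unfold ch
      rw [Subring.closure_le]
      rintro _ ⟨y, hy, rfl⟩
      exact hAT y hy
    intro y hy
    obtain ⟨g, h, h1, h2, h3⟩ := hle hy
    rw [hπ] at h1 h2 h3
    rw [hπ] at h3
    exact ⟨g, h, h1, h2, h3⟩

end Pool.Agent.DG
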