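import Pool.Agent.DG.TgA

set_option autoImplicit false

/-! # TGE: the relations of a chart -/

namespace Pool.Agent.DG

open MvPolynomial

variable {J : Type} [Fintype J] [DecidableEq J] {K : Type} [Field K] {p : ℕ} {x : J → K}

/-- The diagonal form `∑ p ^ (c j) u_j x_j ^ d`. -/
noncomputable def FF (p : ℕ) (c : J → ℕ) (d : ℕ) (u : J → ℤ) : MvPolynomial J ℤ :=
  ∑ j, C ((p : ℤ) ^ c j * u j) * X j ^ d

/-- The exponents of the quotients of the monomials `j` and `a` in the coordinates of the cone `v`. -/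
def gE (v : J → Ray J) (c : J → ℕ) (d : ℕ) (a j k : J) : ℕ :=
  (pr (Mb c d j) (v k) - pr (Mb c d a) (v k)).toNat

/-- The relations: `p = T ^ h` and the quotient of the form by its smallest monomial. -/
noncomputable def rT (p : ℕ) (v : J → Ray J) (c : J → ℕ) (d : ℕ) (u : J → ℤ) (a : J) :
    Fin 2 → MvPolynomial J ℤ :=
  ![C (p : ℤ) - ∏ k, X k ^ (v k).1, ∑ j, C (u j) * ∏ k, X k ^ gE v c d a j k]

/-- Proof. `p = chi (1, 0)` and `chi_exp`. `0 = FF (x) = ∑ u_j chi (Mb c d j)` (`chi_Mb`); divide by `chi (Mb c d a)`: `chi (Mb c d j - Mb c d a)` is the product of the `chi (tS v k) ^ gE v c d a j k` (`chi_exp`, `dg_Mb`,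
`hlab`). -/
theorem rT_zero (hp : (p : K) ≠ 0) (hx : ∀ j, x j ≠ 0) {v : J → Ray J} (hv : nV v = 1)
    {c : J → ℕ} {d : ℕ} {u : J → ℤ} {a : J}
    (hlab : ∀ k j, pr (Mb c d a) (v k) ≤ pr (Mb c d j) (v k))
    (hF : aeval x (FF p c d u) = 0) (i : Fin 2) :
    aeval (fun k => chi p x (tS v k)) (rT p v c d u a i) = 0 := by
  have hne : ∀ m : Mon J, chi p x m ≠ 0 := chi_ne hp hx
  fin_cases i
  · change aeval (fun k => chi p x (tS v k)) (C (p : ℤ) - ∏ k, X k ^ (v k).1) = 0
    have hdg : dg ((1, 0) : Mon J) = 0 := by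
      unfold dg
      exact Finset.sum_eq_zero fun j _ => rfl
    have h1 := chi_exp hp hx hv hdg
    have h2 : ∀ k, pr ((1, 0) : Mon J) (v k) = ((v k).1 : ℤ) := by
      intro k
      unfold pr
      simp
    rw [chi_p] at h1
    rw [map_sub, map_prod, aeval_C]
    simp only [map_pow, aeval_X]
    have h3 : ∏ k, chi p x (tS v k) ^ pr ((1, 0) : Mon J) (v k) = ∏ k, chi p x (tS v k) ^ (v k).1 := by
      refine Finset.prod_congr rfl fun k _ => ?_
      rw [h2, zpow_natCast]
    rw [← h3, ← h1]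
    simp
  · change aeval (fun k => chi p x (tS v k)) (∑ j, C (u j) * ∏ k, X k ^ gE v c d a j k) = 0
    rw [map_sum]
    have h1 : ∀ j, aeval (fun k => chi p x (tS v k)) (C (u j) * ∏ k, X k ^ gE v c d a j k :
        MvPolynomial J ℤ) = (u j : K) * ((p : K) ^ c j * x j ^ d) / chi p x (Mb c d a) := by
      intro j
      rw [map_mul, map_prod, aeval_C]
      simp only [map_pow, aeval_X]
      have hdg : dg (Mb c d j - Mb c d a) = 0 := by
        rw [dg_sub, dg_Mb, dg_Mb, sub_self]
      have h2 := chi_exp hp hx hv hdg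
      rw [chi_sub hp hx, chi_Mb] at h2
      have h3 : ∏ k, chi p x (tS v k) ^ pr (Mb c d j - Mb c d a) (v k) =
          ∏ k, chi p x (tS v k) ^ gE v c d a j k := by
        refine Finset.prod_congr rfl fun k _ => ?_
        unfold gE
        rw [← zpow_natCast, Int.toNat_of_nonneg (sub_nonneg.2 (hlab k j)), pr_sub]
      rw [← h3, ← h2]
      simp only [eq_intCast]
      ring
    rw [Finset.sum_congr rfl fun j _ => h1 j, ← Finset.sum_div]
    have h4 : ∑ j, (u j : K) * ((p : K) ^ c j * x j ^ d) = 0 := by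
      rw [← hF]
      unfold FF
      rw [map_sum]
      refine Finset.sum_congr rfl fun j _ => ?_
      rw [map_mul, aeval_C, map_pow, aeval_X]
      simp only [eq_intCast]
      push_cast
      ring
    rw [h4, zero_div]

end Pool.Agent.DG
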