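import Pool.Agent.DG.TrDefs

set_option autoImplicit false

/-! # TRA: the pairing and the dual vectors of a cone -/

namespace Pool.Agent.DG

variable {J : Type} [Fintype J]

theorem pr_add (m m' : Mon J) (ρ : Ray J) : pr (m + m') ρ = pr m ρ + pr m' ρ := by
  unfold pr
  simp only [Prod.fst_add, Prod.snd_add, Pi.add_apply, add_mul, Finset.sum_add_distrib]
  ring

theorem pr_sub (m m' : Mon J) (ρ : Ray J) : pr (m - m') ρ = pr m ρ - pr m' ρ := by
  unfold pr
  simp only [Prod.fst_sub, Prod.snd_sub, Pi.sub_apply, sub_mul, Finset.sum_sub_distrib]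
  ring

theorem pr_smul (z : ℤ) (m : Mon J) (ρ : Ray J) : pr (z • m) ρ = z * pr m ρ := by
  unfold pr
  simp only [Prod.smul_fst, Prod.smul_snd, Pi.smul_apply, smul_eq_mul, mul_add, Finset.mul_sum,
    mul_assoc]

theorem pr_sum {ι : Type} (s : Finset ι) (m : ι → Mon J) (ρ : Ray J) :
    pr (∑ i ∈ s, m i) ρ = ∑ i ∈ s, pr (m i) ρ := by
  classical
  induction s using Finset.induction_on with
  | empty => simp [pr]
  | insert a s ha ih => rw [Finset.sum_insert ha, Finset.sum_insert ha, pr_add, ih]

theorem dg_add (m m' : Mon J) : dg (m + m') = dg m + dg m' := by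
  unfold dg
  simp only [Prod.snd_add, Pi.add_apply, Finset.sum_add_distrib]

theorem dg_sub (m m' : Mon J) : dg (m - m') = dg m - dg m' := by
  unfold dg
  simp only [Prod.snd_sub, Pi.sub_apply, Finset.sum_sub_distrib]

theorem dg_smul (z : ℤ) (m : Mon J) : dg (z • m) = z * dg m := by
  unfold dg
  simp only [Prod.smul_snd, Pi.smul_apply, smul_eq_mul, Finset.mul_sum]

variable [DecidableEq J]

theorem pr_eR (m : Mon J) (j : J) : pr m (eR j) = m.2 j := by
  unfold pr eR
  simp [Pi.single_apply]

theorem dg_Mb (c : J → ℕ) (d : ℕ) (a : J) : dg (Mb c d a) = d := by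
  unfold dg Mb
  simp [Pi.single_apply]

theorem pr_Mb (c : J → ℕ) (d : ℕ) (a : J) (ρ : Ray J) :
    pr (Mb c d a) ρ = c a * ρ.1 + d * ρ.2 a := by
  unfold pr Mb
  simp [Pi.single_apply]

private theorem tra_row_none (v : J → Ray J) (x : Option J → ℤ) :
    ∑ s, Mx v none s * x s = ∑ j, x (some j) := by
  rw [Fintype.sum_option]
  simp [Mx]

private theorem tra_row_some (v : J → Ray J) (l : J) (x : Option J → ℤ) :
    ∑ s, Mx v (some l) s * x s = pr (x none, fun j => x (some j)) (v l) := by
  rw [Fintype.sum_option]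
  unfold pr
  simp only [Mx]
  congr 1
  · ring
  · exact Finset.sum_congr rfl fun j _ => mul_comm _ _

private theorem tra_sign (v : J → Ray J) : (Mx v).det.sign * (Mx v).det = (nV v : ℤ) := by
  unfold nV
  rw [Int.natCast_natAbs]
  exact Int.sign_mul_self_eq_abs _

private theorem tra_adj (v : J → Ray J) (s t : Option J) :
    ∑ u, Mx v s u * (Mx v).adjugate u t = if s = t then (Mx v).det else 0 := by
  have h := congrFun (congrFun (Matrix.mul_adjugate (Mx v)) s) t
  rw [Matrix.mul_apply] at h
  rw [h, Matrix.smul_apply, Matrix.one_apply]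
  split_ifs <;> simp

private theorem tra_adj' (v : J → Ray J) (s t : Option J) :
    ∑ u, (Mx v).adjugate s u * Mx v u t = if s = t then (Mx v).det else 0 := by
  have h := congrFun (congrFun (Matrix.adjugate_mul (Mx v)) s) t
  rw [Matrix.mul_apply] at h
  rw [h, Matrix.smul_apply, Matrix.one_apply]
  split_ifs <;> simp

/-- Row `none` of `Mx v * adjugate = det • 1`. -/
theorem dg_tS (v : J → Ray J) (k : J) : dg (tS v k) = 0 := by
  have h := tra_adj v none (some k)
  rw [tra_row_none, if_neg (by simp)] at h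
  unfold dg tS
  simp only
  rw [← Finset.mul_sum, h, mul_zero]

/-- Rows `some l` of `Mx v * adjugate = det • 1`; `sign * det = natAbs`. -/
theorem pr_tS (v : J → Ray J) (k l : J) :
    pr (tS v k) (v l) = if k = l then (nV v : ℤ) else 0 := by
  have h := tra_adj v (some l) (some k)
  rw [tra_row_some] at h
  have h1 : tS v k = (Mx v).det.sign • (((Mx v).adjugate none (some k),
      fun j => (Mx v).adjugate (some j) (some k)) : Mon J) := rfl
  rw [h1, pr_smul, h]
  by_cases hkl : k = l
  · subst hkl
    rw [if_pos rfl, if_pos rfl, tra_sign]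
  · rw [if_neg hkl, if_neg (by simpa using Ne.symm hkl), mul_zero]

/-- `adjugate * Mx v = det • 1` applied to the vector `m`; `Mx v` maps `m` to `dg m` and the
`pr m (v k)`. -/
theorem exp_tS (v : J → Ray J) {m : Mon J} (hm : dg m = 0) :
    (nV v : ℤ) • m = ∑ k, pr m (v k) • tS v k := by
  let x : Option J → ℤ := fun s => Option.casesOn s m.1 m.2
  have hx : ∀ s : Option J, (Mx v).det * x s =
      ∑ k, (Mx v).adjugate s (some k) * pr m (v k) := by
    intro s
    have h1 : ∑ t, (∑ u, (Mx v).adjugate s u * Mx v u t) * x t = (Mx v).det * x s := by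
      simp only [tra_adj', ite_mul, zero_mul]
      simp
    rw [← h1]
    simp only [Finset.sum_mul]
    rw [Finset.sum_comm]
    simp only [mul_assoc, ← Finset.mul_sum]
    rw [Fintype.sum_option, tra_row_none]
    have h2 : ∑ j, x (some j) = 0 := hm
    rw [h2, mul_zero, zero_add]
    refine Finset.sum_congr rfl fun k _ => ?_
    rw [tra_row_some]
  refine Prod.ext ?_ ?_
  · rw [Prod.fst_sum]
    have h3 := hx none
    have h4 : (nV v : ℤ) * m.1 = (Mx v).det.sign * ((Mx v).det * x none) := by
      rw [← mul_assoc, tra_sign]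
    change (nV v : ℤ) * m.1 = _
    rw [h4, h3, Finset.mul_sum]
    refine Finset.sum_congr rfl fun k _ => ?_
    change _ = pr m (v k) * ((Mx v).det.sign * (Mx v).adjugate none (some k))
    ring
  · rw [Prod.snd_sum]
    funext j
    rw [Finset.sum_apply]
    have h3 := hx (some j)
    have h4 : (nV v : ℤ) * m.2 j = (Mx v).det.sign * ((Mx v).det * x (some j)) := by
      rw [← mul_assoc, tra_sign]
    change (nV v : ℤ) * m.2 j = _
    rw [h4, h3, Finset.mul_sum]
    refine Finset.sum_congr rfl fun k _ => ?_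
    change _ = pr m (v k) * ((Mx v).det.sign * (Mx v).adjugate (some j) (some k))
    ring

theorem exp_pr (v : J → Ray J) {m : Mon J} (hm : dg m = 0) (ρ : Ray J) :
    (nV v : ℤ) * pr m ρ = ∑ k, pr m (v k) * pr (tS v k) ρ := by
  rw [← pr_smul, exp_tS v hm, pr_sum]
  exact Finset.sum_congr rfl fun k _ => pr_smul _ _ _

end Pool.Agent.DG
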