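import Pool.Agent.DG.TrA

set_option autoImplicit false

/-! # TRB: the index of a cone with one ray replaced -/

namespace Pool.Agent.DG

variable {J : Type} [Fintype J] [DecidableEq J]

/-- Proof: Cramer's rule. `Mx (Function.update v k ρ) = (Mx v).updateRow (some k) b` with
`b none = ρ.1`, `b (some j) = ρ.2 j`; `Matrix.cramer_transpose_apply`, `Matrix.cramer_eq_adjugate_mulVec`
give its determinant `∑ s, adjugate (Mx v) s (some k) * b s`, which is `pr (tS v k) ρ` up to the
sign of `det (Mx v)` (use `nV v > 0`). -/
theorem nV_update {v : J → Ray J} (hv : 0 < nV v) (k : J) (ρ : Ray J) :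
    nV (Function.update v k ρ) = (pr (tS v k) ρ).natAbs := by
  let b : Option J → ℤ := fun s => Option.casesOn s (ρ.1 : ℤ) fun j => (ρ.2 j : ℤ)
  have h1 : Mx (Function.update v k ρ) = (Mx v).updateRow (some k) b := by
    ext s t
    rw [Matrix.updateRow_apply]
    rcases s with _ | l
    · rw [if_neg (by simp)]
      cases t <;> rfl
    · by_cases hlk : l = k
      · subst hlk
        rw [if_pos rfl]
        cases t <;> simp [Mx, b]
      · rw [if_neg (by simpa using hlk)]
        cases t <;> simp [Mx, Function.update_of_ne hlk]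
  have h2 : ((Mx v).updateRow (some k) b).det = pr ((Mx v).adjugate none (some k),
      fun j => (Mx v).adjugate (some j) (some k)) ρ := by
    rw [← Matrix.cramer_transpose_apply, Matrix.cramer_eq_adjugate_mulVec, Matrix.mulVec,
      dotProduct, Fintype.sum_option]
    simp only [← Matrix.adjugate_transpose, Matrix.transpose_apply]
    rfl
  have h3 : pr (tS v k) ρ = (Mx v).det.sign * pr ((Mx v).adjugate none (some k),
      fun j => (Mx v).adjugate (some j) (some k)) ρ :=
    pr_smul (Mx v).det.sign (((Mx v).adjugate none (some k),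
      fun j => (Mx v).adjugate (some j) (some k)) : Mon J) ρ
  have h4 : (Mx v).det.sign.natAbs = 1 := by
    apply Int.natAbs_sign_of_ne_zero
    intro h
    unfold nV at hv
    rw [h] at hv
    simp at hv
  rw [h3, Int.natAbs_mul, h4, one_mul]
  unfold nV
  rw [h1, h2]

/-- Proof: `pr_tS`: `pr (tS v k) (v k) = nV v ≠ 0 = pr (tS v k) (v l)` for `l ≠ k`. -/
theorem nV_inj {v : J → Ray J} (hv : 0 < nV v) : Function.Injective v := by
  intro k l h
  by_contra hkl
  have h1 := pr_tS v k l
  rw [if_neg hkl, ← h, pr_tS, if_pos rfl] at h1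
  omega

end Pool.Agent.DG
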