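import Mathlib

set_option autoImplicit false

/-!
# Diagonal hypersurfaces: cones and fans, definitions

`J` is the index set of the variables `x_j`. Monomials `p ^ a ∏ x_j ^ b_j` have exponents
`(a, b) ∈ ℤ × ℤ ^ J`; rays are weights `(h, r) ∈ ℕ × ℕ ^ J` (`h` is the weight of `p`, `r_j` the
weight of `x_j`). Only monomials of degree `0` are functions, so rays are taken modulo
`(0; 1, ..., 1)`, and a cone has `|J|` rays.
-/

namespace Pool.Agent.DG

/-- Rays: weights of `p` and of the variables. -/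
abbrev Ray (J : Type) : Type := ℕ × (J → ℕ)

/-- Exponents of the monomials `p ^ a ∏ x_j ^ b_j`. -/
abbrev Mon (J : Type) : Type := ℤ × (J → ℤ)

section

variable {J : Type} [Fintype J]

/-- The weight of a monomial. -/
def pr (m : Mon J) (ρ : Ray J) : ℤ := m.1 * ρ.1 + ∑ j, m.2 j * ρ.2 j

/-- The degree of a monomial in the variables `x_j`. -/
def dg (m : Mon J) : ℤ := ∑ j, m.2 j

variable [DecidableEq J]

/-- The ray of the divisor `x_j = 0`. -/
def eR (j : J) : Ray J := (0, Pi.single j 1)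

/-- The matrix of a cone with the rays `v k`: the row `none` is `(0; 1, ..., 1)`, the row `some k`
is `v k`. -/
def Mx (v : J → Ray J) : Matrix (Option J) (Option J) ℤ
  | none, none => 0
  | none, some _ => 1
  | some k, none => ((v k).1 : ℤ)
  | some k, some j => ((v k).2 j : ℤ)

/-- The index of the cone: the absolute value of the determinant. -/
def nV (v : J → Ray J) : ℕ := (Mx v).det.natAbs

/-- The dual vectors of the cone, multiplied by the index. -/
def tS (v : J → Ray J) (k : J) : Mon J :=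
  ((Mx v).det.sign * (Mx v).adjugate none (some k),
    fun j => (Mx v).det.sign * (Mx v).adjugate (some j) (some k))

/-- The exponent of the monomial `p ^ (c a) x_a ^ d`. -/
def Mb (c : J → ℕ) (d : ℕ) (a : J) : Mon J := ((c a : ℤ), Pi.single a (d : ℤ))

/-- A projective fan, given by its maximal cones `v i`, `i : I`, and the vertices `m i` of the
polyhedron whose normal fan it is. All vertices have the degree `D`; `m i` has the smallest weight
among all vertices for the rays of `v i` (`le`), and only for them (`lt`, `e1`); the only rays of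
weight `h = 0` are the `eR j`; `adj`: the neighbours; `inf`: the unbounded edges; `lab`: in each
cone one of the monomials `p ^ (c a) x_a ^ d` has the smallest weight. -/
structure Fan {I : Type} (c : J → ℕ) (d : ℕ) (v : I → J → Ray J) (m : I → Mon J) (D : ℕ) :
    Prop where
  pos : 0 < D
  nd : ∀ i, 0 < nV (v i)
  md : ∀ i, dg (m i) = D
  le : ∀ i i' k, pr (m i) (v i k) ≤ pr (m i') (v i k)
  lt : ∀ i i' k, pr (m i') (v i k) ≤ pr (m i) (v i k) → v i k ∈ Set.range (v i')
  e0 : ∀ i j, 0 ≤ (m i).2 j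
  e1 : ∀ i j, (m i).2 j = 0 → eR j ∈ Set.range (v i)
  e2 : ∀ i j, eR j ∈ Set.range (v i) → (m i).2 j = 0
  hor : ∀ i k, (v i k).1 = 0 → ∃ j, v i k = eR j
  adj : ∀ i k, (∀ l, l ≠ k → (v i l).1 = 0) ∨
    ∃ i', (∀ l, l ≠ k → v i l ∈ Set.range (v i')) ∧ v i k ∉ Set.range (v i')
  inf : ∀ j, ∃ i, ∀ l, l ≠ j → eR l ∈ Set.range (v i)
  lab : ∀ i, ∃ a, ∀ k j, pr (Mb c d a) (v i k) ≤ pr (Mb c d j) (v i k)

/-- The cone `v i` contains the ray `ρ`. -/
def Inn {I : Type} (v : I → J → Ray J) (ρ : Ray J) (i : I) : Prop := ∀ k, 0 ≤ pr (tS (v i) k) ρ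

/-- The cones of the star subdivision: the old cones which do not contain `ρ`, and the cones in
which one ray `v i k` is replaced by `ρ`. -/
abbrev I2 {I : Type} (v : I → J → Ray J) (ρ : Ray J) : Type :=
  {i : I // ¬ Inn v ρ i} ⊕ {x : I × J // Inn v ρ x.1 ∧ 0 < pr (tS (v x.1) x.2) ρ}

/-- The rays of the cones of the star subdivision. -/
def v2 {I : Type} (v : I → J → Ray J) (ρ : Ray J) : I2 v ρ → J → Ray J :=
  Sum.elim (fun i => v i.1) fun x => Function.update (v x.1.1) x.1.2 ρ

/-- The new vertices. -/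
def m2 {I : Type} (v : I → J → Ray J) (m : I → Mon J) (ρ : Ray J) (N : ℕ) (e : I → J → ℕ) :
    I2 v ρ → Mon J :=
  Sum.elim (fun i => (N : ℤ) • m i.1)
    fun x => (N : ℤ) • m x.1.1 + (e x.1.1 x.1.2 : ℤ) • tS (v x.1.1) x.1.2

/-- The numbers used in the star subdivision. -/
structure SNum {I : Type} (v : I → J → Ray J) (ρ : Ray J) (N c : ℕ) (e : I → J → ℕ) : Prop where
  c0 : 0 < c
  ec : ∀ i k, 0 < pr (tS (v i) k) ρ → 0 < e i k ∧ (e i k : ℤ) * pr (tS (v i) k) ρ = c
  cN : c < N
  eN : ∀ i k i' k', (e i k : ℤ) * |pr (tS (v i) k) (v i' k')| < N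
  jN : ∀ i k j, (e i k : ℤ) * |(tS (v i) k).2 j| < N

end

end Pool.Agent.DG
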