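import Pool.Agent.DG.TrB

set_option autoImplicit false

/-! # TRE: the cones which contain a given ray -/

namespace Pool.Agent.DG

variable {J : Type} [Fintype J] [DecidableEq J] {I : Type} {c : J → ℕ} {d D : ℕ}
  {v : I → J → Ray J} {m : I → Mon J}

private theorem TRE_key (F : Fan c d v m D) (ρ : Ray J) (i i' : I) :
    (nV (v i) : ℤ) * (pr (m i') ρ - pr (m i) ρ) =
      ∑ k, (pr (m i') (v i k) - pr (m i) (v i k)) * pr (tS (v i) k) ρ := by
  have h := exp_pr (v i) (m := m i' - m i) (by rw [dg_sub, F.md, F.md, sub_self]) ρ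
  simpa only [pr_sub] using h

private theorem TRE_term (F : Fan c d v m D) {ρ : Ray J} {i : I} (hi : Inn v ρ i) (i' : I) (k : J) :
    0 ≤ (pr (m i') (v i k) - pr (m i) (v i k)) * pr (tS (v i) k) ρ :=
  mul_nonneg (sub_nonneg.2 (F.le i i' k)) (hi k)

/-- Proof. `m i' - m i` has degree `0`, so by `exp_pr` `nV (v i) * pr (m i' - m i) ρ` is the sum of the
`pr (m i' - m i) (v i k) * pr (tS (v i) k) ρ`, all `≥ 0` (`Fan.le`). -/
theorem star_ge (F : Fan c d v m D) {ρ : Ray J} {i : I} (hi : Inn v ρ i) (i' : I) :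
    pr (m i) ρ ≤ pr (m i') ρ := by
  have h1 := TRE_key F ρ i i'
  have h2 : (0 : ℤ) < nV (v i) := by exact_mod_cast F.nd i
  have h3 : 0 ≤ ∑ k, (pr (m i') (v i k) - pr (m i) (v i k)) * pr (tS (v i) k) ρ :=
    Finset.sum_nonneg fun k _ => TRE_term F hi i' k
  rw [← h1] at h3
  exact sub_nonneg.1 (nonneg_of_mul_nonneg_right h3 h2)

/-- Proof. In the sum of `star_ge` all terms are zero; so if `pr (tS (v i) k) ρ > 0` then
`pr (m i' - m i) (v i k) = 0`, and `Fan.lt`. -/
theorem star_com (F : Fan c d v m D) {ρ : Ray J} {i i' : I} (hi : Inn v ρ i)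
    (h : pr (m i') ρ ≤ pr (m i) ρ) {k : J} (hk : 0 < pr (tS (v i) k) ρ) :
    v i k ∈ Set.range (v i') := by
  have h1 := TRE_key F ρ i i'
  have h0 : pr (m i') ρ - pr (m i) ρ = 0 := le_antisymm (by linarith) (by linarith [star_ge F hi i'])
  rw [h0, mul_zero] at h1
  have h2 := (Finset.sum_eq_zero_iff_of_nonneg fun k _ => TRE_term F hi i' k).1 h1.symm k
    (Finset.mem_univ k)
  rcases mul_eq_zero.1 h2 with h3 | h3
  · exact F.lt i i' k (by linarith)
  · exact absurd h3 hk.ne'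

/-- Proof. By `exp_pr` for the cone `i` and `m = tS (v i') l` (degree `0`):
`nV (v i) * pr (tS (v i') l) ρ = ∑ k, pr (tS (v i') l) (v i k) * pr (tS (v i) k) ρ`. If `pr (tS (v i) k) ρ > 0` then by `star_com`
`v i k = v i' κ` for some `κ` and `pr (tS (v i') l) (v i' κ)` is `nV (v i')` if `l = κ` and `0` otherwise (`pr_tS`). So the sum is
`≥ 0`. -/
theorem star_in (F : Fan c d v m D) {ρ : Ray J} {i i' : I} (hi : Inn v ρ i)
    (h : pr (m i') ρ ≤ pr (m i) ρ) : Inn v ρ i' := by
  intro l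
  have h1 := exp_pr (v i) (dg_tS (v i') l) ρ
  have h2 : (0 : ℤ) < nV (v i) := by exact_mod_cast F.nd i
  have h3 : 0 ≤ ∑ k, pr (tS (v i') l) (v i k) * pr (tS (v i) k) ρ := by
    refine Finset.sum_nonneg fun k _ => ?_
    rcases (hi k).eq_or_lt with h4 | h4
    · rw [← h4, mul_zero]
    · obtain ⟨κ, hκ⟩ := star_com F hi h h4
      refine mul_nonneg ?_ h4.le
      rw [← hκ, pr_tS]
      split_ifs
      · exact Int.natCast_nonneg _
      · exact le_rfl
  rw [← h1] at h3
  exact nonneg_of_mul_nonneg_right h3 h2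

/-- The coefficients are the same in both cones. Proof. In the sum of `star_in` for `l = k'` only the term with `k` is
not zero: if `pr (tS (v i) k1) ρ > 0` and `v i k1 = v i' κ` with `κ = k'` then `v i k1 = v i k`, `k1 = k` (`nV_inj`). This also shows the claim
if `pr (tS (v i) k) ρ = 0`. -/
theorem star_b (F : Fan c d v m D) {ρ : Ray J} {i i' : I} (hi : Inn v ρ i)
    (h : pr (m i') ρ ≤ pr (m i) ρ) {k k' : J} (hk : v i k = v i' k') :
    (nV (v i) : ℤ) * pr (tS (v i') k') ρ = nV (v i') * pr (tS (v i) k) ρ := by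
  rw [exp_pr (v i) (dg_tS (v i') k') ρ, Finset.sum_eq_single k]
  · rw [hk, pr_tS, if_pos rfl]
  · intro k1 _ hk1
    rcases (hi k1).eq_or_lt with h4 | h4
    · rw [← h4, mul_zero]
    · obtain ⟨κ, hκ⟩ := star_com F hi h h4
      rw [← hκ, pr_tS, if_neg, zero_mul]
      intro h5
      rw [← h5, ← hk] at hκ
      exact hk1 (nV_inj (F.nd i) hκ).symm
  · intro h4
    exact absurd (Finset.mem_univ k) h4

end Pool.Agent.DG
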