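import Pool.Agent.DG.TrE

set_option autoImplicit false

/-! # TRF: the ray of the star subdivision -/

namespace Pool.Agent.DG

variable {J : Type} [Fintype J] [DecidableEq J] {I : Type} {c : J → ℕ} {d D : ℕ}
  {v : I → J → Ray J} {m : I → Mon J}

/-- Proof. Both cones contain `ρ`, so `pr (m i) ρ = pr (m i0) ρ` (`star_ge` twice). If `pr (tS (v i) k) ρ ≤ 0` use `F.nd i`. Otherwise by
`star_com` `v i k = v i0 k'` and by `star_b` `nV (v i) * pr (tS (v i0) k') ρ = nV (v i0) * pr (tS (v i) k) ρ`, with `pr (tS (v i0) k') ρ < nV (v i0)`. -/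
theorem f_lt (F : Fan c d v m D) {ρ : Ray J} {i0 : I}
    (h0 : ∀ k, 0 ≤ pr (tS (v i0) k) ρ ∧ pr (tS (v i0) k) ρ < nV (v i0)) {i : I}
    (hi : Inn v ρ i) (k : J) : pr (tS (v i) k) ρ < nV (v i) := by
  have hi0 : Inn v ρ i0 := fun k => (h0 k).1
  have hN : (0 : ℤ) < nV (v i) := by exact_mod_cast F.nd i
  have hN0 : (0 : ℤ) < nV (v i0) := by exact_mod_cast F.nd i0
  by_cases hk : 0 < pr (tS (v i) k) ρ
  · have h1 := star_ge F hi0 i
    obtain ⟨k', hk'⟩ := star_com F hi h1 hk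
    have h2 := star_b F hi h1 hk'.symm
    have h3 := (h0 k').2
    have h4 : (nV (v i) : ℤ) * pr (tS (v i0) k') ρ < nV (v i) * nV (v i0) :=
      mul_lt_mul_of_pos_left h3 hN
    rw [h2, mul_comm (nV (v i) : ℤ)] at h4
    exact lt_of_mul_lt_mul_left h4 hN0.le
  · exact (not_lt.1 hk).trans_lt hN

/-- Proof. `k0` with `pr (tS (v i0) k0) ρ > 0`; `star_com` gives `v i0 k0 = v i k`, `star_b`. -/
theorem f_pos (F : Fan c d v m D) {ρ : Ray J} {i0 : I}
    (h0 : ∀ k, 0 ≤ pr (tS (v i0) k) ρ ∧ pr (tS (v i0) k) ρ < nV (v i0))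
    (h1 : ∃ k, 0 < pr (tS (v i0) k) ρ) {i : I} (hi : Inn v ρ i) :
    ∃ k, 0 < pr (tS (v i) k) ρ := by
  have hi0 : Inn v ρ i0 := fun k => (h0 k).1
  have hN : (0 : ℤ) < nV (v i) := by exact_mod_cast F.nd i
  have hN0 : (0 : ℤ) < nV (v i0) := by exact_mod_cast F.nd i0
  obtain ⟨k0, hk0⟩ := h1
  have h2 := star_ge F hi i0
  obtain ⟨k, hk⟩ := star_com F hi0 h2 hk0
  refine ⟨k, ?_⟩
  have h3 := star_b F hi0 h2 hk.symm
  have h4 : 0 < (nV (v i) : ℤ) * pr (tS (v i0) k0) ρ := mul_pos hN hk0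
  rw [← h3] at h4
  exact pos_of_mul_pos_right h4 hN0.le

/-- `ρ` is not one of the rays. Proof. If `ρ = v i k` then `pr (tS (v i) l) ρ` is `nV (v i)` for `l = k` and `0` otherwise (`pr_tS`), so
`Inn v ρ i`, and `f_lt` for `k` is a contradiction. -/
theorem f_not (F : Fan c d v m D) {ρ : Ray J} {i0 : I}
    (h0 : ∀ k, 0 ≤ pr (tS (v i0) k) ρ ∧ pr (tS (v i0) k) ρ < nV (v i0)) (i : I) (k : J) :
    v i k ≠ ρ := by
  intro h
  have hi : Inn v ρ i := by
    intro l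
    rw [← h, pr_tS]
    split_ifs
    · exact Int.natCast_nonneg _
    · exact le_rfl
  have h1 := f_lt F h0 hi k
  rw [← h, pr_tS, if_pos rfl] at h1
  exact lt_irrefl _ h1

/-- Proof. Suppose `ρ.1 = 0`, `v = v i0`, `N = nV v > 0`. `exp_pr` for `(1, 0)`: `0 = ∑ k, (v k).1 * pr (tS v k) ρ`, so `(v k).1 = 0` if `pr (tS v k) ρ > 0`, and then
`v k = eR (j k)` (`Fan.hor`). Let `k0` be such an index. There is a `j'` which is not of the form `j k` with `pr (tS v k) ρ > 0`: otherwise there are `|J|`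
such `j k`, so the rays `v k` with `pr (tS v k) ρ > 0` are `|J|` many (`v` is injective, `nV_inj`), i.e. all `k`, and all `(v k).1 = 0`, which contradicts `exp_tS` for
`(1, 0)` (`N • (1, 0) = 0`). `exp_pr` for `m = (0, Pi.single (j k0) 1 - Pi.single j' 1)` (degree `0`):
`N * pr m ρ = ∑ k, pr m (v k) * pr (tS v k) ρ = pr (tS v k0) ρ` (for the other `k` with `pr (tS v k) ρ ≠ 0`: `v k = eR (j k)`, `j k ≠ j k0` by injectivity, `j k ≠ j'`, so
`pr m (v k) = 0`). So `N` divides `pr (tS v k0) ρ`, which is in `(0, N)`: a contradiction. -/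
theorem f_h (F : Fan c d v m D) {ρ : Ray J} {i0 : I}
    (h0 : ∀ k, 0 ≤ pr (tS (v i0) k) ρ ∧ pr (tS (v i0) k) ρ < nV (v i0))
    (h1 : ∃ k, 0 < pr (tS (v i0) k) ρ) : 0 < ρ.1 := by
  by_contra hρ
  have hρ0 : ρ.1 = 0 := by omega
  have hN0 : (0 : ℤ) < nV (v i0) := by exact_mod_cast F.nd i0
  have hd : dg ((1, 0) : Mon J) = 0 := by simp [dg]
  have hp : ∀ r : Ray J, pr ((1, 0) : Mon J) r = r.1 := fun r => by simp [pr]
  have h2 := exp_pr (v i0) hd ρ
  rw [hp, hρ0] at h2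
  simp only [hp, Nat.cast_zero, mul_zero] at h2
  have h3 : ∀ k, ((v i0 k).1 : ℤ) * pr (tS (v i0) k) ρ = 0 := fun k =>
    (Finset.sum_eq_zero_iff_of_nonneg fun k _ =>
      mul_nonneg (Int.natCast_nonneg _) (h0 k).1).1 h2.symm k (Finset.mem_univ k)
  have h4 : ∀ k, 0 < pr (tS (v i0) k) ρ → ∃ j, v i0 k = eR j := by
    intro k hk
    rcases mul_eq_zero.1 (h3 k) with h5 | h5
    · exact F.hor i0 k (by exact_mod_cast h5)
    · exact absurd h5 hk.ne'
  have heR : Function.Injective (eR : J → Ray J) := by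
    intro a b hab
    have h5 : (Pi.single a 1 : J → ℕ) = Pi.single b 1 := congrArg Prod.snd hab
    by_contra hne
    have h6 := congrFun h5 a
    rw [Pi.single_eq_same, Pi.single_eq_of_ne hne] at h6
    exact one_ne_zero h6
  have hinj := nV_inj (F.nd i0)
  -- a variable which does not occur
  obtain ⟨j', hj'⟩ : ∃ j' : J, ∀ k, 0 < pr (tS (v i0) k) ρ → v i0 k ≠ eR j' := by
    by_contra hcon
    push Not at hcon
    choose g hg1 hg2 using hcon
    have hgi : Function.Injective g := fun a b hab => heR (by rw [← hg2 a, ← hg2 b, hab])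
    have hgs := Finite.surjective_of_injective hgi
    have h5 := exp_tS (v i0) hd
    rw [Finset.sum_eq_zero] at h5
    · have h6 := congrArg Prod.fst h5
      have h7 : (nV (v i0) : ℤ) * 1 = 0 := h6
      rw [mul_one] at h7
      exact hN0.ne' h7
    · intro k _
      obtain ⟨j, rfl⟩ := hgs k
      rw [hp, hg2]
      simp [eR]
  obtain ⟨k0, hk0⟩ := h1
  obtain ⟨j0, hj0⟩ := h4 k0 hk0
  have hne : j0 ≠ j' := fun h5 => hj' k0 hk0 (by rw [hj0, h5])
  set M : Mon J := (0, Pi.single j0 1 - Pi.single j' 1) with hM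
  have hdM : dg M = 0 := by
    simp [dg, hM]
  have hM1 : M.2 j0 = 1 := by
    rw [hM]
    simp [Pi.single_eq_of_ne hne]
  have hM2 : ∀ j, j ≠ j0 → j ≠ j' → M.2 j = 0 := by
    intro j h5 h6
    rw [hM]
    simp [Pi.single_eq_of_ne h5, Pi.single_eq_of_ne h6]
  have h5 := exp_pr (v i0) hdM ρ
  rw [Finset.sum_eq_single k0] at h5
  · rw [hj0, pr_eR, hM1, one_mul] at h5
    have h6 : (nV (v i0) : ℤ) ∣ pr (tS (v i0) k0) ρ := ⟨_, h5.symm⟩
    exact absurd (Int.le_of_dvd hk0 h6) (not_le.2 (h0 k0).2)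
  · intro k _ hk
    rcases (h0 k).1.eq_or_lt with h6 | h6
    · rw [← h6, mul_zero]
    · obtain ⟨j, hj⟩ := h4 k h6
      rw [hj, pr_eR, hM2, zero_mul]
      · intro h7
        rw [h7, ← hj0] at hj
        exact hk (hinj hj)
      · intro h7
        exact hj' k h6 (by rw [hj, h7])
  · intro h6
    exact absurd (Finset.mem_univ k0) h6

end Pool.Agent.DG
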