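import Pool.Agent.DG.TrF

set_option autoImplicit false

/-! # TRG: the numbers of the star subdivision, and its vertices -/

namespace Pool.Agent.DG

variable {J : Type} [Fintype J] [DecidableEq J] {I : Type} {c : J → ℕ} {d D : ℕ}
  {v : I → J → Ray J} {m : I → Mon J}

/-- Proof. `I` is finite. `c'` = the product over all `(i, k)` of `pr (tS (v i) k) ρ` if this is positive and `1` otherwise (a natural number);
`e i k = c' / pr (tS (v i) k) ρ` (`0` if the pairing is not positive); `N` larger than all the finitely many numbers. -/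
theorem exists_snum [Finite I] (v : I → J → Ray J) (ρ : Ray J) : ∃ N c' e, SNum v ρ N c' e := by
  classical
  have : Fintype I := Fintype.ofFinite I
  let P : I × J → ℤ := fun x => pr (tS (v x.1) x.2) ρ
  let q : I × J → ℕ := fun x => if 0 < P x then (P x).toNat else 1
  have hq : ∀ x, 0 < q x := by
    intro x
    by_cases h : 0 < P x
    · simp only [q, if_pos h]
      omega
    · simp only [q, if_neg h]
      exact one_pos
  let c' : ℕ := ∏ x, q x
  let e : I → J → ℕ := fun i k => if 0 < P (i, k) then c' / q (i, k) else 0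
  let A : (I × J) × (I × J) → ℕ := fun x =>
    e x.1.1 x.1.2 * (pr (tS (v x.1.1) x.1.2) (v x.2.1 x.2.2)).natAbs
  let B : (I × J) × J → ℕ := fun x => e x.1.1 x.1.2 * ((tS (v x.1.1) x.1.2).2 x.2).natAbs
  have hc0 : 0 < c' := Finset.prod_pos fun x _ => hq x
  refine ⟨1 + c' + ∑ x, A x + ∑ x, B x, c', e, hc0, fun i k h => ?_, by omega, fun i k i' k' => ?_,
    fun i k j => ?_⟩
  · have hdvd : q (i, k) ∣ c' := Finset.dvd_prod_of_mem q (Finset.mem_univ (i, k))
    have h1 : e i k = c' / q (i, k) := if_pos h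
    have h2 : q (i, k) = (P (i, k)).toNat := if_pos h
    have h3 : ((q (i, k) : ℕ) : ℤ) = P (i, k) := by
      rw [h2]
      exact Int.toNat_of_nonneg (le_of_lt h)
    refine ⟨?_, ?_⟩
    · rw [h1]
      exact Nat.div_pos (Nat.le_of_dvd hc0 hdvd) (hq _)
    · show (e i k : ℤ) * P (i, k) = c'
      rw [h1, ← h3]
      exact_mod_cast Nat.div_mul_cancel hdvd
  · have h1 := Finset.single_le_sum (f := A) (fun x _ => Nat.zero_le (A x))
      (Finset.mem_univ ((i, k), (i', k')))
    have h2 : (e i k : ℤ) * |pr (tS (v i) k) (v i' k')| = (A ((i, k), (i', k')) : ℤ) := by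
      simp only [A]
      push_cast
      rfl
    rw [h2]
    exact_mod_cast (by omega : A ((i, k), (i', k')) < 1 + c' + ∑ x, A x + ∑ x, B x)
  · have h1 := Finset.single_le_sum (f := B) (fun x _ => Nat.zero_le (B x))
      (Finset.mem_univ ((i, k), j))
    have h2 : (e i k : ℤ) * |(tS (v i) k).2 j| = (B ((i, k), j) : ℤ) := by
      simp only [B]
      push_cast
      rfl
    rw [h2]
    exact_mod_cast (by omega : B ((i, k), j) < 1 + c' + ∑ x, A x + ∑ x, B x)

/-- The values at the rays of the cones of the subdivision. For `y = inl i` and `k`: `pr (m2 y) (v2 y k) = N * pr (m i) (v i k)`. For `y = inr (i, k0)` and `k ≠ k0`: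
`v2 y k = v i k` and the value is `N * pr (m i) (v i k)` (`pr_tS`); for `k = k0`: `v2 y k = ρ` and the value is `N * pr (m i) ρ + c'` (`SNum.ec`). -/
theorem m2_val {ρ : Ray J} {N c' : ℕ} {e : I → J → ℕ} (hs : SNum v ρ N c' e) (y : I2 v ρ)
    (k : J) : (∃ i l, v2 v ρ y k = v i l ∧ pr (m2 v m ρ N e y) (v2 v ρ y k) = N * pr (m i) (v i l)) ∨
      ∃ i, Inn v ρ i ∧ v2 v ρ y k = ρ ∧ pr (m2 v m ρ N e y) (v2 v ρ y k) = N * pr (m i) ρ + c' := by
  rcases y with i | x
  · refine Or.inl ⟨i.1, k, rfl, ?_⟩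
    show pr ((N : ℤ) • m i.1) (v i.1 k) = _
    rw [pr_smul]
  · have h1 : ∀ r : Ray J, pr (m2 v m ρ N e (Sum.inr x)) r =
        N * pr (m x.1.1) r + e x.1.1 x.1.2 * pr (tS (v x.1.1) x.1.2) r := by
      intro r
      show pr ((N : ℤ) • m x.1.1 + (e x.1.1 x.1.2 : ℤ) • tS (v x.1.1) x.1.2) r = _
      rw [pr_add, pr_smul, pr_smul]
    by_cases hk : k = x.1.2
    · have h2 : v2 v ρ (Sum.inr x) k = ρ := by
        show Function.update (v x.1.1) x.1.2 ρ k = ρ
        rw [hk, Function.update_self]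
      refine Or.inr ⟨x.1.1, x.2.1, h2, ?_⟩
      rw [h2, h1, (hs.ec _ _ x.2.2).2]
    · have h2 : v2 v ρ (Sum.inr x) k = v x.1.1 k := by
        show Function.update (v x.1.1) x.1.2 ρ k = v x.1.1 k
        rw [Function.update_of_ne hk]
      refine Or.inl ⟨x.1.1, k, h2, ?_⟩
      rw [h2, h1, pr_tS, if_neg (Ne.symm hk), mul_zero, add_zero]

/-- The value at an old ray. Proof. `y = inl i'`: `N * pr (m i') r ≥ N * pr (m i) r` (`Fan.le`), and equality gives `r ∈ range (v i')` (`Fan.lt`; `N > 0`).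
`y = inr (i', k')`: the value is `N * pr (m i') r + e i' k' * pr (tS (v i') k') r`. If `r = v i' l`: then `pr (m i') r = pr (m i) r` (`Fan.le` both ways), and the
second summand is `e i' k' * nV (v i') > 0` if `l = k'` and `0` otherwise; so the value is `≥`, and equality means `l ≠ k'`, so `r = v2 y l`. If `r ∉ range (v i')` then
`pr (m i') r ≥ pr (m i) r + 1` (`Fan.le`, `Fan.lt`) and `e i' k' * |pr (tS (v i') k') r| < N` (`SNum.eN`), so the value is larger. -/
theorem m2_old (F : Fan c d v m D) {ρ : Ray J} {N c' : ℕ} {e : I → J → ℕ}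
    (hs : SNum v ρ N c' e) (i : I) (l : J) (y : I2 v ρ) :
    N * pr (m i) (v i l) ≤ pr (m2 v m ρ N e y) (v i l) ∧
      (pr (m2 v m ρ N e y) (v i l) ≤ N * pr (m i) (v i l) → v i l ∈ Set.range (v2 v ρ y)) := by
  have hN : (0 : ℤ) < N := by
    have := hs.cN
    exact_mod_cast (by omega : 0 < N)
  rcases y with i' | x
  · have h1 : pr (m2 v m ρ N e (Sum.inl i')) (v i l) = N * pr (m i'.1) (v i l) := by
      show pr ((N : ℤ) • m i'.1) (v i l) = _
      rw [pr_smul]
    rw [h1]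
    refine ⟨mul_le_mul_of_nonneg_left (F.le i i'.1 l) hN.le, fun h2 => ?_⟩
    exact F.lt i i'.1 l (le_of_mul_le_mul_left h2 hN)
  · have h1 : pr (m2 v m ρ N e (Sum.inr x)) (v i l) =
        N * pr (m x.1.1) (v i l) + e x.1.1 x.1.2 * pr (tS (v x.1.1) x.1.2) (v i l) := by
      show pr ((N : ℤ) • m x.1.1 + (e x.1.1 x.1.2 : ℤ) • tS (v x.1.1) x.1.2) (v i l) = _
      rw [pr_add, pr_smul, pr_smul]
    have hle := F.le i x.1.1 l
    rw [h1]
    by_cases hr : v i l ∈ Set.range (v x.1.1)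
    · obtain ⟨κ, hκ⟩ := hr
      have h2 : pr (m x.1.1) (v i l) = pr (m i) (v i l) := by
        refine le_antisymm ?_ hle
        rw [← hκ]
        exact F.le x.1.1 i κ
      rw [h2, ← hκ, pr_tS]
      have hnd : (0 : ℤ) < nV (v x.1.1) := by exact_mod_cast F.nd x.1.1
      have he : (0 : ℤ) < e x.1.1 x.1.2 := by exact_mod_cast (hs.ec _ _ x.2.2).1
      by_cases h3 : x.1.2 = κ
      · rw [if_pos h3]
        refine ⟨le_add_of_nonneg_right (mul_pos he hnd).le, fun h4 => ?_⟩
        have := mul_pos he hnd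
        linarith
      · rw [if_neg h3, mul_zero, add_zero]
        refine ⟨le_rfl, fun _ => ⟨κ, ?_⟩⟩
        show Function.update (v x.1.1) x.1.2 ρ κ = v x.1.1 κ
        rw [Function.update_of_ne (Ne.symm h3)]
    · have h2 : pr (m i) (v i l) + 1 ≤ pr (m x.1.1) (v i l) := by
        by_contra h3
        exact hr (F.lt i x.1.1 l (by omega))
      have h3 := hs.eN x.1.1 x.1.2 i l
      have h4 : -((e x.1.1 x.1.2 : ℤ) * |pr (tS (v x.1.1) x.1.2) (v i l)|) ≤
          e x.1.1 x.1.2 * pr (tS (v x.1.1) x.1.2) (v i l) := by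
        rw [← mul_neg]
        exact mul_le_mul_of_nonneg_left (neg_abs_le _) (Int.natCast_nonneg _)
      have h5 : (N : ℤ) * (pr (m i) (v i l) + 1) ≤ N * pr (m x.1.1) (v i l) :=
        mul_le_mul_of_nonneg_left h2 hN.le
      have h6 : (N : ℤ) * pr (m i) (v i l) < N * pr (m x.1.1) (v i l) +
          e x.1.1 x.1.2 * pr (tS (v x.1.1) x.1.2) (v i l) := by
        rw [mul_add, mul_one] at h5
        linarith
      exact ⟨h6.le, fun h7 => absurd h7 (not_le.2 h6)⟩

/-- The value at `ρ`. Proof. `y = inl i'` (`ρ` is not in the cone `i'`): `pr (m i') ρ ≥ pr (m i) ρ + 1` by `star_ge` and `star_in`, so `N * pr (m i') ρ ≥ N * pr (m i) ρ + N > N * pr (m i) ρ + c'`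
(`SNum.cN`). `y = inr (i', k')`: `pr (m i') ρ = pr (m i) ρ` (`star_ge` twice) and the value is `N * pr (m i') ρ + c'`; `ρ = v2 y k'`. -/
theorem m2_new (F : Fan c d v m D) {ρ : Ray J} {N c' : ℕ} {e : I → J → ℕ}
    (hs : SNum v ρ N c' e) {i : I} (hi : Inn v ρ i) (y : I2 v ρ) :
    N * pr (m i) ρ + c' ≤ pr (m2 v m ρ N e y) ρ ∧
      (pr (m2 v m ρ N e y) ρ ≤ N * pr (m i) ρ + c' → ρ ∈ Set.range (v2 v ρ y)) := by
  have hcN : (c' : ℤ) < N := by exact_mod_cast hs.cN
  have hN : (0 : ℤ) < N := lt_of_le_of_lt (Int.natCast_nonneg _) hcN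
  rcases y with i' | x
  · have h1 : pr (m2 v m ρ N e (Sum.inl i')) ρ = N * pr (m i'.1) ρ := by
      show pr ((N : ℤ) • m i'.1) ρ = _
      rw [pr_smul]
    have h2 : pr (m i) ρ + 1 ≤ pr (m i'.1) ρ := by
      by_contra h3
      exact i'.2 (star_in F hi (by omega))
    have h5 : (N : ℤ) * (pr (m i) ρ + 1) ≤ N * pr (m i'.1) ρ := mul_le_mul_of_nonneg_left h2 hN.le
    rw [mul_add, mul_one] at h5
    rw [h1]
    exact ⟨by linarith, fun h6 => absurd h6 (by linarith)⟩
  · have h1 : pr (m2 v m ρ N e (Sum.inr x)) ρ =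
        N * pr (m x.1.1) ρ + e x.1.1 x.1.2 * pr (tS (v x.1.1) x.1.2) ρ := by
      show pr ((N : ℤ) • m x.1.1 + (e x.1.1 x.1.2 : ℤ) • tS (v x.1.1) x.1.2) ρ = _
      rw [pr_add, pr_smul, pr_smul]
    have h2 : pr (m x.1.1) ρ = pr (m i) ρ :=
      le_antisymm (star_ge F x.2.1 i) (star_ge F hi x.1.1)
    rw [h1, (hs.ec _ _ x.2.2).2, h2]
    refine ⟨le_rfl, fun _ => ⟨x.1.2, ?_⟩⟩
    show Function.update (v x.1.1) x.1.2 ρ x.1.2 = ρ
    rw [Function.update_self]

end Pool.Agent.DG
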