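import Pool.Agent.DG.TrF

set_option autoImplicit false

/-! # TRH: the star subdivision and the divisors `x_j = 0` -/

namespace Pool.Agent.DG

variable {J : Type} [Fintype J] [DecidableEq J] {I : Type} {c : J → ℕ} {d D : ℕ}
  {v : I → J → Ray J} {m : I → Mon J}

/-- Proof. `y = inl i`: clear, from `F`. `y = inr (i, k)`: `(m2 y).2 j = N * (m i).2 j + e i k * (tS (v i) k).2 j` and `(tS (v i) k).2 j = pr (tS (v i) k) (eR j)` (`pr_eR`).
If `(m i).2 j ≥ 1` the value is positive (`SNum.jN`), and `eR j ∉ range (v i)` (`Fan.e2`), so `eR j = v2 y l` is impossible (`v2 y l` is `v i l` or `ρ`, and `ρ.1 > 0`).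
If `(m i).2 j = 0` then `eR j = v i l` (`Fan.e1`) and the value is `e i k * nV (v i) > 0` if `l = k`, and `0` if `l ≠ k` (`pr_tS`). In the first case `eR j ∉ range (v2 y)` (`nV_inj`, `ρ.1 > 0`), in the
second case `eR j = v2 y l`. -/
theorem m2_e (F : Fan c d v m D) {ρ : Ray J} (hρ : 0 < ρ.1) {N c' : ℕ} {e : I → J → ℕ}
    (hs : SNum v ρ N c' e) (y : I2 v ρ) (j : J) :
    0 ≤ (m2 v m ρ N e y).2 j ∧ ((m2 v m ρ N e y).2 j = 0 ↔ eR j ∈ Set.range (v2 v ρ y)) := by
  have hN : (0 : ℤ) < N := by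
    have := hs.cN
    exact_mod_cast (by omega : 0 < N)
  rcases y with i | x
  · have h1 : (m2 v m ρ N e (Sum.inl i)).2 j = N * (m i.1).2 j := rfl
    rw [h1]
    refine ⟨mul_nonneg hN.le (F.e0 i.1 j), fun h2 => ?_, fun h2 => ?_⟩
    · rcases mul_eq_zero.1 h2 with h3 | h3
      · exact absurd h3 hN.ne'
      · exact F.e1 i.1 j h3
    · have h3 : eR j ∈ Set.range (v i.1) := h2
      rw [F.e2 i.1 j h3, mul_zero]
  · have h1 : (m2 v m ρ N e (Sum.inr x)).2 j =
        N * (m x.1.1).2 j + e x.1.1 x.1.2 * (tS (v x.1.1) x.1.2).2 j := rfl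
    have hnew : ∀ l, v2 v ρ (Sum.inr x) l = eR j → l ≠ x.1.2 ∧ v x.1.1 l = eR j := by
      intro l hl
      have h2 : Function.update (v x.1.1) x.1.2 ρ l = eR j := hl
      by_cases h3 : l = x.1.2
      · rw [h3, Function.update_self] at h2
        rw [h2] at hρ
        exact absurd hρ (lt_irrefl 0)
      · rw [Function.update_of_ne h3] at h2
        exact ⟨h3, h2⟩
    have he : (0 : ℤ) < e x.1.1 x.1.2 := by exact_mod_cast (hs.ec _ _ x.2.2).1
    have hnd : (0 : ℤ) < nV (v x.1.1) := by exact_mod_cast F.nd x.1.1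
    rw [h1]
    by_cases h0 : (m x.1.1).2 j = 0
    · obtain ⟨l, hl⟩ := F.e1 x.1.1 j h0
      have h2 : (tS (v x.1.1) x.1.2).2 j = if x.1.2 = l then (nV (v x.1.1) : ℤ) else 0 := by
        rw [← pr_eR, ← hl, pr_tS]
      rw [h0, mul_zero, zero_add, h2]
      by_cases h3 : x.1.2 = l
      · rw [if_pos h3]
        refine ⟨(mul_pos he hnd).le, fun h4 => absurd h4 (mul_pos he hnd).ne', ?_⟩
        rintro ⟨l', hl'⟩
        obtain ⟨h5, h6⟩ := hnew l' hl'
        exact absurd (nV_inj (F.nd x.1.1) (h6.trans hl.symm)) (by rw [← h3]; exact h5)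
      · rw [if_neg h3, mul_zero]
        refine ⟨le_rfl, fun _ => ⟨l, ?_⟩, fun _ => rfl⟩
        show Function.update (v x.1.1) x.1.2 ρ l = eR j
        rw [Function.update_of_ne (Ne.symm h3), hl]
    · have h2 : 1 ≤ (m x.1.1).2 j := by
        have := F.e0 x.1.1 j
        omega
      have h3 := hs.jN x.1.1 x.1.2 j
      have h4 : -((e x.1.1 x.1.2 : ℤ) * |(tS (v x.1.1) x.1.2).2 j|) ≤
          e x.1.1 x.1.2 * (tS (v x.1.1) x.1.2).2 j := by
        rw [← mul_neg]
        exact mul_le_mul_of_nonneg_left (neg_abs_le _) (Int.natCast_nonneg _)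
      have h5 : (N : ℤ) * 1 ≤ N * (m x.1.1).2 j := mul_le_mul_of_nonneg_left h2 hN.le
      have h6 : 0 < (N : ℤ) * (m x.1.1).2 j + e x.1.1 x.1.2 * (tS (v x.1.1) x.1.2).2 j := by
        linarith
      refine ⟨h6.le, fun h7 => absurd h7 h6.ne', ?_⟩
      rintro ⟨l', hl'⟩
      obtain ⟨-, h8⟩ := hnew l' hl'
      exact absurd (F.e2 x.1.1 j ⟨l', h8⟩) h0

end Pool.Agent.DG
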