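import Pool.Agent.DG.TrF

set_option autoImplicit false

/-! # TRI: the star subdivision: neighbours -/

namespace Pool.Agent.DG

variable {J : Type} [Fintype J] [DecidableEq J] {I : Type} {c : J → ℕ} {d D : ℕ}
  {v : I → J → Ray J} {m : I → Mon J}

/-- Two cones with a common facet. Proof. The `v i l`, `l ≠ k`, are `|J| - 1` different elements of the range of the injective map `v i'` (`nV_inj`), which has `|J|` elements;
so there is exactly one `k0` with `v i' k0` not among them. -/
theorem facet (F : Fan c d v m D) {i i' : I} {k : J}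
    (h : ∀ l, l ≠ k → v i l ∈ Set.range (v i')) :
    ∃ k0, (∀ l, l ≠ k0 → ∃ l', l' ≠ k ∧ v i' l = v i l') ∧ ∀ l, l ≠ k → ∃ l', l' ≠ k0 ∧ v i l = v i' l' := by
  classical
  have hex : ∀ l, ∃ l', l ≠ k → v i' l' = v i l := by
    intro l
    by_cases hl : l ≠ k
    · obtain ⟨l', hl'⟩ := h l hl
      exact ⟨l', fun _ => hl'⟩
    · exact ⟨l, fun h' => absurd h' hl⟩
  choose g hg using hex
  set S : Finset J := (Finset.univ.erase k).image g with hS
  have hcard : S.card = Fintype.card J - 1 := by
    rw [hS, Finset.card_image_of_injOn, Finset.card_erase_of_mem (Finset.mem_univ k), Finset.card_univ]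
    intro a ha b hb hab
    have ha' : a ≠ k := Finset.ne_of_mem_erase (Finset.mem_coe.1 ha)
    have hb' : b ≠ k := Finset.ne_of_mem_erase (Finset.mem_coe.1 hb)
    apply nV_inj (F.nd i)
    rw [← hg a ha', ← hg b hb', hab]
  have hpos : 0 < Fintype.card J := Fintype.card_pos_iff.2 ⟨k⟩
  have hc1 : (Sᶜ).card = 1 := by
    rw [Finset.card_compl, hcard]
    omega
  obtain ⟨k0, hk0⟩ := Finset.card_eq_one.1 hc1
  have hmem : ∀ l, l ∈ S ↔ l ≠ k0 := by
    intro l
    have h1 : l ∈ Sᶜ ↔ l = k0 := by rw [hk0, Finset.mem_singleton]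
    rw [Finset.mem_compl] at h1
    tauto
  refine ⟨k0, fun l hl => ?_, fun l hl => ?_⟩
  · obtain ⟨l', hl', rfl⟩ := Finset.mem_image.1 ((hmem l).2 hl)
    have h1 : l' ≠ k := Finset.ne_of_mem_erase hl'
    exact ⟨l', h1, hg l' h1⟩
  · refine ⟨g l, (hmem (g l)).1 (Finset.mem_image_of_mem g ?_), (hg l hl).symm⟩
    exact Finset.mem_erase.2 ⟨hl, Finset.mem_univ l⟩

/-- If the rays of `i` with a positive coefficient are rays on which `m i'` is not larger. -/
private theorem TRI_le (F : Fan c d v m D) {ρ : Ray J} {i : I} (hi : Inn v ρ i) (i' : I)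
    (h : ∀ l, 0 < pr (tS (v i) l) ρ → pr (m i') (v i l) ≤ pr (m i) (v i l)) :
    pr (m i') ρ ≤ pr (m i) ρ := by
  have h1 := exp_pr (v i) (m := m i' - m i) (by rw [dg_sub, F.md, F.md, sub_self]) ρ
  simp only [pr_sub] at h1
  have hN : (0 : ℤ) < nV (v i) := by exact_mod_cast F.nd i
  have h2 : ∑ k, (pr (m i') (v i k) - pr (m i) (v i k)) * pr (tS (v i) k) ρ ≤ 0 := by
    refine Finset.sum_nonpos fun l _ => ?_
    rcases (hi l).eq_or_lt with h3 | h3
    · rw [← h3, mul_zero]
    · exact mul_nonpos_of_nonpos_of_nonneg (by linarith [h l h3]) h3.le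
  rw [← h1] at h2
  have h3 : pr (m i') ρ - pr (m i) ρ ≤ 0 := by
    by_contra h4
    exact absurd (mul_pos hN (not_le.1 h4)) (not_lt.2 h2)
  linarith

/-- Neighbours of the old cones. Proof. `Fan.adj i k`; in the second case `i'`. If `ρ` is not in the cone `i'` take `y' = inl i'`. Otherwise let `k0` be as in `facet`. If `pr (tS (v i') k0) ρ = 0` then all rays
`v i' l` with `pr (tS (v i') l) ρ > 0` are rays of `v i`, so `pr (m i - m i') (v i' l) = 0` for them (`Fan.le` both ways) and `pr (m i) ρ = pr (m i') ρ` by `exp_pr` for `v i'`, so `Inn v ρ i` by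
`star_in`: a contradiction. So it is positive and `y' = inr (i', k0)`: its rays are `ρ` and the `v i' l`, `l ≠ k0`. `v i k ≠ ρ` by `f_not`. -/
theorem adj_kept (F : Fan c d v m D) {ρ : Ray J} {i0 : I}
    (h0 : ∀ k, 0 ≤ pr (tS (v i0) k) ρ ∧ pr (tS (v i0) k) ρ < nV (v i0)) {i : I}
    (hi : ¬ Inn v ρ i) (k : J) : (∀ l, l ≠ k → (v i l).1 = 0) ∨
      ∃ y' : I2 v ρ, (∀ l, l ≠ k → v i l ∈ Set.range (v2 v ρ y')) ∧
        v i k ∉ Set.range (v2 v ρ y') := by
  rcases F.adj i k with h | ⟨i', h1, h2⟩
  · exact Or.inl h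
  refine Or.inr ?_
  by_cases hi' : Inn v ρ i'
  · obtain ⟨k0, a1, a2⟩ := facet F h1
    have hpos : 0 < pr (tS (v i') k0) ρ := by
      rcases (hi' k0).eq_or_lt with h3 | h3
      · exfalso
        apply hi
        refine star_in F hi' (TRI_le F hi' i fun l hl => ?_)
        have hl0 : l ≠ k0 := by
          rintro rfl
          rw [← h3] at hl
          exact lt_irrefl _ hl
        obtain ⟨l', -, hl'⟩ := a1 l hl0
        rw [hl']
        exact F.le i i' l'
      · exact h3
    refine ⟨Sum.inr ⟨(i', k0), hi', hpos⟩, fun l hl => ?_, ?_⟩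
    · obtain ⟨l', hl', h3⟩ := a2 l hl
      refine ⟨l', ?_⟩
      show Function.update (v i') k0 ρ l' = v i l
      rw [Function.update_of_ne hl', h3]
    · rintro ⟨l, hl⟩
      have h3 : Function.update (v i') k0 ρ l = v i k := hl
      by_cases h4 : l = k0
      · rw [h4, Function.update_self] at h3
        exact f_not F h0 i k h3.symm
      · rw [Function.update_of_ne h4] at h3
        exact h2 ⟨l, h3⟩
  · exact ⟨Sum.inl ⟨i', hi'⟩, h1, h2⟩

/-- Neighbours of the new cones. `u = v2 (inr (i, k))` is `v i` with `v i k` replaced by `ρ`. Proof.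
(a) The facet opposite to `ρ` (`l = k`): `Fan.adj i k`. In the second case `i'` does not contain `ρ`: otherwise `pr (m i') ρ ≤ pr (m i) ρ` (`star_ge`) and `star_com` gives `v i k ∈ range (v i')`. So
`y' = inl i'`; `ρ ∉ range (v i')` by `f_not`.
(b) `l ≠ k` and `pr (tS (v i) l) ρ > 0`: `y' = inr (i, l)`: it contains `ρ` and all `v i l'`, `l' ≠ l`; not `v i l` (`nV_inj`, `f_not`).
(c) `l ≠ k` and `pr (tS (v i) l) ρ = 0`: `Fan.adj i l`. If all other rays of `v i` have `h = 0` then `nV (v i) * ρ.1 = ∑ (v i l').1 * pr (tS (v i) l') ρ = 0` (`exp_pr` for `(1, 0)`), a contradiction to `ρ.1 > 0`. Otherwise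
`i'` contains all `v i l'`, `l' ≠ l`, so all `v i l'` with `pr (tS (v i) l') ρ > 0`; so `pr (m i') ρ = pr (m i) ρ` (`exp_pr`, `Fan.le` both ways) and `Inn v ρ i'` (`star_in`). `v i k = v i' k'`, and
`pr (tS (v i') k') ρ > 0` by `star_b`; `y' = inr (i', k')`: it contains `ρ` and the `v i l'`, `l' ≠ l, k` (`v i l' = v i' l''` with `l'' ≠ k'`), and not `v i l` (not in `range (v i')`, not `ρ`). -/
theorem adj_sub (F : Fan c d v m D) {ρ : Ray J} (hρ : 0 < ρ.1) {i0 : I}
    (h0 : ∀ k, 0 ≤ pr (tS (v i0) k) ρ ∧ pr (tS (v i0) k) ρ < nV (v i0)) {i : I}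
    (hi : Inn v ρ i) {k : J} (hk : 0 < pr (tS (v i) k) ρ) (l : J) :
    (∀ l', l' ≠ l → (Function.update (v i) k ρ l').1 = 0) ∨
      ∃ y' : I2 v ρ, (∀ l', l' ≠ l → Function.update (v i) k ρ l' ∈ Set.range (v2 v ρ y')) ∧
        Function.update (v i) k ρ l ∉ Set.range (v2 v ρ y') := by
  have hinj := nV_inj (F.nd i)
  by_cases hlk : l = k
  · subst hlk
    rcases F.adj i l with h | ⟨i', h1, h2⟩
    · refine Or.inl fun l' hl' => ?_
      rw [Function.update_of_ne hl']
      exact h l' hl'
    · have hi' : ¬ Inn v ρ i' := fun h3 => h2 (star_com F hi (star_ge F h3 i) hk)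
      refine Or.inr ⟨Sum.inl ⟨i', hi'⟩, fun l' hl' => ?_, ?_⟩
      · rw [Function.update_of_ne hl']
        exact h1 l' hl'
      · rw [Function.update_self]
        rintro ⟨l', hl'⟩
        exact f_not F h0 i' l' hl'
  · rw [Function.update_of_ne hlk]
    rcases (hi l).eq_or_lt with hl0 | hl0
    · rcases F.adj i l with h | ⟨i', h1, h2⟩
      · exfalso
        have hd : dg ((1, 0) : Mon J) = 0 := by simp [dg]
        have hp : ∀ r : Ray J, pr ((1, 0) : Mon J) r = r.1 := fun r => by simp [pr]
        have h3 := exp_pr (v i) hd ρ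
        rw [Finset.sum_eq_zero, hp] at h3
        · have hN : (0 : ℤ) < nV (v i) := by exact_mod_cast F.nd i
          have hr : (0 : ℤ) < ρ.1 := by exact_mod_cast hρ
          exact (mul_pos hN hr).ne' h3
        · intro l' _
          by_cases h4 : l' = l
          · rw [h4, ← hl0, mul_zero]
          · rw [hp, h l' h4, Nat.cast_zero, zero_mul]
      · have h3 : pr (m i') ρ ≤ pr (m i) ρ := by
          refine TRI_le F hi i' fun l' hl' => ?_
          have hne : l' ≠ l := by
            rintro rfl
            rw [← hl0] at hl'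
            exact lt_irrefl _ hl'
          obtain ⟨κ, hκ⟩ := h1 l' hne
          rw [← hκ]
          exact F.le i' i κ
        have hi' := star_in F hi h3
        obtain ⟨k', hk'⟩ := h1 k (Ne.symm hlk)
        have h4 := star_b F hi h3 hk'.symm
        have hN : (0 : ℤ) < nV (v i) := by exact_mod_cast F.nd i
        have hN' : (0 : ℤ) < nV (v i') := by exact_mod_cast F.nd i'
        have hpos : 0 < pr (tS (v i') k') ρ := by
          have h5 : 0 < (nV (v i') : ℤ) * pr (tS (v i) k) ρ := mul_pos hN' hk
          rw [← h4] at h5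
          exact pos_of_mul_pos_right h5 hN.le
        refine Or.inr ⟨Sum.inr ⟨(i', k'), hi', hpos⟩, fun l' hl' => ?_, ?_⟩
        · by_cases h5 : l' = k
          · refine ⟨k', ?_⟩
            show Function.update (v i') k' ρ k' = _
            rw [h5, Function.update_self, Function.update_self]
          · obtain ⟨κ, hκ⟩ := h1 l' hl'
            have h6 : κ ≠ k' := by
              rintro rfl
              exact h5 (hinj (hκ.symm.trans hk'))
            refine ⟨κ, ?_⟩
            show Function.update (v i') k' ρ κ = _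
            rw [Function.update_of_ne h6, Function.update_of_ne h5, hκ]
        · rintro ⟨κ, hκ⟩
          have h5 : Function.update (v i') k' ρ κ = v i l := hκ
          by_cases h6 : κ = k'
          · rw [h6, Function.update_self] at h5
            exact f_not F h0 i l h5.symm
          · rw [Function.update_of_ne h6] at h5
            exact h2 ⟨κ, h5⟩
    · refine Or.inr ⟨Sum.inr ⟨(i, l), hi, hl0⟩, fun l' hl' => ?_, ?_⟩
      · by_cases h5 : l' = k
        · refine ⟨l, ?_⟩
          show Function.update (v i) l ρ l = _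
          rw [h5, Function.update_self, Function.update_self]
        · refine ⟨l', ?_⟩
          show Function.update (v i) l ρ l' = _
          rw [Function.update_of_ne hl', Function.update_of_ne h5]
      · rintro ⟨κ, hκ⟩
        have h5 : Function.update (v i) l ρ κ = v i l := hκ
        by_cases h6 : κ = l
        · rw [h6, Function.update_self] at h5
          exact f_not F h0 i l h5.symm
        · rw [Function.update_of_ne h6] at h5
          exact h6 (hinj h5)

end Pool.Agent.DG
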