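import Pool.Agent.DG.TrF

set_option autoImplicit false

/-! # TRJ: the star subdivision: further properties -/

namespace Pool.Agent.DG

variable {J : Type} [Fintype J] [DecidableEq J] {I : Type} {c : J → ℕ} {d D : ℕ}
  {v : I → J → Ray J} {m : I → Mon J}

/-- Proof. `nV_update`. -/
theorem v2_nd (F : Fan c d v m D) {ρ : Ray J} (y : I2 v ρ) : 0 < nV (v2 v ρ y) := by
  rcases y with i | x
  · exact F.nd i.1
  · show 0 < nV (Function.update (v x.1.1) x.1.2 ρ)
    rw [nV_update (F.nd x.1.1)]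
    have := x.2.2
    omega

/-- Proof. The new rays are `ρ`, with `ρ.1 > 0`, or old. -/
theorem v2_hor (F : Fan c d v m D) {ρ : Ray J} (hρ : 0 < ρ.1) (y : I2 v ρ) (k : J)
    (h : (v2 v ρ y k).1 = 0) : ∃ j, v2 v ρ y k = eR j := by
  rcases y with i | x
  · exact F.hor i.1 k h
  · have h1 : (Function.update (v x.1.1) x.1.2 ρ k).1 = 0 := h
    show ∃ j, Function.update (v x.1.1) x.1.2 ρ k = eR j
    by_cases hk : k = x.1.2
    · rw [hk, Function.update_self] at h1
      omega
    · rw [Function.update_of_ne hk] at h1 ⊢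
      exact F.hor x.1.1 k h1

/-- Proof. `i` from `Fan.inf`. If `ρ` is not in the cone `i`: `inl i`. Otherwise the `eR l`, `l ≠ j`, are `|J| - 1` different rays of `v i` (injective, `|J|` rays), so there is exactly one `k` with
`v i k` not among them; `pr (tS (v i) k) ρ > 0`, otherwise `nV (v i) * ρ.1 = ∑ (v i l).1 * pr (tS (v i) l) ρ = 0` (`exp_pr` for `(1, 0)`). Take `inr (i, k)`. -/
theorem v2_inf (F : Fan c d v m D) {ρ : Ray J} (hρ : 0 < ρ.1) (j : J) :
    ∃ y : I2 v ρ, ∀ l, l ≠ j → eR l ∈ Set.range (v2 v ρ y) := by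
  classical
  obtain ⟨i, hi⟩ := F.inf j
  by_cases hin : Inn v ρ i
  swap
  · exact ⟨Sum.inl ⟨i, hin⟩, hi⟩
  have heR : Function.Injective (eR : J → Ray J) := by
    intro a b hab
    have h5 : (Pi.single a 1 : J → ℕ) = Pi.single b 1 := congrArg Prod.snd hab
    by_contra hne
    have h6 := congrFun h5 a
    rw [Pi.single_eq_same, Pi.single_eq_of_ne hne] at h6
    exact one_ne_zero h6
  have hex : ∀ l, ∃ l', l ≠ j → v i l' = eR l := by
    intro l
    by_cases hl : l ≠ j
    · obtain ⟨l', hl'⟩ := hi l hl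
      exact ⟨l', fun _ => hl'⟩
    · exact ⟨l, fun h' => absurd h' hl⟩
  choose g hg using hex
  set S : Finset J := (Finset.univ.erase j).image g with hS
  have hcard : S.card = Fintype.card J - 1 := by
    rw [hS, Finset.card_image_of_injOn, Finset.card_erase_of_mem (Finset.mem_univ j), Finset.card_univ]
    intro a ha b hb hab
    have ha' : a ≠ j := Finset.ne_of_mem_erase (Finset.mem_coe.1 ha)
    have hb' : b ≠ j := Finset.ne_of_mem_erase (Finset.mem_coe.1 hb)
    apply heR
    rw [← hg a ha', ← hg b hb', hab]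
  have hpos : 0 < Fintype.card J := Fintype.card_pos_iff.2 ⟨j⟩
  have hc1 : (Sᶜ).card = 1 := by
    rw [Finset.card_compl, hcard]
    omega
  obtain ⟨k0, hk0⟩ := Finset.card_eq_one.1 hc1
  have hmem : ∀ l, l ∈ S ↔ l ≠ k0 := by
    intro l
    have h1 : l ∈ Sᶜ ↔ l = k0 := by rw [hk0, Finset.mem_singleton]
    rw [Finset.mem_compl] at h1
    tauto
  have hrest : ∀ l, l ≠ k0 → (v i l).1 = 0 := by
    intro l hl
    obtain ⟨l', hl', rfl⟩ := Finset.mem_image.1 ((hmem l).2 hl)
    rw [hg l' (Finset.ne_of_mem_erase hl')]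
    rfl
  have hk : 0 < pr (tS (v i) k0) ρ := by
    rcases (hin k0).eq_or_lt with h3 | h3
    · exfalso
      have hd : dg ((1, 0) : Mon J) = 0 := by simp [dg]
      have hp : ∀ r : Ray J, pr ((1, 0) : Mon J) r = r.1 := fun r => by simp [pr]
      have h4 := exp_pr (v i) hd ρ
      rw [Finset.sum_eq_zero, hp] at h4
      · have hN : (0 : ℤ) < nV (v i) := by exact_mod_cast F.nd i
        have hr : (0 : ℤ) < ρ.1 := by exact_mod_cast hρ
        exact (mul_pos hN hr).ne' h4
      · intro l _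
        by_cases h5 : l = k0
        · rw [h5, ← h3, mul_zero]
        · rw [hp, hrest l h5, Nat.cast_zero, zero_mul]
    · exact h3
  refine ⟨Sum.inr ⟨(i, k0), hin, hk⟩, fun l hl => ⟨g l, ?_⟩⟩
  have h1 : g l ≠ k0 :=
    (hmem (g l)).1 (Finset.mem_image_of_mem g (Finset.mem_erase.2 ⟨hl, Finset.mem_univ l⟩))
  show Function.update (v i) k0 ρ (g l) = eR l
  rw [Function.update_of_ne h1, hg l hl]

/-- Proof. `a` from `Fan.lab` for the old cone. For the ray `ρ` of `inr (i, k)`: `exp_pr` for `Mb c d j - Mb c d a` (degree `0`, `dg_Mb`): `nV (v i) * pr (..) ρ` is a sum of products of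
nonnegative numbers. -/
theorem v2_lab (F : Fan c d v m D) {ρ : Ray J} (y : I2 v ρ) :
    ∃ a, ∀ k j, pr (Mb c d a) (v2 v ρ y k) ≤ pr (Mb c d j) (v2 v ρ y k) := by
  rcases y with i | x
  · exact F.lab i.1
  · obtain ⟨a, ha⟩ := F.lab x.1.1
    refine ⟨a, fun k j => ?_⟩
    show pr (Mb c d a) (Function.update (v x.1.1) x.1.2 ρ k) ≤
      pr (Mb c d j) (Function.update (v x.1.1) x.1.2 ρ k)
    by_cases hk : k = x.1.2
    · rw [hk, Function.update_self]
      have h1 := exp_pr (v x.1.1) (m := Mb c d j - Mb c d a) (by rw [dg_sub, dg_Mb, dg_Mb, sub_self]) ρ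
      simp only [pr_sub] at h1
      have hN : (0 : ℤ) < nV (v x.1.1) := by exact_mod_cast F.nd x.1.1
      have h2 : 0 ≤ ∑ k, (pr (Mb c d j) (v x.1.1 k) - pr (Mb c d a) (v x.1.1 k)) *
          pr (tS (v x.1.1) k) ρ :=
        Finset.sum_nonneg fun l _ => mul_nonneg (sub_nonneg.2 (ha l j)) (x.2.1 l)
      rw [← h1] at h2
      exact sub_nonneg.1 (nonneg_of_mul_nonneg_right h2 hN)
    · rw [Function.update_of_ne hk]
      exact ha k j

end Pool.Agent.DG
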