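import Pool.Agent.DG.TrG
import Pool.Agent.DG.TrH
import Pool.Agent.DG.TrI
import Pool.Agent.DG.TrJ

set_option autoImplicit false

/-! # TRK: the star subdivision -/

namespace Pool.Agent.DG

variable {J : Type} [Fintype J] [DecidableEq J] {I : Type} {c : J → ℕ} {d D : ℕ}
  {v : I → J → Ray J} {m : I → Mon J}

/-- Proof. `exists_snum`, `m2_val`, `m2_old`, `m2_new` (`le`, `lt`), `m2_e`, `adj_kept`, `adj_sub`, `v2_nd`, `v2_hor`, `v2_inf`, `v2_lab`; `f_h`; degrees: `N * D` (`dg_tS`). -/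
theorem star [Finite I] (F : Fan c d v m D) {ρ : Ray J} {i0 : I}
    (h0 : ∀ k, 0 ≤ pr (tS (v i0) k) ρ ∧ pr (tS (v i0) k) ρ < nV (v i0))
    (h1 : ∃ k, 0 < pr (tS (v i0) k) ρ) :
    ∃ (m' : I2 v ρ → Mon J) (D' : ℕ), Fan c d (v2 v ρ) m' D' := by
  have hρ : 0 < ρ.1 := f_h F h0 h1
  obtain ⟨N, c', e, hs⟩ := exists_snum v ρ
  have hN : 0 < N := lt_of_le_of_lt (Nat.zero_le _) hs.cN
  refine ⟨m2 v m ρ N e, N * D, ⟨Nat.mul_pos hN F.pos, v2_nd F, ?_, ?_, ?_, ?_, ?_, ?_, ?_, ?_, ?_,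
    ?_⟩⟩
  · rintro (i | x)
    · simp only [m2, Sum.elim_inl]
      rw [dg_smul, F.md, Nat.cast_mul]
    · simp only [m2, Sum.elim_inr]
      rw [dg_add, dg_smul, dg_smul, dg_tS, F.md, mul_zero, add_zero, Nat.cast_mul]
  · intro y y' k
    rcases m2_val (m := m) hs y k with ⟨i, l, h2, h3⟩ | ⟨i, hi, h2, h3⟩
    · rw [h3, h2]
      exact (m2_old F hs i l y').1
    · rw [h3, h2]
      exact (m2_new F hs hi y').1
  · intro y y' k h
    rcases m2_val (m := m) hs y k with ⟨i, l, h2, h3⟩ | ⟨i, hi, h2, h3⟩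
    · rw [h3, h2] at h
      rw [h2]
      exact (m2_old F hs i l y').2 h
    · rw [h3, h2] at h
      rw [h2]
      exact (m2_new F hs hi y').2 h
  · exact fun y j => (m2_e F hρ hs y j).1
  · exact fun y j h => (m2_e F hρ hs y j).2.1 h
  · exact fun y j h => (m2_e F hρ hs y j).2.2 h
  · exact fun y k h => v2_hor F hρ y k h
  · rintro (i | x) k
    · exact adj_kept F h0 i.2 k
    · exact adj_sub F hρ h0 x.2.1 x.2.2 k
  · exact fun j => v2_inf F hρ j
  · exact fun y => v2_lab F y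

/-- The indices do not increase, and the number of cones of the largest index `Δ` decreases. Proof. `nV (v2 (inr (i, k))) = pr (tS (v i) k) ρ < nV (v i) ≤ Δ` (`nV_update`, `f_lt`); so the cones of index `Δ` of
the subdivision are the `inl i` with `nV (v i) = Δ`, `¬ Inn v ρ i`, in particular `i ≠ i0`. -/
theorem star_count [Finite I] (F : Fan c d v m D) {ρ : Ray J} {i0 : I} {Δ : ℕ}
    (h0 : ∀ k, 0 ≤ pr (tS (v i0) k) ρ ∧ pr (tS (v i0) k) ρ < nV (v i0))
    (hΔ : ∀ i, nV (v i) ≤ Δ) (hi0 : nV (v i0) = Δ) :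
    (∀ y, nV (v2 v ρ y) ≤ Δ) ∧
      Nat.card {y : I2 v ρ // nV (v2 v ρ y) = Δ} < Nat.card {i : I // nV (v i) = Δ} := by
  have hlt : ∀ x : {x : I × J // Inn v ρ x.1 ∧ 0 < pr (tS (v x.1) x.2) ρ},
      nV (v2 v ρ (Sum.inr x)) < Δ := by
    intro x
    have h1 : nV (v2 v ρ (Sum.inr x)) = (pr (tS (v x.1.1) x.1.2) ρ).natAbs :=
      nV_update (F.nd x.1.1) x.1.2 ρ
    have h2 := f_lt F h0 x.2.1 x.1.2
    have h3 := x.2.2
    have h4 := hΔ x.1.1
    omega
  refine ⟨?_, ?_⟩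
  · rintro (i | x)
    · exact hΔ i.1
    · exact (hlt x).le
  · classical
    have : Fintype {y : I2 v ρ // nV (v2 v ρ y) = Δ} := Fintype.ofFinite _
    have : Fintype {i : I // nV (v i) = Δ} := Fintype.ofFinite _
    rw [Nat.card_eq_fintype_card, Nat.card_eq_fintype_card]
    have hex : ∀ y : {y : I2 v ρ // nV (v2 v ρ y) = Δ}, ∃ i : {i : I // ¬ Inn v ρ i},
        y.1 = Sum.inl i := by
      rintro ⟨i | x, hy⟩
      · exact ⟨i, rfl⟩
      · exact absurd hy (hlt x).ne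
    choose f hf using hex
    have hf2 : ∀ y, nV (v (f y).1) = Δ := by
      intro y
      have h1 := y.2
      rw [hf y] at h1
      exact h1
    refine Fintype.card_lt_of_injective_of_notMem
      (fun y => (⟨(f y).1, hf2 y⟩ : {i : I // nV (v i) = Δ})) ?_
      (b := ⟨i0, hi0⟩) ?_
    · intro y y' h
      have h1 : (f y).1 = (f y').1 :=
        congrArg (fun z : {i : I // nV (v i) = Δ} => z.1) h
      apply Subtype.ext
      rw [hf y, hf y', Subtype.ext h1]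
    · rintro ⟨y, hy⟩
      have h1 : (f y).1 = i0 :=
        congrArg (fun z : {i : I // nV (v i) = Δ} => z.1) hy
      exact (f y).2 (h1 ▸ fun k => (h0 k).1)

end Pool.Agent.DG
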